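import Pool.Agent.helper42.TonDefs

/-!
Global existence for Lipschitz ODEs, and the Newton equation.
-/

noncomputable section

namespace Ton

open Set Filter Topology Metric
open scoped NNReal Manifold ContDiff

section ode

variable {W : Type*} [NormedAddCommGroup W] [NormedSpace ℝ W] [CompleteSpace W]

lemma local_exists (F : ℝ → W → W) (K : ℝ≥0) (hL : ∀ t, LipschitzWith K (F t))
    (hC : Continuous (fun p : W × ℝ => F p.2 p.1)) (s : ℝ) (w : W) :
    ∃ γ : ℝ → W, γ s = w ∧ ∀ t ∈ Icc (s - 1 / (2 * (K + 1))) (s + 1 / (2 * (K + 1))),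
      HasDerivWithinAt γ (F t (γ t)) (Icc (s - 1 / (2 * (K + 1))) (s + 1 / (2 * (K + 1)))) t := by
  set τ : ℝ := 1 / (2 * (K + 1)) with hτ
  have hK : (0:ℝ) ≤ K := K.2
  have hτ0 : 0 < τ := by positivity
  have hcont : Continuous (fun t => F t w) := hC.comp (continuous_const.prodMk continuous_id)
  obtain ⟨C, hCb⟩ := (isCompact_Icc (a := s - τ) (b := s + τ)).exists_bound_of_continuousOn
    hcont.continuousOn
  set C' : ℝ≥0 := ⟨max C 0, le_max_right _ _⟩ with hC'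
  have hC'v : (C' : ℝ) = max C 0 := rfl
  have hmem : s ∈ Icc (s - τ) (s + τ) := ⟨by linarith, by linarith⟩
  have hPL : IsPicardLindelof F (tmin := s - τ) (tmax := s + τ) ⟨s, hmem⟩ w C' 0 (C' + K * C') K := by
    refine ⟨fun t _ => (hL t).lipschitzOnWith, fun x _ => ?_, fun t ht x hx => ?_, ?_⟩
    · exact (hC.comp (continuous_const.prodMk continuous_id)).continuousOn
    · have h1 : ‖F t x‖ ≤ ‖F t w‖ + ‖F t x - F t w‖ := by
        have := norm_add_le (F t w) (F t x - F t w)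
        rwa [add_sub_cancel] at this
      have h2 : ‖F t x - F t w‖ ≤ K * ‖x - w‖ := by
        rw [← dist_eq_norm, ← dist_eq_norm]
        exact (hL t).dist_le_mul x w
      have h3 : ‖x - w‖ ≤ C' := by rw [← dist_eq_norm]; exact mem_closedBall.mp hx
      have h4 : ‖F t w‖ ≤ C' := (hCb t ht).trans (le_max_left _ _)
      push_cast
      calc ‖F t x‖ ≤ ‖F t w‖ + ‖F t x - F t w‖ := h1
        _ ≤ C' + K * C' := add_le_add h4 (h2.trans (mul_le_mul_of_nonneg_left h3 hK))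
    · simp only [add_sub_cancel_left, sub_sub_cancel, max_self]
      push_cast
      rw [sub_zero]
      have : ((C' : ℝ) + K * C') * τ = C' / 2 := by
        rw [hτ]; field_simp; ring
      rw [this]
      have : (0:ℝ) ≤ C' := C'.2
      linarith
  exact hPL.exists_eq_forall_mem_Icc_hasDerivWithinAt₀

/-- uniform time lemma in a vector space -/
lemma auto_global {E0 : Type*} [NormedAddCommGroup E0] [NormedSpace ℝ E0] [CompleteSpace E0]
    (v : E0 → E0) (hv : ContDiff ℝ 1 v) {τ : ℝ} (hτ : 0 < τ)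
    (h : ∀ x, ∃ γ : ℝ → E0, γ 0 = x ∧ ∀ t ∈ Ioo (-τ) τ, HasDerivAt γ (v (γ t)) t) (x : E0) :
    ∃ γ : ℝ → E0, γ 0 = x ∧ ∀ t, HasDerivAt γ (v (γ t)) t := by
  set v' : (x : E0) → TangentSpace 𝓘(ℝ, E0) x := fun x => v x with hv'
  have hvc : ContMDiff 𝓘(ℝ, E0) 𝓘(ℝ, E0).tangent 1
      (fun x => (⟨x, v' x⟩ : TangentBundle 𝓘(ℝ, E0) E0)) := by
    rw [contMDiff_vectorSpace_iff_contDiff]
    exact hv
  have e : ∀ c : E0, (1 : ℝ →L[ℝ] ℝ).smulRight c = ContinuousLinearMap.toSpanSingleton ℝ c := by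
    intro c
    ext
    simp
  obtain ⟨γ, h0, hγ⟩ := exists_isMIntegralCurve_of_isMIntegralCurveOn (I := 𝓘(ℝ, E0)) (v := v')
    hvc hτ (fun x => by
      obtain ⟨γ, h0, hγ⟩ := h x
      refine ⟨γ, h0, fun t ht => ?_⟩
      have h1 : HasFDerivWithinAt γ ((1 : ℝ →L[ℝ] ℝ).smulRight (v (γ t))) (Ioo (-τ) τ) t := by
        rw [e]
        exact (hγ t ht).hasFDerivAt.hasFDerivWithinAt
      exact h1.hasMFDerivWithinAt) x
  refine ⟨γ, h0, fun t => ?_⟩
  have h2 : HasFDerivAt γ ((1 : ℝ →L[ℝ] ℝ).smulRight (v (γ t))) t := (hγ t).hasFDerivAt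
  rw [e] at h2
  exact h2

theorem global_exists (F : ℝ → W → W) (K : ℝ≥0) (hL : ∀ t, LipschitzWith K (F t))
    (hC : ContDiff ℝ 1 (fun p : W × ℝ => F p.2 p.1)) (t₀ : ℝ) (w₀ : W) :
    ∃ γ : ℝ → W, γ t₀ = w₀ ∧ ∀ t, HasDerivAt γ (F t (γ t)) t := by
  set τ : ℝ := 1 / (2 * (K + 1)) with hτ
  have hK : (0:ℝ) ≤ K := K.2
  have hτ0 : 0 < τ := by positivity
  have hloc : ∀ x : W × ℝ, ∃ γ : ℝ → W × ℝ, γ 0 = x ∧ ∀ t ∈ Ioo (-τ) τ,
      HasDerivAt γ (F (γ t).2 (γ t).1, (1:ℝ)) t := by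
    intro x
    obtain ⟨γ, h1, h2⟩ := local_exists F K hL hC.continuous x.2 x.1
    refine ⟨fun t => (γ (x.2 + t), x.2 + t), by simp [h1], ?_⟩
    intro t ht
    have h3 : x.2 + t ∈ Ioo (x.2 - τ) (x.2 + τ) := ⟨by linarith [ht.1], by linarith [ht.2]⟩
    have h4 : HasDerivAt γ (F (x.2 + t) (γ (x.2 + t))) (x.2 + t) :=
      (h2 _ (Ioo_subset_Icc_self h3)).hasDerivAt (Icc_mem_nhds h3.1 h3.2)
    have h5 : HasDerivAt (fun t => γ (x.2 + t)) (F (x.2 + t) (γ (x.2 + t))) t := by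
      have := h4.comp_const_add x.2 t
      exact this
    have h6 : HasDerivAt (fun t => x.2 + t) 1 t := by
      simpa using (hasDerivAt_id t).const_add x.2
    exact h5.prodMk h6
  obtain ⟨Γ, hΓ0, hd⟩ := auto_global (fun p : W × ℝ => (F p.2 p.1, (1:ℝ)))
    (hC.prodMk contDiff_const) hτ0 hloc (w₀, t₀)
  have hd1 : ∀ t, HasDerivAt (fun t => (Γ t).1) (F (Γ t).2 (Γ t).1) t := fun t =>
    ((ContinuousLinearMap.fst ℝ W ℝ).hasFDerivAt (x := Γ t)).comp_hasDerivAt t (hd t)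
  have hd2 : ∀ t, HasDerivAt (fun t => (Γ t).2) 1 t := fun t =>
    ((ContinuousLinearMap.snd ℝ W ℝ).hasFDerivAt (x := Γ t)).comp_hasDerivAt t (hd t)
  have h2 : ∀ t, (Γ t).2 = t₀ + t := by
    intro t
    have h3 : ∀ t, HasDerivAt (fun t => (Γ t).2 - t) (1 - 1) t := fun t =>
      (hd2 t).sub (hasDerivAt_id t)
    have h4 := is_const_of_deriv_eq_zero (f := fun t => (Γ t).2 - t)
      (fun t => (h3 t).differentiableAt) (fun t => by rw [(h3 t).deriv]; simp) t 0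
    simp only [hΓ0, sub_zero] at h4
    linarith
  refine ⟨fun t => (Γ (t - t₀)).1, by simp [hΓ0], fun t => ?_⟩
  have h5 := (hd1 (t - t₀)).comp_sub_const t t₀
  rw [h2] at h5
  have : t₀ + (t - t₀) = t := by ring
  rw [this] at h5
  exact h5

end ode

end Ton
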