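import Pool.Agent.helper42.ThetaFormal

/-!
# From graphs to weighted colour sums (part 6)
-/

set_option autoImplicit false

namespace Pool.Agent.helper42.Theta

open Finset

section Chains

variable {σ : Type} [Fintype σ] [DecidableEq σ]

omit [Fintype σ] [DecidableEq σ] in
/-- properness of a coloured path -/
def chain : (l : ℕ) → σ → (Fin l → σ) → σ → Prop
  | 0, s, _, t => s ≠ t
  | l + 1, s, f, t => s ≠ f 0 ∧ chain l (f 0) (Fin.tail f) t

omit [Fintype σ] [DecidableEq σ] in
lemma chain_iff (l : ℕ) (g : ℕ → σ) :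
    chain l (g 0) (fun i => g (i + 1)) (g (l + 1)) ↔ ∀ i ≤ l, g i ≠ g (i + 1) := by
  induction l generalizing g with
  | zero => simp [chain]
  | succ l ih =>
    have h := ih (fun i => g (i + 1))
    simp only [chain]
    have e : (Fin.tail fun i : Fin (l + 1) => g (i + 1)) = fun i : Fin l => g (i + 1 + 1) := by
      funext i; simp [Fin.tail]
    rw [e]
    have e0 : g (((0 : Fin (l + 1)) : ℕ) + 1) = g (0 + 1) := by simp
    rw [e0, h]
    constructor
    · rintro ⟨h1, h2⟩ i hi
      cases i with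
      | zero => exact h1
      | succ i => exact h2 i (by omega)
    · intro h1
      exact ⟨h1 0 (by omega), fun i hi => h1 (i + 1) (by omega)⟩

open Classical in
lemma chain_sum {R : Type*} [CommRing R] (ξ : σ → R) (l : ℕ) (s t : σ) :
    ∑ f : Fin l → σ, (if chain l s f t then ∏ i, ξ (f i) else 0) = wt ξ l s t := by
  induction l generalizing s with
  | zero =>
    simp only [chain, wt]
    by_cases h : s = t
    · simp [h]
    · simp [h]
  | succ l ih =>
    have h1 := wt_CK ξ 0 l s t
    rw [zero_add] at h1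
    rw [h1]
    rw [← (Fin.consEquiv (fun _ : Fin (l + 1) => σ)).sum_comp, Fintype.sum_prod_type]
    refine sum_congr rfl fun r _ => ?_
    rw [← ih r, mul_sum]
    refine sum_congr rfl fun f _ => ?_
    have e1 : (Fin.consEquiv fun _ : Fin (l + 1) => σ) (r, f) = Fin.cons r f := rfl
    rw [e1]
    simp only [chain, Fin.cons_zero, Fin.tail_cons, Fin.prod_univ_succ, Fin.cons_succ, wt]
    by_cases h : s = r
    · simp [h]
    · by_cases h2 : chain l r f t
      · simp [h, h2]
      · simp [h2]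

end Chains

section Graph

variable {V : Type} [Fintype V] {G : SimpleGraph V} {u v : V}

/-- properness along a walk -/
def walkOK {σ : Type} (κ : V → σ) (p : G.Walk u v) : Prop :=
  ∀ i < p.length, κ (p.getVert i) ≠ κ (p.getVert (i + 1))

omit [Fintype V] in
lemma walkOK_iff_chain {σ : Type} (κ : V → σ) (p : G.Walk u v) (l : ℕ) (hl : p.length = l + 1) :
    walkOK κ p ↔ chain l (κ u) (fun i => κ (p.getVert (i + 1))) (κ v) := by
  have h := chain_iff l (fun i => κ (p.getVert i))
  simp only [SimpleGraph.Walk.getVert_zero] at h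
  have h2 : p.getVert (l + 1) = v := by rw [← hl]; exact p.getVert_length
  rw [h2] at h
  rw [h]
  unfold walkOK
  rw [hl]
  constructor
  · intro h3 i hi; exact h3 i (by omega)
  · intro h3 i hi; exact h3 i (by omega)

omit [Fintype V] in
lemma proper_iff {σ : Type} (κ : V → σ) (p q r : G.Walk u v)
    (hE : ∀ x y, G.Adj x y → s(x, y) ∈ p.edges ∨ s(x, y) ∈ q.edges ∨ s(x, y) ∈ r.edges) :
    (∀ x y, G.Adj x y → κ x ≠ κ y) ↔ walkOK κ p ∧ walkOK κ q ∧ walkOK κ r := by
  have key : ∀ (w : G.Walk u v), walkOK κ w → ∀ x y, s(x, y) ∈ w.edges → κ x ≠ κ y := by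
    intro w hw x y hxy
    rw [SimpleGraph.Walk.mk_mem_edges_iff_exists] at hxy
    obtain ⟨i, hi, h⟩ := hxy
    rw [Sym2.eq_iff] at h
    rcases h with ⟨rfl, rfl⟩ | ⟨rfl, rfl⟩
    · exact hw i hi
    · exact (hw i hi).symm
  constructor
  · intro h
    exact ⟨fun i hi => h _ _ (p.adj_getVert_succ hi), fun i hi => h _ _ (q.adj_getVert_succ hi),
      fun i hi => h _ _ (r.adj_getVert_succ hi)⟩
  · rintro ⟨h1, h2, h3⟩ x y hxy
    rcases hE x y hxy with h | h | h
    · exact key p h1 x y h
    · exact key q h2 x y h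
    · exact key r h3 x y h


/-- index type for the vertices of a theta graph -/
abbrev Idx (a b c : ℕ) : Type := Bool ⊕ (Fin a ⊕ (Fin b ⊕ Fin c))

/-- parametrisation of the vertices -/
def par (p q r : G.Walk u v) (a b c : ℕ) : Idx a b c → V
  | Sum.inl false => u
  | Sum.inl true => v
  | Sum.inr (Sum.inl i) => p.getVert (i + 1)
  | Sum.inr (Sum.inr (Sum.inl i)) => q.getVert (i + 1)
  | Sum.inr (Sum.inr (Sum.inr i)) => r.getVert (i + 1)

omit [Fintype V] in
lemma interior_ne (p : G.Walk u v) (hp : p.IsPath) {l i : ℕ} (hl : p.length = l + 1) (hi : i < l) :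
    p.getVert (i + 1) ≠ u ∧ p.getVert (i + 1) ≠ v := by
  constructor
  · intro h
    rw [hp.getVert_eq_start_iff (by omega)] at h
    omega
  · intro h
    rw [hp.getVert_eq_end_iff (by omega)] at h
    omega

omit [Fintype V] in
lemma mem_support_cases (p : G.Walk u v) {l : ℕ} (hl : p.length = l + 1) {x : V}
    (hx : x ∈ p.support) : x = u ∨ x = v ∨ ∃ i : Fin l, p.getVert (i + 1) = x := by
  rw [SimpleGraph.Walk.mem_support_iff_exists_getVert] at hx
  obtain ⟨n, hn, hnl⟩ := hx
  rcases Nat.eq_zero_or_pos n with h0 | h0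
  · left; rw [← hn, h0]; exact p.getVert_zero
  · rcases eq_or_lt_of_le hnl with h1 | h1
    · right; left; rw [← hn, h1]; exact p.getVert_length
    · right; right
      refine ⟨⟨n - 1, by omega⟩, ?_⟩
      have : (((⟨n - 1, by omega⟩ : Fin l) : ℕ) + 1) = n := by
        show n - 1 + 1 = n
        omega
      rw [this, hn]

omit [Fintype V] in
lemma par_bijective (p q r : G.Walk u v) (a b c : ℕ) (huv : u ≠ v)
    (hp : p.IsPath) (hq : q.IsPath) (hr : r.IsPath)
    (hpa : p.length = a + 1) (hqb : q.length = b + 1) (hrc : r.length = c + 1)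
    (hpq : ∀ x, x ∈ p.support → x ∈ q.support → x = u ∨ x = v)
    (hpr : ∀ x, x ∈ p.support → x ∈ r.support → x = u ∨ x = v)
    (hqr : ∀ x, x ∈ q.support → x ∈ r.support → x = u ∨ x = v)
    (hcov : ∀ x, x ∈ p.support ∨ x ∈ q.support ∨ x ∈ r.support) :
    Function.Bijective (par p q r a b c) := by
  have hinj : ∀ (w : G.Walk u v), w.IsPath → ∀ {l : ℕ}, w.length = l + 1 → ∀ i j : Fin l,
      w.getVert (i + 1) = w.getVert (j + 1) → i = j := by
    intro w hw l hl i j h
    have := hw.getVert_injOn (show (i : ℕ) + 1 ∈ {i | i ≤ w.length} by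
      simp only [Set.mem_ofPred_eq]; omega) (show (j : ℕ) + 1 ∈ {i | i ≤ w.length} by
      simp only [Set.mem_ofPred_eq]; omega) h
    exact Fin.ext (by omega)
  constructor
  · intro x y hxy
    rcases x with (_ | _) | (i | (i | i)) <;> rcases y with (_ | _) | (j | (j | j)) <;>
      simp only [par] at hxy
    · rfl
    · exact absurd hxy huv
    · exact absurd hxy.symm (interior_ne p hp hpa j.2).1
    · exact absurd hxy.symm (interior_ne q hq hqb j.2).1
    · exact absurd hxy.symm (interior_ne r hr hrc j.2).1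
    · exact absurd hxy.symm huv
    · rfl
    · exact absurd hxy.symm (interior_ne p hp hpa j.2).2
    · exact absurd hxy.symm (interior_ne q hq hqb j.2).2
    · exact absurd hxy.symm (interior_ne r hr hrc j.2).2
    · exact absurd hxy (interior_ne p hp hpa i.2).1
    · exact absurd hxy (interior_ne p hp hpa i.2).2
    · rw [hinj p hp hpa i j hxy]
    · exfalso
      have h1 := interior_ne p hp hpa i.2
      have h2 := hpq (p.getVert (i + 1)) (p.getVert_mem_support _) (hxy ▸ q.getVert_mem_support _)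
      tauto
    · exfalso
      have h1 := interior_ne p hp hpa i.2
      have h2 := hpr (p.getVert (i + 1)) (p.getVert_mem_support _) (hxy ▸ r.getVert_mem_support _)
      tauto
    · exact absurd hxy (interior_ne q hq hqb i.2).1
    · exact absurd hxy (interior_ne q hq hqb i.2).2
    · exfalso
      have h1 := interior_ne p hp hpa j.2
      have h2 := hpq (p.getVert (j + 1)) (p.getVert_mem_support _) (hxy ▸ q.getVert_mem_support _)
      tauto
    · rw [hinj q hq hqb i j hxy]
    · exfalso
      have h1 := interior_ne q hq hqb i.2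
      have h2 := hqr (q.getVert (i + 1)) (q.getVert_mem_support _) (hxy ▸ r.getVert_mem_support _)
      tauto
    · exact absurd hxy (interior_ne r hr hrc i.2).1
    · exact absurd hxy (interior_ne r hr hrc i.2).2
    · exfalso
      have h1 := interior_ne p hp hpa j.2
      have h2 := hpr (p.getVert (j + 1)) (p.getVert_mem_support _) (hxy ▸ r.getVert_mem_support _)
      tauto
    · exfalso
      have h1 := interior_ne q hq hqb j.2
      have h2 := hqr (q.getVert (j + 1)) (q.getVert_mem_support _) (hxy ▸ r.getVert_mem_support _)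
      tauto
    · rw [hinj r hr hrc i j hxy]
  · intro x
    rcases hcov x with h | h | h
    · rcases mem_support_cases p hpa h with h | h | ⟨i, h⟩
      · exact ⟨Sum.inl false, h.symm⟩
      · exact ⟨Sum.inl true, h.symm⟩
      · exact ⟨Sum.inr (Sum.inl i), h⟩
    · rcases mem_support_cases q hqb h with h | h | ⟨i, h⟩
      · exact ⟨Sum.inl false, h.symm⟩
      · exact ⟨Sum.inl true, h.symm⟩
      · exact ⟨Sum.inr (Sum.inr (Sum.inl i)), h⟩
    · rcases mem_support_cases r hrc h with h | h | ⟨i, h⟩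
      · exact ⟨Sum.inl false, h.symm⟩
      · exact ⟨Sum.inl true, h.symm⟩
      · exact ⟨Sum.inr (Sum.inr (Sum.inr i)), h⟩

open Classical in
theorem graph_sum {σ : Type} [Fintype σ] [DecidableEq σ] {R : Type*} [CommRing R] (ξ : σ → R)
    (p q r : G.Walk u v) (a b c : ℕ) (huv : u ≠ v)
    (hp : p.IsPath) (hq : q.IsPath) (hr : r.IsPath)
    (hpa : p.length = a + 1) (hqb : q.length = b + 1) (hrc : r.length = c + 1)
    (hpq : ∀ x, x ∈ p.support → x ∈ q.support → x = u ∨ x = v)
    (hpr : ∀ x, x ∈ p.support → x ∈ r.support → x = u ∨ x = v)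
    (hqr : ∀ x, x ∈ q.support → x ∈ r.support → x = u ∨ x = v)
    (hcov : ∀ x, x ∈ p.support ∨ x ∈ q.support ∨ x ∈ r.support)
    (hE : ∀ x y, G.Adj x y → s(x, y) ∈ p.edges ∨ s(x, y) ∈ q.edges ∨ s(x, y) ∈ r.edges) :
    ∑ κ : V → σ, (if (∀ x y, G.Adj x y → κ x ≠ κ y) then ∏ x, ξ (κ x) else 0) = tht ξ a b c := by
  let e : Idx a b c ≃ V := Equiv.ofBijective _
    (par_bijective p q r a b c huv hp hq hr hpa hqb hrc hpq hpr hqr hcov)
  let F : (V → σ) ≃ (σ × σ) × ((Fin a → σ) × ((Fin b → σ) × (Fin c → σ))) :=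
    (e.arrowCongr (Equiv.refl σ)).symm.trans
      ((Equiv.sumArrowEquivProdArrow _ _ _).trans
        (Equiv.prodCongr (Equiv.boolArrowEquivProd σ)
          ((Equiv.sumArrowEquivProdArrow _ _ _).trans
            (Equiv.prodCongr (Equiv.refl _) (Equiv.sumArrowEquivProdArrow _ _ _)))))
  let H : (σ × σ) × ((Fin a → σ) × ((Fin b → σ) × (Fin c → σ))) → R := fun y =>
    ξ y.1.1 * ξ y.1.2 * ((if chain a y.1.1 y.2.1 y.1.2 then ∏ i, ξ (y.2.1 i) else 0)
      * (if chain b y.1.1 y.2.2.1 y.1.2 then ∏ i, ξ (y.2.2.1 i) else 0)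
      * (if chain c y.1.1 y.2.2.2 y.1.2 then ∏ i, ξ (y.2.2.2 i) else 0))
  have hF : ∀ κ : V → σ, F κ = ((κ u, κ v), ((fun i : Fin a => κ (p.getVert (i + 1))),
      ((fun i : Fin b => κ (q.getVert (i + 1))), (fun i : Fin c => κ (r.getVert (i + 1)))))) := by
    intro κ
    rfl
  have hprod : ∀ κ : V → σ, ∏ x, ξ (κ x) = ξ (κ u) * ξ (κ v) *
      ((∏ i : Fin a, ξ (κ (p.getVert (i + 1)))) * (∏ i : Fin b, ξ (κ (q.getVert (i + 1))))
        * (∏ i : Fin c, ξ (κ (r.getVert (i + 1))))) := by
    intro κ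
    rw [← e.prod_comp (fun x => ξ (κ x)), Fintype.prod_sum_type, Fintype.prod_sum_type,
      Fintype.prod_sum_type, Fintype.prod_bool]
    have e1 : e (Sum.inl true) = v := rfl
    have e2 : e (Sum.inl false) = u := rfl
    have e3 : ∀ i, e (Sum.inr (Sum.inl i)) = p.getVert (i + 1) := fun _ => rfl
    have e4 : ∀ i, e (Sum.inr (Sum.inr (Sum.inl i))) = q.getVert (i + 1) := fun _ => rfl
    have e5 : ∀ i, e (Sum.inr (Sum.inr (Sum.inr i))) = r.getVert (i + 1) := fun _ => rfl
    simp only [e1, e2, e3, e4, e5]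
    ring
  have hterm : ∀ κ : V → σ, (if (∀ x y, G.Adj x y → κ x ≠ κ y) then ∏ x, ξ (κ x) else 0)
      = H (F κ) := by
    intro κ
    rw [hF]
    simp only [H]
    rw [hprod]
    have h1 := proper_iff κ p q r hE
    rw [walkOK_iff_chain κ p a hpa, walkOK_iff_chain κ q b hqb, walkOK_iff_chain κ r c hrc] at h1
    by_cases k1 : chain a (κ u) (fun i : Fin a => κ (p.getVert (i + 1))) (κ v)
    · by_cases k2 : chain b (κ u) (fun i : Fin b => κ (q.getVert (i + 1))) (κ v)
      · by_cases k3 : chain c (κ u) (fun i : Fin c => κ (r.getVert (i + 1))) (κ v)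
        · rw [if_pos (h1.mpr ⟨k1, k2, k3⟩), if_pos k1, if_pos k2, if_pos k3]
        · rw [if_neg (fun h => k3 (h1.mp h).2.2), if_neg k3, mul_zero, mul_zero]
      · rw [if_neg (fun h => k2 (h1.mp h).2.1), if_neg k2, mul_zero, zero_mul, mul_zero]
    · rw [if_neg (fun h => k1 (h1.mp h).1), if_neg k1, zero_mul, zero_mul, mul_zero]
  rw [sum_congr rfl fun κ _ => hterm κ, F.sum_comp H]
  unfold tht
  rw [Fintype.sum_prod_type, Fintype.sum_prod_type]
  refine sum_congr rfl fun s _ => sum_congr rfl fun t _ => ?_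
  rw [Fintype.sum_prod_type]
  simp only [Fintype.sum_prod_type, H]
  rw [← chain_sum ξ a s t, ← chain_sum ξ b s t, ← chain_sum ξ c s t]
  simp only [← mul_sum, ← sum_mul]

end Graph

end Pool.Agent.helper42.Theta
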