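import Pool.Agent.helper42.TonT

/-!
Separation of a curve from its integer time translates in three slowly varying directions.
-/

noncomputable section

namespace Ton

open Real Filter Topology

/-- an antiderivative of `jb^{-a}` -/
def YY (a : ℝ) (t : ℝ) : ℝ := ∫ s in (0:ℝ)..t, jb s ^ (-a)

lemma jb_rpow_continuous (γ : ℝ) : Continuous (fun t => jb t ^ γ) :=
  continuous_iff_continuousAt.mpr fun t => (jb_rpow_hasDerivAt γ t).continuousAt

lemma YY_hasDerivAt (a t : ℝ) : HasDerivAt (YY a) (jb t ^ (-a)) t :=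
  intervalIntegral.integral_hasDerivAt_right
    ((jb_rpow_continuous (-a)).intervalIntegrable _ _)
    ((jb_rpow_continuous (-a)).stronglyMeasurableAtFilter _ _)
    (jb_rpow_continuous (-a)).continuousAt

lemma YY_deriv (a : ℝ) : deriv (YY a) = fun t => jb t ^ (-a) := by
  funext t; exact (YY_hasDerivAt a t).deriv

lemma YY_mono (a : ℝ) : Monotone (YY a) := by
  refine monotone_of_deriv_nonneg (fun t => (YY_hasDerivAt a t).differentiableAt) fun t => ?_
  rw [YY_deriv]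
  exact (jb_rpow_pos _ _).le

lemma YY_slope (a : ℝ) {s m : ℝ} (hm : 0 < m) : ∃ ξ, s < ξ ∧ ξ < s + m ∧
    YY a (s + m) - YY a s = m * jb ξ ^ (-a) := by
  obtain ⟨ξ, hξ, h⟩ := exists_hasDerivAt_eq_slope (YY a) (fun t => jb t ^ (-a))
    (show s < s + m by linarith)
    (fun t _ => (YY_hasDerivAt a t).continuousAt.continuousWithinAt)
    (fun t _ => YY_hasDerivAt a t)
  refine ⟨ξ, hξ.1, hξ.2, ?_⟩
  rw [h, add_sub_cancel_left]
  field_simp

lemma YY_bounds {a s m : ℝ} (ha : 0 ≤ a) (ha2 : a ≤ 2) (hs : 1 ≤ s) (hm : 0 < m) (hms : m ≤ s) :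
    m * s ^ (-a) / 9 ≤ YY a (s + m) - YY a s ∧ YY a (s + m) - YY a s ≤ m * s ^ (-a) := by
  obtain ⟨ξ, h1, h2, h3⟩ := YY_slope a hm (s := s)
  rw [h3]
  have hξ0 : 0 < ξ := by linarith
  have hjs : s ≤ jb ξ := h1.le.trans ((le_abs_self ξ).trans (abs_le_jb ξ))
  have hj3 : jb ξ ≤ 3 * s := by
    refine (jb_le ξ).trans ?_
    rw [abs_of_pos hξ0]
    linarith
  have hs0 : (0:ℝ) < s := by linarith
  constructor
  · have h4 : (3 * s) ^ (-a) ≤ jb ξ ^ (-a) :=
      Real.rpow_le_rpow_of_nonpos (jb_pos ξ) hj3 (by linarith)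
    have h5 : (3 * s) ^ (-a) = 3 ^ (-a) * s ^ (-a) := Real.mul_rpow (by norm_num) hs0.le
    have h6 : (1:ℝ)/9 ≤ (3:ℝ) ^ (-a) := by
      have : (3:ℝ) ^ (-2:ℝ) ≤ (3:ℝ) ^ (-a) :=
        Real.rpow_le_rpow_of_exponent_le (by norm_num) (by linarith)
      refine le_trans ?_ this
      rw [Real.rpow_neg (by norm_num)]
      norm_num
    have h7 : (1/9) * s ^ (-a) ≤ jb ξ ^ (-a) := by
      refine le_trans ?_ h4
      rw [h5]
      exact mul_le_mul_of_nonneg_right h6 (Real.rpow_nonneg hs0.le _)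
    calc m * s ^ (-a) / 9 = m * ((1/9) * s ^ (-a)) := by ring
      _ ≤ m * jb ξ ^ (-a) := mul_le_mul_of_nonneg_left h7 hm.le
  · refine mul_le_mul_of_nonneg_left ?_ hm.le
    exact Real.rpow_le_rpow_of_nonpos hs0 hjs (by linarith)

lemma YY_tail {s m : ℝ} (hs : 0 < s) (hm : 0 ≤ m) :
    YY (51/50) (s + m) - YY (51/50) s ≤ 50 * s ^ (-(1/50) : ℝ) := by
  have hd : ∀ t, 0 < t → HasDerivAt (fun t => YY (51/50) t + 50 * t ^ (-(1/50) : ℝ))
      (jb t ^ (-(51/50) : ℝ) + 50 * ((-(1/50)) * t ^ (-(1/50) - 1 : ℝ))) t := by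
    intro t ht
    exact (YY_hasDerivAt _ t).add ((Real.hasDerivAt_rpow_const (Or.inl ht.ne')).const_mul 50)
  have hanti : AntitoneOn (fun t => YY (51/50) t + 50 * t ^ (-(1/50) : ℝ)) (Set.Ici s) := by
    refine antitoneOn_of_deriv_nonpos (convex_Ici s) ?_ ?_ ?_
    · intro t ht
      exact (hd t (lt_of_lt_of_le hs ht)).continuousAt.continuousWithinAt
    · intro t ht
      rw [interior_Ici] at ht
      exact (hd t (lt_trans hs ht)).differentiableAt.differentiableWithinAt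
    · intro t ht
      rw [interior_Ici] at ht
      have ht0 : 0 < t := lt_trans hs ht
      rw [(hd t ht0).deriv]
      have h1 : jb t ^ (-(51/50) : ℝ) ≤ t ^ (-(51/50) : ℝ) :=
        Real.rpow_le_rpow_of_nonpos ht0 ((le_abs_self t).trans (abs_le_jb t)) (by norm_num)
      have h2 : (-(1/50) - 1 : ℝ) = -(51/50) := by norm_num
      rw [h2]
      linarith
  have := hanti (Set.mem_Ici.mpr le_rfl) (Set.mem_Ici.mpr (by linarith : s ≤ s + m))
    (by linarith : s ≤ s + m)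
  simp only at this
  have h3 : 0 ≤ (s + m) ^ (-(1/50) : ℝ) := Real.rpow_nonneg (by linarith) _
  linarith

/-- the three exponents -/
def av : Fin 3 → ℝ := ![51/50, 34/50, 17/50]

lemma abs_sin_ge {D : ℝ} (h0 : 0 ≤ D) (h1 : D ≤ 1/2) : 2 * D ≤ |sin (π * D)| := by
  have hpi := Real.pi_pos
  have h2 : 2 / π * (π * D) ≤ sin (π * D) :=
    Real.mul_le_sin (by positivity) (by nlinarith)
  have h3 : 2 / π * (π * D) = 2 * D := by field_simp
  rw [h3] at h2
  exact h2.trans (le_abs_self _)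

theorem sep0 : ∃ s₀ : ℝ, 1 ≤ s₀ ∧ ∀ s, s₀ ≤ s → ∀ m : ℝ, 1 ≤ m → ∃ i : Fin 3,
    s ^ (-(7/20) : ℝ) / 9 ≤ YY (av i) (s + m) - YY (av i) s ∧
      YY (av i) (s + m) - YY (av i) s ≤ 1/2 := by
  have e1 : ∀ᶠ s : ℝ in atTop, s ^ (-(1/100) : ℝ) < 1/2 :=
    (tendsto_rpow_neg_atTop (by norm_num : (0:ℝ) < 1/100)).eventually_lt_const (by norm_num)
  have e2 : ∀ᶠ s : ℝ in atTop, s ^ (-(1/50) : ℝ) < 1/100 :=
    (tendsto_rpow_neg_atTop (by norm_num : (0:ℝ) < 1/50)).eventually_lt_const (by norm_num)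
  obtain ⟨s₁, hs₁⟩ := eventually_atTop.mp (e1.and e2)
  refine ⟨max 1 s₁, le_max_left _ _, fun s hs m hm => ?_⟩
  have hs1 : 1 ≤ s := (le_max_left _ _).trans hs
  have hs0 : 0 < s := by linarith
  obtain ⟨he1, he2⟩ := hs₁ s ((le_max_right _ _).trans hs)
  have key : ∀ p q : ℝ, s ^ p * s ^ q = s ^ (p + q) := fun p q => (Real.rpow_add hs0 p q).symm
  have hp : ∀ p : ℝ, 0 ≤ s ^ p := fun p => Real.rpow_nonneg hs0.le p
  by_cases h1 : s ^ (67/100 : ℝ) ≤ m
  · refine ⟨0, ?_, ?_⟩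
    · show s ^ (-(7/20) : ℝ) / 9 ≤ YY (51/50) (s + m) - YY (51/50) s
      have h2 : (0:ℝ) < s ^ (67/100 : ℝ) := Real.rpow_pos_of_pos hs0 _
      have h3 : s ^ (67/100 : ℝ) ≤ s := by
        calc s ^ (67/100 : ℝ) ≤ s ^ (1:ℝ) :=
              Real.rpow_le_rpow_of_exponent_le hs1 (by norm_num)
          _ = s := Real.rpow_one s
      have h4 := (YY_bounds (a := 51/50) (by norm_num) (by norm_num) hs1 h2 h3).1
      have h5 : YY (51/50) (s + s ^ (67/100 : ℝ)) ≤ YY (51/50) (s + m) :=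
        YY_mono _ (by linarith)
      rw [key] at h4
      norm_num at h4 h5 ⊢
      linarith
    · show YY (51/50) (s + m) - YY (51/50) s ≤ 1/2
      have := YY_tail hs0 (by linarith : 0 ≤ m)
      linarith
  · push Not at h1
    have hms : m ≤ s := by
      calc m ≤ s ^ (67/100 : ℝ) := h1.le
        _ ≤ s ^ (1:ℝ) := Real.rpow_le_rpow_of_exponent_le hs1 (by norm_num)
        _ = s := Real.rpow_one s
    by_cases h2 : s ^ (33/100 : ℝ) ≤ m
    · refine ⟨1, ?_, ?_⟩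
      · show s ^ (-(7/20) : ℝ) / 9 ≤ YY (34/50) (s + m) - YY (34/50) s
        have h4 := (YY_bounds (a := 34/50) (by norm_num) (by norm_num) hs1
          (by linarith : 0 < m) hms).1
        have h5 : s ^ (33/100 : ℝ) * s ^ (-(34/50) : ℝ) ≤ m * s ^ (-(34/50) : ℝ) :=
          mul_le_mul_of_nonneg_right h2 (hp _)
        rw [key] at h5
        norm_num at h4 h5 ⊢
        linarith
      · show YY (34/50) (s + m) - YY (34/50) s ≤ 1/2
        have h4 := (YY_bounds (a := 34/50) (by norm_num) (by norm_num) hs1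
          (by linarith : 0 < m) hms).2
        have h5 : m * s ^ (-(34/50) : ℝ) ≤ s ^ (67/100 : ℝ) * s ^ (-(34/50) : ℝ) :=
          mul_le_mul_of_nonneg_right h1.le (hp _)
        rw [key] at h5
        norm_num at h4 h5 he1 ⊢
        linarith
    · push Not at h2
      refine ⟨2, ?_, ?_⟩
      · show s ^ (-(7/20) : ℝ) / 9 ≤ YY (17/50) (s + m) - YY (17/50) s
        have h4 := (YY_bounds (a := 17/50) (by norm_num) (by norm_num) hs1
          (by linarith : 0 < m) hms).1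
        have h5 : 1 * s ^ (-(17/50) : ℝ) ≤ m * s ^ (-(17/50) : ℝ) :=
          mul_le_mul_of_nonneg_right hm (hp _)
        have h6 : s ^ (-(7/20) : ℝ) ≤ s ^ (-(17/50) : ℝ) :=
          Real.rpow_le_rpow_of_exponent_le hs1 (by norm_num)
        linarith
      · show YY (17/50) (s + m) - YY (17/50) s ≤ 1/2
        have h4 := (YY_bounds (a := 17/50) (by norm_num) (by norm_num) hs1
          (by linarith : 0 < m) hms).2
        have h5 : m * s ^ (-(17/50) : ℝ) ≤ s ^ (33/100 : ℝ) * s ^ (-(17/50) : ℝ) :=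
          mul_le_mul_of_nonneg_right h2.le (hp _)
        rw [key] at h5
        norm_num at h4 h5 he1 ⊢
        linarith

/-- separation for perturbed functions -/
theorem sep {Z e : Fin 3 → ℝ → ℝ} (hZ : ∀ i t, Z i t = YY (av i) t + e i t)
    (he : ∀ i, Bd (1/2) (e i)) :
    ∃ s₀ : ℝ, 1 ≤ s₀ ∧ ∀ s, s₀ ≤ s → ∀ m : ℝ, 1 ≤ m → ∃ i : Fin 3,
      s ^ (-(7/20) : ℝ) / 9 ≤ |sin (π * (Z i (s + m) - Z i s))| := by
  obtain ⟨s₀, hs₀, h⟩ := sep0
  choose C hC using he
  set K : ℝ := max (max (C 0) (C 1)) (max (C 2) 0) with hK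
  have hCK : ∀ i, C i ≤ K := by
    intro i
    fin_cases i
    · exact (le_max_left _ _).trans (le_max_left _ _)
    · exact (le_max_right _ _).trans (le_max_left _ _)
    · exact (le_max_left _ _).trans (le_max_right _ _)
  have hK0 : 0 ≤ K := (le_max_right _ _).trans (le_max_right _ _)
  have he' : ∀ i t, |e i t| ≤ K * jb t ^ (-(1/2) : ℝ) := fun i t =>
    (hC i t).trans (mul_le_mul_of_nonneg_right (hCK i) (jb_rpow_pos _ _).le)
  have e1 : ∀ᶠ s : ℝ in atTop, s ^ (-(3/20) : ℝ) < 1 / (18 * π * (K + 1)) := by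
    refine (tendsto_rpow_neg_atTop (by norm_num : (0:ℝ) < 3/20)).eventually_lt_const ?_
    have := Real.pi_pos
    positivity
  obtain ⟨s₁, hs₁⟩ := eventually_atTop.mp e1
  refine ⟨max s₀ s₁, hs₀.trans (le_max_left _ _), fun s hs m hm => ?_⟩
  have hss₀ : s₀ ≤ s := (le_max_left _ _).trans hs
  have hs0 : 0 < s := by linarith
  have he1 := hs₁ s ((le_max_right _ _).trans hs)
  obtain ⟨i, hi1, hi2⟩ := h s hss₀ m hm
  refine ⟨i, ?_⟩
  set D := YY (av i) (s + m) - YY (av i) s with hD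
  have hD0 : 0 ≤ D := (by positivity : (0:ℝ) ≤ s ^ (-(7/20) : ℝ) / 9).trans hi1
  have h2 := abs_sin_ge hD0 hi2
  set E := e i (s + m) - e i s with hE
  have hZD : Z i (s + m) - Z i s = D + E := by
    rw [hZ, hZ, hD, hE]; ring
  have hEb : |E| ≤ 2 * K * s ^ (-(1/2) : ℝ) := by
    have h3 : ∀ t, s ≤ t → |e i t| ≤ K * s ^ (-(1/2) : ℝ) := by
      intro t ht
      refine (he' i t).trans (mul_le_mul_of_nonneg_left ?_ hK0)
      exact Real.rpow_le_rpow_of_nonpos hs0 (ht.trans ((le_abs_self t).trans (abs_le_jb t)))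
        (by norm_num)
    calc |E| ≤ |e i (s + m)| + |e i s| := abs_sub _ _
      _ ≤ K * s ^ (-(1/2) : ℝ) + K * s ^ (-(1/2) : ℝ) :=
          add_le_add (h3 _ (by linarith)) (h3 _ le_rfl)
      _ = _ := by ring
  have h4 : |sin (π * D)| - |sin (π * (D + E))| ≤ π * |E| := by
    have h5 : |sin (π * D) - sin (π * (D + E))| ≤ |π * D - π * (D + E)| := by
      exact Real.abs_sin_sub_sin_le _ _
    have h6 : |π * D - π * (D + E)| = π * |E| := by
      rw [show π * D - π * (D + E) = -(π * E) by ring, abs_neg, abs_mul,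
        abs_of_pos Real.pi_pos]
    rw [h6] at h5
    exact (abs_sub_abs_le_abs_sub _ _).trans h5
  rw [hZD]
  have h7 : s ^ (-(1/2) : ℝ) = s ^ (-(7/20) : ℝ) * s ^ (-(3/20) : ℝ) := by
    rw [← Real.rpow_add hs0]; norm_num
  have hpi := Real.pi_pos
  have h8 : π * (2 * K * s ^ (-(1/2) : ℝ)) ≤ s ^ (-(7/20) : ℝ) / 9 := by
    rw [h7]
    have h9 : π * 2 * K * s ^ (-(3/20) : ℝ) ≤ 1/9 := by
      have h10 : π * 2 * K * s ^ (-(3/20) : ℝ) ≤ π * 2 * (K + 1) * (1 / (18 * π * (K + 1))) := by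
        refine mul_le_mul ?_ he1.le (Real.rpow_nonneg hs0.le _) (by positivity)
        nlinarith
      have h11 : π * 2 * (K + 1) * (1 / (18 * π * (K + 1))) = 1/9 := by
        field_simp
        norm_num
      linarith
    have h12 : 0 ≤ s ^ (-(7/20) : ℝ) := Real.rpow_nonneg hs0.le _
    nlinarith
  have h13 : π * |E| ≤ π * (2 * K * s ^ (-(1/2) : ℝ)) := mul_le_mul_of_nonneg_left hEb hpi.le
  linarith

end Ton
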