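import Pool.Agent.helper42.TonGC
import Pool.Agent.helper42.TonSep

/-!
The small periodic perturbation that produces a given force along a self-separated curve.
-/

noncomputable section

namespace Ton

open Real Filter Topology ContDiff

/-- the bump profile -/
def chi : ContDiffBump (0 : ℝ) := ⟨1/2, 1, by norm_num, by norm_num⟩

lemma chi_one {z : ℝ} (h : |z| ≤ 1/2) : chi z = 1 :=
  chi.one_of_mem_closedBall (by simpa [Metric.mem_closedBall, Real.dist_eq, chi] using h)

lemma chi_zero {z : ℝ} (h : 1 ≤ |z|) : chi z = 0 :=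
  chi.zero_of_le_dist (by simpa [Real.dist_eq, chi] using h)

lemma chi_neg (z : ℝ) : chi (-z) = chi z := chi.neg z

lemma BdD_chi : BdD (chi : ℝ → ℝ) := by
  refine BdD_of_const chi.contDiff (-1) 1 (fun t ht => ?_) (fun t ht => ?_)
  · rw [chi_zero, chi_zero]
    · norm_num
    · rw [abs_of_neg (by linarith)]; linarith
  · rw [chi_zero, chi_zero]
    · norm_num
    · rw [abs_of_pos (by linarith)]; linarith

section lin

variable {V : Type*} [NormedAddCommGroup V] [NormedSpace ℝ V]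

lemma contDiff_of_TAderiv {β c : ℝ} {φ : ℝ → ℝ} (hd : Differentiable ℝ φ)
    (h : TA β c (deriv φ)) : ContDiff ℝ ∞ φ := by
  rw [contDiff_infty_iff_deriv]
  exact ⟨hd, h.contDiff⟩

lemma lin_time {β c : ℝ} (hβ : 0 ≤ β) (hc : c ≤ 0) (l : V × ℝ →L[ℝ] ℝ) {φ : ℝ → ℝ}
    (hd : Differentiable ℝ φ) (h : TA β c (deriv φ)) :
    ContDiff ℝ ∞ (fun p : V × ℝ => l p - φ p.2) ∧
    (∀ p, HasFDerivAt (fun p : V × ℝ => l p - φ p.2)
      (l - (deriv φ p.2) • ContinuousLinearMap.snd ℝ V ℝ) p) ∧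
    GC β c (fun p : V × ℝ => l - (deriv φ p.2) • ContinuousLinearMap.snd ℝ V ℝ) := by
  refine ⟨l.contDiff.sub ((contDiff_of_TAderiv hd h).comp contDiff_snd), fun p => ?_, ?_⟩
  · have h1 : HasFDerivAt (fun p : V × ℝ => p.2) (ContinuousLinearMap.snd ℝ V ℝ) p :=
      hasFDerivAt_snd
    exact l.hasFDerivAt.sub ((hd p.2).hasDerivAt.comp_hasFDerivAt p h1)
  · exact ((GC.const β l hβ).mono hc).sub ((GC.time h).smulc _)

lemma GC_trig {β c : ℝ} (hβ : 0 ≤ β) (hc : c ≤ 0) (hcβ : -β ≤ c) (l : V × ℝ →L[ℝ] ℝ) {φ : ℝ → ℝ}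
    (hd : Differentiable ℝ φ) (h : TA β c (deriv φ)) {g : ℝ → ℝ} (hg : BdD g) :
    GC β 0 (fun p : V × ℝ => g (l p - φ p.2)) := by
  obtain ⟨h1, h2, h3⟩ := lin_time hβ hc l hd h
  refine GC.comp hg h1 ?_
  have : fderiv ℝ (fun p : V × ℝ => l p - φ p.2)
      = fun p => l - (deriv φ p.2) • ContinuousLinearMap.snd ℝ V ℝ := by
    funext p; exact (h2 p).fderiv
  rw [this]
  exact h3.mono hcβ

/-- the scaled sine -/
lemma GC_scaled {β : ℝ} (hβ : 0 ≤ β) (l : V × ℝ →L[ℝ] ℝ) {φ : ℝ → ℝ}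
    (hd : Differentiable ℝ φ) (h : TA β 0 (deriv φ)) {g : ℝ → ℝ} (hg : BdD g) (κ : ℝ) :
    GC β 0 (fun p : V × ℝ => g (κ * (jb p.2 ^ β * sin (l p - φ p.2)))) := by
  obtain ⟨h1, h2, h3⟩ := lin_time (V := V) hβ le_rfl l hd h
  have hS := GC_trig (V := V) hβ le_rfl (by linarith) l hd h BdD_sin
  have hC := GC_trig (V := V) hβ le_rfl (by linarith) l hd h BdD_cos
  have hj : TA β (-β) (fun t => jb t ^ β) := (TA_jb_rpow β).mono (by linarith) le_rfl
  have hj' : TA β (-β) (deriv (fun t => jb t ^ β)) :=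
    (TA_jb_rpow β).deriv.mono (by linarith) (by linarith)
  have hfd : ∀ p : V × ℝ, HasFDerivAt (fun p : V × ℝ => κ * (jb p.2 ^ β * sin (l p - φ p.2)))
      (κ • ((jb p.2 ^ β * cos (l p - φ p.2)) • l
        - (jb p.2 ^ β * cos (l p - φ p.2) * deriv φ p.2) • ContinuousLinearMap.snd ℝ V ℝ
        + (deriv (fun t => jb t ^ β) p.2 * sin (l p - φ p.2)) •
          ContinuousLinearMap.snd ℝ V ℝ)) p := by
    intro p
    have h4 : HasFDerivAt (fun p : V × ℝ => p.2) (ContinuousLinearMap.snd ℝ V ℝ) p :=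
      hasFDerivAt_snd
    have h5 := (hj.diff p.2).hasDerivAt.comp_hasFDerivAt p h4
    have h6 := (h5.mul (h2 p).sin).const_mul κ
    refine h6.congr_fderiv ?_
    refine ContinuousLinearMap.ext fun v => ?_
    simp only [ContinuousLinearMap.smul_apply, ContinuousLinearMap.add_apply,
      ContinuousLinearMap.sub_apply, smul_eq_mul, Function.comp_apply]
    ring
  have hsm : ContDiff ℝ ∞ (fun p : V × ℝ => κ * (jb p.2 ^ β * sin (l p - φ p.2))) :=
    contDiff_const.mul ((hj.contDiff.comp contDiff_snd).mul hS.1)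
  refine GC.comp hg hsm ?_
  have : fderiv ℝ (fun p : V × ℝ => κ * (jb p.2 ^ β * sin (l p - φ p.2)))
      = fun p => (κ • ContinuousLinearMap.id ℝ (V × ℝ →L[ℝ] ℝ))
        ((jb p.2 ^ β * cos (l p - φ p.2)) • l
        - (jb p.2 ^ β * cos (l p - φ p.2) * deriv φ p.2) • ContinuousLinearMap.snd ℝ V ℝ
        + (deriv (fun t => jb t ^ β) p.2 * sin (l p - φ p.2)) •
          ContinuousLinearMap.snd ℝ V ℝ) := by
    funext p
    rw [(hfd p).fderiv]
    simp
  rw [this]
  refine GC.clm ?_ _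
  refine ((GC.smulc ?_ _).sub (GC.smulc ?_ _)).add (GC.smulc ?_ _)
  · exact ((GC.time hj).mul hC).mono (by linarith)
  · exact (((GC.time hj).mul hC).mul (GC.time h)).mono (by linarith)
  · exact ((GC.time hj').mul hS).mono (by linarith)

end lin

section G

variable {n : ℕ} (w X : Fin n → ℝ → ℝ) (ζ : Fin 3 → ((Fin n → ℝ) →L[ℝ] ℝ)) (Z : Fin 3 → ℝ → ℝ)

/-- linear part -/
def Glin (p : (Fin n → ℝ) × ℝ) : ℝ :=
  ∑ j, w j p.2 * (sin (2 * π * (p.1 j - X j p.2)) / (2 * π))

/-- cut-off -/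
def Gcut (p : (Fin n → ℝ) × ℝ) : ℝ :=
  ∏ i, chi (40 * (jb p.2 ^ (7/20 : ℝ) * sin (π * (ζ i p.1 - Z i p.2))))

/-- the unperiodized perturbation -/
def Gful (p : (Fin n → ℝ) × ℝ) : ℝ := Glin w X p * Gcut ζ Z p

variable {w X ζ Z}

lemma Gful_GC (hw : ∀ j, TA (1/4) (3/4) (w j)) (hX : ∀ j, Differentiable ℝ (X j))
    (hX' : ∀ j, TA (1/4) (-(1/4)) (deriv (X j))) (hZ : ∀ i, Differentiable ℝ (Z i))
    (hZ' : ∀ i, TA (7/20) 0 (deriv (Z i))) : GC (7/20) (3/4) (Gful w X ζ Z) := by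
  have h1 : GC (7/20) (3/4) (Glin w X) := by
    refine GC.sum (by norm_num) _ fun j _ => ?_
    have h2 : GC (V := Fin n → ℝ) (7/20) (3/4) (fun p => w j p.2) :=
      GC.time ((hw j).mono (by norm_num) le_rfl)
    have h3 : TA (7/20) (-(7/20)) (deriv (fun t => 2 * π * X j t)) := by
      have : deriv (fun t => 2 * π * X j t) = fun t => 2 * π * deriv (X j) t := by
        funext t
        exact (((hX j) t).hasDerivAt.const_mul (2 * π)).deriv
      rw [this]
      exact TA.const_mul _ ((hX' j).mono (by norm_num) (by norm_num))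
    have h4 := GC_trig (V := Fin n → ℝ) (β := 7/20) (by norm_num) (by norm_num) le_rfl
      ((2 * π) • ((ContinuousLinearMap.proj (R := ℝ) (φ := fun _ : Fin n => ℝ) j).comp
        (ContinuousLinearMap.fst ℝ (Fin n → ℝ) ℝ))) ((hX j).const_mul (2 * π)) h3 BdD_sin
    have h5 := (h2.mul h4).mul (GC.const (V := Fin n → ℝ) (7/20) ((2 * π)⁻¹ : ℝ) (by norm_num))
    have e : (fun p : (Fin n → ℝ) × ℝ => w j p.2 * (sin (2 * π * (p.1 j - X j p.2)) / (2 * π)))
        = fun p => w j p.2 * sin (((2 * π) •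
          ((ContinuousLinearMap.proj (R := ℝ) (φ := fun _ : Fin n => ℝ) j).comp
          (ContinuousLinearMap.fst ℝ (Fin n → ℝ) ℝ))) p - 2 * π * X j p.2) * (2 * π)⁻¹ := by
      funext p
      have : ((2 * π) • ((ContinuousLinearMap.proj (R := ℝ) (φ := fun _ : Fin n => ℝ) j).comp
          (ContinuousLinearMap.fst ℝ (Fin n → ℝ) ℝ))) p - 2 * π * X j p.2
          = 2 * π * (p.1 j - X j p.2) := by
        simp
        ring
      rw [this, div_eq_mul_inv]
      ring
    rw [e]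
    exact h5.mono (by norm_num)
  have h6 : GC (7/20) 0 (Gcut ζ Z) := by
    refine GC.prod (by norm_num) _ fun i _ => ?_
    have h3 : TA (7/20) 0 (deriv (fun t => π * Z i t)) := by
      have : deriv (fun t => π * Z i t) = fun t => π * deriv (Z i) t := by
        funext t
        exact (((hZ i) t).hasDerivAt.const_mul π).deriv
      rw [this]
      exact TA.const_mul _ (hZ' i)
    have h4 := GC_scaled (V := Fin n → ℝ) (β := 7/20) (by norm_num)
      (π • ((ζ i).comp (ContinuousLinearMap.fst ℝ (Fin n → ℝ) ℝ))) ((hZ i).const_mul π) h3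
      BdD_chi 40
    have e : (fun p : (Fin n → ℝ) × ℝ =>
        chi (40 * (jb p.2 ^ (7/20 : ℝ) * sin (π * (ζ i p.1 - Z i p.2)))))
        = fun p => chi (40 * (jb p.2 ^ (7/20 : ℝ) *
          sin ((π • ((ζ i).comp (ContinuousLinearMap.fst ℝ (Fin n → ℝ) ℝ))) p - π * Z i p.2))) := by
      funext p
      have : (π • ((ζ i).comp (ContinuousLinearMap.fst ℝ (Fin n → ℝ) ℝ))) p - π * Z i p.2
          = π * (ζ i p.1 - Z i p.2) := by
        simp
        ring
      rw [this]
    rw [e]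
    exact h4
  exact (h1.mul h6).mono (by norm_num)

lemma Gful_periodic (hζ : ∀ i (k : Fin n → ℤ), ∃ l : ℤ, ζ i (fun j => (k j : ℝ)) = l)
    (k : Fin n → ℤ) (p : (Fin n → ℝ) × ℝ) :
    Gful w X ζ Z (p + (fun j => (k j : ℝ), 0)) = Gful w X ζ Z p := by
  have h1 : Glin w X (p + (fun j => (k j : ℝ), 0)) = Glin w X p := by
    unfold Glin
    refine Finset.sum_congr rfl fun j _ => ?_
    have : 2 * π * ((p + (fun j => (k j : ℝ), (0:ℝ))).1 j - X j (p + (fun j => (k j : ℝ), (0:ℝ))).2)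
        = 2 * π * (p.1 j - X j p.2) + k j * (2 * π) := by
      simp
      ring
    rw [this, Real.sin_add_int_mul_two_pi]
    simp
  have h2 : Gcut ζ Z (p + (fun j => (k j : ℝ), 0)) = Gcut ζ Z p := by
    unfold Gcut
    refine Finset.prod_congr rfl fun i _ => ?_
    obtain ⟨l, hl⟩ := hζ i k
    have e : π * (ζ i (p + (fun j => (k j : ℝ), (0:ℝ))).1 - Z i (p + (fun j => (k j : ℝ), (0:ℝ))).2)
        = π * (ζ i p.1 - Z i p.2) + l * π := by
      simp only [Prod.fst_add, Prod.snd_add, add_zero, map_add, hl]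
      ring
    rw [e, Real.sin_add_int_mul_pi]
    have e2 : (p + (fun j => (k j : ℝ), (0:ℝ))).2 = p.2 := by simp
    rw [e2]
    rcases Int.even_or_odd l with h | h
    · rw [h.neg_one_zpow, one_mul]
    · rw [h.neg_one_zpow, show 40 * (jb p.2 ^ (7/20 : ℝ) * (-1 * sin (π * (ζ i p.1 - Z i p.2))))
        = -(40 * (jb p.2 ^ (7/20 : ℝ) * sin (π * (ζ i p.1 - Z i p.2)))) by ring, chi_neg]
  unfold Gful
  rw [h1, h2]

lemma Gful_zero {p : (Fin n → ℝ) × ℝ} {i : Fin 3}
    (h : 1 < 40 * (jb p.2 ^ (7/20 : ℝ) * |sin (π * (ζ i p.1 - Z i p.2))|)) :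
    Gful w X ζ Z p = 0 := by
  unfold Gful Gcut
  rw [Finset.prod_eq_zero (Finset.mem_univ i), mul_zero]
  refine chi_zero ?_
  rw [abs_mul, abs_mul, abs_of_pos (jb_rpow_pos _ _), abs_of_pos (by norm_num : (0:ℝ) < 40)]
  exact h.le

lemma Gful_fderiv (hw : ∀ j, TA (1/4) (3/4) (w j)) (hX : ∀ j, Differentiable ℝ (X j))
    (hZ : ∀ i, Differentiable ℝ (Z i)) (hZX : ∀ i t, Z i t = ζ i (fun j => X j t))
    (t : ℝ) (v : Fin n → ℝ) :
    fderiv ℝ (Gful w X ζ Z) (fun j => X j t, t) (v, 0) = ∑ j, w j t * v j := by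
  set p : (Fin n → ℝ) × ℝ := (fun j => X j t, t) with hp
  have hnear : Gful w X ζ Z =ᶠ[𝓝 p] Glin w X := by
    have h1 : ∀ i : Fin 3, ∀ᶠ q in 𝓝 p,
        |40 * (jb q.2 ^ (7/20 : ℝ) * sin (π * (ζ i q.1 - Z i q.2)))| < 1/2 := by
      intro i
      have hc : Continuous (fun q : (Fin n → ℝ) × ℝ =>
          |40 * (jb q.2 ^ (7/20 : ℝ) * sin (π * (ζ i q.1 - Z i q.2)))|) := by
        refine continuous_abs.comp (continuous_const.mul (Continuous.mul ?_ ?_))
        · exact (jb_rpow_continuous _).comp continuous_snd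
        · exact Real.continuous_sin.comp (continuous_const.mul
            (((ζ i).continuous.comp continuous_fst).sub ((hZ i).continuous.comp continuous_snd)))
      have h0 : |40 * (jb p.2 ^ (7/20 : ℝ) * sin (π * (ζ i p.1 - Z i p.2)))| < 1/2 := by
        have : ζ i p.1 - Z i p.2 = 0 := by
          rw [hZX, hp]; simp
        rw [this]
        simp
      exact hc.continuousAt.eventually_lt_const h0
    have h2 := Filter.eventually_all.mpr h1
    filter_upwards [h2] with q hq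
    unfold Gful Gcut
    rw [Finset.prod_eq_one fun i _ => chi_one (hq i).le, mul_one]
  rw [hnear.fderiv_eq]
  have hd : ∀ j : Fin n, HasFDerivAt
      (fun q : (Fin n → ℝ) × ℝ => w j q.2 * (sin (2 * π * (q.1 j - X j q.2)) / (2 * π)))
      (w j p.2 • ((2 * π)⁻¹ • (cos (2 * π * (p.1 j - X j p.2)) •
        ((2 * π) • ((ContinuousLinearMap.proj (R := ℝ) (φ := fun _ : Fin n => ℝ) j).comp
          (ContinuousLinearMap.fst ℝ (Fin n → ℝ) ℝ)
          - deriv (X j) p.2 • ContinuousLinearMap.snd ℝ (Fin n → ℝ) ℝ))))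
        + (sin (2 * π * (p.1 j - X j p.2)) / (2 * π)) •
          (deriv (w j) p.2 • ContinuousLinearMap.snd ℝ (Fin n → ℝ) ℝ)) p := by
    intro j
    have hs : HasFDerivAt (fun q : (Fin n → ℝ) × ℝ => q.2)
      (ContinuousLinearMap.snd ℝ (Fin n → ℝ) ℝ) p := hasFDerivAt_snd
    have h3 := ((hw j).diff p.2).hasDerivAt.comp_hasFDerivAt p hs
    have h4 := ((hX j) p.2).hasDerivAt.comp_hasFDerivAt p hs
    have h5 := ((ContinuousLinearMap.proj (R := ℝ) (φ := fun _ : Fin n => ℝ) j).comp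
          (ContinuousLinearMap.fst ℝ (Fin n → ℝ) ℝ)).hasFDerivAt (x := p)
    have h6 := (h5.sub h4).const_mul (2 * π)
    have h7 := h3.mul (h6.sin.mul_const (2 * π)⁻¹)
    exact h7
  have hsum : HasFDerivAt (Glin w X) (∑ j : Fin n, _) p := HasFDerivAt.fun_sum fun j _ => hd j
  rw [hsum.fderiv, ContinuousLinearMap.sum_apply]
  refine Finset.sum_congr rfl fun j _ => ?_
  have e0 : p.1 j - X j p.2 = 0 := by simp [hp]
  simp only [e0, mul_zero, Real.sin_zero, Real.cos_zero, zero_div, zero_smul, add_zero, one_smul,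
    ContinuousLinearMap.smul_apply, ContinuousLinearMap.sub_apply, ContinuousLinearMap.comp_apply,
    ContinuousLinearMap.coe_fst', ContinuousLinearMap.coe_snd', smul_eq_mul, mul_zero, sub_zero,
    ContinuousLinearMap.proj_apply]
  have hpi := Real.pi_pos
  have e1 : (2 * π)⁻¹ * (2 * π * v j) = v j := by field_simp
  rw [e1]

end G

/-- time cut-offs -/
def th (j : ℕ) (t : ℝ) : ℝ :=
  Real.smoothTransition (t * (1/2) ^ j - 1) - Real.smoothTransition (t * (1/2) ^ (j + 1) - 1)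

lemma th_zero_left {j : ℕ} {t : ℝ} (h : t ≤ 2 ^ j) : th j t = 0 := by
  have h1 : t * (1/2) ^ j - 1 ≤ 0 := by
    have : t * (1/2) ^ j ≤ 2 ^ j * (1/2) ^ j := mul_le_mul_of_nonneg_right h (by positivity)
    rw [← mul_pow] at this
    norm_num at this
    norm_num
    linarith
  have h2 : t * (1/2) ^ (j + 1) - 1 ≤ 0 := by
    have : t * (1/2) ^ (j+1) ≤ 2 ^ j * (1/2) ^ (j + 1) := mul_le_mul_of_nonneg_right h (by positivity)
    rw [pow_succ, ← mul_assoc (2 ^ j : ℝ), ← mul_pow] at this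
    norm_num at this
    norm_num [pow_succ]
    linarith
  unfold th
  rw [Real.smoothTransition.zero_of_nonpos h1, Real.smoothTransition.zero_of_nonpos h2, sub_zero]

lemma th_zero_right {j : ℕ} {t : ℝ} (h : 2 ^ (j + 2) ≤ t) : th j t = 0 := by
  have h1 : 1 ≤ t * (1/2) ^ j - 1 := by
    have : 2 ^ (j + 2) * (1/2) ^ j ≤ t * (1/2) ^ j := mul_le_mul_of_nonneg_right h (by positivity)
    rw [pow_add, mul_right_comm, ← mul_pow] at this
    norm_num at this
    norm_num
    linarith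
  have h2 : 1 ≤ t * (1/2) ^ (j + 1) - 1 := by
    have : 2 ^ (j + 2) * (1/2) ^ (j + 1) ≤ t * (1/2) ^ (j+1) :=
      mul_le_mul_of_nonneg_right h (by positivity)
    rw [show j + 2 = (j + 1) + 1 by ring, pow_succ (2:ℝ) (j+1), mul_right_comm, ← mul_pow] at this
    norm_num at this
    norm_num
    linarith
  unfold th
  rw [Real.smoothTransition.one_of_one_le h1, Real.smoothTransition.one_of_one_le h2, sub_self]

lemma th_sum (J N : ℕ) (t : ℝ) : ∑ j ∈ Finset.range N, th (J + j) t =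
    Real.smoothTransition (t * (1/2) ^ J - 1)
      - Real.smoothTransition (t * (1/2) ^ (J + N) - 1) := by
  induction N with
  | zero => simp
  | succ N ih =>
    rw [Finset.sum_range_succ, ih]
    unfold th
    rw [add_assoc]
    ring

lemma th_hasSum {J : ℕ} {t : ℝ} (h : 2 ^ (J + 1) ≤ t) : HasSum (fun j => th (J + j) t) 1 := by
  obtain ⟨N, hN⟩ := pow_unbounded_of_one_lt t (by norm_num : (1:ℝ) < 2)
  have h0 : ∀ j, j ∉ Finset.range N → th (J + j) t = 0 := by
    intro j hj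
    rw [Finset.mem_range, not_lt] at hj
    refine th_zero_left (hN.le.trans ?_)
    exact pow_le_pow_right₀ (by norm_num) (by omega)
  have h1 : HasSum (fun j => th (J + j) t) (∑ j ∈ Finset.range N, th (J + j) t) :=
    hasSum_sum_of_ne_finset_zero h0
  have h2 : ∑ j ∈ Finset.range N, th (J + j) t = 1 := by
    rw [th_sum]
    have e1 : 1 ≤ t * (1/2) ^ J - 1 := by
      have : 2 ^ (J + 1) * (1/2) ^ J ≤ t * (1/2) ^ J := mul_le_mul_of_nonneg_right h (by positivity)
      rw [pow_succ, mul_right_comm, ← mul_pow] at this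
      norm_num at this
      norm_num
      linarith
    have e2 : t * (1/2) ^ (J + N) - 1 ≤ 0 := by
      have : t * (1/2) ^ (J + N) ≤ 2 ^ N * (1/2) ^ (J + N) :=
        mul_le_mul_of_nonneg_right hN.le (by positivity)
      have h3 : (2:ℝ) ^ N * (1/2) ^ (J + N) = (1/2) ^ J := by
        rw [pow_add, mul_comm ((1/2:ℝ) ^ J), ← mul_assoc, ← mul_pow]
        norm_num
      rw [h3] at this
      have h4 : ((1:ℝ)/2) ^ J ≤ 1 := pow_le_one₀ (by norm_num) (by norm_num)
      linarith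
    rw [Real.smoothTransition.one_of_one_le e1, Real.smoothTransition.zero_of_nonpos e2, sub_zero]
  rw [h2] at h1
  exact h1

lemma BdD_S : BdD Real.smoothTransition := by
  refine BdD_of_const Real.smoothTransition.contDiff 0 1 (fun t ht => ?_) (fun t ht => ?_)
  · rw [Real.smoothTransition.zero_of_nonpos ht.le, Real.smoothTransition.zero_of_nonpos]
    norm_num
  · rw [Real.smoothTransition.one_of_one_le ht.le, Real.smoothTransition.one_of_one_le]
    norm_num

end Ton
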