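import Pool.Agent.helper42.TonT

/-!
Finite trigonometric sums with slowly varying coefficients: a filtered algebra.
-/

noncomputable section

namespace Ton

open Filter Topology

/-- slowly varying class: one derivative gains a factor `t⁻¹`, further ones nothing -/
def TB (c : ℝ) (h : ℝ → ℂ) : Prop :=
  Bd c h ∧ Differentiable ℝ h ∧ TA 0 (c + 1) (deriv h)

lemma TB.ta {c : ℝ} {h : ℝ → ℂ} (H : TB c h) : TA 0 c h :=
  TA.of_deriv H.1 H.2.1 (H.2.2.mono le_rfl (by linarith))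

lemma TB.mono {c c' : ℝ} {h : ℝ → ℂ} (H : TB c h) (hc : c' ≤ c) : TB c' h :=
  ⟨H.1.mono hc, H.2.1, H.2.2.mono le_rfl (by linarith)⟩

lemma TB.of_TA {c : ℝ} {h : ℝ → ℂ} (H : TA (-1) c h) : TB c h :=
  ⟨H.bd, H.diff, H.deriv.mono (by norm_num) (by linarith)⟩

lemma TB.add {c : ℝ} {f g : ℝ → ℂ} (hf : TB c f) (hg : TB c g) : TB c (f + g) := by
  refine ⟨hf.1.add hg.1, hf.2.1.add hg.2.1, ?_⟩
  have : deriv (f + g) = fun t => deriv f t + deriv g t := by
    funext t; exact deriv_add (hf.2.1 t) (hg.2.1 t)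
  rw [this]
  exact hf.2.2.add hg.2.2

lemma TB.zero (c : ℝ) : TB c (0 : ℝ → ℂ) := TB.of_TA (TA.zero (-1) c)

lemma TB.const (a : ℂ) {c : ℝ} (hc : c ≤ 0) : TB c (fun _ : ℝ => a) :=
  TB.of_TA ((TA.const (-1) a).mono le_rfl hc)

lemma TB.mul {c d : ℝ} {f g : ℝ → ℂ} (hf : TB c f) (hg : TB d g) : TB (c + d) (f * g) := by
  refine ⟨hf.1.mul hg.1, hf.2.1.mul hg.2.1, ?_⟩
  have : deriv (f * g) = fun t => deriv f t * g t + f t * deriv g t := by
    funext t; exact deriv_mul (hf.2.1 t) (hg.2.1 t)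
  rw [this]
  exact ((hf.2.2.mul hg.ta).mono le_rfl (by linarith)).add
    ((hf.ta.mul hg.2.2).mono le_rfl (by linarith))

lemma TB.sum {ι : Type*} (s : Finset ι) {c : ℝ} {f : ι → ℝ → ℂ} (hf : ∀ i ∈ s, TB c (f i)) :
    TB c (∑ i ∈ s, f i) := by
  classical
  induction s using Finset.induction_on with
  | empty => simpa using TB.zero c
  | insert i s his ih =>
    rw [Finset.sum_insert his]
    exact (hf i (Finset.mem_insert_self _ _)).add
      (ih (fun j hj => hf j (Finset.mem_insert_of_mem hj)))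

lemma TB.const_mul {c : ℝ} (a : ℂ) {f : ℝ → ℂ} (hf : TB c f) : TB c ((fun _ => a) * f) := by
  have := (TB.const a le_rfl).mul hf
  rwa [zero_add] at this

lemma TB.neg {c : ℝ} {f : ℝ → ℂ} (hf : TB c f) : TB c (-f) := by
  have := hf.const_mul (-1)
  have e : ((fun _ => (-1 : ℂ)) * f : ℝ → ℂ) = -f := by
    funext t; simp
  rwa [e] at this

lemma TB.inv {a c0 : ℝ} {N : ℝ → ℂ} (hN : TB (-a) N) (hc0 : 0 < c0)
    (hlow : ∀ t, c0 * jb t ^ a ≤ ‖N t‖) : TB a (N⁻¹) := by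
  have hinv : TA 0 a (fun t => (N t)⁻¹) := TA_inv hN.ta hc0 hlow
  have hne : ∀ t, N t ≠ 0 := fun t h => by
    have := hlow t
    rw [h, norm_zero] at this
    exact absurd this (not_le.mpr (mul_pos hc0 (jb_rpow_pos _ _)))
  refine ⟨hinv.bd, hinv.diff, ?_⟩
  have hd : deriv (N⁻¹) = fun t => -(deriv N t) * ((N t)⁻¹ * (N t)⁻¹) := by
    funext t
    have := ((hN.2.1 t).hasDerivAt.inv (hne t)).deriv
    have e : -(deriv N t) * ((N t)⁻¹ * (N t)⁻¹) = -deriv N t / N t ^ 2 := by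
      rw [div_eq_mul_inv, sq, mul_inv]
    rw [e]
    exact this
  rw [hd]
  exact (hN.2.2.neg.mul (hinv.mul hinv)).mono le_rfl (by linarith)

/-- modes -/
abbrev Gam (n : ℕ) := (Fin n → ℤ) × ℤ

/-- the algebra -/
abbrev AA (n : ℕ) := AddMonoidAlgebra (ℝ → ℂ) (Gam n)

variable {n : ℕ}

/-- all coefficients in `TB c` -/
def FB (c : ℝ) (F : AA n) : Prop := ∀ κ, TB c (F.coeff κ)

lemma FB.mono {c c' : ℝ} {F : AA n} (h : FB c F) (hc : c' ≤ c) : FB c' F :=
  fun κ => (h κ).mono hc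

lemma FB.zero (c : ℝ) : FB c (0 : AA n) := fun κ => by
  simpa using TB.zero c

lemma FB.add {c : ℝ} {F G : AA n} (hF : FB c F) (hG : FB c G) : FB c (F + G) := fun κ => by
  rw [AddMonoidAlgebra.coeff_add, Finsupp.add_apply]
  exact (hF κ).add (hG κ)

lemma FB.neg {c : ℝ} {F : AA n} (hF : FB c F) : FB c (-F) := fun κ => by
  rw [AddMonoidAlgebra.coeff_neg, Finsupp.neg_apply]
  exact (hF κ).neg

lemma FB.sub {c : ℝ} {F G : AA n} (hF : FB c F) (hG : FB c G) : FB c (F - G) := by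
  rw [sub_eq_add_neg]
  exact hF.add hG.neg

lemma FB.sum {ι : Type*} (s : Finset ι) {c : ℝ} {f : ι → AA n} (hf : ∀ i ∈ s, FB c (f i)) :
    FB c (∑ i ∈ s, f i) := by
  classical
  induction s using Finset.induction_on with
  | empty => simpa using FB.zero c
  | insert i s his ih =>
    rw [Finset.sum_insert his]
    exact (hf i (Finset.mem_insert_self _ _)).add
      (ih (fun j hj => hf j (Finset.mem_insert_of_mem hj)))

lemma FB.mul {c d : ℝ} {F G : AA n} (hF : FB c F) (hG : FB d G) : FB (c + d) (F * G) := by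
  classical
  intro κ
  rw [AddMonoidAlgebra.coeff_mul]
  refine TB.sum _ fun a _ => TB.sum _ fun b _ => ?_
  beta_reduce
  split_ifs
  · exact (hF a).mul (hG b)
  · exact TB.zero _

lemma FB.single {c : ℝ} (κ : Gam n) {h : ℝ → ℂ} (hh : TB c h) :
    FB c (AddMonoidAlgebra.single κ h) := by
  classical
  intro κ'
  rw [AddMonoidAlgebra.coeff_single_apply]
  split_ifs
  · exact hh
  · exact TB.zero _

lemma FB.one : FB 0 (1 : AA n) := by
  rw [AddMonoidAlgebra.one_def]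
  exact FB.single _ (TB.const 1 le_rfl)

lemma FB.pow {c : ℝ} {F : AA n} (hF : FB c F) (m : ℕ) : FB (m * c) (F ^ m) := by
  induction m with
  | zero => simpa using FB.one
  | succ m ih =>
    rw [pow_succ]
    exact (ih.mul hF).mono (by push_cast; linarith)

/-- constant multiples -/
def cst (a : ℂ) : AA n := AddMonoidAlgebra.single 0 (fun _ => a)

lemma cst_mul_coeff (a : ℂ) (F : AA n) (κ : Gam n) :
    (cst a * F).coeff κ = (fun _ => a) * F.coeff κ := by
  unfold cst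
  exact AddMonoidAlgebra.coeff_single_zero_mul F _ κ

lemma FB.cst_mul {c : ℝ} (a : ℂ) {F : AA n} (hF : FB c F) : FB c (cst a * F) := fun κ => by
  rw [cst_mul_coeff]
  exact (hF κ).const_mul a

/-- degree bound -/
def Dg (d : ℕ) (F : AA n) : Prop :=
  ∀ κ : Gam n, F.coeff κ ≠ 0 → (∀ i, |κ.1 i| ≤ d) ∧ |κ.2| ≤ d

lemma Dg.mono {d d' : ℕ} {F : AA n} (h : Dg d F) (hd : d ≤ d') : Dg d' F := by
  intro κ hκ
  obtain ⟨h1, h2⟩ := h κ hκ
  have : (d : ℤ) ≤ d' := by exact_mod_cast hd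
  exact ⟨fun i => (h1 i).trans this, h2.trans this⟩

lemma Dg.zero (d : ℕ) : Dg d (0 : AA n) := fun κ hκ => by simp at hκ

lemma Dg.add {d : ℕ} {F G : AA n} (hF : Dg d F) (hG : Dg d G) : Dg d (F + G) := by
  intro κ hκ
  rw [AddMonoidAlgebra.coeff_add, Finsupp.add_apply] at hκ
  by_cases h : F.coeff κ = 0
  · rw [h, zero_add] at hκ
    exact hG κ hκ
  · exact hF κ h

lemma Dg.neg {d : ℕ} {F : AA n} (hF : Dg d F) : Dg d (-F) := by
  intro κ hκ
  rw [AddMonoidAlgebra.coeff_neg, Finsupp.neg_apply, neg_ne_zero] at hκ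
  exact hF κ hκ

lemma Dg.sub {d : ℕ} {F G : AA n} (hF : Dg d F) (hG : Dg d G) : Dg d (F - G) := by
  rw [sub_eq_add_neg]
  exact hF.add hG.neg

lemma Dg.sum {ι : Type*} (s : Finset ι) {d : ℕ} {f : ι → AA n} (hf : ∀ i ∈ s, Dg d (f i)) :
    Dg d (∑ i ∈ s, f i) := by
  classical
  induction s using Finset.induction_on with
  | empty => simpa using Dg.zero d
  | insert i s his ih =>
    rw [Finset.sum_insert his]
    exact (hf i (Finset.mem_insert_self _ _)).add
      (ih (fun j hj => hf j (Finset.mem_insert_of_mem hj)))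

lemma Dg.mul {d e : ℕ} {F G : AA n} (hF : Dg d F) (hG : Dg e G) : Dg (d + e) (F * G) := by
  classical
  intro κ hκ
  rw [AddMonoidAlgebra.coeff_mul] at hκ
  obtain ⟨a, ha, hκ1⟩ := Finset.exists_ne_zero_of_sum_ne_zero hκ
  obtain ⟨b, hb, hκ2⟩ := Finset.exists_ne_zero_of_sum_ne_zero hκ1
  have hab : a + b = κ := by
    by_contra h
    simp [h] at hκ2
  obtain ⟨a1, a2⟩ := hF a (Finsupp.mem_support_iff.mp ha)
  obtain ⟨b1, b2⟩ := hG b (Finsupp.mem_support_iff.mp hb)
  rw [← hab]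
  constructor
  · intro i
    have h1 := a1 i
    have h2 := b1 i
    have h3 : |(a + b).1 i| ≤ |a.1 i| + |b.1 i| := abs_add_le _ _
    push_cast
    linarith
  · have h3 : |(a + b).2| ≤ |a.2| + |b.2| := abs_add_le _ _
    push_cast
    linarith

lemma Dg.single {d : ℕ} (κ : Gam n) (h : ℝ → ℂ) (hκ : (∀ i, |κ.1 i| ≤ d) ∧ |κ.2| ≤ d) :
    Dg d (AddMonoidAlgebra.single κ h) := by
  classical
  intro κ' hκ'
  rw [AddMonoidAlgebra.coeff_single_apply] at hκ'
  split_ifs at hκ' with heq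
  · rw [← heq]; exact hκ
  · exact absurd rfl hκ'

lemma Dg.zero_single {d : ℕ} (h : ℝ → ℂ) : Dg d (AddMonoidAlgebra.single (0 : Gam n) h) :=
  Dg.single _ _ (by simp)

lemma Dg.one {d : ℕ} : Dg d (1 : AA n) := by
  rw [AddMonoidAlgebra.one_def]
  exact Dg.zero_single _

lemma Dg.pow {d : ℕ} {F : AA n} (hF : Dg d F) (m : ℕ) : Dg (m * d) (F ^ m) := by
  induction m with
  | zero => simpa using Dg.one
  | succ m ih =>
    rw [pow_succ]
    exact (ih.mul hF).mono (by rw [Nat.succ_mul])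

lemma Dg.cst_mul {d : ℕ} (a : ℂ) {F : AA n} (hF : Dg d F) : Dg d (cst a * F) := by
  intro κ hκ
  rw [cst_mul_coeff] at hκ
  refine hF κ fun h => hκ ?_
  rw [h, mul_zero]

/-- multiplier -/
def mulD (φ : Gam n → ℝ → ℂ) (F : AA n) : AA n :=
  .ofCoeff (Finsupp.onFinset F.coeff.support (fun κ => φ κ * F.coeff κ) (fun κ h => by
    rw [Finsupp.mem_support_iff]
    intro h0
    rw [h0, mul_zero] at h
    exact h rfl))

lemma mulD_coeff (φ : Gam n → ℝ → ℂ) (F : AA n) (κ : Gam n) :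
    (mulD φ F).coeff κ = φ κ * F.coeff κ := rfl

lemma AA.ext {F G : AA n} (h : ∀ κ, F.coeff κ = G.coeff κ) : F = G :=
  AddMonoidAlgebra.coeff_injective (Finsupp.ext h)

lemma mulD_add (φ : Gam n → ℝ → ℂ) (F G : AA n) : mulD φ (F + G) = mulD φ F + mulD φ G := by
  refine AA.ext fun κ => ?_
  simp only [AddMonoidAlgebra.coeff_add, Finsupp.add_apply, mulD_coeff, mul_add]

lemma mulD_zero (φ : Gam n → ℝ → ℂ) : mulD φ (0 : AA n) = 0 := by
  refine AA.ext fun κ => ?_
  simp [mulD_coeff]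

lemma mulD_sum (φ : Gam n → ℝ → ℂ) {ι : Type*} (s : Finset ι) (f : ι → AA n) :
    mulD φ (∑ i ∈ s, f i) = ∑ i ∈ s, mulD φ (f i) := by
  classical
  induction s using Finset.induction_on with
  | empty => simpa using mulD_zero φ
  | insert i s his ih => rw [Finset.sum_insert his, Finset.sum_insert his, mulD_add, ih]

lemma mulD_single (φ : Gam n → ℝ → ℂ) (κ : Gam n) (h : ℝ → ℂ) :
    mulD φ (AddMonoidAlgebra.single κ h) = AddMonoidAlgebra.single κ (φ κ * h) := by
  classical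
  refine AA.ext fun κ' => ?_
  rw [mulD_coeff, AddMonoidAlgebra.coeff_single_apply, AddMonoidAlgebra.coeff_single_apply]
  split_ifs with heq
  · rw [heq]
  · rw [mul_zero]

lemma mulD_mul {φ : Gam n → ℝ → ℂ} (hφ : ∀ a b, φ (a + b) = φ a + φ b) (F G : AA n) :
    mulD φ (F * G) = mulD φ F * G + F * mulD φ G := by
  refine AddMonoidAlgebra.induction_linear F ?_ ?_ ?_
  · simp [mulD_zero]
  · intro F F' h h'
    rw [add_mul, mulD_add, mulD_add, h, h']
    ring
  · intro a x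
    refine AddMonoidAlgebra.induction_linear G ?_ ?_ ?_
    · simp [mulD_zero]
    · intro G G' h h'
      rw [mul_add, mulD_add, mulD_add, h, h']
      ring
    · intro b y
      rw [AddMonoidAlgebra.single_mul_single, mulD_single, mulD_single, mulD_single,
        AddMonoidAlgebra.single_mul_single, AddMonoidAlgebra.single_mul_single,
        ← AddMonoidAlgebra.single_add, hφ]
      congr 1
      ring

lemma mulD_one {φ : Gam n → ℝ → ℂ} (hφ : ∀ a b, φ (a + b) = φ a + φ b) :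
    mulD φ (1 : AA n) = 0 := by
  have h0 : φ 0 = 0 := by
    have := hφ 0 0
    rw [add_zero] at this
    exact left_eq_add.mp this
  rw [AddMonoidAlgebra.one_def, mulD_single, h0, zero_mul, AddMonoidAlgebra.single_zero]

lemma mulD_pow {φ : Gam n → ℝ → ℂ} (hφ : ∀ a b, φ (a + b) = φ a + φ b) (F : AA n) (m : ℕ) :
    mulD φ (F ^ (m + 1)) = ((m : AA n) + 1) * F ^ m * mulD φ F := by
  induction m with
  | zero => simp
  | succ m ih =>
    rw [pow_succ, mulD_mul hφ, ih]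
    push_cast
    ring

lemma mulD_comm (φ ψ : Gam n → ℝ → ℂ) (F : AA n) : mulD φ (mulD ψ F) = mulD ψ (mulD φ F) := by
  refine AA.ext fun κ => ?_
  simp only [mulD_coeff]
  ring

lemma mulD_cst_mul (φ : Gam n → ℝ → ℂ) (a : ℂ) (F : AA n) :
    mulD φ (cst a * F) = cst a * mulD φ F := by
  refine AA.ext fun κ => ?_
  simp only [mulD_coeff, cst_mul_coeff]
  ring

lemma FB.mulD {c d : ℝ} {φ : Gam n → ℝ → ℂ} (hφ : ∀ κ, TB d (φ κ)) {F : AA n} (hF : FB c F) :
    FB (c + d) (mulD φ F) := fun κ => by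
  rw [mulD_coeff]
  exact ((hφ κ).mul (hF κ)).mono (by linarith)

lemma Dg.mulD {d : ℕ} (φ : Gam n → ℝ → ℂ) {F : AA n} (hF : Dg d F) : Dg d (mulD φ F) := by
  intro κ hκ
  rw [mulD_coeff] at hκ
  refine hF κ fun h => hκ ?_
  rw [h, mul_zero]

end Ton
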