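import Pool.Agent.helper42.TGReal

/-!
The averaging induction.
-/

noncomputable section

namespace Ton

open Filter Topology

variable {n : ℕ}

/-- nonresonance up to degree `D` -/
def NR (α : ℝ) (V : Fin n → ℝ → ℝ) (D : ℕ) : Prop :=
  ∀ κ : Gam n, κ.1 ≠ 0 → (∀ i, |κ.1 i| ≤ D) → |κ.2| ≤ D →
    TB α ((Wf V κ)⁻¹) ∧ ∀ t, Wf V κ t ≠ 0

/-- pure time modes -/
def PM (c : ℝ) (F : AA n) : Prop := ∀ κ : Gam n, κ.1 = 0 → TB c (F.coeff κ)

/-- modes depending on space -/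
def OM (c : ℝ) (F : AA n) : Prop := ∀ κ : Gam n, κ.1 ≠ 0 → TB c (F.coeff κ)

lemma md_mul_coeff (κ κ' : Gam n) (F : AA n) : (md κ * F).coeff κ' = F.coeff (κ' - κ) := by
  unfold md
  rw [AddMonoidAlgebra.coeff_single_mul_apply]
  have e : -κ + κ' = κ' - κ := by abel
  rw [e]
  funext t
  simp

lemma FB.md (κ : Gam n) : FB 0 (md κ) := FB.single _ (TB.const 1 le_rfl)

lemma FB.md_mul {c : ℝ} (κ : Gam n) {F : AA n} (hF : FB c F) : FB c (Ton.md κ * F) := fun κ' => by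
  rw [md_mul_coeff]
  exact hF _

lemma FB.zz {c : ℝ} {Ξ : Fin n → AA n} (hΞ : ∀ l, FB c (Ξ l)) (κ : Gam n) : FB c (zz Ξ κ) :=
  FB.sum _ fun l _ => (hΞ l).cst_mul _

lemma OM.zz {c : ℝ} {Ξ : Fin n → AA n} (hΞ : ∀ l, OM c (Ξ l)) (κ : Gam n) : OM c (zz Ξ κ) := by
  intro κ' hκ'
  unfold Ton.zz
  rw [AddMonoidAlgebra.coeff_sum, Finsupp.finset_sum_apply]
  refine TB.sum _ fun l _ => ?_
  rw [cst_mul_coeff]
  exact (hΞ l κ' hκ').const_mul _

lemma zz_add (Ξ Δ : Fin n → AA n) (κ : Gam n) : zz (fun l => Ξ l + Δ l) κ = zz Ξ κ + zz Δ κ := by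
  unfold zz
  rw [← Finset.sum_add_distrib]
  exact Finset.sum_congr rfl fun l _ => by ring

lemma Dg.md {d : ℕ} {κ : Gam n} (h : (∀ i, |κ.1 i| ≤ d) ∧ |κ.2| ≤ d) : Dg d (md κ) :=
  Dg.single _ _ h

lemma Dg.zz {d : ℕ} {Ξ : Fin n → AA n} (hΞ : ∀ l, Dg d (Ξ l)) (κ : Gam n) : Dg d (zz Ξ κ) :=
  Dg.sum _ fun l _ => (hΞ l).cst_mul _

section step

variable (S : Finset (Gam n)) (c : Gam n → ℂ) (N : ℕ) (V : Fin n → ℝ → ℝ)
  (A : Matrix (Fin n) (Fin n) ℝ)

lemma GR_Dg {d dP : ℕ} (hS : ∀ κ ∈ S, (∀ i, |κ.1 i| ≤ dP) ∧ |κ.2| ≤ dP) {Ξ : Fin n → AA n}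
    (hΞ : ∀ l, Dg d (Ξ l)) (l : Fin n) : Dg (dP + N * d) (GR S c N Ξ l) :=
  Dg.sum _ fun κ hκ => (((Dg.md (hS κ hκ)).mul (EN_Dg (Dg.zz hΞ κ) N))).cst_mul _

lemma Ve_Dg (d : ℕ) (l : Fin n) : Dg d (Ve V l) := Dg.zero_single _

lemma Mo_Dg {d : ℕ} {Ξ : Fin n → AA n} (hΞ : ∀ l, Dg d (Ξ l)) (l : Fin n) :
    Dg d (Mo V A Ξ l) :=
  Dg.sum _ fun m _ => (((Ve_Dg V d m).add ((hΞ m).mulD _))).cst_mul _

lemma Er_Dg {d dP : ℕ} (hS : ∀ κ ∈ S, (∀ i, |κ.1 i| ≤ dP) ∧ |κ.2| ≤ dP) {Ξ : Fin n → AA n}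
    (hΞ : ∀ l, Dg d (Ξ l)) (hN : 1 ≤ N) (l : Fin n) : Dg (dP + N * d) (Er S c N V A Ξ l) := by
  unfold Er
  refine Dg.sub ?_ (GR_Dg S c N hS hΞ l)
  refine ((Mo_Dg V A hΞ l).mulD _).mono ?_
  calc d ≤ N * d := Nat.le_mul_of_pos_left d hN
    _ ≤ dP + N * d := Nat.le_add_left _ _

/-- difference of the formal gradients -/
lemma GR_diff {a : ℝ} (ha : 0 ≤ a) {Ξ Δ : Fin n → AA n} (hΞ : ∀ l, FB a (Ξ l))
    (hΔ : ∀ l, FB a (Δ l)) (l : Fin n) : ∃ ρ : Gam n → AA n, (∀ κ, FB a (ρ κ)) ∧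
      GR S c (N + 1) (fun l => Ξ l + Δ l) l - GR S c (N + 1) Ξ l
        = ∑ κ ∈ S, cst (2 * Real.pi * Complex.I * (κ.1 l : ℂ) * c κ) *
          (md κ * zz Δ κ + md κ * (zz Δ κ * ρ κ)) := by
  have h := fun κ => EN_diff ha (FB.zz hΞ κ) (FB.zz hΔ κ) N
  choose ρ hρ h using h
  refine ⟨ρ, hρ, ?_⟩
  unfold GR
  rw [← Finset.sum_sub_distrib]
  refine Finset.sum_congr rfl fun κ _ => ?_
  rw [zz_add, ← mul_sub, ← mul_sub, h κ]
  ring

/-- the multiplier `W⁻²` -/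
def iW (κ : Gam n) : ℝ → ℂ := open Classical in if κ = 0 then 0 else (Wf V κ)⁻¹ * (Wf V κ)⁻¹

/-- the corrector -/
def Dl (B : Matrix (Fin n) (Fin n) ℝ) (E : Fin n → AA n) (l : Fin n) : AA n :=
  mulD (iW V) (-∑ m, cst (B l m : ℂ) * E m)

lemma iW_star (κ : Gam n) : star (iW V (-κ)) = iW V κ := by
  unfold iW
  by_cases h : κ = 0
  · simp [h]
  · rw [if_neg h, if_neg (neg_ne_zero.mpr h), star_mul']
    have : star ((Wf V (-κ))⁻¹) = (Wf V κ)⁻¹ := by
      rw [← Wf_star V κ]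
      funext t
      simp
    rw [this]

lemma Dl_Rl {B : Matrix (Fin n) (Fin n) ℝ} {E : Fin n → AA n} (hE : ∀ l, Rl (E l)) (l : Fin n) :
    Rl (Dl V B E l) :=
  (Rl.sum _ fun m _ => (hE m).cst_mul _).neg.mulD (iW_star V)

lemma Dl_Dg {d : ℕ} {B : Matrix (Fin n) (Fin n) ℝ} {E : Fin n → AA n} (hE : ∀ l, Dg d (E l))
    (l : Fin n) : Dg d (Dl V B E l) :=
  (Dg.sum _ fun m _ => (hE m).cst_mul _).neg.mulD _

lemma Dl_coeff (B : Matrix (Fin n) (Fin n) ℝ) (E : Fin n → AA n) (l : Fin n) (κ : Gam n) :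
    (Dl V B E l).coeff κ = iW V κ * -∑ m, (fun _ => (B l m : ℂ)) * (E m).coeff κ := by
  unfold Dl
  rw [mulD_coeff, AddMonoidAlgebra.coeff_neg, Finsupp.neg_apply, AddMonoidAlgebra.coeff_sum,
    Finsupp.finset_sum_apply]
  congr 2
  exact Finset.sum_congr rfl fun m _ => cst_mul_coeff _ _ _

/-- size of the corrector away from the pure time modes -/
lemma Dl_OM {α a : ℝ} {D : ℕ} (hNR : NR α V D) {B : Matrix (Fin n) (Fin n) ℝ} {E : Fin n → AA n}
    (hEd : ∀ l, Dg D (E l)) (hE : ∀ l, FB a (E l)) (l : Fin n) : OM (a + 2 * α) (Dl V B E l) := by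
  intro κ hκ
  rw [Dl_coeff]
  by_cases hdeg : (∀ i, |κ.1 i| ≤ D) ∧ |κ.2| ≤ D
  · have h0 : κ ≠ 0 := fun h => hκ (by rw [h]; rfl)
    obtain ⟨h1, -⟩ := hNR κ hκ hdeg.1 hdeg.2
    unfold iW
    rw [if_neg h0]
    refine ((h1.mul h1).mul (TB.neg (TB.sum _ fun m _ => (hE m κ).const_mul _))).mono (by linarith)
  · have hz : ∀ m, (E m).coeff κ = 0 := fun m => by
      by_contra h
      exact hdeg (hEd m κ h)
    have : (-∑ m, (fun _ => (B l m : ℂ)) * (E m).coeff κ : ℝ → ℂ) = 0 := by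
      simp [hz]
    rw [this, mul_zero]
    exact TB.zero _

lemma Wf_pure {κ : Gam n} (h : κ.1 = 0) :
    Wf V κ = fun _ => 2 * Real.pi * Complex.I * ((κ.2 : ℝ) : ℂ) := by
  funext t
  unfold Wf
  simp [h]

lemma Wf_pure_ne {κ : Gam n} (h : κ.1 = 0) (h0 : κ ≠ 0) (t : ℝ) : Wf V κ t ≠ 0 := by
  rw [Wf_pure V h]
  have h2 : κ.2 ≠ 0 := fun h2 => h0 (Prod.ext h h2)
  have h3 : ((κ.2 : ℝ) : ℂ) ≠ 0 := by
    rw [Complex.ofReal_ne_zero]
    exact_mod_cast h2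
  exact mul_ne_zero (mul_ne_zero (mul_ne_zero two_ne_zero
    (Complex.ofReal_ne_zero.mpr Real.pi_ne_zero)) Complex.I_ne_zero) h3

lemma Dl_PM {a : ℝ} {B : Matrix (Fin n) (Fin n) ℝ} {E : Fin n → AA n}
    (hE : ∀ l, PM a (E l)) (l : Fin n) : PM a (Dl V B E l) := by
  intro κ hκ
  rw [Dl_coeff]
  unfold iW
  by_cases h0 : κ = 0
  · rw [if_pos h0, zero_mul]
    exact TB.zero _
  · rw [if_neg h0, Wf_pure V hκ]
    have e : ((fun _ : ℝ => 2 * (Real.pi : ℂ) * Complex.I * ((κ.2 : ℝ) : ℂ))⁻¹ : ℝ → ℂ)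
        = fun _ => (2 * (Real.pi : ℂ) * Complex.I * ((κ.2 : ℝ) : ℂ))⁻¹ := rfl
    rw [e]
    have h1 := TB.const ((2 * (Real.pi : ℂ) * Complex.I * ((κ.2 : ℝ) : ℂ))⁻¹) (le_refl (0:ℝ))
    refine ((h1.mul h1).mul (TB.neg (TB.sum _ fun m _ => (hE m κ hκ).const_mul _))).mono
      (by linarith)

lemma FB_of {a : ℝ} {F : AA n} (h1 : OM a F) (h2 : PM a F) : FB a F := fun κ => by
  by_cases h : κ.1 = 0
  · exact h2 κ h
  · exact h1 κ h

lemma OM.mono {a b : ℝ} {F : AA n} (h : OM a F) (hab : b ≤ a) : OM b F := fun κ hκ =>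
  (h κ hκ).mono hab

lemma PM.mono {a b : ℝ} {F : AA n} (h : PM a F) (hab : b ≤ a) : PM b F := fun κ hκ =>
  (h κ hκ).mono hab

/-- the new error -/
lemma Er_add (Ξ Δ : Fin n → AA n) (l : Fin n) :
    Er S c N V A (fun l => Ξ l + Δ l) l = Er S c N V A Ξ l
      + ∑ m, cst (A l m : ℂ) * d0 V (d0 V (Δ m))
      - (GR S c N (fun l => Ξ l + Δ l) l - GR S c N Ξ l) := by
  unfold Er
  have h1 : Mo V A (fun l => Ξ l + Δ l) l = Mo V A Ξ l + ∑ m, cst (A l m : ℂ) * d0 V (Δ m) := by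
    unfold Mo
    rw [← Finset.sum_add_distrib]
    refine Finset.sum_congr rfl fun m _ => ?_
    have : d0 V (Ξ m + Δ m) = d0 V (Ξ m) + d0 V (Δ m) := mulD_add _ _ _
    rw [this]
    ring
  have h2 : d0 V (Mo V A (fun l => Ξ l + Δ l) l) = d0 V (Mo V A Ξ l)
      + ∑ m, cst (A l m : ℂ) * d0 V (d0 V (Δ m)) := by
    rw [h1]
    have e1 : d0 V (Mo V A Ξ l + ∑ m, cst (A l m : ℂ) * d0 V (Δ m)) = d0 V (Mo V A Ξ l)
      + d0 V (∑ m, cst (A l m : ℂ) * d0 V (Δ m)) := mulD_add _ _ _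
    have e2 : d0 V (∑ m, cst (A l m : ℂ) * d0 V (Δ m))
      = ∑ m, d0 V (cst (A l m : ℂ) * d0 V (Δ m)) := mulD_sum _ _ _
    rw [e1, e2]
    congr 1
    exact Finset.sum_congr rfl fun m _ => mulD_cst_mul _ _ _
  rw [h2]
  ring

/-- the corrector cancels the error away from the zero mode -/
lemma cancel {B : Matrix (Fin n) (Fin n) ℝ} (hAB : A * B = 1) {E : Fin n → AA n} {κ : Gam n}
    (h0 : κ ≠ 0) (hW : (∀ t, Wf V κ t ≠ 0) ∨ ∀ m, (E m).coeff κ = 0) (l : Fin n) :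
    (∑ m, cst (A l m : ℂ) * d0 V (d0 V (Dl V B E m))).coeff κ = -(E l).coeff κ := by
  rw [AddMonoidAlgebra.coeff_sum, Finsupp.finset_sum_apply]
  have h1 : ∀ m, (cst (A l m : ℂ) * d0 V (d0 V (Dl V B E m))).coeff κ
      = (fun _ => (A l m : ℂ)) * (Wf V κ * (Wf V κ * (iW V κ *
        -∑ j, (fun _ => (B m j : ℂ)) * (E j).coeff κ))) := by
    intro m
    rw [cst_mul_coeff]
    unfold d0
    rw [mulD_coeff, mulD_coeff, Dl_coeff]
  simp only [h1]
  rcases hW with hW | hz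
  · have h2 : ∀ X : ℝ → ℂ, Wf V κ * (Wf V κ * (iW V κ * X)) = X := by
      intro X
      unfold iW
      rw [if_neg h0]
      funext t
      simp only [Pi.mul_apply, Pi.inv_apply]
      have := hW t
      field_simp
    simp only [h2]
    funext t
    simp only [Finset.sum_apply, Pi.mul_apply, Pi.neg_apply, mul_neg, Finset.sum_neg_distrib,
      Finset.mul_sum, neg_inj]
    rw [Finset.sum_comm]
    have h3 : ∀ j, ∑ m, (A l m : ℂ) * ((B m j : ℂ) * (E j).coeff κ t)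
        = (if l = j then 1 else 0) * (E j).coeff κ t := by
      intro j
      have h4 : ∑ m, A l m * B m j = (1 : Matrix (Fin n) (Fin n) ℝ) l j := by
        rw [← hAB, Matrix.mul_apply]
      have h5 : (∑ m, (A l m : ℂ) * (B m j : ℂ)) = (if l = j then 1 else 0) := by
        have h6 : (∑ m, (A l m : ℂ) * (B m j : ℂ))
            = (((1 : Matrix (Fin n) (Fin n) ℝ) l j : ℝ) : ℂ) := by
          rw [← h4]
          push_cast
          rfl
        rw [h6, Matrix.one_apply]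
        split_ifs <;> simp
      rw [← h5, Finset.sum_mul]
      exact Finset.sum_congr rfl fun m _ => by ring
    simp only [h3, ite_mul, one_mul, zero_mul, Finset.sum_ite_eq, Finset.mem_univ, if_true]
  · simp only [hz, mul_zero, Finset.sum_const_zero, neg_zero]

lemma RM_FB {a : ℝ} {Ξ : Fin n → AA n} (hΞ : ∀ l, FB a (Ξ l)) (j : Fin n) :
    FB ((N + 1 : ℕ) * a) (RM S c N Ξ j) :=
  FB.sum _ fun κ _ => ((((FB.zz hΞ κ).pow (N + 1)).cst_mul _).md_mul κ).cst_mul _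

lemma FB.par {a : ℝ} {F : AA n} (hF : FB a F) (j : Fin n) : FB a (par j F) := by
  have h := FB.mulD (φ := dph j) (d := 0) (fun κ => TB.const _ le_rfl) hF
  exact h.mono (by linarith)

end step

/-- data of the averaging at order `c` -/
structure Avg (S : Finset (Gam n)) (cc : Gam n → ℂ) (N : ℕ) (A : Matrix (Fin n) (Fin n) ℝ)
    (α : ℝ) (V : Fin n → ℝ → ℝ) (D c : ℕ) (Ξ : Fin n → AA n) : Prop where
  small : ∀ l, FB (2 * α) (Ξ l)
  deg : ∀ l, Dg D (Ξ l)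
  real : ∀ l, Rl (Ξ l)
  err : ∀ l, FB (α * c) (Er S cc (N + 1) V A Ξ l)
  pure : ∀ l, PM (α * max (c + 1 : ℝ) 2) (Er S cc (N + 1) V A Ξ l)

theorem averaging {S : Finset (Gam n)} {cc : Gam n → ℂ} {N : ℕ} {A : Matrix (Fin n) (Fin n) ℝ}
    (hA : A.IsSymm) {B : Matrix (Fin n) (Fin n) ℝ} (hAB : A * B = 1)
    (hS : ∀ κ ∈ S, -κ ∈ S) (hS0 : ∀ κ ∈ S, κ.1 ≠ 0)
    (hc : ∀ κ, cc (-κ) = (starRingEnd ℂ) (cc κ)) {α : ℝ} (hα : 0 < α) (c : ℕ)
    (hcN : c ≤ 2 * (N + 1)) :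
    ∃ D : ℕ, ∀ V : Fin n → ℝ → ℝ, NR α V D → ∃ Ξ, Avg S cc N A α V D c Ξ := by
  classical
  obtain ⟨dP, hdP⟩ : ∃ dP : ℕ, ∀ κ ∈ S, (∀ i, |κ.1 i| ≤ dP) ∧ |κ.2| ≤ dP := by
    refine ⟨∑ κ ∈ S, (∑ i, (κ.1 i).natAbs + (κ.2).natAbs), fun κ hκ => ?_⟩
    have h1 : ∑ i, (κ.1 i).natAbs + (κ.2).natAbs ≤ ∑ κ ∈ S, (∑ i, (κ.1 i).natAbs + (κ.2).natAbs) :=
      Finset.single_le_sum (f := fun κ : Gam n => ∑ i, (κ.1 i).natAbs + (κ.2).natAbs)
        (fun _ _ => Nat.zero_le _) hκ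
    constructor
    · intro i
      have h2 : (κ.1 i).natAbs ≤ ∑ i, (κ.1 i).natAbs :=
        Finset.single_le_sum (f := fun i => (κ.1 i).natAbs) (fun _ _ => Nat.zero_le _)
          (Finset.mem_univ i)
      have h3 : |κ.1 i| = ((κ.1 i).natAbs : ℤ) := Int.abs_eq_natAbs _
      rw [h3]
      exact_mod_cast h2.trans ((Nat.le_add_right _ _).trans h1)
    · have h3 : |κ.2| = ((κ.2).natAbs : ℤ) := Int.abs_eq_natAbs _
      rw [h3]
      exact_mod_cast (Nat.le_add_left _ _).trans h1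
  induction c with
  | zero =>
    refine ⟨0, fun V _ => ⟨fun _ => 0, ?_⟩⟩
    have hz : ∀ κ : Gam n, zz (fun _ : Fin n => (0 : AA n)) κ = 0 := by
      intro κ
      unfold zz
      simp
    have hE0 : EN (N + 1) (0 : AA n) = 1 := by
      unfold EN
      rw [Finset.sum_range_succ']
      simp [cst_one]
    have hEr : ∀ l, Er S cc (N + 1) V A (fun _ => 0) l
        = -∑ κ ∈ S, cst (2 * Real.pi * Complex.I * (κ.1 l : ℂ) * cc κ) * md κ := by
      intro l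
      unfold Er
      have h1 : d0 V (Mo V A (fun _ => 0) l) = 0 := by
        have e1 : d0 V (Mo V A (fun _ => 0) l)
            = ∑ m, d0 V (cst (A l m : ℂ) * (Ve V m + d0 V (0 : AA n))) := mulD_sum _ _ _
        rw [e1]
        refine Finset.sum_eq_zero fun m _ => ?_
        have h0 : d0 V (0 : AA n) = 0 := mulD_zero _
        rw [h0, add_zero]
        unfold cst Ve d0
        rw [AddMonoidAlgebra.single_mul_single, add_zero, mulD_single, Wf_zero, zero_mul,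
          AddMonoidAlgebra.single_zero]
      rw [h1, zero_sub]
      unfold GR
      simp only [hz, hE0, mul_one]
    refine ⟨fun l => FB.zero _, fun l => Dg.zero _, fun l => Rl.zero, fun l => ?_, fun l => ?_⟩
    · rw [hEr l]
      refine FB.neg (FB.sum _ fun κ _ => FB.cst_mul _ ?_)
      exact (FB.md κ).mono (by simp)
    · rw [hEr l]
      intro κ hκ
      have : (-∑ κ ∈ S, cst (2 * Real.pi * Complex.I * (κ.1 l : ℂ) * cc κ) * md κ : AA n).coeff κ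
          = 0 := by
        rw [AddMonoidAlgebra.coeff_neg, Finsupp.neg_apply, AddMonoidAlgebra.coeff_sum,
          Finsupp.finset_sum_apply, Finset.sum_eq_zero, neg_zero]
        intro κ' hκ'
        rw [cst_mul_coeff]
        unfold md
        rw [AddMonoidAlgebra.coeff_single_apply, if_neg, mul_zero]
        intro h
        exact hS0 κ' hκ' (by rw [h]; exact hκ)
      rw [this]
      exact TB.zero _
  | succ c ih =>
    obtain ⟨D, hD⟩ := ih (by omega)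
    refine ⟨dP + (N + 1) * D, fun V hNR => ?_⟩
    have hDD : D ≤ dP + (N + 1) * D :=
      (Nat.le_mul_of_pos_left D (Nat.succ_pos N)).trans (Nat.le_add_left _ _)
    obtain ⟨Ξ, hΞ⟩ := hD V (fun κ h1 h2 h3 => by
      have hDD' : (D : ℤ) ≤ ((dP + (N + 1) * D : ℕ) : ℤ) := by exact_mod_cast hDD
      exact hNR κ h1 (fun i => (h2 i).trans hDD') (h3.trans hDD'))
    set E := Er S cc (N + 1) V A Ξ with hE
    set Δ := Dl V B E with hΔ
    have hEd : ∀ l, Dg (dP + (N + 1) * D) (E l) := fun l =>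
      Er_Dg S cc (N + 1) V A hdP hΞ.deg (Nat.succ_le_succ (Nat.zero_le N)) l
    have hΔd : ∀ l, Dg (dP + (N + 1) * D) (Δ l) := fun l => Dl_Dg V hEd l
    have hΔO : ∀ l, OM (α * (c + 2)) (Δ l) := fun l =>
      (Dl_OM V hNR hEd hΞ.err l).mono (by linarith)
    have hΔP : ∀ l, PM (α * max (c + 1 : ℝ) 2) (Δ l) := fun l => Dl_PM V hΞ.pure l
    have hc0 : (0:ℝ) ≤ c := Nat.cast_nonneg c
    have hΔ2 : ∀ l, FB (2 * α) (Δ l) := fun l => by
      refine FB_of ((hΔO l).mono ?_) ((hΔP l).mono ?_)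
      · nlinarith
      · rw [mul_comm]
        exact mul_le_mul_of_nonneg_left (le_max_right _ _) hα.le
    have hΔ1 : ∀ l, FB (α * (c + 1)) (Δ l) := fun l => by
      refine FB_of ((hΔO l).mono ?_) ((hΔP l).mono ?_)
      · nlinarith
      · exact mul_le_mul_of_nonneg_left (le_max_left _ _) hα.le
    have hnew2 : ∀ l, FB (2 * α) (Ξ l + Δ l) := fun l => (hΞ.small l).add (hΔ2 l)
    -- the difference of the gradients
    set Gd : Fin n → AA n := fun l =>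
      GR S cc (N + 1) (fun l => Ξ l + Δ l) l - GR S cc (N + 1) Ξ l with hGd
    have hGdF : ∀ l, FB (α * (c + 1)) (Gd l) ∧ PM (α * (c + 2)) (Gd l) := by
      intro l
      obtain ⟨ρ, hρ, heq⟩ := GR_diff S cc N (by positivity : 0 ≤ 2 * α) hΞ.small hΔ2 l
      simp only [hGd]
      rw [heq]
      constructor
      · refine FB.sum _ fun κ _ => FB.cst_mul _ (FB.add ?_ ?_)
        · exact (FB.zz hΔ1 κ).md_mul κ
        · exact (((FB.zz hΔ1 κ).mul (hρ κ)).md_mul κ).mono (by nlinarith)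
      · intro κ hκ
        rw [AddMonoidAlgebra.coeff_sum, Finsupp.finset_sum_apply]
        refine TB.sum _ fun κ' hκ' => ?_
        rw [cst_mul_coeff]
        refine TB.const_mul _ ?_
        rw [AddMonoidAlgebra.coeff_add, Finsupp.add_apply]
        refine TB.add ?_ ?_
        · rw [md_mul_coeff]
          refine OM.zz hΔO κ' _ ?_
          rw [Prod.fst_sub, hκ, zero_sub]
          exact neg_ne_zero.mpr (hS0 κ' hκ')
        · exact ((((FB.zz hΔ1 κ').mul (hρ κ')).md_mul κ') κ).mono (by nlinarith)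
    -- coefficients of the new error
    have hcoeff : ∀ l κ, κ ≠ 0 →
        (Er S cc (N + 1) V A (fun l => Ξ l + Δ l) l).coeff κ = -(Gd l).coeff κ := by
      intro l κ h0
      rw [Er_add, AddMonoidAlgebra.coeff_sub, Finsupp.sub_apply, AddMonoidAlgebra.coeff_add,
        Finsupp.add_apply, hΔ, cancel V A hAB h0]
      · simp only [hE, add_neg_cancel, zero_sub]
        rfl
      · by_cases hκ : κ.1 = 0
        · exact Or.inl (Wf_pure_ne V hκ h0)
        · by_cases hdeg : (∀ i, |κ.1 i| ≤ (dP + (N + 1) * D : ℕ)) ∧ |κ.2| ≤ (dP + (N + 1) * D : ℕ)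
          · exact Or.inl (hNR κ hκ hdeg.1 hdeg.2).2
          · refine Or.inr fun m => ?_
            by_contra h
            exact hdeg (hEd m κ h)
    have hcoeff0 : ∀ l, (Er S cc (N + 1) V A (fun l => Ξ l + Δ l) l).coeff 0
        = (E l).coeff 0 - (Gd l).coeff 0 := by
      intro l
      rw [Er_add, AddMonoidAlgebra.coeff_sub, Finsupp.sub_apply, AddMonoidAlgebra.coeff_add,
        Finsupp.add_apply]
      have : (∑ m, cst (A l m : ℂ) * d0 V (d0 V (Δ m))).coeff 0 = 0 := by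
        rw [AddMonoidAlgebra.coeff_sum, Finsupp.finset_sum_apply]
        refine Finset.sum_eq_zero fun m _ => ?_
        rw [cst_mul_coeff, coeff_d0_zero, mul_zero]
      rw [this, add_zero]
    have herr : ∀ l, FB (α * (c + 1)) (Er S cc (N + 1) V A (fun l => Ξ l + Δ l) l) := by
      intro l κ
      by_cases h0 : κ = 0
      · rw [h0, hcoeff0]
        have h1 := hΞ.pure l 0 rfl
        have h2 := (hGdF l).1 0
        have h3 : TB (α * (c + 1)) ((E l).coeff 0) :=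
          h1.mono (mul_le_mul_of_nonneg_left (le_max_left _ _) hα.le)
        rw [sub_eq_add_neg]
        exact h3.add h2.neg
      · rw [hcoeff l κ h0]
        exact ((hGdF l).1 κ).neg
    refine ⟨fun l => Ξ l + Δ l, ⟨hnew2, fun l => ((hΞ.deg l).mono hDD).add (hΔd l),
      fun l => (hΞ.real l).add (Dl_Rl V (fun m => Er_Rl hS hc (N + 1) hΞ.real m) l),
      fun l => ?_, fun l => ?_⟩⟩
    · have := herr l
      push_cast
      exact this
    · have hmax : max (((c + 1 : ℕ) : ℝ) + 1) 2 = c + 2 := by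
        rw [max_eq_left]
        · push_cast; ring
        · push_cast; linarith
      rw [hmax]
      intro κ hκ
      by_cases h0 : κ = 0
      · rw [h0, zero_mode S cc (N + 1) V A hA]
        have h1 := RM_FB S cc (N + 1) hnew2 l 0
        have h2 : FB (α * (c + 2)) (∑ j, par l (Ξ j + Δ j) *
            Er S cc (N + 1) V A (fun l => Ξ l + Δ l) j) :=
          FB.sum _ fun j _ => (((hnew2 j).par l).mul (herr j)).mono (by nlinarith)
        rw [sub_eq_add_neg]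
        refine (h1.mono ?_).add (h2 0).neg
        have h3 : ((c:ℝ) + 1) ≤ 2 * (N + 1) := by exact_mod_cast hcN
        push_cast
        nlinarith
      · rw [hcoeff l κ h0]
        exact ((hGdF l).2 κ hκ).neg

end Ton
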