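import Pool.Agent.helper42.TGAvg

/-!
Evaluation of formal sums along a curve, and the approximate solution.
-/

noncomputable section

namespace Ton

open Filter Topology

variable {n : ℕ}

section eval

variable (y : ℝ → Fin n → ℝ)

/-- exponential of a mode along the curve -/
def ek (κ : Gam n) (t : ℝ) : ℂ :=
  Complex.exp (2 * Real.pi * Complex.I * ((∑ l, (κ.1 l : ℝ) * y t l + (κ.2 : ℝ) * t : ℝ) : ℂ))

lemma ek_add (a b : Gam n) : ek y (a + b) = ek y a * ek y b := by
  funext t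
  simp only [ek, Pi.mul_apply, ← Complex.exp_add]
  congr 1
  simp only [Prod.fst_add, Prod.snd_add, Pi.add_apply, Int.cast_add, add_mul,
    Finset.sum_add_distrib]
  push_cast
  ring

lemma ek_zero : ek y (0 : Gam n) = 1 := by
  funext t
  simp [ek]

lemma ek_norm (κ : Gam n) (t : ℝ) : ‖ek y κ t‖ = 1 := by
  unfold ek
  rw [show (2 * (Real.pi : ℂ) * Complex.I *
    ((∑ l, (κ.1 l : ℝ) * y t l + (κ.2 : ℝ) * t : ℝ) : ℂ))
    = ((2 * Real.pi * (∑ l, (κ.1 l : ℝ) * y t l + (κ.2 : ℝ) * t) : ℝ) : ℂ) * Complex.I by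
      push_cast; ring]
  exact Complex.norm_exp_ofReal_mul_I _

lemma ek_star (κ : Gam n) (t : ℝ) : (starRingEnd ℂ) (ek y κ t) = ek y (-κ) t := by
  have h1 : (∑ l, ((-κ).1 l : ℝ) * y t l + ((-κ).2 : ℝ) * t)
      = -(∑ l, (κ.1 l : ℝ) * y t l + (κ.2 : ℝ) * t) := by
    simp only [Prod.fst_neg, Prod.snd_neg, Pi.neg_apply, Int.cast_neg, neg_mul,
      Finset.sum_neg_distrib]
    ring
  unfold ek
  rw [← Complex.exp_conj, h1]
  congr 1
  simp only [map_mul, Complex.conj_ofReal, Complex.conj_I, map_ofNat]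
  push_cast
  ring

/-- the multiplicative character -/
def ekh : Multiplicative (Gam n) →* (ℝ → ℂ) where
  toFun κ := ek y (Multiplicative.toAdd κ)
  map_one' := by rw [toAdd_one, ek_zero]
  map_mul' a b := by rw [toAdd_mul, ek_add]

/-- evaluation -/
def evp : AA n →+* (ℝ → ℂ) :=
  AddMonoidAlgebra.liftNCRingHom (RingHom.id _) (ekh y) (fun _ _ => Commute.all _ _)

lemma evp_single (κ : Gam n) (h : ℝ → ℂ) : evp y (AddMonoidAlgebra.single κ h) = h * ek y κ := by
  unfold evp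
  rw [AddMonoidAlgebra.liftNCRingHom_single]
  rfl

lemma evp_cst (a : ℂ) : evp y (cst a : AA n) = fun _ => a := by
  unfold cst
  rw [evp_single, ek_zero, mul_one]

lemma evp_sum (F : AA n) {s : Finset (Gam n)} (hs : F.coeff.support ⊆ s) :
    evp y F = ∑ κ ∈ s, F.coeff κ * ek y κ := by
  classical
  have h1 : F = ∑ κ ∈ F.coeff.support, AddMonoidAlgebra.single κ (F.coeff κ) := by
    conv_lhs => rw [← AddMonoidAlgebra.sum_coeff_single F]
    rfl
  have h2 : evp y F = ∑ κ ∈ F.coeff.support, F.coeff κ * ek y κ := by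
    conv_lhs => rw [h1]
    rw [map_sum]
    exact Finset.sum_congr rfl fun κ _ => evp_single y κ _
  rw [h2]
  refine Finset.sum_subset hs fun κ _ hκ => ?_
  rw [Finsupp.notMem_support_iff] at hκ
  rw [hκ, zero_mul]

lemma evp_star (F : AA n) : star (evp y F) = evp y (cj F) := by
  refine AddMonoidAlgebra.induction_linear F ?_ ?_ ?_
  · simp
  · intro F G hF hG
    rw [map_add, star_add, hF, hG, map_add, map_add]
  · intro a x
    rw [cj_single, evp_single, evp_single, star_mul']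
    congr 1
    funext t
    exact ek_star y a t

/-- coefficientwise derivative -/
def dC (F : AA n) : AA n :=
  .ofCoeff (Finsupp.onFinset F.coeff.support (fun κ => deriv (F.coeff κ)) (fun κ h => by
    rw [Finsupp.mem_support_iff]
    intro h0
    apply h
    rw [h0]
    funext t
    exact deriv_const t (0 : ℂ)))

lemma dC_coeff (F : AA n) (κ : Gam n) : (dC F).coeff κ = deriv (F.coeff κ) := rfl

variable {y} {V : Fin n → ℝ → ℝ}

lemma ek_hasDerivAt (hy : ∀ j t, HasDerivAt (fun s => y s j) (V j t) t) (κ : Gam n) (t : ℝ) :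
    HasDerivAt (ek y κ) (Wf V κ t * ek y κ t) t := by
  have h1 : HasDerivAt (fun t => ∑ l, (κ.1 l : ℝ) * y t l + (κ.2 : ℝ) * t)
      (∑ l, (κ.1 l : ℝ) * V l t + (κ.2 : ℝ)) t := by
    refine HasDerivAt.add (HasDerivAt.fun_sum fun l _ => ?_) ?_
    · exact (hy l t).const_mul _
    · simpa using (hasDerivAt_id t).const_mul (κ.2 : ℝ)
  have h2 := (h1.ofReal_comp.const_mul (2 * Real.pi * Complex.I : ℂ)).cexp
  unfold ek Wf
  rw [mul_comm (Complex.exp _)] at h2
  exact h2

lemma evp_hasDerivAt (hy : ∀ j t, HasDerivAt (fun s => y s j) (V j t) t) {F : AA n}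
    (hF : ∀ κ, Differentiable ℝ (F.coeff κ)) (t : ℝ) :
    HasDerivAt (evp y F) (evp y (d0 V F + dC F) t) t := by
  classical
  have h0 : (d0 V F + dC F).coeff.support ⊆ F.coeff.support := by
    intro κ hκ
    rw [Finsupp.mem_support_iff] at hκ ⊢
    intro h
    apply hκ
    rw [AddMonoidAlgebra.coeff_add, Finsupp.add_apply, dC_coeff]
    unfold d0
    rw [mulD_coeff, h, mul_zero, zero_add]
    funext t
    exact deriv_const t (0 : ℂ)
  rw [evp_sum y F (le_refl _), evp_sum y _ h0]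
  have h1 : ∀ κ, HasDerivAt (F.coeff κ * ek y κ) (((d0 V F + dC F).coeff κ * ek y κ) t) t := by
    intro κ
    have := ((hF κ) t).hasDerivAt.mul (ek_hasDerivAt hy κ t)
    refine this.congr_deriv ?_
    rw [AddMonoidAlgebra.coeff_add, Finsupp.add_apply, dC_coeff]
    unfold d0
    rw [mulD_coeff]
    simp only [Pi.mul_apply, Pi.add_apply]
    ring
  have h2 := HasDerivAt.sum (u := F.coeff.support) (fun κ _ => h1 κ)
  refine h2.congr_deriv ?_
  rw [Finset.sum_apply]

/-- coefficient class without gain -/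
def FT (c : ℝ) (F : AA n) : Prop := ∀ κ, TA 0 c (F.coeff κ)

lemma FB.ft {c : ℝ} {F : AA n} (h : FB c F) : FT c F := fun κ => (h κ).ta

lemma FT.add {c : ℝ} {F G : AA n} (hF : FT c F) (hG : FT c G) : FT c (F + G) := fun κ => by
  rw [AddMonoidAlgebra.coeff_add, Finsupp.add_apply]
  exact (hF κ).add (hG κ)

lemma FT.mono {c c' : ℝ} {F : AA n} (h : FT c F) (hc : c' ≤ c) : FT c' F :=
  fun κ => (h κ).mono le_rfl hc

lemma Wf_TB {a : ℝ} (ha : 0 ≤ a) (hV : ∀ j, TB (-a) (fun t => (V j t : ℂ))) (κ : Gam n) :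
    TB (-a) (Wf V κ) := by
  have h1 : TB (-a) (∑ l, (fun _ => (κ.1 l : ℂ)) * (fun t => (V l t : ℂ))
      + (fun _ : ℝ => (κ.2 : ℂ))) :=
    (TB.sum _ fun l _ => (hV l).const_mul _).add (TB.const _ (by linarith))
  have h2 := h1.const_mul (2 * Real.pi * Complex.I)
  have e : Wf V κ = (fun _ => (2 * Real.pi * Complex.I : ℂ)) *
      (∑ l, (fun _ => (κ.1 l : ℂ)) * (fun t => (V l t : ℂ)) + (fun _ : ℝ => (κ.2 : ℂ))) := by
    funext t
    simp [Wf]
  rw [e]
  exact h2

lemma ek_TA {a : ℝ} (ha : 0 ≤ a) (hy : ∀ j t, HasDerivAt (fun s => y s j) (V j t) t)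
    (hV : ∀ j, TB (-a) (fun t => (V j t : ℂ))) (κ : Gam n) : TA a 0 (ek y κ) :=
  TA_lin ((Wf_TB ha hV κ).ta.mono ha le_rfl) (ek_hasDerivAt hy κ)
    ⟨1, fun t => (ek_norm y κ t).le⟩

lemma evp_TA {a c : ℝ} (ha : 0 ≤ a) (hy : ∀ j t, HasDerivAt (fun s => y s j) (V j t) t)
    (hV : ∀ j, TB (-a) (fun t => (V j t : ℂ))) {F : AA n} (hF : FT c F) : TA a c (evp y F) := by
  rw [evp_sum y F (le_refl _)]
  have h1 := TA.sum F.coeff.support (σ := a) (c := c)
    (f := fun κ t => F.coeff κ t * ek y κ t) (fun κ _ =>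
      (((hF κ).mono ha le_rfl).mul (ek_TA ha hy hV κ)).mono le_rfl (by linarith))
  have e : (∑ κ ∈ F.coeff.support, F.coeff κ * ek y κ)
      = fun t => ∑ κ ∈ F.coeff.support, F.coeff κ t * ek y κ t := by
    funext t
    simp
  rw [e]
  exact h1

/-- remainder of the exponential -/
def EX (N : ℕ) (z : ℝ → ℂ) (t : ℝ) : ℂ :=
  Complex.exp (z t) - ∑ l ∈ Finset.range (N + 1), (1 / (l.factorial : ℂ)) * z t ^ l

lemma EX_TA {σ c : ℝ} (hc : 0 ≤ c) {z : ℝ → ℂ} (hz : TA σ c z) (N : ℕ) :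
    TA σ ((N + 1 : ℕ) * c) (EX N z) := by
  induction N with
  | zero =>
    have h := TA_E1 hc hz
    have e : EX 0 z = fun t => Complex.exp (z t) - 1 := by
      funext t
      simp [EX]
    rw [e]
    simpa using h
  | succ N ih =>
    have hd : ∀ t, HasDerivAt (EX (N + 1) z) (deriv z t * EX N z t) t := by
      intro t
      have hz' := (hz.diff t).hasDerivAt
      have h1 := hz'.cexp
      have h2 : HasDerivAt (fun t => ∑ l ∈ Finset.range (N + 1 + 1),
          (1 / (l.factorial : ℂ)) * z t ^ l)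
          (∑ l ∈ Finset.range (N + 1 + 1), (1 / (l.factorial : ℂ)) *
            ((l : ℂ) * z t ^ (l - 1) * deriv z t)) t :=
        HasDerivAt.fun_sum fun l _ => (hz'.pow l).const_mul _
      have h3 := h1.sub h2
      refine h3.congr_deriv ?_
      have h4 : ∑ l ∈ Finset.range (N + 1 + 1), (1 / (l.factorial : ℂ)) *
            ((l : ℂ) * z t ^ (l - 1) * deriv z t)
          = deriv z t * ∑ l ∈ Finset.range (N + 1), (1 / (l.factorial : ℂ)) * z t ^ l := by
        rw [Finset.sum_range_succ', Finset.mul_sum]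
        simp only [Nat.cast_zero, zero_mul, mul_zero, add_zero]
        refine Finset.sum_congr rfl fun l _ => ?_
        rw [Nat.factorial_succ, Nat.add_sub_cancel]
        have h5 : ((l + 1 : ℕ) : ℂ) ≠ 0 := Nat.cast_ne_zero.mpr (Nat.succ_ne_zero l)
        have h6 : (l.factorial : ℂ) ≠ 0 := Nat.cast_ne_zero.mpr (Nat.factorial_ne_zero l)
        rw [Nat.cast_mul]
        field_simp
      rw [h4]
      unfold EX
      ring
    refine TA.of_deriv ?_ (fun t => (hd t).differentiableAt) ?_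
    · obtain ⟨M, hM0, hM⟩ := hz.bd.norm_le hc
      obtain ⟨C, hC⟩ := hz.bd
      refine ⟨C ^ (N + 2) * Real.exp M, fun t => ?_⟩
      have h1 := Complex.norm_exp_sub_sum_le_norm_mul_exp (z t) (N + 2)
      have e : Complex.exp (z t) - ∑ m ∈ Finset.range (N + 2), z t ^ m / (m.factorial : ℂ)
          = EX (N + 1) z t := by
        unfold EX
        congr 1
        exact Finset.sum_congr rfl fun l _ => by ring
      rw [e] at h1
      refine h1.trans ?_
      have h2 : ‖z t‖ ^ (N + 2) ≤ C ^ (N + 2) * jb t ^ (-((N + 1 + 1 : ℕ) * c)) := by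
        have e : C ^ (N + 2) * jb t ^ (-((N + 1 + 1 : ℕ) * c)) = (C * jb t ^ (-c)) ^ (N + 2) := by
          rw [mul_pow, ← Real.rpow_natCast (jb t ^ (-c)), ← Real.rpow_mul (jb_pos t).le]
          congr 2
          push_cast
          ring
        rw [e]
        exact pow_le_pow_left₀ (norm_nonneg _) (hC t) _
      rw [mul_right_comm]
      exact mul_le_mul h2 (Real.exp_le_exp.mpr (hM t)) (Real.exp_pos _).le
        ((by positivity : (0:ℝ) ≤ ‖z t‖ ^ (N + 2)).trans h2)
    · have : deriv (EX (N + 1) z) = fun t => deriv z t * EX N z t := by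
        funext t; exact (hd t).deriv
      rw [this]
      exact (hz.deriv.mul ih).mono le_rfl (by push_cast; linarith)

lemma evp_EN (N : ℕ) (z : AA n) :
    evp y (EN N z) = fun t => ∑ l ∈ Finset.range (N + 1), (1 / (l.factorial : ℂ)) * evp y z t ^ l := by
  unfold EN
  rw [map_sum]
  funext t
  rw [Finset.sum_apply]
  refine Finset.sum_congr rfl fun l _ => ?_
  rw [map_mul, map_pow, evp_cst]
  rfl

lemma evp_md (κ : Gam n) : evp y (md κ) = ek y κ := by
  unfold md
  rw [evp_single]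
  funext t
  simp

end eval

/-- trigonometric force -/
def frc (S : Finset (Gam n)) (cc : Gam n → ℂ) (j : Fin n) (x : Fin n → ℝ) (t : ℝ) : ℂ :=
  ∑ κ ∈ S, 2 * Real.pi * Complex.I * (κ.1 j : ℂ) * cc κ *
    Complex.exp (2 * Real.pi * Complex.I * ((∑ l, (κ.1 l : ℝ) * x l + (κ.2 : ℝ) * t : ℝ) : ℂ))

theorem approx_solution {S : Finset (Gam n)} {cc : Gam n → ℂ} {N : ℕ}
    {A : Matrix (Fin n) (Fin n) ℝ} {α : ℝ} (hα : 0 < α) {c D : ℕ} {V : Fin n → ℝ → ℝ}
    {y : ℝ → Fin n → ℝ} {Ξ : Fin n → AA n}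
    (hAvg : Avg S cc N A α V D c Ξ) (hc : 1 - α ≤ α * c) (hN : 1 ≤ 2 * α * (N + 2))
    (hy : ∀ j t, HasDerivAt (fun s => y s j) (V j t) t)
    (hV : ∀ j, TB (-α) (fun t => (V j t : ℂ))) :
    ∃ X X2 w : ℝ → Fin n → ℝ,
      (∀ j t, ((X t j : ℝ) : ℂ) = (y t j : ℂ) + evp y (Ξ j) t) ∧
      (∀ j, TA α (2 * α) (fun t => X t j - y t j)) ∧
      (∀ j, Differentiable ℝ (fun t => X t j)) ∧
      (∀ j t, HasDerivAt (deriv (fun t => X t j)) (X2 t j) t) ∧
      (∀ j, TA α (1 - α) (fun t => w t j)) ∧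
      ∀ j t, ∑ m, A j m * X2 t m = (frc S cc j (X t) t).re + w t j := by
  classical
  have hα0 : 0 ≤ α := hα.le
  have hdiff : ∀ m κ, Differentiable ℝ ((Ξ m).coeff κ) := fun m κ => (hAvg.small m κ).2.1
  set ξ : Fin n → ℝ → ℂ := fun m => evp y (Ξ m) with hξ
  set F1 : Fin n → AA n := fun m => d0 V (Ξ m) + dC (Ξ m) with hF1
  have hWT := fun κ => Wf_TB hα0 hV κ
  have hξd : ∀ m t, HasDerivAt (ξ m) (evp y (F1 m) t) t := fun m t =>
    evp_hasDerivAt hy (hdiff m) t
  -- classes of the derivatives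
  have hWΞ : ∀ m κ, TB α (Wf V κ * (Ξ m).coeff κ) := fun m κ =>
    ((hWT κ).mul (hAvg.small m κ)).mono (by linarith)
  have hΞ' : ∀ m κ, TA 0 (2 * α + 1) (deriv ((Ξ m).coeff κ)) := fun m κ => (hAvg.small m κ).2.2
  have hF1c : ∀ m κ, (F1 m).coeff κ = fun t => (Wf V κ * (Ξ m).coeff κ) t
      + deriv ((Ξ m).coeff κ) t := by
    intro m κ
    simp only [hF1]
    rw [AddMonoidAlgebra.coeff_add, Finsupp.add_apply, dC_coeff]
    unfold d0
    rw [mulD_coeff]
    rfl
  have hF1d : ∀ m κ, Differentiable ℝ ((F1 m).coeff κ) := by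
    intro m κ
    rw [hF1c]
    exact (hWΞ m κ).2.1.add (hΞ' m κ).diff
  have hF1' : ∀ m, FT (α + 1) (dC (F1 m)) := by
    intro m κ
    rw [dC_coeff, hF1c]
    have e : deriv (fun t => (Wf V κ * (Ξ m).coeff κ) t + deriv ((Ξ m).coeff κ) t)
        = fun t => deriv (Wf V κ * (Ξ m).coeff κ) t + deriv (deriv ((Ξ m).coeff κ)) t := by
      funext t
      exact deriv_add ((hWΞ m κ).2.1 t) ((hΞ' m κ).diff t)
    rw [e]
    exact ((hWΞ m κ).2.2).add ((hΞ' m κ).deriv.mono le_rfl (by linarith))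
  have hξd2 : ∀ m t, HasDerivAt (evp y (F1 m)) (evp y (d0 V (F1 m) + dC (F1 m)) t) t := fun m t =>
    evp_hasDerivAt hy (hF1d m) t
  set R : Fin n → AA n := fun m => d0 V (dC (Ξ m)) + dC (F1 m) with hR
  have hRT : ∀ m, FT (α + 1) (R m) := by
    intro m
    refine FT.add ?_ (hF1' m)
    intro κ
    unfold d0
    rw [mulD_coeff, dC_coeff]
    exact ((hWT κ).ta.mul (hΞ' m κ)).mono le_rfl (by linarith)
  have hsplit : ∀ m, d0 V (F1 m) + dC (F1 m) = d0 V (d0 V (Ξ m)) + R m := by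
    intro m
    have : d0 V (F1 m) = d0 V (d0 V (Ξ m)) + d0 V (dC (Ξ m)) := mulD_add _ _ _
    rw [this, hR]
    ring
  -- reality
  have hreal : ∀ m t, (((ξ m t).re : ℝ) : ℂ) = ξ m t := by
    intro m t
    refine Complex.conj_eq_iff_re.mp ?_
    have h1 := evp_star y (Ξ m)
    rw [hAvg.real m] at h1
    exact congrFun h1 t
  set X : ℝ → Fin n → ℝ := fun t j => y t j + (ξ j t).re with hX
  have hXc : ∀ j t, ((X t j : ℝ) : ℂ) = (y t j : ℂ) + ξ j t := by
    intro j t
    simp only [hX]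
    push_cast
    rw [hreal]
  have hξre : ∀ m t, HasDerivAt (fun t => (ξ m t).re) ((evp y (F1 m) t).re) t := fun m t =>
    (Complex.reCLM.hasFDerivAt.comp_hasDerivAt t (hξd m t))
  have hXd : ∀ j t, HasDerivAt (fun t => X t j) (V j t + (evp y (F1 j) t).re) t := fun j t =>
    (hy j t).add (hξre j t)
  have hXd' : ∀ j, deriv (fun t => X t j) = fun t => V j t + (evp y (F1 j) t).re := fun j => by
    funext t; exact (hXd j t).deriv
  have hVd : ∀ j, Differentiable ℝ (V j) := by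
    intro j
    have h1 := (hV j).2.1
    have h2 : V j = fun t => Complex.reCLM ((V j t : ℂ)) := by
      funext t; simp
    rw [h2]
    exact Complex.reCLM.differentiable.comp h1
  have hX2 : ∀ j t, HasDerivAt (deriv (fun t => X t j))
      (deriv (V j) t + (evp y (d0 V (F1 j) + dC (F1 j)) t).re) t := by
    intro j t
    rw [hXd']
    exact ((hVd j) t).hasDerivAt.add
      (Complex.reCLM.hasFDerivAt.comp_hasDerivAt t (hξd2 j t))
  set X2 : ℝ → Fin n → ℝ := fun t j => deriv (V j) t + (evp y (d0 V (F1 j) + dC (F1 j)) t).re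
    with hX2def
  -- the corrections of the force
  set z : Gam n → ℝ → ℂ := fun κ => evp y (zz Ξ κ) with hz
  have hzT : ∀ κ, TA α (2 * α) (z κ) := fun κ => evp_TA hα0 hy hV (FB.zz hAvg.small κ).ft
  have hzsum : ∀ κ t, z κ t = 2 * Real.pi * Complex.I * ∑ l, (κ.1 l : ℂ) * ξ l t := by
    intro κ t
    simp only [hz]
    unfold zz
    rw [map_sum, Finset.sum_apply, Finset.mul_sum]
    refine Finset.sum_congr rfl fun l _ => ?_
    rw [map_mul, evp_cst]
    simp only [Pi.mul_apply, hξ]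
    ring
  have hforce : ∀ j t, frc S cc j (X t) t = evp y (GR S cc (N + 1) Ξ j) t
      + ∑ κ ∈ S, 2 * Real.pi * Complex.I * (κ.1 j : ℂ) * cc κ * (ek y κ t * EX (N + 1) (z κ) t) := by
    intro j t
    unfold frc GR
    rw [map_sum, Finset.sum_apply, ← Finset.sum_add_distrib]
    refine Finset.sum_congr rfl fun κ _ => ?_
    have h1 : Complex.exp (2 * Real.pi * Complex.I *
        ((∑ l, (κ.1 l : ℝ) * X t l + (κ.2 : ℝ) * t : ℝ) : ℂ)) = ek y κ t * Complex.exp (z κ t) := by
      unfold ek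
      rw [← Complex.exp_add, hzsum]
      congr 1
      have h2 : ((∑ l, (κ.1 l : ℝ) * X t l : ℝ) : ℂ)
          = ∑ l, (κ.1 l : ℂ) * (y t l : ℂ) + ∑ l, (κ.1 l : ℂ) * ξ l t := by
        rw [← Finset.sum_add_distrib]
        push_cast
        refine Finset.sum_congr rfl fun l _ => ?_
        rw [hXc]
        ring
      push_cast at h2 ⊢
      rw [h2]
      ring
    rw [h1, map_mul, map_mul, evp_cst, evp_md, evp_EN]
    simp only [Pi.mul_apply]
    unfold EX
    simp only [hz]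
    ring
  set w : ℝ → Fin n → ℂ := fun t j => (∑ m, (A j m : ℂ) * ((deriv (V m) t : ℝ) : ℂ))
      + evp y (Er S cc (N + 1) V A Ξ j) t + (∑ m, (A j m : ℂ) * evp y (R m) t)
      - ∑ κ ∈ S, 2 * Real.pi * Complex.I * (κ.1 j : ℂ) * cc κ * (ek y κ t * EX (N + 1) (z κ) t)
    with hw
  have hEr : ∀ j t, evp y (Er S cc (N + 1) V A Ξ j) t
      = (∑ m, (A j m : ℂ) * evp y (d0 V (d0 V (Ξ m))) t) - evp y (GR S cc (N + 1) Ξ j) t := by
    intro j t
    have h1 : Er S cc (N + 1) V A Ξ j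
        = ∑ m, cst (A j m : ℂ) * d0 V (d0 V (Ξ m)) - GR S cc (N + 1) Ξ j := by
      unfold Er
      congr 1
      have e1 : d0 V (Mo V A Ξ j)
          = ∑ m, d0 V (cst (A j m : ℂ) * (Ve V m + d0 V (Ξ m))) := mulD_sum _ _ _
      rw [e1]
      refine Finset.sum_congr rfl fun m _ => ?_
      have e2 : d0 V (cst (A j m : ℂ) * (Ve V m + d0 V (Ξ m)))
          = cst (A j m : ℂ) * d0 V (Ve V m + d0 V (Ξ m)) := mulD_cst_mul _ _ _
      have e3 : d0 V (Ve V m + d0 V (Ξ m)) = d0 V (Ve V m) + d0 V (d0 V (Ξ m)) := mulD_add _ _ _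
      have e4 : d0 V (Ve V m) = 0 := by
        unfold d0 Ve
        rw [mulD_single, Wf_zero, zero_mul, AddMonoidAlgebra.single_zero]
      rw [e2, e3, e4, zero_add]
    rw [h1, map_sub, map_sum]
    simp only [Pi.sub_apply, Finset.sum_apply, map_mul, evp_cst, Pi.mul_apply]
  have hVT : ∀ m, TA 0 (1 - α) (fun t => ((deriv (V m) t : ℝ) : ℂ)) := by
    intro m
    have h1 := (hV m).2.2
    have e : deriv (fun t => (V m t : ℂ)) = fun t => ((deriv (V m) t : ℝ) : ℂ) := by
      funext t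
      exact (((hVd m) t).hasDerivAt.ofReal_comp).deriv
    rw [e] at h1
    exact h1.mono le_rfl (by linarith)
  have hwT : ∀ j, TA α (1 - α) (fun t => w t j) := by
    intro j
    simp only [hw]
    refine TA.sub (TA.add (TA.add ?_ ?_) ?_) ?_
    · exact TA.sum _ fun m _ => TA.const_mul _ ((hVT m).mono hα0 le_rfl)
    · exact (evp_TA hα0 hy hV (hAvg.err j).ft).mono le_rfl hc
    · refine TA.sum _ fun m _ => TA.const_mul _ ?_
      exact (evp_TA hα0 hy hV (hRT m)).mono le_rfl (by linarith)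
    · refine TA.sum _ fun κ _ => TA.const_mul _ ?_
      refine ((ek_TA hα0 hy hV κ).mul (EX_TA (by positivity) (hzT κ) (N + 1))).mono le_rfl ?_
      push_cast
      nlinarith
  refine ⟨X, X2, fun t j => (w t j).re, hXc, fun j => ?_, fun j t => (hXd j t).differentiableAt,
    hX2, fun j => (hwT j).clm Complex.reCLM, fun j t => ?_⟩
  · have h1 := (evp_TA hα0 hy hV (hAvg.small j).ft).clm Complex.reCLM
    have e : (fun t => X t j - y t j) = fun t => Complex.reCLM (evp y (Ξ j) t) := by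
      funext t
      simp [hX, hξ]
    rw [e]
    exact h1
  · have h1 : ((∑ m, A j m * X2 t m : ℝ) : ℂ).re = (frc S cc j (X t) t).re + (w t j).re := by
      rw [hforce, hw]
      simp only
      rw [hEr]
      simp only [hX2def, hsplit]
      push_cast
      simp only [map_add, Pi.add_apply, Complex.add_re, Complex.sub_re, Complex.re_sum,
        Complex.mul_re, Complex.ofReal_re, Complex.ofReal_im, zero_mul, sub_zero, mul_add,
        Finset.sum_add_distrib]
      ring
    rwa [Complex.ofReal_re] at h1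

end Ton
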