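import Pool.Agent.helper42.TGAlg

/-!
Truncated exponentials, the formal gradient and the exactness identity.
-/

noncomputable section

namespace Ton

open Filter Topology

variable {n : ℕ}

lemma cst_mul_cst (a b : ℂ) : (cst a * cst b : AA n) = cst (a * b) := by
  unfold cst
  rw [AddMonoidAlgebra.single_mul_single, add_zero]
  rfl

lemma cst_add (a b : ℂ) : (cst (a + b) : AA n) = cst a + cst b := by
  unfold cst
  rw [← AddMonoidAlgebra.single_add]
  rfl

lemma cst_one : (cst 1 : AA n) = 1 := rfl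

lemma cst_zero : (cst 0 : AA n) = 0 := by
  unfold cst
  exact AddMonoidAlgebra.single_zero 0

lemma cst_natCast (m : ℕ) : (cst (m : ℂ) : AA n) = (m : AA n) := by
  induction m with
  | zero => simp [cst_zero]
  | succ m ih => rw [Nat.cast_succ, cst_add, ih, cst_one, Nat.cast_succ]

lemma FB.cst (a : ℂ) {c : ℝ} (hc : c ≤ 0) : FB c (cst a : AA n) :=
  FB.single _ (TB.const a hc)

/-- truncated exponential -/
def EN (N : ℕ) (z : AA n) : AA n := ∑ l ∈ Finset.range (N + 1), cst (1 / (l.factorial : ℂ)) * z ^ l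

lemma EN_succ (N : ℕ) (z : AA n) :
    EN (N + 1) z = EN N z + cst (1 / ((N + 1).factorial : ℂ)) * z ^ (N + 1) := by
  unfold EN
  rw [Finset.sum_range_succ]

lemma EN_zero (z : AA n) : EN 0 z = 1 := by
  simp [EN, cst_one]

lemma mulD_EN {φ : Gam n → ℝ → ℂ} (hφ : ∀ a b, φ (a + b) = φ a + φ b) (N : ℕ) (z : AA n) :
    mulD φ (EN (N + 1) z) = EN N z * mulD φ z := by
  induction N with
  | zero =>
    rw [EN_succ, EN_zero, mulD_add, mulD_one hφ, mulD_cst_mul]
    simp [cst_one]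
  | succ N ih =>
    have h1 : (cst (1 / ((N + 1 + 1).factorial : ℂ)) * (((N + 1 : ℕ) : AA n) + 1) : AA n)
        = (cst (1 / ((N + 1).factorial : ℂ)) : AA n) := by
      have : (((N + 1 : ℕ) : AA n) + 1) = (cst (((N + 1 + 1 : ℕ) : ℂ)) : AA n) := by
        rw [cst_natCast (n := n) (N + 1 + 1)]; push_cast; ring
      rw [this, cst_mul_cst]
      congr 1
      rw [Nat.factorial_succ (N + 1)]
      have h2 : ((N + 1 + 1 : ℕ) : ℂ) ≠ 0 := Nat.cast_ne_zero.mpr (Nat.succ_ne_zero (N + 1))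
      have h3 : ((N + 1).factorial : ℂ) ≠ 0 := Nat.cast_ne_zero.mpr (Nat.factorial_ne_zero (N + 1))
      rw [Nat.cast_mul]
      field_simp
    rw [EN_succ (N + 1), mulD_add, ih, mulD_cst_mul, mulD_pow hφ, EN_succ N, ← h1]
    ring

lemma EN_FB {c : ℝ} (hc : 0 ≤ c) {z : AA n} (hz : FB c z) (N : ℕ) : FB 0 (EN N z) := by
  refine FB.sum _ fun l _ => FB.cst_mul _ ?_
  exact (hz.pow l).mono (by positivity)

lemma EN_Dg {d : ℕ} {z : AA n} (hz : Dg d z) (N : ℕ) : Dg (N * d) (EN N z) := by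
  refine Dg.sum _ fun l hl => Dg.cst_mul _ ?_
  refine (hz.pow l).mono (Nat.mul_le_mul_right d ?_)
  exact Nat.lt_succ_iff.mp (Finset.mem_range.mp hl)

lemma EN_diff {c : ℝ} (hc : 0 ≤ c) {z w : AA n} (hz : FB c z) (hw : FB c w) (N : ℕ) :
    ∃ ρ : AA n, FB c ρ ∧ EN (N + 1) (z + w) - EN (N + 1) z = w + w * ρ := by
  induction N with
  | zero =>
    refine ⟨0, FB.zero _, ?_⟩
    rw [EN_succ, EN_succ, EN_zero, EN_zero]
    simp [cst_one]
  | succ N ih =>
    obtain ⟨ρ, hρ, h⟩ := ih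
    refine ⟨ρ + cst (1 / ((N + 1 + 1).factorial : ℂ)) *
      ∑ i ∈ Finset.range (N + 2), (z + w) ^ i * z ^ (N + 2 - 1 - i), ?_, ?_⟩
    · refine hρ.add (FB.cst_mul _ (FB.sum _ fun i hi => ?_))
      have hi' : i ≤ N + 1 := Nat.lt_succ_iff.mp (Finset.mem_range.mp hi)
      have h1 := ((hz.add hw).pow i).mul (hz.pow (N + 2 - 1 - i))
      refine h1.mono ?_
      have h2 : ((N + 2 - 1 - i : ℕ) : ℝ) = N + 1 - i := by
        have : N + 2 - 1 - i = N + 1 - i := by omega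
        rw [this, Nat.cast_sub hi']
        push_cast
        ring
      rw [h2]
      have : (i:ℝ) * c + ((N:ℝ) + 1 - i) * c = (N + 1) * c := by ring
      rw [this]
      nlinarith [(Nat.cast_nonneg N : (0:ℝ) ≤ N)]
    · have h3 := (Commute.all (z + w) z).geom_sum₂_mul (N + 2)
      have h4 : (z + w) ^ (N + 2) - z ^ (N + 2)
          = w * ∑ i ∈ Finset.range (N + 2), (z + w) ^ i * z ^ (N + 2 - 1 - i) := by
        rw [← h3]
        ring
      rw [EN_succ (N + 1) (z + w), EN_succ (N + 1) z]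
      have h5 : EN (N + 1) (z + w) + cst (1 / ((N + 1 + 1).factorial : ℂ)) * (z + w) ^ (N + 1 + 1)
          - (EN (N + 1) z + cst (1 / ((N + 1 + 1).factorial : ℂ)) * z ^ (N + 1 + 1))
          = (EN (N + 1) (z + w) - EN (N + 1) z) + cst (1 / ((N + 1 + 1).factorial : ℂ)) *
            ((z + w) ^ (N + 2) - z ^ (N + 2)) := by ring
      rw [h5, h, h4]
      ring

section grad

variable (S : Finset (Gam n)) (c : Gam n → ℂ) (N : ℕ)

/-- phase correction -/
def zz (Ξ : Fin n → AA n) (κ : Gam n) : AA n :=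
  ∑ l, cst (2 * Real.pi * Complex.I * (κ.1 l : ℂ)) * Ξ l

/-- pure mode -/
def md (κ : Gam n) : AA n := AddMonoidAlgebra.single κ (fun _ => 1)

/-- formal gradient -/
def GR (Ξ : Fin n → AA n) (l : Fin n) : AA n :=
  ∑ κ ∈ S, cst (2 * Real.pi * Complex.I * (κ.1 l : ℂ) * c κ) * (md κ * EN N (zz Ξ κ))

/-- formal potential -/
def PT (Ξ : Fin n → AA n) : AA n :=
  ∑ κ ∈ S, cst (c κ) * (md κ * EN (N + 1) (zz Ξ κ))

/-- truncation remainder -/
def RM (Ξ : Fin n → AA n) (j : Fin n) : AA n :=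
  ∑ κ ∈ S, cst (2 * Real.pi * Complex.I * (κ.1 j : ℂ) * c κ) *
    (md κ * (cst (1 / ((N + 1).factorial : ℂ)) * zz Ξ κ ^ (N + 1)))

/-- spatial derivative -/
def dph (j : Fin n) (κ : Gam n) : ℝ → ℂ := fun _ => 2 * Real.pi * Complex.I * (κ.1 j : ℂ)

lemma dph_add (j : Fin n) (a b : Gam n) : dph j (a + b) = dph j a + dph j b := by
  funext t
  simp only [dph, Pi.add_apply, Prod.fst_add]
  push_cast
  ring

/-- spatial derivative -/
def par (j : Fin n) (F : AA n) : AA n := mulD (dph j) F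

lemma par_md (j : Fin n) (κ : Gam n) :
    par j (md κ) = cst (2 * Real.pi * Complex.I * (κ.1 j : ℂ)) * md κ := by
  unfold par md cst
  rw [mulD_single, AddMonoidAlgebra.single_mul_single, zero_add]
  rfl

lemma par_zz (j : Fin n) (Ξ : Fin n → AA n) (κ : Gam n) :
    par j (zz Ξ κ) = ∑ l, cst (2 * Real.pi * Complex.I * (κ.1 l : ℂ)) * par j (Ξ l) := by
  unfold par zz
  rw [mulD_sum]
  refine Finset.sum_congr rfl fun l _ => ?_
  rw [mulD_cst_mul]

lemma par_PT (Ξ : Fin n → AA n) (j : Fin n) :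
    par j (PT S c N Ξ) = GR S c N Ξ j + ∑ l, par j (Ξ l) * GR S c N Ξ l + RM S c N Ξ j := by
  unfold PT GR RM
  have h1 : par j (∑ κ ∈ S, cst (c κ) * (md κ * EN (N + 1) (zz Ξ κ)))
      = ∑ κ ∈ S, par j (cst (c κ) * (md κ * EN (N + 1) (zz Ξ κ))) := mulD_sum _ _ _
  rw [h1]
  have h2 : ∑ l, par j (Ξ l) * ∑ κ ∈ S,
      cst (2 * Real.pi * Complex.I * (κ.1 l : ℂ) * c κ) * (md κ * EN N (zz Ξ κ))
      = ∑ κ ∈ S, ∑ l, par j (Ξ l) *
        (cst (2 * Real.pi * Complex.I * (κ.1 l : ℂ) * c κ) * (md κ * EN N (zz Ξ κ))) := by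
    simp only [Finset.mul_sum]
    rw [Finset.sum_comm]
  rw [h2, ← Finset.sum_add_distrib, ← Finset.sum_add_distrib]
  refine Finset.sum_congr rfl fun κ _ => ?_
  have h3 : par j (cst (c κ) * (md κ * EN (N + 1) (zz Ξ κ)))
      = cst (c κ) * (par j (md κ) * EN (N + 1) (zz Ξ κ) + md κ * (EN N (zz Ξ κ) *
        par j (zz Ξ κ))) := by
    unfold par
    rw [mulD_cst_mul, mulD_mul (dph_add j), mulD_EN (dph_add j)]
  rw [h3, par_md, par_zz, EN_succ, Finset.mul_sum, Finset.mul_sum, mul_add, Finset.mul_sum]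
  have h4 : ∑ l, par j (Ξ l) *
        (cst (2 * Real.pi * Complex.I * (κ.1 l : ℂ) * c κ) * (md κ * EN N (zz Ξ κ)))
      = ∑ l, cst (c κ) * (md κ * (EN N (zz Ξ κ) *
        (cst (2 * Real.pi * Complex.I * (κ.1 l : ℂ)) * par j (Ξ l)))) := by
    refine Finset.sum_congr rfl fun l _ => ?_
    have : (cst (2 * Real.pi * Complex.I * (κ.1 l : ℂ) * c κ) : AA n)
        = cst (2 * Real.pi * Complex.I * (κ.1 l : ℂ)) * cst (c κ) := by rw [cst_mul_cst]
    rw [this]
    ring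
  have h5 : (cst (2 * Real.pi * Complex.I * (κ.1 j : ℂ) * c κ) : AA n)
      = cst (2 * Real.pi * Complex.I * (κ.1 j : ℂ)) * cst (c κ) := by rw [cst_mul_cst]
  rw [h4, h5]
  ring

end grad

section kinetic

variable (V : Fin n → ℝ → ℝ) (A : Matrix (Fin n) (Fin n) ℝ)

/-- frequencies -/
def Wf (κ : Gam n) : ℝ → ℂ := fun t =>
  2 * Real.pi * Complex.I * ((∑ l, (κ.1 l : ℝ) * V l t + (κ.2 : ℝ) : ℝ) : ℂ)

lemma Wf_add (a b : Gam n) : Wf V (a + b) = Wf V a + Wf V b := by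
  funext t
  simp only [Wf, Pi.add_apply, Prod.fst_add, Prod.snd_add, Int.cast_add, add_mul,
    Finset.sum_add_distrib]
  push_cast
  ring

lemma Wf_zero : Wf V (0 : Gam n) = 0 := by
  funext t
  simp [Wf]

/-- frozen time derivative -/
def d0 (F : AA n) : AA n := mulD (Wf V) F

/-- velocity as an element of the algebra -/
def Ve (l : Fin n) : AA n := AddMonoidAlgebra.single 0 (fun t => (V l t : ℂ))

/-- formal momentum -/
def Mo (Ξ : Fin n → AA n) (l : Fin n) : AA n := ∑ m, cst (A l m : ℂ) * (Ve V m + d0 V (Ξ m))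

lemma par_d0 (j : Fin n) (F : AA n) : par j (d0 V F) = d0 V (par j F) := mulD_comm _ _ _

lemma par_Ve (j l : Fin n) : par j (Ve V l) = 0 := by
  unfold par Ve
  rw [mulD_single]
  have : dph j (0 : Gam n) = 0 := by
    funext t; simp [dph]
  rw [this, zero_mul, AddMonoidAlgebra.single_zero]

lemma kinetic_id (hA : A.IsSymm) (Ξ : Fin n → AA n) (j : Fin n) :
    d0 V (Mo V A Ξ j) + ∑ l, par j (Ξ l) * d0 V (Mo V A Ξ l)
      = d0 V (Mo V A Ξ j + ∑ l, par j (Ξ l) * Mo V A Ξ l)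
        - par j (cst (1/2) * ∑ l, (Ve V l + d0 V (Ξ l)) * Mo V A Ξ l) := by
  have hmul : ∀ F G : AA n, d0 V (F * G) = d0 V F * G + F * d0 V G := fun F G =>
    mulD_mul (Wf_add V) F G
  have hadd : ∀ F G : AA n, d0 V (F + G) = d0 V F + d0 V G := fun F G => mulD_add _ F G
  have hpmul : ∀ F G : AA n, par j (F * G) = par j F * G + F * par j G := fun F G =>
    mulD_mul (dph_add j) F G
  have hpadd : ∀ F G : AA n, par j (F + G) = par j F + par j G := fun F G => mulD_add _ F G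
  have hsum : d0 V (∑ l, par j (Ξ l) * Mo V A Ξ l)
      = ∑ l, (d0 V (par j (Ξ l)) * Mo V A Ξ l + par j (Ξ l) * d0 V (Mo V A Ξ l)) := by
    have : d0 V (∑ l, par j (Ξ l) * Mo V A Ξ l) = ∑ l, d0 V (par j (Ξ l) * Mo V A Ξ l) :=
      mulD_sum _ _ _
    rw [this]
    exact Finset.sum_congr rfl fun l _ => hmul _ _
  -- spatial derivative of the kinetic energy
  have hpX : ∀ l, par j (Ve V l + d0 V (Ξ l)) = d0 V (par j (Ξ l)) := by
    intro l
    rw [hpadd, par_Ve, zero_add, par_d0]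
  have hpM : ∀ l, par j (Mo V A Ξ l) = ∑ m, cst (A l m : ℂ) * d0 V (par j (Ξ m)) := by
    intro l
    have : par j (Mo V A Ξ l) = ∑ m, par j (cst (A l m : ℂ) * (Ve V m + d0 V (Ξ m))) :=
      mulD_sum _ _ _
    rw [this]
    refine Finset.sum_congr rfl fun m _ => ?_
    have h2 : par j (cst (A l m : ℂ) * (Ve V m + d0 V (Ξ m)))
        = cst (A l m : ℂ) * par j (Ve V m + d0 V (Ξ m)) := mulD_cst_mul _ _ _
    rw [h2, hpX]
  have hsymm : ∑ l, (Ve V l + d0 V (Ξ l)) * par j (Mo V A Ξ l)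
      = ∑ l, d0 V (par j (Ξ l)) * Mo V A Ξ l := by
    simp only [hpM]
    unfold Mo
    simp only [Finset.mul_sum]
    rw [Finset.sum_comm]
    refine Finset.sum_congr rfl fun l _ => Finset.sum_congr rfl fun m _ => ?_
    have : A m l = A l m := hA.apply l m
    rw [this]
    ring
  have hK : par j (cst (1/2) * ∑ l, (Ve V l + d0 V (Ξ l)) * Mo V A Ξ l)
      = ∑ l, d0 V (par j (Ξ l)) * Mo V A Ξ l := by
    have h1 : par j (cst (1/2) * ∑ l, (Ve V l + d0 V (Ξ l)) * Mo V A Ξ l)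
        = cst (1/2) * par j (∑ l, (Ve V l + d0 V (Ξ l)) * Mo V A Ξ l) := mulD_cst_mul _ _ _
    have h2 : par j (∑ l, (Ve V l + d0 V (Ξ l)) * Mo V A Ξ l)
        = ∑ l, par j ((Ve V l + d0 V (Ξ l)) * Mo V A Ξ l) := mulD_sum _ _ _
    rw [h1, h2]
    have h3 : ∑ l, par j ((Ve V l + d0 V (Ξ l)) * Mo V A Ξ l)
        = ∑ l, d0 V (par j (Ξ l)) * Mo V A Ξ l + ∑ l, d0 V (par j (Ξ l)) * Mo V A Ξ l := by
      have : ∀ l, par j ((Ve V l + d0 V (Ξ l)) * Mo V A Ξ l)
          = d0 V (par j (Ξ l)) * Mo V A Ξ l + (Ve V l + d0 V (Ξ l)) * par j (Mo V A Ξ l) := by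
        intro l
        rw [hpmul, hpX]
      simp only [this, Finset.sum_add_distrib]
      rw [hsymm]
    rw [h3]
    have h4 : (cst (1/2) : AA n) * (∑ l, d0 V (par j (Ξ l)) * Mo V A Ξ l
        + ∑ l, d0 V (par j (Ξ l)) * Mo V A Ξ l)
        = (cst (1/2) * (1 + 1)) * ∑ l, d0 V (par j (Ξ l)) * Mo V A Ξ l := by ring
    have h5 : (cst (1/2) : AA n) * (1 + 1) = 1 := by
      rw [← cst_one, ← cst_add, cst_mul_cst]
      norm_num [cst_one]
    rw [h4, h5, one_mul]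
  rw [hadd, hsum, hK, Finset.sum_add_distrib]
  ring

end kinetic

section zero

variable (S : Finset (Gam n)) (c : Gam n → ℂ) (N : ℕ) (V : Fin n → ℝ → ℝ)
  (A : Matrix (Fin n) (Fin n) ℝ)

/-- formal error -/
def Er (Ξ : Fin n → AA n) (l : Fin n) : AA n := d0 V (Mo V A Ξ l) - GR S c N Ξ l

lemma coeff_d0_zero (F : AA n) : (d0 V F).coeff 0 = 0 := by
  unfold d0
  rw [mulD_coeff, Wf_zero, zero_mul]

lemma coeff_par_zero (j : Fin n) (F : AA n) : (par j F).coeff 0 = 0 := by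
  unfold par
  rw [mulD_coeff]
  have : dph j (0 : Gam n) = 0 := by
    funext t; simp [dph]
  rw [this, zero_mul]

/-- exactness: the zero mode of the error is of higher order -/
theorem zero_mode (hA : A.IsSymm) (Ξ : Fin n → AA n) (j : Fin n) :
    (Er S c N V A Ξ j).coeff 0
      = (RM S c N Ξ j).coeff 0 - (∑ l, par j (Ξ l) * Er S c N V A Ξ l).coeff 0 := by
  have h1 : Er S c N V A Ξ j + ∑ l, par j (Ξ l) * Er S c N V A Ξ l
      = d0 V (Mo V A Ξ j + ∑ l, par j (Ξ l) * Mo V A Ξ l)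
        - par j (cst (1/2) * ∑ l, (Ve V l + d0 V (Ξ l)) * Mo V A Ξ l)
        - par j (PT S c N Ξ) + RM S c N Ξ j := by
    rw [par_PT, ← kinetic_id V A hA]
    unfold Er
    simp only [mul_sub, Finset.sum_sub_distrib]
    ring
  have h2 := congrArg (fun F : AA n => F.coeff 0) h1
  simp only [AddMonoidAlgebra.coeff_add, AddMonoidAlgebra.coeff_sub, Finsupp.add_apply,
    Finsupp.sub_apply, coeff_d0_zero, coeff_par_zero] at h2
  rw [eq_sub_iff_add_eq, h2]
  ring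

end zero

end Ton
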