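import Pool.Agent.helper42.TGForm

/-!
Complex conjugation on the algebra of slowly varying trigonometric sums.
-/

noncomputable section

namespace Ton

open Filter Topology

variable {n : ℕ}

/-- coefficientwise conjugation, constants part -/
def cjf (n : ℕ) : (ℝ → ℂ) →+* AA n :=
  (AddMonoidAlgebra.singleZeroRingHom (R := ℝ → ℂ) (M := Gam n)).comp (starRingEnd (ℝ → ℂ))

/-- reflection of the modes -/
def cjg (n : ℕ) : Multiplicative (Gam n) →* AA n where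
  toFun κ := AddMonoidAlgebra.single (-(Multiplicative.toAdd κ)) 1
  map_one' := by
    rw [toAdd_one, neg_zero]
    rfl
  map_mul' a b := by
    rw [toAdd_mul, neg_add, AddMonoidAlgebra.single_mul_single, one_mul]

/-- conjugation -/
def cj : AA n →+* AA n :=
  AddMonoidAlgebra.liftNCRingHom (cjf n) (cjg n) (fun _ _ => Commute.all _ _)

lemma cj_single (κ : Gam n) (h : ℝ → ℂ) :
    cj (AddMonoidAlgebra.single κ h) = AddMonoidAlgebra.single (-κ) (star h) := by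
  unfold cj
  rw [AddMonoidAlgebra.liftNCRingHom_single]
  show AddMonoidAlgebra.single 0 (star h) * AddMonoidAlgebra.single (-κ) 1 = _
  rw [AddMonoidAlgebra.single_mul_single, zero_add, mul_one]

lemma cj_coeff (F : AA n) (κ : Gam n) : (cj F).coeff κ = star (F.coeff (-κ)) := by
  classical
  refine AddMonoidAlgebra.induction_linear F ?_ ?_ ?_
  · simp
  · intro F G hF hG
    rw [map_add, AddMonoidAlgebra.coeff_add, Finsupp.add_apply, hF, hG,
      AddMonoidAlgebra.coeff_add, Finsupp.add_apply, star_add]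
  · intro a x
    rw [cj_single, AddMonoidAlgebra.coeff_single_apply, AddMonoidAlgebra.coeff_single_apply]
    by_cases h : -a = κ
    · rw [if_pos h, if_pos (by rw [← h, neg_neg])]
    · rw [if_neg h, if_neg (fun h' => h (by rw [h', neg_neg])), star_zero]

lemma cj_cst (a : ℂ) : cj (cst a : AA n) = cst ((starRingEnd ℂ) a) := by
  unfold cst
  rw [cj_single, neg_zero]
  rfl

lemma cj_md (κ : Gam n) : cj (md κ) = md (-κ) := by
  unfold md
  rw [cj_single]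
  congr 1
  funext t
  simp

lemma cj_EN (N : ℕ) (z : AA n) : cj (EN N z) = EN N (cj z) := by
  unfold EN
  rw [map_sum]
  refine Finset.sum_congr rfl fun l _ => ?_
  rw [map_mul, map_pow, cj_cst]
  simp

lemma cj_mulD {φ : Gam n → ℝ → ℂ} (hφ : ∀ κ, star (φ (-κ)) = φ κ) (F : AA n) :
    cj (mulD φ F) = mulD φ (cj F) := by
  refine AA.ext fun κ => ?_
  rw [cj_coeff, mulD_coeff, mulD_coeff, cj_coeff, star_mul', hφ]

/-- real elements -/
def Rl (F : AA n) : Prop := cj F = F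

lemma Rl.add {F G : AA n} (hF : Rl F) (hG : Rl G) : Rl (F + G) := by
  unfold Rl at *
  rw [map_add, hF, hG]

lemma Rl.sub {F G : AA n} (hF : Rl F) (hG : Rl G) : Rl (F - G) := by
  unfold Rl at *
  rw [map_sub, hF, hG]

lemma Rl.neg {F : AA n} (hF : Rl F) : Rl (-F) := by
  unfold Rl at *
  rw [map_neg, hF]

lemma Rl.zero : Rl (0 : AA n) := by
  unfold Rl
  rw [map_zero]

lemma Rl.sum {ι : Type*} (s : Finset ι) {f : ι → AA n} (hf : ∀ i ∈ s, Rl (f i)) :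
    Rl (∑ i ∈ s, f i) := by
  unfold Rl
  rw [map_sum]
  exact Finset.sum_congr rfl fun i hi => hf i hi

lemma Rl.cst_mul {F : AA n} (hF : Rl F) (r : ℝ) : Rl (cst (r : ℂ) * F) := by
  unfold Rl at *
  rw [map_mul, cj_cst, hF, Complex.conj_ofReal]

lemma Rl.mulD {F : AA n} (hF : Rl F) {φ : Gam n → ℝ → ℂ} (hφ : ∀ κ, star (φ (-κ)) = φ κ) :
    Rl (mulD φ F) := by
  unfold Rl at *
  rw [cj_mulD hφ, hF]

lemma Wf_star (V : Fin n → ℝ → ℝ) (κ : Gam n) : star (Wf V (-κ)) = Wf V κ := by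
  funext t
  show (starRingEnd ℂ) (Wf V (-κ) t) = Wf V κ t
  unfold Wf
  have h1 : (∑ l, ((-κ).1 l : ℝ) * V l t + ((-κ).2 : ℝ) : ℝ)
      = -(∑ l, (κ.1 l : ℝ) * V l t + (κ.2 : ℝ)) := by
    simp only [Prod.fst_neg, Prod.snd_neg, Pi.neg_apply, Int.cast_neg, neg_mul,
      Finset.sum_neg_distrib]
    ring
  rw [h1]
  simp only [map_mul, Complex.conj_ofReal, Complex.conj_I, map_ofNat]
  push_cast
  ring

lemma Rl.d0 {V : Fin n → ℝ → ℝ} {F : AA n} (hF : Rl F) : Rl (d0 V F) :=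
  hF.mulD (Wf_star V)

lemma Rl.Ve (V : Fin n → ℝ → ℝ) (l : Fin n) : Rl (Ve V l) := by
  unfold Rl Ton.Ve
  rw [cj_single, neg_zero]
  congr 1
  funext t
  show (starRingEnd ℂ) (V l t : ℂ) = _
  rw [Complex.conj_ofReal]

lemma cj_zz {Ξ : Fin n → AA n} (hΞ : ∀ l, Rl (Ξ l)) (κ : Gam n) : cj (zz Ξ κ) = zz Ξ (-κ) := by
  unfold zz
  rw [map_sum]
  refine Finset.sum_congr rfl fun l _ => ?_
  rw [map_mul, cj_cst, hΞ l]
  congr 2
  simp only [map_mul, Complex.conj_ofReal, Complex.conj_I, map_ofNat, Prod.fst_neg, Pi.neg_apply,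
    Int.cast_neg, map_intCast]
  ring

lemma GR_Rl {S : Finset (Gam n)} {c : Gam n → ℂ} (hS : ∀ κ ∈ S, -κ ∈ S)
    (hc : ∀ κ, c (-κ) = (starRingEnd ℂ) (c κ)) (N : ℕ) {Ξ : Fin n → AA n}
    (hΞ : ∀ l, Rl (Ξ l)) (l : Fin n) : Rl (GR S c N Ξ l) := by
  unfold Rl GR
  rw [map_sum]
  refine Finset.sum_nbij' (fun κ => -κ) (fun κ => -κ) (fun κ hκ => hS κ hκ)
    (fun κ hκ => hS κ hκ) (fun κ _ => neg_neg κ) (fun κ _ => neg_neg κ) ?_
  intro κ _
  rw [map_mul, map_mul, cj_md, cj_EN, cj_zz hΞ, cj_cst]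
  congr 2
  rw [hc]
  simp only [map_mul, Complex.conj_ofReal, Complex.conj_I, map_ofNat, Prod.fst_neg, Pi.neg_apply,
    Int.cast_neg, map_intCast]
  ring

lemma Mo_Rl {V : Fin n → ℝ → ℝ} {A : Matrix (Fin n) (Fin n) ℝ} {Ξ : Fin n → AA n}
    (hΞ : ∀ l, Rl (Ξ l)) (l : Fin n) : Rl (Mo V A Ξ l) := by
  unfold Mo
  exact Rl.sum _ fun m _ => ((Rl.Ve V m).add (hΞ m).d0).cst_mul (A l m)

lemma Er_Rl {S : Finset (Gam n)} {c : Gam n → ℂ} (hS : ∀ κ ∈ S, -κ ∈ S)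
    (hc : ∀ κ, c (-κ) = (starRingEnd ℂ) (c κ)) (N : ℕ) {V : Fin n → ℝ → ℝ}
    {A : Matrix (Fin n) (Fin n) ℝ} {Ξ : Fin n → AA n}
    (hΞ : ∀ l, Rl (Ξ l)) (l : Fin n) : Rl (Er S c N V A Ξ l) :=
  (Mo_Rl hΞ l).d0.sub (GR_Rl hS hc N hΞ l)

end Ton
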