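import Pool.Agent.helper42.TGEval
import Pool.Agent.helper42.TonSep

/-!
Separation of the averaged path from its integer translates, with `q + 1` slow separators run on a
clock.
-/

noncomputable section

namespace Ton

open Real Filter Topology

lemma YY_tail_g {δ s m : ℝ} (hδ : 0 < δ) (hs : 0 < s) (hm : 0 ≤ m) :
    YY (1 + δ) (s + m) - YY (1 + δ) s ≤ δ⁻¹ * s ^ (-δ) := by
  have hd : ∀ t, 0 < t → HasDerivAt (fun t => YY (1 + δ) t + δ⁻¹ * t ^ (-δ))
      (jb t ^ (-(1 + δ)) + δ⁻¹ * ((-δ) * t ^ (-δ - 1))) t := by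
    intro t ht
    exact (YY_hasDerivAt _ t).add ((Real.hasDerivAt_rpow_const (Or.inl ht.ne')).const_mul _)
  have hanti : AntitoneOn (fun t => YY (1 + δ) t + δ⁻¹ * t ^ (-δ)) (Set.Ici s) := by
    refine antitoneOn_of_deriv_nonpos (convex_Ici s) ?_ ?_ ?_
    · intro t ht
      exact (hd t (lt_of_lt_of_le hs ht)).continuousAt.continuousWithinAt
    · intro t ht
      rw [interior_Ici] at ht
      exact (hd t (lt_trans hs ht)).differentiableAt.differentiableWithinAt
    · intro t ht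
      rw [interior_Ici] at ht
      have ht0 : 0 < t := lt_trans hs ht
      rw [(hd t ht0).deriv]
      have h1 : jb t ^ (-(1 + δ)) ≤ t ^ (-(1 + δ)) :=
        Real.rpow_le_rpow_of_nonpos ht0 ((le_abs_self t).trans (abs_le_jb t)) (by linarith)
      have h2 : (-δ - 1 : ℝ) = -(1 + δ) := by ring
      rw [h2]
      have h3 : δ⁻¹ * (-δ * t ^ (-(1 + δ))) = -(t ^ (-(1 + δ))) := by
        field_simp
      linarith
  have := hanti (Set.mem_Ici.mpr le_rfl) (Set.mem_Ici.mpr (by linarith : s ≤ s + m))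
    (by linarith : s ≤ s + m)
  simp only at this
  have h3 : 0 ≤ δ⁻¹ * (s + m) ^ (-δ) :=
    mul_nonneg (inv_nonneg.mpr hδ.le) (Real.rpow_nonneg (by linarith) _)
  linarith

/-- exponents of the separators -/
def aa (δ ν β : ℝ) (i : ℕ) : ℝ := 1 + δ - i * (β - ν)

theorem sep0g {δ ν β : ℝ} (hδ : 0 < δ) (hδ1 : δ ≤ 1) (hν : 0 < ν) (hδβ : δ ≤ β) (hνβ : ν ≤ β)
    (q : ℕ) (ha : ∀ i ≤ q, 0 ≤ aa δ ν β i) :
    ∃ s₀ : ℝ, 1 ≤ s₀ ∧ ∀ s, s₀ ≤ s → ∀ m : ℝ, 0 < m →
      (YY (1 + δ) (s + m) - YY (1 + δ) s ≤ 1/2 ∧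
        min m s * s ^ (-(1 + δ)) / 9 ≤ YY (1 + δ) (s + m) - YY (1 + δ) s) ∧
      (s ^ (aa δ ν β q - β) ≤ m → ∃ i ≤ q,
        s ^ (-β) / 9 ≤ YY (aa δ ν β i) (s + m) - YY (aa δ ν β i) s ∧
          YY (aa δ ν β i) (s + m) - YY (aa δ ν β i) s ≤ 1/2) := by
  classical
  have e1 : ∀ᶠ s : ℝ in atTop, s ^ (-ν) < 1/2 :=
    (tendsto_rpow_neg_atTop hν).eventually_lt_const (by norm_num)
  have e2 : ∀ᶠ s : ℝ in atTop, s ^ (-δ) < δ / 2 :=
    (tendsto_rpow_neg_atTop hδ).eventually_lt_const (by positivity)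
  obtain ⟨s₁, hs₁⟩ := eventually_atTop.mp (e1.and e2)
  refine ⟨max 1 s₁, le_max_left _ _, fun s hs m hm => ?_⟩
  have hs1 : 1 ≤ s := (le_max_left _ _).trans hs
  have hs0 : 0 < s := by linarith
  obtain ⟨he1, he2⟩ := hs₁ s ((le_max_right _ _).trans hs)
  have key : ∀ p q : ℝ, s ^ p * s ^ q = s ^ (p + q) := fun p q => (Real.rpow_add hs0 p q).symm
  have hp : ∀ p : ℝ, 0 ≤ s ^ p := fun p => Real.rpow_nonneg hs0.le p
  have ha2 : ∀ i, aa δ ν β i ≤ 2 := by
    intro i
    unfold aa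
    have : 0 ≤ (i:ℝ) * (β - ν) := mul_nonneg (Nat.cast_nonneg i) (by linarith)
    linarith
  have htail : YY (1 + δ) (s + m) - YY (1 + δ) s ≤ 1/2 := by
    refine (YY_tail_g hδ hs0 hm.le).trans ?_
    have : δ⁻¹ * s ^ (-δ) ≤ δ⁻¹ * (δ / 2) := mul_le_mul_of_nonneg_left he2.le (by positivity)
    have h2 : δ⁻¹ * (δ / 2) = 1/2 := by field_simp
    linarith
  refine ⟨⟨htail, ?_⟩, fun hmq => ?_⟩
  · have h1 : 0 < min m s := lt_min hm hs0
    have h2 := (YY_bounds (a := 1 + δ) (by linarith) (by linarith) hs1 h1 (min_le_right _ _)).1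
    have h3 : YY (1 + δ) (s + min m s) ≤ YY (1 + δ) (s + m) :=
      YY_mono _ (by linarith [min_le_left m s])
    linarith
  · have hex : ∃ i, i ≤ q ∧ s ^ (aa δ ν β i - β) ≤ m := ⟨q, le_rfl, hmq⟩
    obtain ⟨hi1, hi2⟩ := Nat.find_spec hex
    have hmin := fun j (hj : j < Nat.find hex) => Nat.find_min hex hj
    set i := Nat.find hex with hi
    refine ⟨i, hi1, ?_, ?_⟩
    · have h2 : (0:ℝ) < s ^ (aa δ ν β i - β) := Real.rpow_pos_of_pos hs0 _
      have h3 : s ^ (aa δ ν β i - β) ≤ s := by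
        calc s ^ (aa δ ν β i - β) ≤ s ^ (1:ℝ) := by
              refine Real.rpow_le_rpow_of_exponent_le hs1 ?_
              unfold aa
              have : 0 ≤ (i:ℝ) * (β - ν) := mul_nonneg (Nat.cast_nonneg i) (by linarith)
              linarith
          _ = s := Real.rpow_one s
      have h4 := (YY_bounds (ha i hi1) (ha2 i) hs1 h2 h3).1
      have h5 : YY (aa δ ν β i) (s + s ^ (aa δ ν β i - β)) ≤ YY (aa δ ν β i) (s + m) :=
        YY_mono _ (by linarith)
      rw [key] at h4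
      have e : aa δ ν β i - β + -aa δ ν β i = -β := by ring
      rw [e] at h4
      linarith
    · rcases Nat.eq_zero_or_pos i with h0 | hpos
      · rw [h0]
        have : aa δ ν β 0 = 1 + δ := by simp [aa]
        rw [this]
        exact htail
      · obtain ⟨j, hj⟩ : ∃ j, i = j + 1 := ⟨i - 1, by omega⟩
        have hjlt : m < s ^ (aa δ ν β j - β) := by
          have := hmin j (by omega)
          rw [not_and_or] at this
          rcases this with h | h
          · exact absurd (by omega) h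
          · exact not_le.mp h
        have hms : m ≤ s := by
          refine hjlt.le.trans ?_
          calc s ^ (aa δ ν β j - β) ≤ s ^ (1:ℝ) := by
                refine Real.rpow_le_rpow_of_exponent_le hs1 ?_
                unfold aa
                have : 0 ≤ (j:ℝ) * (β - ν) := mul_nonneg (Nat.cast_nonneg j) (by linarith)
                linarith
            _ = s := Real.rpow_one s
        have h4 := (YY_bounds (ha i hi1) (ha2 i) hs1 hm hms).2
        have h5 : m * s ^ (-aa δ ν β i) ≤ s ^ (aa δ ν β j - β) * s ^ (-aa δ ν β i) :=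
          mul_le_mul_of_nonneg_right hjlt.le (hp _)
        rw [key] at h5
        have e : aa δ ν β j - β + -aa δ ν β i = -ν := by
          rw [hj]
          unfold aa
          push_cast
          ring
        rw [e] at h5
        linarith

/-- the clock -/
structure IsClock (α γ : ℝ) (L : ℕ) (T : ℝ → ℝ) (c C : ℝ) : Prop where
  cpos : 0 < c
  diff : Differentiable ℝ T
  one_le : ∀ t, 1 ≤ deriv T t
  le : ∀ t, |T t| ≤ C * jb t
  cls : TA (γ + 1 / (L:ℝ) + α - 1) (-(γ + 1 / (L:ℝ))) (deriv T)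
  boost : ∀ t : ℝ, 1 ≤ t → ∀ q : ℕ, 1 ≤ q → 2 * (q:ℝ) ^ L ≤ t →
    |Real.sin (Real.pi * (q * (1 * jb t ^ α)))| ≤ t ^ (-γ) → c * jb t ^ γ / (q:ℝ) ^ 2 ≤ deriv T t

section clock

variable {α γ : ℝ} {L : ℕ} {T : ℝ → ℝ} {c C : ℝ} (hT : IsClock α γ L T c C)

include hT in
lemma IsClock.mvt {s t : ℝ} (h : s < t) : ∃ ξ, s < ξ ∧ ξ < t ∧ T t - T s = (t - s) * deriv T ξ := by
  obtain ⟨ξ, hξ, h'⟩ := exists_deriv_eq_slope T h hT.diff.continuous.continuousOn
    (hT.diff.differentiableOn)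
  refine ⟨ξ, hξ.1, hξ.2, ?_⟩
  rw [h']
  have : t - s ≠ 0 := by linarith
  field_simp

include hT in
lemma IsClock.incr {s t : ℝ} (h : s ≤ t) : t - s ≤ T t - T s := by
  rcases h.eq_or_lt with rfl | h
  · simp
  · obtain ⟨ξ, -, -, h2⟩ := hT.mvt h
    rw [h2]
    have := hT.one_le ξ
    nlinarith

include hT in
lemma IsClock.jble : ∀ t, jb t ≤ (2 + |T 0|) * jb (T t) := by
  intro t
  have h1 : |t| ≤ |T t| + |T 0| := by
    rcases le_total 0 t with h | h
    · have := hT.incr h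
      rw [abs_of_nonneg h]
      have h2 := le_abs_self (T t)
      have h3 := neg_abs_le (T 0)
      linarith
    · have := hT.incr h
      rw [abs_of_nonpos h]
      have h2 := neg_abs_le (T t)
      have h3 := le_abs_self (T 0)
      linarith
  have h2 := Ton.jb_le t
  have h3 := one_le_jb (T t)
  have h4 := abs_le_jb (T t)
  have h5 := abs_nonneg (T 0)
  nlinarith

include hT in
/-- composition of a symbol with the clock -/
lemma IsClock.comp (hb : γ + 1 / (L:ℝ) ≤ 1) (hσ : γ + 1 / (L:ℝ) + α - 1 ≤ 0) (l : ℕ) :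
    ∀ {a : ℝ} {Φ : ℝ → ℝ}, 0 ≤ a → TA (-1) a Φ → TL 0 l a (fun t => Φ (T t)) := by
  have hbd : ∀ {a : ℝ} {Φ : ℝ → ℝ}, 0 ≤ a → TA (-1) a Φ → Bd a (fun t => Φ (T t)) := by
    intro a Φ ha hΦ
    obtain ⟨K, hK⟩ := hΦ.bd
    refine ⟨|K| * (2 + |T 0|) ^ a, fun t => ?_⟩
    have h1 := hK (T t)
    have h2 : jb (T t) ^ (-a) ≤ (2 + |T 0|) ^ a * jb t ^ (-a) := by
      have h3 := hT.jble t
      have h4 : (0:ℝ) < 2 + |T 0| := by positivity
      have h5 : (jb t / (2 + |T 0|)) ≤ jb (T t) := by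
        rw [div_le_iff₀ h4, mul_comm]
        exact h3
      have h6 : jb (T t) ^ (-a) ≤ (jb t / (2 + |T 0|)) ^ (-a) :=
        Real.rpow_le_rpow_of_nonpos (div_pos (jb_pos t) h4) h5 (by linarith)
      refine h6.trans (le_of_eq ?_)
      rw [Real.div_rpow (jb_pos t).le h4.le, Real.rpow_neg h4.le, div_inv_eq_mul, mul_comm]
    calc ‖Φ (T t)‖ ≤ K * jb (T t) ^ (-a) := h1
      _ ≤ |K| * jb (T t) ^ (-a) := mul_le_mul_of_nonneg_right (le_abs_self K) (jb_rpow_pos _ _).le
      _ ≤ |K| * ((2 + |T 0|) ^ a * jb t ^ (-a)) := mul_le_mul_of_nonneg_left h2 (abs_nonneg K)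
      _ = |K| * (2 + |T 0|) ^ a * jb t ^ (-a) := by ring
  induction l with
  | zero => intro a Φ ha hΦ; exact hbd ha hΦ
  | succ l ih =>
    intro a Φ ha hΦ
    have hd : ∀ t, HasDerivAt (fun t => Φ (T t)) (deriv Φ (T t) * deriv T t) t := fun t =>
      (hΦ.diff (T t)).hasDerivAt.comp t (hT.diff t).hasDerivAt
    refine ⟨hbd ha hΦ, fun t => (hd t).differentiableAt, ?_⟩
    have e : deriv (fun t => Φ (T t)) = fun t => deriv Φ (T t) * deriv T t := by
      funext t; exact (hd t).deriv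
    rw [e]
    have h1 := ih (a := a - -1) (by linarith) hΦ.deriv
    have h2 : TL 0 l (-(γ + 1 / (L:ℝ))) (deriv T) := (hT.cls l).mono hσ le_rfl
    exact (h1.mul h2).mono le_rfl (by linarith)

/-- slow velocity -/
def UU (T : ℝ → ℝ) (a : ℝ) (t : ℝ) : ℝ := jb (T t) ^ (-a) * deriv T t

include hT in
lemma UU_TB (hL : 0 < γ) (hα : 0 < α) (hσ : γ + 1 / (L:ℝ) + α - 1 ≤ 0) {a : ℝ}
    (ha : 2 * (γ + 1 / (L:ℝ)) ≤ a) : TB (-α) (fun t => (UU T a t : ℂ)) := by
  have hLL : 0 ≤ 1 / (L:ℝ) := by positivity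
  have hb : γ + 1 / (L:ℝ) ≤ 1 := by linarith
  have hb0 : 0 ≤ γ + 1 / (L:ℝ) := by linarith
  have ha0 : 0 ≤ a := by linarith
  have h1 : TA 0 a (fun t => jb (T t) ^ (-a)) := fun l =>
    hT.comp hb hσ l ha0 (by simpa using TA_jb_rpow (-a))
  have hcls : TA 0 (-(γ + 1 / (L:ℝ))) (deriv T) := hT.cls.mono hσ le_rfl
  have h2 : TA 0 (a - (γ + 1 / (L:ℝ))) (UU T a) := (h1.mul hcls).mono le_rfl (by linarith)
  have h3 : TA 0 (1 - α) (deriv (UU T a)) := by
    have hd1 : deriv (fun t => jb (T t) ^ (-a))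
        = fun t => deriv (fun z => jb z ^ (-a)) (T t) * deriv T t := by
      funext t
      exact (((jb_rpow_hasDerivAt (-a) (T t)).differentiableAt).hasDerivAt.comp t
        (hT.diff t).hasDerivAt).deriv
    have h4 : TA 0 (a + 1) (fun t => deriv (fun z => jb z ^ (-a)) (T t)) := fun l => by
      refine hT.comp hb hσ l (by linarith) ?_
      have := (TA_jb_rpow (-a)).deriv
      exact this.mono le_rfl (by linarith)
    have h5 : TA 0 (1 - α - 2 * (γ + 1 / (L:ℝ))) (deriv (deriv T)) :=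
      hT.cls.deriv.mono hσ (by linarith)
    have e : deriv (UU T a) = fun t => deriv (fun t => jb (T t) ^ (-a)) t * deriv T t
        + jb (T t) ^ (-a) * deriv (deriv T) t := by
      funext t
      exact deriv_mul (h1.diff t) (hcls.diff t)
    rw [e, hd1]
    refine TA.add ?_ ?_
    · exact ((h4.mul hcls).mul hcls).mono le_rfl (by linarith)
    · exact (h1.mul h5).mono le_rfl (by linarith)
  have hd : Differentiable ℝ (UU T a) := h2.diff
  refine ⟨?_, ?_, ?_⟩
  · exact ((h2.clm Complex.ofRealCLM).bd).mono (by linarith)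
  · exact Complex.ofRealCLM.differentiable.comp hd
  · have e : deriv (fun t => (UU T a t : ℂ)) = fun t => Complex.ofRealCLM (deriv (UU T a) t) := by
      funext t
      exact ((hd t).hasDerivAt.ofReal_comp).deriv
    rw [e]
    exact (h3.clm Complex.ofRealCLM).mono le_rfl (by linarith)

include hT in
lemma YYT_hasDerivAt (a t : ℝ) : HasDerivAt (fun t => YY a (T t)) (UU T a t) t :=
  (YY_hasDerivAt a (T t)).comp t (hT.diff t).hasDerivAt

end clock

end Ton
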