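import Pool.Agent.helper42.ThetaSeries

/-!
# Colour transfer computations for theta graphs (part 2)
-/

set_option autoImplicit false

namespace Pool.Agent.helper42.Theta

open PowerSeries Finset

variable {R : Type*} [CommRing R] {σ : Type*} [Fintype σ] [DecidableEq σ]

/-- `wt ξ l s t`: weighted number of proper colourings of the interior of a path with `l+1` edges
whose end vertices are coloured `s` and `t`. -/
def wt (ξ : σ → R) : ℕ → σ → σ → R
  | 0, s, t => if s = t then 0 else 1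
  | l + 1, s, t => ∑ r, wt ξ l s r * ξ r * (if r = t then 0 else 1)

/-- `qq ξ l s`: weighted number of proper colourings of a path with `l` further vertices attached
to a vertex coloured `s`. -/
def qq (ξ : σ → R) : ℕ → σ → R
  | 0, _ => 1
  | l + 1, s => ∑ r, (if s = r then 0 else 1) * ξ r * qq ξ l r

/-- the path polynomials. -/
def pp (ξ : σ → R) : ℕ → R
  | 0 => 1
  | n + 1 => ∑ s, ξ s * qq ξ n s

/-- the cycle polynomials. -/
def cc (ξ : σ → R) : ℕ → R
  | 0 => 0
  | n + 1 => ∑ s, ξ s * wt ξ n s s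

/-- tadpoles. -/
def tad (ξ : σ → R) (m l : ℕ) : R := ∑ s, ξ s * (wt ξ m s s * qq ξ l s)

/-- thetas with path lengths `a+1, b+1, c+1`. -/
def tht (ξ : σ → R) (a b c : ℕ) : R :=
  ∑ s, ∑ t, ξ s * ξ t * (wt ξ a s t * wt ξ b s t * wt ξ c s t)

variable (ξ : σ → R)

lemma wt_CK (b c : ℕ) (s s' : σ) :
    wt ξ (b + c + 1) s s' = ∑ t, wt ξ b s t * ξ t * wt ξ c t s' := by
  induction c generalizing s' with
  | zero => simp only [wt]
  | succ c ih =>
    have : b + (c + 1) + 1 = (b + c + 1) + 1 := by ring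
    rw [this]
    have h1 : wt ξ (b + c + 1 + 1) s s'
        = ∑ r, wt ξ (b + c + 1) s r * ξ r * (if r = s' then 0 else 1) := rfl
    rw [h1]
    have h2 : ∀ t, wt ξ (c + 1) t s' = ∑ r, wt ξ c t r * ξ r * (if r = s' then 0 else 1) :=
      fun t => rfl
    simp only [ih, h2, sum_mul, mul_sum]
    rw [sum_comm]
    refine sum_congr rfl fun t _ => sum_congr rfl fun r _ => ?_
    ring

lemma wt_symm (l : ℕ) (s t : σ) : wt ξ l s t = wt ξ l t s := by
  induction l generalizing s t with
  | zero => simp only [wt, eq_comm]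
  | succ l ih =>
    have h1 := wt_CK ξ 0 l s t
    rw [zero_add] at h1
    rw [h1]
    simp only [wt]
    refine sum_congr rfl fun r _ => ?_
    rw [ih r t]
    by_cases h : s = r
    · simp [h]
    · simp [h, Ne.symm h]; ring

lemma qq_eq (l : ℕ) (s : σ) : qq ξ (l + 1) s = ∑ r, wt ξ l s r * ξ r := by
  induction l generalizing s with
  | zero => simp only [qq, wt, mul_one]
  | succ l ih =>
    have h1 : ∀ t, wt ξ (l + 1) s t = ∑ r, wt ξ 0 s r * ξ r * wt ξ l r t := by
      intro t; have := wt_CK ξ 0 l s t; rwa [zero_add] at this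
    simp only [h1, sum_mul]
    rw [sum_comm]
    have h3 : qq ξ (l + 1 + 1) s = ∑ r, (if s = r then 0 else 1) * ξ r * qq ξ (l + 1) r := rfl
    rw [h3]
    refine sum_congr rfl fun r _ => ?_
    rw [ih, mul_sum]
    refine sum_congr rfl fun t _ => ?_
    simp only [wt]; ring

lemma wt_succ (l : ℕ) (s t : σ) : wt ξ (l + 1) s t = qq ξ (l + 1) s - ξ t * wt ξ l s t := by
  rw [qq_eq]
  simp only [wt]
  have : ∀ r, wt ξ l s r * ξ r * (if r = t then (0 : R) else 1)
      = wt ξ l s r * ξ r - (if r = t then wt ξ l s r * ξ r else 0) := by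
    intro r; split_ifs <;> ring
  simp only [this, sum_sub_distrib, sum_ite_eq', mem_univ, if_true]
  ring

lemma qq_succ (l : ℕ) (s : σ) : qq ξ (l + 1) s = pp ξ (l + 1) - ξ s * qq ξ l s := by
  simp only [qq, pp]
  have : ∀ r, (if s = r then (0 : R) else 1) * ξ r * qq ξ l r
      = ξ r * qq ξ l r - (if s = r then ξ r * qq ξ l r else 0) := by
    intro r; split_ifs <;> ring
  simp only [this, sum_sub_distrib, sum_ite_eq, mem_univ, if_true]

lemma qq_qq (m l : ℕ) : ∑ s, ξ s * (qq ξ m s * qq ξ l s) = pp ξ (m + l + 1) := by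
  induction m generalizing l with
  | zero => simp [qq, pp]
  | succ m ih =>
    have h2 := ih (l + 1)
    have : m + 1 + l + 1 = m + (l + 1) + 1 := by ring
    rw [this, ← h2]
    simp only [qq, sum_mul, mul_sum]
    rw [sum_comm]
    refine sum_congr rfl fun r _ => sum_congr rfl fun s _ => ?_
    by_cases h : s = r
    · simp [h]
    · simp [h, Ne.symm h]; ring

lemma tht_diff (a b c : ℕ) :
    tht ξ (a + 1) b c - tht ξ a b (c + 1) = tad ξ (b + c + 1) (a + 1) - tad ξ (a + b + 1) (c + 1) := by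
  have h1 : tad ξ (b + c + 1) (a + 1)
      = ∑ s, ∑ t, ξ s * ξ t * (wt ξ b s t * wt ξ c s t * qq ξ (a + 1) s) := by
    unfold tad
    refine sum_congr rfl fun s _ => ?_
    rw [wt_CK, sum_mul, mul_sum]
    refine sum_congr rfl fun t _ => ?_
    rw [wt_symm ξ c t s]; ring
  have h2 : tad ξ (a + b + 1) (c + 1)
      = ∑ s, ∑ t, ξ s * ξ t * (wt ξ a s t * wt ξ b s t * qq ξ (c + 1) s) := by
    unfold tad
    refine sum_congr rfl fun s _ => ?_
    rw [wt_CK, sum_mul, mul_sum]
    refine sum_congr rfl fun t _ => ?_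
    rw [wt_symm ξ b t s]; ring
  rw [h1, h2]
  unfold tht
  rw [← sum_sub_distrib, ← sum_sub_distrib]
  refine sum_congr rfl fun s _ => ?_
  rw [← sum_sub_distrib, ← sum_sub_distrib]
  refine sum_congr rfl fun t _ => ?_
  rw [wt_succ ξ a, wt_succ ξ c]; ring

lemma tad_diff (m l : ℕ) :
    tad ξ m (l + 1) - tad ξ (m + 1) l = cc ξ (m + 1) * pp ξ (l + 1) - pp ξ (m + l + 2) := by
  have h := qq_qq ξ (m + 1) l
  have : m + 1 + l + 1 = m + l + 2 := by ring
  rw [this] at h
  rw [← h]
  unfold tad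
  simp only [cc]
  rw [← sum_sub_distrib, sum_mul, ← sum_sub_distrib]
  refine sum_congr rfl fun s _ => ?_
  rw [wt_succ ξ m, qq_succ ξ l]; ring

lemma tad_zero_right (m : ℕ) : tad ξ m 0 = cc ξ (m + 1) := by
  simp [tad, cc, qq]

lemma tad_zero_left (l : ℕ) : tad ξ 0 l = 0 := by
  simp [tad, wt]

lemma tad_eq (m l : ℕ) :
    tad ξ m l = cc ξ (m + l + 1)
      - ∑ k ∈ range l, (pp ξ (m + l + 1) - pp ξ (k + 1) * cc ξ (m + l - k)) := by
  induction l generalizing m with
  | zero => simp [tad_zero_right]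
  | succ l ih =>
    have h := tad_diff ξ m l
    have h2 : tad ξ m (l + 1) = tad ξ (m + 1) l + (cc ξ (m + 1) * pp ξ (l + 1) - pp ξ (m + l + 2)) := by
      rw [← h]; ring
    rw [h2, ih, sum_range_succ]
    have e1 : m + 1 + l + 1 = m + (l + 1) + 1 := by ring
    have e2 : m + l + 2 = m + (l + 1) + 1 := by ring
    have e3 : m + (l + 1) - l = m + 1 := by omega
    have e4 : m + 1 + l = m + (l + 1) := by ring
    rw [e1, e2, e3, e4]; ring

/-- generating functions -/
noncomputable def Pser (ξ : σ → R) : R⟦X⟧ := PowerSeries.mk (pp ξ)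
noncomputable def Cser (ξ : σ → R) : R⟦X⟧ := PowerSeries.mk (cc ξ)

lemma cc_rec (n : ℕ) :
    cc ξ (n + 1) = ∑ k ∈ range n, (pp ξ (n + 1) - pp ξ (k + 1) * cc ξ (n - k)) := by
  have h := tad_eq ξ 0 n
  rw [tad_zero_left] at h
  simp only [zero_add] at h
  exact (sub_eq_zero.mp h.symm)

lemma Pser_mul_Cser : Pser ξ * Cser ξ = D (Pser ξ) - Pser ξ + 1 := by
  ext n
  rw [map_add, map_sub, coeff_D, coeff_mul]
  simp only [Pser, Cser, coeff_mk]
  cases n with
  | zero => simp [pp, cc]
  | succ n =>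
    rw [Finset.Nat.sum_antidiagonal_eq_sum_range_succ (fun i j => pp ξ i * cc ξ j),
      sum_range_succ, Nat.sub_self]
    rw [sum_range_succ']
    have h := cc_rec ξ n
    have h1 : ∑ k ∈ range n, pp ξ (k + 1) * cc ξ (n + 1 - (k + 1))
        = ∑ k ∈ range n, pp ξ (k + 1) * cc ξ (n - k) := by
      refine sum_congr rfl fun k _ => ?_
      have : n + 1 - (k + 1) = n - k := by omega
      rw [this]
    rw [h1]
    rw [sum_sub_distrib] at h
    simp only [sum_const, card_range, nsmul_eq_mul] at h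
    have h0 : cc ξ 0 = 0 := rfl
    have h2 : pp ξ 0 = 1 := rfl
    have h3 : (coeff (n + 1)) (1 : R⟦X⟧) = 0 := by
      rw [PowerSeries.coeff_one]; simp
    rw [h0, h2, h3, Nat.sub_zero]
    push_cast
    linear_combination h

/-- The generating function of elementary symmetric functions. -/
noncomputable def Eser (ξ : σ → R) : R⟦X⟧ := ∏ s, (1 + PowerSeries.C (ξ s) * X)

omit [Fintype σ] in
lemma D_prod (S : Finset σ) :
    D (∏ s ∈ S, (1 + PowerSeries.C (ξ s) * X))
      = ∑ s ∈ S, PowerSeries.C (ξ s) * X * ∏ r ∈ S.erase s, (1 + PowerSeries.C (ξ r) * X) := by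
  induction S using Finset.induction_on with
  | empty =>
    simp only [prod_empty, sum_empty]
    ext n; rw [coeff_D, coeff_one]; split_ifs with h <;> simp [h]
  | insert a S ha ih =>
    rw [prod_insert ha, D_mul, ih, sum_insert ha, erase_insert ha]
    have h1 : D (1 + PowerSeries.C (ξ a) * X) = PowerSeries.C (ξ a) * (X : R⟦X⟧) := by
      ext n
      rw [coeff_D, map_add, coeff_one, coeff_C_mul, coeff_X]
      by_cases hn : n = 1
      · subst hn; simp
      · by_cases hn0 : n = 0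
        · subst hn0; simp
        · simp [hn, hn0]
    rw [h1, mul_sum]
    congr 1
    refine sum_congr rfl fun s hs => ?_
    have hsa : s ≠ a := fun h => ha (h ▸ hs)
    have : (insert a S).erase s = insert a (S.erase s) := by
      rw [erase_insert_of_ne hsa.symm]
    rw [this, prod_insert (by simp [ha])]
    ring

lemma Eser_Pser : (Eser ξ - D (Eser ξ)) * Pser ξ = Eser ξ := by
  have hq : ∀ s, (PowerSeries.mk fun l => qq ξ l s) * (1 + PowerSeries.C (ξ s) * X) = Pser ξ := by
    intro s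
    ext n
    rw [mul_add, mul_one, map_add]
    have : (PowerSeries.mk fun l => qq ξ l s) * (PowerSeries.C (ξ s) * X)
        = PowerSeries.C (ξ s) * (X * PowerSeries.mk fun l => qq ξ l s) := by ring
    rw [this, coeff_C_mul]
    cases n with
    | zero => simp [Pser, pp, qq]
    | succ n =>
      rw [coeff_succ_X_mul]
      simp only [coeff_mk, Pser]
      rw [qq_succ]; ring
  have hP : Pser ξ = 1 + X * ∑ s, PowerSeries.C (ξ s) * (PowerSeries.mk fun l => qq ξ l s) := by
    ext n
    cases n with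
    | zero => simp [Pser, pp]
    | succ n =>
      rw [map_add, coeff_succ_X_mul, map_sum]
      simp only [coeff_C_mul, coeff_mk, Pser, pp]
      rw [coeff_one]; simp
  have hE : ∀ s, Eser ξ = (1 + PowerSeries.C (ξ s) * X)
      * ∏ r ∈ univ.erase s, (1 + PowerSeries.C (ξ r) * X) := by
    intro s
    exact (mul_prod_erase univ (fun s => 1 + PowerSeries.C (ξ s) * X) (mem_univ s)).symm
  have hD : D (Eser ξ) * Pser ξ
      = Eser ξ * (X * ∑ s, PowerSeries.C (ξ s) * (PowerSeries.mk fun l => qq ξ l s)) := by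
    rw [show D (Eser ξ) = _ from D_prod ξ univ, sum_mul, mul_sum, mul_sum]
    refine sum_congr rfl fun s _ => ?_
    rw [hE s, ← hq s]; ring
  rw [sub_mul, hD]
  have : Eser ξ * Pser ξ
      = Eser ξ + Eser ξ * (X * ∑ s, PowerSeries.C (ξ s) * (PowerSeries.mk fun l => qq ξ l s)) := by
    conv_lhs => rw [hP]
    ring
  rw [this]; ring

omit [DecidableEq σ] in
lemma constantCoeff_Eser : PowerSeries.constantCoeff (Eser ξ) = 1 := by
  unfold Eser
  rw [map_prod]
  simp

omit [DecidableEq σ] in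
lemma isUnit_Eser : IsUnit (Eser ξ) := by
  rw [PowerSeries.isUnit_iff_constantCoeff, constantCoeff_Eser]; exact isUnit_one

lemma Cser_mul_G : D (Eser ξ - D (Eser ξ)) = -(Cser ξ * (Eser ξ - D (Eser ξ))) := by
  set E := Eser ξ with hE
  set P := Pser ξ with hP
  set K := Cser ξ with hK
  set G := E - D E with hG
  have h1 : G * P = E := Eser_Pser ξ
  have h2 : P * K = D P - P + 1 := Pser_mul_Cser ξ
  have h3 : D G * P + G * D P = D E := by rw [← D_mul, h1]
  have h4 : E * (D G + K * G) = 0 := by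
    have h5 : D E = E - G := by rw [hG]; ring
    have h6 : E * K = -(D G * P) := by
      linear_combination (-K) * h1 + G * h2 + h3 - h1 + h5
    linear_combination G * h6 - D G * h1
  have h6 : D G + K * G = 0 := by
    have hu := isUnit_Eser ξ
    rw [← hE] at hu
    exact (hu.mul_right_eq_zero).mp h4
  linear_combination h6


lemma coeff_lo_Pser_mul (N l : ℕ) (hl : l ≤ N) :
    coeff (N + 1) (lo (l + 1) (Pser ξ - 1) * Cser ξ)
      = ∑ k ∈ range l, pp ξ (k + 1) * cc ξ (N - k) := by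
  rw [coeff_mul, Finset.Nat.sum_antidiagonal_eq_sum_range_succ
    (fun i j => coeff i (lo (l + 1) (Pser ξ - 1)) * coeff j (Cser ξ)), sum_range_succ']
  have h0 : coeff 0 (lo (l + 1) (Pser ξ - 1)) = 0 := by
    simp [Pser, pp]
  rw [h0, zero_mul, add_zero]
  have h1 : ∀ k ∈ range (N + 1), coeff (k + 1) (lo (l + 1) (Pser ξ - 1))
        * coeff (N + 1 - (k + 1)) (Cser ξ)
      = if k < l then pp ξ (k + 1) * cc ξ (N - k) else 0 := by
    intro k _
    rw [coeff_lo, map_sub, coeff_one]
    have e : N + 1 - (k + 1) = N - k := by omega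
    rw [e]
    by_cases hk : k < l
    · simp [hk, Pser, Cser]
    · simp [hk]
  rw [sum_congr rfl h1, ← sum_filter]
  refine sum_congr ?_ fun _ _ => rfl
  ext k; simp only [mem_filter, mem_range]; omega

lemma ramp_succ_sub (a : ℕ) (f : R⟦X⟧) : ramp (a + 1) f = ramp a f + lo (a + 1) f := by
  ext n
  rw [map_add, coeff_ramp, coeff_ramp, coeff_lo]
  by_cases h : n < a + 1
  · have : a + 1 - n = (a - n) + 1 := by omega
    rw [this]; simp only [h, if_true]; push_cast; ring
  · have h1 : a + 1 - n = 0 := by omega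
    have h2 : a - n = 0 := by omega
    rw [h1, h2]; simp [h]

lemma tad_eq' (m l : ℕ) :
    tad ξ m l = cc ξ (m + l + 1) - l * pp ξ (m + l + 1)
      + coeff (m + l + 1) (lo (l + 1) (Pser ξ - 1) * Cser ξ) := by
  rw [tad_eq, coeff_lo_Pser_mul ξ (m + l) l (by omega), sum_sub_distrib]
  simp only [sum_const, card_range, nsmul_eq_mul]
  ring

/-- formula for the weighted number of colourings of theta graphs as a power series
coefficient. -/
noncomputable def FF (ξ : σ → R) (a b c : ℕ) : R :=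
  coeff (a + b + c + 2) (Sser (Pser ξ - 1) (Cser ξ) (a + 1) (b + 1) (c + 1))

lemma Sser_perm (P C : R⟦X⟧) (a b c : ℕ) : Sser P C a b c = Sser P C a c b := by
  unfold Sser; ring

lemma FF_diff (a b c : ℕ) :
    FF ξ (a + 1) b c - FF ξ a b (c + 1)
      = tad ξ (b + c + 1) (a + 1) - tad ξ (a + b + 1) (c + 1) := by
  have hN : a + 1 + b + c + 2 = a + b + c + 3 := by ring
  have hN' : a + b + (c + 1) + 2 = a + b + c + 3 := by ring
  unfold FF
  rw [hN, hN', ← map_sub]
  have hS : Sser (Pser ξ - 1) (Cser ξ) (a + 1 + 1) (b + 1) (c + 1)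
      - Sser (Pser ξ - 1) (Cser ξ) (a + 1) (b + 1) (c + 1 + 1)
      = ((c : R⟦X⟧) * (Pser ξ - 1) - (a : R⟦X⟧) * (Pser ξ - 1))
        + lo (a + 1 + 1) (Pser ξ - 1) * Cser ξ - lo (c + 1 + 1) (Pser ξ - 1) * Cser ξ := by
    unfold Sser
    rw [ramp_succ_sub (a + 1), ramp_succ_sub (c + 1)]
    push_cast
    ring
  rw [hS, tad_eq', tad_eq']
  have e1 : b + c + 1 + (a + 1) + 1 = a + b + c + 3 := by ring
  have e2 : a + b + 1 + (c + 1) + 1 = a + b + c + 3 := by ring
  rw [e1, e2, map_sub, map_add, map_sub, coeff_natCast_mul, coeff_natCast_mul]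
  have h3 : coeff (a + b + c + 3) (Pser ξ - 1) = pp ξ (a + b + c + 3) := by
    rw [map_sub, coeff_one]; simp [Pser]
  rw [h3]
  push_cast
  ring

lemma FF_base (a : ℕ) : FF ξ a 0 0 = cc ξ (a + 2) := by
  unfold FF
  simp only [add_zero, zero_add]
  have h1 : ramp 1 (Pser ξ - 1) = 0 := by
    ext n
    rw [coeff_ramp]
    by_cases hn : n = 0
    · subst hn; simp [Pser, pp]
    · have : 1 - n = 0 := by omega
      rw [this]; simp
  have h2 : coeff (a + 2) ((Pser ξ - 1) * D (Cser ξ))
      = coeff (a + 2) (ramp (a + 1) (Pser ξ - 1) * Cser ξ)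
        + coeff (a + 2) (lo (a + 2) (Pser ξ - 1) * Cser ξ) := by
    rw [← map_add, ← add_mul, ← ramp_succ_sub (a + 1), coeff_mul, coeff_mul]
    refine sum_congr rfl fun p hp => ?_
    have hp' : p.1 + p.2 = a + 2 := by simpa using hp
    rw [coeff_D, coeff_ramp]
    have : a + 1 + 1 - p.1 = p.2 := by omega
    rw [this]; ring
  unfold Sser
  rw [h1, map_add, map_sub, h2]
  have h3 : coeff (a + 2) ((ramp (a + 1) (Pser ξ - 1) + 0 + 0) * Cser ξ)
      = coeff (a + 2) (ramp (a + 1) (Pser ξ - 1) * Cser ξ) := by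
    rw [add_zero, add_zero]
  rw [h3, coeff_lo_Pser_mul ξ (a + 1) (a + 1) le_rfl]
  have h4 : (((a + 1 : ℕ) : R⟦X⟧) * ((1 : ℕ) : R⟦X⟧) + ((1 : ℕ) : R⟦X⟧) * ((1 : ℕ) : R⟦X⟧)
      + ((1 : ℕ) : R⟦X⟧) * ((a + 1 : ℕ) : R⟦X⟧) - ((a + 1 : ℕ) : R⟦X⟧) - ((1 : ℕ) : R⟦X⟧)
      - ((1 : ℕ) : R⟦X⟧) + 1) = ((a + 1 : ℕ) : R⟦X⟧) := by
    push_cast; ring
  rw [h4, coeff_natCast_mul]
  have h5 : coeff (a + 2) (Pser ξ - 1) = pp ξ (a + 2) := by
    rw [map_sub, coeff_one]; simp [Pser]
  rw [h5]
  have h6 := cc_rec ξ (a + 1)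
  rw [sum_sub_distrib] at h6
  simp only [sum_const, card_range, nsmul_eq_mul] at h6
  rw [show a + 1 + 1 = a + 2 from rfl] at h6
  rw [h6]; ring

lemma tht_base (a : ℕ) : tht ξ a 0 0 = cc ξ (a + 2) := by
  simp only [tht, cc, wt]
  refine sum_congr rfl fun s _ => ?_
  rw [mul_sum]
  refine sum_congr rfl fun t _ => ?_
  by_cases h : s = t
  · simp [h]
  · simp [h, Ne.symm h]; ring

lemma tht_perm (a b c : ℕ) : tht ξ a b c = tht ξ a c b := by
  unfold tht
  refine sum_congr rfl fun s _ => sum_congr rfl fun t _ => ?_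
  ring

lemma FF_perm (a b c : ℕ) : FF ξ a b c = FF ξ a c b := by
  unfold FF
  rw [Sser_perm, show a + b + c + 2 = a + c + b + 2 by ring]

theorem tht_eq (a b c : ℕ) : tht ξ a b c = FF ξ a b c := by
  induction c generalizing a b with
  | succ c ih =>
    have h1 := tht_diff ξ a b c
    have h2 := FF_diff ξ a b c
    rw [ih (a + 1) b] at h1
    rw [← h1] at h2
    linear_combination h2
  | zero =>
    induction b generalizing a with
    | zero => rw [tht_base, FF_base]
    | succ b ih =>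
      have h1 := tht_diff ξ a 0 b
      have h2 := FF_diff ξ a 0 b
      have h3 := ih (a + 1)
      rw [tht_perm ξ (a + 1) 0 b, FF_perm ξ (a + 1) 0 b] at *
      rw [tht_perm, FF_perm]
      rw [h3, ← h2] at h1
      linear_combination -h1

end Pool.Agent.helper42.Theta
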