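import Mathlib

/-!
# The coefficient inequalities for theta graphs (part 3)
-/

set_option autoImplicit false

namespace Pool.Agent.helper42.Theta

/-- `(x - i)_+` -/
def pos (x i : ℤ) : ℤ := if x ≤ i then 0 else x - i

/-- indicator of `x ≤ j` -/
def ind (x j : ℤ) : ℤ := if x ≤ j then 1 else 0

/-- unsymmetrised coefficient -/
def vu (i j h a b c : ℤ) : ℤ :=
  (a * b + b * c + c * a - a - b - c + 1) - (a + b + c - 2) * h + j * h
    - h * (i + (pos a i + pos b i + pos c i))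
    - (ind a j * ((b - 1) * (c - 1) + h) + ind a j * (a - j) * ((b + c - 1) - h)
        - ind a j * h * (i + (pos b i + pos c i)))
    - (ind b j * ((c - 1) * (a - 1) + h) + ind b j * (b - j) * ((c + a - 1) - h)
        - ind b j * h * (i + (pos c i + pos a i)))
    - (ind c j * ((a - 1) * (b - 1) + h) + ind c j * (c - j) * ((a + b - 1) - h)
        - ind c j * h * (i + (pos a i + pos b i)))
    + (ind a j * (a - j) * (ind b h * ((b - h) + (c - 1)))
        + ind a j * (ind b h * ((c - 1) * (b - h) - (c - 1))))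
    + (ind b j * (b - j) * (ind c h * ((c - h) + (a - 1)))
        + ind b j * (ind c h * ((a - 1) * (c - h) - (a - 1))))
    + (ind c j * (c - j) * (ind a h * ((a - h) + (b - 1)))
        + ind c j * (ind a h * ((b - 1) * (a - h) - (b - 1))))

def V (i j h a b c : ℤ) : ℤ := vu i j h a b c + vu i h j a b c

lemma V_zero {p q r a b c : ℤ} (hpq : p ≤ q) (hqr : q ≤ r)
    (hab : a ≤ b) (hbc : b ≤ c) (hN : a + b + c = p + q + r + 1) (h : a ≤ p ∨ r < c) :
    V p q r a b c = 0 ∧ V q p r a b c = 0 ∧ V r p q a b c = 0 := by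
  have hc : c = p + q + r + 1 - a - b := by linarith
  unfold V vu ind pos
  rcases le_or_gt a p with a1 | a1
  · rcases le_or_gt b p with b1 | b1
    · refine ⟨?_, ?_, ?_⟩ <;> simp (disch := omega) only [if_pos, if_neg] <;> subst hc <;> ring
    · rcases le_or_gt b q with b2 | b2
      · have c3 : r < c := by omega
        refine ⟨?_, ?_, ?_⟩ <;> simp (disch := omega) only [if_pos, if_neg] <;> subst hc <;> ring
      · rcases le_or_gt b r with b3 | b3
        · rcases le_or_gt c r with c3 | c3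
          · refine ⟨?_, ?_, ?_⟩ <;> simp (disch := omega) only [if_pos, if_neg] <;> subst hc <;> ring
          · refine ⟨?_, ?_, ?_⟩ <;> simp (disch := omega) only [if_pos, if_neg] <;> subst hc <;> ring
        · refine ⟨?_, ?_, ?_⟩ <;> simp (disch := omega) only [if_pos, if_neg] <;> subst hc <;> ring
  · have c3 : r < c := by omega
    have hq : a ≤ q := by omega
    have hb : b ≤ q := by omega
    refine ⟨?_, ?_, ?_⟩ <;> simp (disch := omega) only [if_pos, if_neg] <;> subst hc <;> ring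


/-- all bins in `(p, q]`. -/
lemma V_nq0 {p q r a b c : ℤ} (hqr : q ≤ r) (hpa : p < a)
    (hab : a ≤ b) (hbc : b ≤ c) (hN : a + b + c = p + q + r + 1) (h : c ≤ q) :
    V p q r a b c = (r - q) * (2 * (q - p) - (r - q) - 1) + 2 * (q - p)
        + 2 * ((q - a) * (q - b) + (q - b) * (q - c) + (q - a) * (q - c))
    ∧ V q p r a b c = (r - q) ^ 2 + (r - q)
        - ((q - a) * (q - b) + (q - b) * (q - c) + (q - a) * (q - c))
    ∧ V r p q a b c = -(r - q) * (2 * (q - p) - 1)
        - ((q - a) * (q - b) + (q - b) * (q - c) + (q - a) * (q - c)) := by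
  have hc : c = p + q + r + 1 - a - b := by linarith
  unfold V vu ind pos
  refine ⟨?_, ?_, ?_⟩ <;> simp (disch := omega) only [if_pos, if_neg] <;> subst hc <;> ring

/-- exactly one bin in `(q, r]`. -/
lemma V_nq1 {p q r a b c : ℤ} (hpa : p < a)
    (hab : a ≤ b) (hbc : b ≤ c) (hN : a + b + c = p + q + r + 1) (hb : b ≤ q) (hc' : q < c)
    (hcr : c ≤ r) :
    V p q r a b c = (q - p) + (2 * q - a - b) * (r - c) + (q - a) * (q - b)
    ∧ V q p r a b c = (r - c) * (r - c + 1) - (q - a) * (q - b)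
    ∧ V r p q a b c = -(q - p) * (r - c) := by
  have hc : c = p + q + r + 1 - a - b := by linarith
  unfold V vu ind pos
  refine ⟨?_, ?_, ?_⟩ <;> simp (disch := omega) only [if_pos, if_neg] <;> subst hc <;> ring

/-- exactly two bins in `(q, r]`. -/
lemma V_nq2 {p q r a b c : ℤ} (hpa : p < a)
    (hbc : b ≤ c) (hN : a + b + c = p + q + r + 1) (ha' : a ≤ q) (hb' : q < b)
    (hcr : c ≤ r) :
    V p q r a b c = -(r - q) * (a - p)
    ∧ V q p r a b c = (a - p - 1) * ((r - q) + a - p) - (r - b) * (r - c)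
    ∧ V r p q a b c = (r - b) * (r - c) - (a - p - 1) * (a - p) := by
  have hc : c = p + q + r + 1 - a - b := by linarith
  unfold V vu ind pos
  refine ⟨?_, ?_, ?_⟩ <;> simp (disch := omega) only [if_pos, if_neg] <;> subst hc <;> ring

/-- all three bins in `(q, r]`. -/
lemma V_nq3 {p q r a b c : ℤ} (hpq : p ≤ q) (hqr : q ≤ r)
    (hab : a ≤ b) (hbc : b ≤ c) (hN : a + b + c = p + q + r + 1) (ha' : q < a)
    (hcr : c ≤ r) :
    V p q r a b c = -(a * b + b * c + c * a - a - b - c + 1) + q ^ 2 + 2 * p * r - r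
    ∧ V q p r a b c = -(a * b + b * c + c * a - a - b - c + 1) + 2 * q * r - r + p ^ 2
    ∧ V r p q a b c = 2 * (a * b + b * c + c * a - a - b - c + 1) - q ^ 2 - p ^ 2
        - 2 * p * r - 2 * q * r + p + q := by
  have hc : c = p + q + r + 1 - a - b := by linarith
  unfold V vu ind pos
  refine ⟨?_, ?_, ?_⟩ <;> simp (disch := omega) only [if_pos, if_neg] <;> subst hc <;> ring


def Rr (i j X : ℤ) : ℤ :=
  if X ≤ i then -6 * (j - i) * ((X - 1) * X)
      + 3 * j * (i - 1) * (2 * (X - 1) * (2 * i - 1 - X) + (i + j - 3 + X))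
  else 2 * (i - 1) * ((j - i) ^ 2 + (i ^ 2 - 1) * j)

lemma Rr_small {i j X : ℤ} (hi : 1 ≤ i) (hij : i ≤ j) (hX : 1 ≤ X) (hXi : X ≤ i) :
    3 * j * (i - 1) * (j - 1) ≤ Rr i j X := by
  unfold Rr
  rw [if_pos hXi]
  obtain ⟨g, rfl⟩ : ∃ g, X = g + 1 := ⟨X - 1, by ring⟩
  obtain ⟨P, rfl⟩ : ∃ P, i = P + 1 := ⟨i - 1, by ring⟩
  obtain ⟨s, rfl⟩ : ∃ s, j = P + 1 + s := ⟨j - (P + 1), by ring⟩
  have hg : 0 ≤ g := by linarith
  have hP : g ≤ P := by linarith
  have hs : 0 ≤ s := by linarith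
  have key : 2 * (g * (g + 1)) ≤ P * (2 * g * (2 * P - g) + (P + g)) := by
    rcases eq_or_lt_of_le hg with h0 | h0
    · subst h0; nlinarith
    · have hP1 : 1 ≤ P := by linarith
      have e1 : g * g ≤ P * P := by nlinarith
      have e2 : g * g ≤ P * g := by nlinarith
      have e3 : g ≤ P * (g * (2 * P - g)) := by
        have : g * 1 ≤ g * (2 * P - g) := by
          apply mul_le_mul_of_nonneg_left _ hg; linarith
        nlinarith
      nlinarith
  have h2 : s * (2 * (g * (g + 1))) ≤ (P + 1 + s) * (P * (2 * g * (2 * P - g) + (P + g))) := by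
    have h3 : s * (2 * (g * (g + 1))) ≤ s * (P * (2 * g * (2 * P - g) + (P + g))) :=
      mul_le_mul_of_nonneg_left key hs
    have h4 : 0 ≤ (P + 1) * (P * (2 * g * (2 * P - g) + (P + g))) := by
      apply mul_nonneg (by linarith)
      apply le_trans _ key
      positivity
    nlinarith
  nlinarith

lemma Rr_large {i j X : ℤ} (hXi : i < X) :
    Rr i j X = 2 * (i - 1) * ((j - i) ^ 2 + (i ^ 2 - 1) * j) := by
  unfold Rr; rw [if_neg (not_le.mpr hXi)]

lemma Rr_ge1 {i j X : ℤ} (hi : 1 ≤ i) (hij : i ≤ j) (hX : 1 ≤ X) :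
    2 * (i - 1) * (j - 1) ^ 2 ≤ Rr i j X := by
  rcases le_or_gt X i with h | h
  · refine le_trans ?_ (Rr_small hi hij hX h)
    obtain ⟨P, rfl⟩ : ∃ P, i = P + 1 := ⟨i - 1, by ring⟩
    obtain ⟨s, rfl⟩ : ∃ s, j = P + 1 + s := ⟨j - (P + 1), by ring⟩
    have hP : 0 ≤ P := by linarith
    have hs : 0 ≤ s := by linarith
    have h1 : 0 ≤ P * (P + s) := by positivity
    have h2 : 0 ≤ P * (P + s) * (P + s) := by positivity
    nlinarith
  · rw [Rr_large h]
    obtain ⟨P, rfl⟩ : ∃ P, i = P + 1 := ⟨i - 1, by ring⟩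
    obtain ⟨s, rfl⟩ : ∃ s, j = P + 1 + s := ⟨j - (P + 1), by ring⟩
    have hP : 0 ≤ P := by linarith
    have hs : 0 ≤ s := by linarith
    have : 2 * (P + 1 - 1) * ((P + 1 + s - (P + 1)) ^ 2 + ((P + 1) ^ 2 - 1) * (P + 1 + s))
       - 2 * (P + 1 - 1) * (P + 1 + s - 1) ^ 2
       = 2 * P * (P * P * (P + s) + 2 * P + 2 * P * P) := by ring
    have h3 : 0 ≤ 2 * P * (P * P * (P + s) + 2 * P + 2 * P * P) := by positivity
    linarith

lemma Rr_ge2 {i j X : ℤ} (hi : 1 ≤ i) (hij : i ≤ j) (hX : 1 ≤ X) :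
    3 * j * (i - 1) * (j - 1) ≤ 2 * Rr i j X := by
  rcases le_or_gt X i with h | h
  · have h1 := Rr_small hi hij hX h
    have h2 : 0 ≤ 3 * j * (i - 1) * (j - 1) := by
      have e1 : 0 ≤ i - 1 := by linarith
      have e2 : 0 ≤ j - 1 := by linarith
      have e3 : 0 ≤ j := by linarith
      positivity
    linarith
  · rw [Rr_large h]
    obtain ⟨P, rfl⟩ : ∃ P, i = P + 1 := ⟨i - 1, by ring⟩
    obtain ⟨s, rfl⟩ : ∃ s, j = P + 1 + s := ⟨j - (P + 1), by ring⟩
    have hP : 0 ≤ P := by linarith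
    have hs : 0 ≤ s := by linarith
    rcases eq_or_lt_of_le hP with h0 | h0
    · subst h0; simp
    · have hP1 : 0 ≤ P - 1 := by linarith
      obtain ⟨m, rfl⟩ : ∃ m, P = m + 1 := ⟨P - 1, by ring⟩
      have hm : 0 ≤ m := by linarith
      have : 2 * (2 * (m + 1 + 1 - 1) * ((m + 1 + 1 + s - (m + 1 + 1)) ^ 2
            + ((m + 1 + 1) ^ 2 - 1) * (m + 1 + 1 + s)))
          - 3 * (m + 1 + 1 + s) * (m + 1 + 1 - 1) * (m + 1 + 1 + s - 1)
          = (m + 1) * (4 * s ^ 2 + 4 * (m ^ 2 + 4 * m + 3) * (m + 2 + s)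
              - 3 * (m + 2 + s) * (m + 1 + s)) := by ring
      have h4 : (m + 1) * (4 * s ^ 2 + 4 * (m ^ 2 + 4 * m + 3) * (m + 2 + s)
              - 3 * (m + 2 + s) * (m + 1 + s))
          = (m + 1) * (s ^ 2 + 3 * s + 10 * (m * s) + 4 * (m ^ 2 * s) + 4 * m ^ 3 + 21 * m ^ 2
              + 35 * m + 18) := by ring
      have h5 : 0 ≤ (m + 1) * (s ^ 2 + 3 * s + 10 * (m * s) + 4 * (m ^ 2 * s) + 4 * m ^ 3 + 21 * m ^ 2
              + 35 * m + 18) := by positivity
      linarith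



lemma Rr_nonneg {i j X : ℤ} (hi : 1 ≤ i) (hij : i ≤ j) (hX : 1 ≤ X) : 0 ≤ Rr i j X := by
  refine le_trans ?_ (Rr_ge1 hi hij hX)
  have : 0 ≤ i - 1 := by linarith
  positivity

def F6s (i j X Y Z : ℤ) : ℤ :=
  if i ≤ 0 then 3 * j * (2 * Y * Z - Y - Z)
  else if Y ≤ i then 0
  else if Z ≤ i then 0
  else 6 * (j - i) * (Y - i) * (Z - i) + Rr i j X

lemma F6s_nonneg {i j X Y Z : ℤ} (hj : 0 ≤ j) (hij : i ≤ j) (hX : 1 ≤ X) (hY : 1 ≤ Y) (hZ : 1 ≤ Z) :
    0 ≤ F6s i j X Y Z := by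
  unfold F6s
  split_ifs with h1 h2 h3
  · have : 0 ≤ 2 * Y * Z - Y - Z := by nlinarith
    positivity
  · exact le_rfl
  · exact le_rfl
  · push Not at h1 h2 h3
    have h4 := Rr_nonneg (i := i) (j := j) (X := X) (by omega) hij hX
    have e1 : 0 ≤ j - i := by linarith
    have e2 : 0 ≤ Y - i := by linarith
    have e3 : 0 ≤ Z - i := by linarith
    positivity

def kap (i j h a b c : ℤ) : ℤ :=
  i * (1 - j) * (1 - h) * V i j h a b c + j * (1 - i) * (1 - h) * V j i h a b c
    + h * (1 - i) * (1 - j) * V h i j a b c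

def fls (h i j a b c : ℤ) : ℤ :=
  (h - 1) * ((if a ≤ h then 0 else F6s i j (a - h) b c) + (if b ≤ h then 0 else F6s i j (b - h) c a)
    + (if c ≤ h then 0 else F6s i j (c - h) a b))

lemma fls_nonneg {h i j a b c : ℤ} (hh : 1 ≤ h) (hj : 0 ≤ j) (hij : i ≤ j) (ha : 1 ≤ a) (hb : 1 ≤ b)
    (hc : 1 ≤ c) : 0 ≤ fls h i j a b c := by
  unfold fls
  apply mul_nonneg (by linarith)
  have h1 : 0 ≤ (if a ≤ h then 0 else F6s i j (a - h) b c) := by
    split_ifs with h1
    · exact le_rfl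
    · exact F6s_nonneg hj hij (by omega) hb hc
  have h2 : 0 ≤ (if b ≤ h then 0 else F6s i j (b - h) c a) := by
    split_ifs with h1
    · exact le_rfl
    · exact F6s_nonneg hj hij (by omega) hc ha
  have h3 : 0 ≤ (if c ≤ h then 0 else F6s i j (c - h) a b) := by
    split_ifs with h1
    · exact le_rfl
    · exact F6s_nonneg hj hij (by omega) ha hb
  linarith

/-- sorted key expression -/
def KIs (p q r a b c : ℤ) : ℤ :=
  6 * kap p q r a b c + fls r p q a b c + fls q p r a b c + fls p q r a b c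

lemma kap_nonneg {p q r a b c : ℤ} (hp : 1 ≤ p) (hpq : p ≤ q) (hqr : q ≤ r)
    (h1 : 0 ≤ V p q r a b c) (h2 : 0 ≤ V p q r a b c + V q p r a b c)
    (h3 : 0 ≤ V p q r a b c + V q p r a b c + V r p q a b c) : 0 ≤ kap p q r a b c := by
  unfold kap
  generalize V p q r a b c = x at *
  generalize V q p r a b c = y at *
  generalize V r p q a b c = z at *
  have e : p * (1 - q) * (1 - r) * x + q * (1 - p) * (1 - r) * y + r * (1 - p) * (1 - q) * z
    = ((p - 1) * (q - 1) * (r - 1) + (p - 1) * (q - 1)) * (x + y + z)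
      + (p - 1) * (r - q) * (x + y) + (r - 1) * (q - p) * x := by ring
  rw [e]
  have hP : 0 ≤ p - 1 := by linarith
  have hQ : 0 ≤ q - 1 := by linarith
  have hR : 0 ≤ r - 1 := by linarith
  have hd : 0 ≤ r - q := by linarith
  have hD : 0 ≤ q - p := by linarith
  positivity

/-- The case where all `V` vanish. -/
lemma KIs_caseI {p q r a b c : ℤ} (hp : 1 ≤ p) (hpq : p ≤ q) (hqr : q ≤ r) (ha : 1 ≤ a)
    (hab : a ≤ b) (hbc : b ≤ c) (hN : a + b + c = p + q + r + 1) (h : a ≤ p ∨ r < c) :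
    0 ≤ KIs p q r a b c := by
  obtain ⟨h1, h2, h3⟩ := V_zero hpq hqr hab hbc hN h
  have hk : kap p q r a b c = 0 := by unfold kap; rw [h1, h2, h3]; ring
  unfold KIs
  rw [hk]
  have f1 := fls_nonneg (h := r) (i := p) (j := q) (a := a) (b := b) (c := c) (by omega) (by omega)
    hpq ha (by omega) (by omega)
  have f2 := fls_nonneg (h := q) (i := p) (j := r) (a := a) (b := b) (c := c) (by omega) (by omega)
    (by omega) ha (by omega) (by omega)
  have f3 := fls_nonneg (h := p) (i := q) (j := r) (a := a) (b := b) (c := c) (by omega) (by omega)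
    (by omega) ha (by omega) (by omega)
  linarith

lemma KIs_of_kap {p q r a b c : ℤ} (hp : 1 ≤ p) (hpq : p ≤ q) (hqr : q ≤ r) (ha : 1 ≤ a)
    (hab : a ≤ b) (hbc : b ≤ c) (hk : 0 ≤ kap p q r a b c) : 0 ≤ KIs p q r a b c := by
  unfold KIs
  have f1 := fls_nonneg (h := r) (i := p) (j := q) (a := a) (b := b) (c := c) (by omega) (by omega)
    hpq ha (by omega) (by omega)
  have f2 := fls_nonneg (h := q) (i := p) (j := r) (a := a) (b := b) (c := c) (by omega) (by omega)
    (by omega) ha (by omega) (by omega)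
  have f3 := fls_nonneg (h := p) (i := q) (j := r) (a := a) (b := b) (c := c) (by omega) (by omega)
    (by omega) ha (by omega) (by omega)
  linarith

lemma KIs_nq0 {p q r a b c : ℤ} (hp : 1 ≤ p) (hpq : p ≤ q) (hqr : q ≤ r) (hpa : p < a)
    (hab : a ≤ b) (hbc : b ≤ c) (hN : a + b + c = p + q + r + 1) (hcq : c ≤ q) :
    0 ≤ KIs p q r a b c := by
  apply KIs_of_kap hp hpq hqr (by omega) hab hbc
  obtain ⟨h1, h2, h3⟩ := V_nq0 hqr hpa hab hbc hN hcq
  have e1 : 0 ≤ q - a := by omega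
  have e2 : 0 ≤ q - b := by omega
  have e3 : 0 ≤ q - c := by omega
  have hE : 0 ≤ (q - a) * (q - b) + (q - b) * (q - c) + (q - a) * (q - c) := by positivity
  have hd : 0 ≤ r - q := by omega
  have hD : (r - q) + 1 ≤ q - p := by omega
  have hDd : 0 ≤ (q - p) * (r - q) := by nlinarith
  apply kap_nonneg hp hpq hqr
  · rw [h1]
    nlinarith
  · rw [h1, h2]
    nlinarith
  · rw [h1, h2, h3]
    nlinarith

lemma KIs_nq1 {p q r a b c : ℤ} (hp : 1 ≤ p) (hpq : p ≤ q) (hqr : q ≤ r) (hpa : p < a)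
    (hab : a ≤ b) (hbc : b ≤ c) (hN : a + b + c = p + q + r + 1) (hbq : b ≤ q) (hcq : q < c)
    (hcr : c ≤ r) : 0 ≤ KIs p q r a b c := by
  apply KIs_of_kap hp hpq hqr (by omega) hab hbc
  obtain ⟨h1, h2, h3⟩ := V_nq1 hpa hab hbc hN hbq hcq hcr
  have e1 : 0 ≤ q - a := by omega
  have e2 : 0 ≤ q - b := by omega
  have e3 : 0 ≤ r - c := by omega
  have e4 : 0 ≤ q - p := by omega
  have e5 : 0 ≤ 2 * q - a - b := by omega
  have hE : 0 ≤ (q - a) * (q - b) := by positivity
  have hE' : 0 ≤ (2 * q - a - b) * (r - c) := by positivity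
  have hw : (q - p) = (r - c) + (2 * q - a - b) + 1 := by omega
  apply kap_nonneg hp hpq hqr
  · rw [h1]
    linarith
  · rw [h1, h2]
    nlinarith
  · rw [h1, h2, h3]
    nlinarith



lemma KIs_nq2 {p q r a b c : ℤ} (hp : 1 ≤ p) (hqr : q ≤ r) (hpa : p < a)
    (hbc : b ≤ c) (hN : a + b + c = p + q + r + 1) (haq : a ≤ q) (hbq : q < b)
    (hcr : c ≤ r) : 0 ≤ KIs p q r a b c := by
  obtain ⟨h1, h2, h3⟩ := V_nq2 hpa hbc hN haq hbq hcr
  have g1 : fls r p q a b c = 0 := by
    unfold fls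
    simp (disch := omega) only [if_pos]
    ring
  have g2 : fls q p r a b c = (q - 1) * (6 * (r - p) * (c - p) * (a - p) + Rr p r (b - q)
      + (6 * (r - p) * (a - p) * (b - p) + Rr p r (c - q))) := by
    unfold fls F6s
    simp (disch := omega) only [if_pos, if_neg]
    ring
  have g3 : fls p q r a b c = (p - 1) * (6 * (r - q) * (b - q) * (c - q) +
      (-6 * (r - q) * ((a - p - 1) * (a - p))
      + 3 * r * (q - 1) * (2 * (a - p - 1) * (2 * q - 1 - (a - p)) + (q + r - 3 + (a - p))))) := by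
    unfold fls F6s Rr
    simp (disch := omega) only [if_pos, if_neg]
    ring
  have hRb := Rr_ge2 (i := p) (j := r) (X := b - q) hp (by omega) (by omega)
  have hRc := Rr_ge2 (i := p) (j := r) (X := c - q) hp (by omega) (by omega)
  unfold KIs kap
  rw [g1, g2, g3, h1, h2, h3]
  generalize Rr p r (b - q) = Rb at *
  generalize Rr p r (c - q) = Rc at *
  have hc : c = p + q + r + 1 - a - b := by linarith
  have key : 6 * (p * (1 - q) * (1 - r) * (-(r - q) * (a - p))
        + q * (1 - p) * (1 - r) * ((a - p - 1) * ((r - q) + a - p) - (r - b) * (r - c))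
        + r * (1 - p) * (1 - q) * ((r - b) * (r - c) - (a - p - 1) * (a - p)))
      + 0 + (q - 1) * (6 * (r - p) * (c - p) * (a - p) + Rb
      + (6 * (r - p) * (a - p) * (b - p) + Rc))
      + (p - 1) * (6 * (r - q) * (b - q) * (c - q) +
      (-6 * (r - q) * ((a - p - 1) * (a - p))
      + 3 * r * (q - 1) * (2 * (a - p - 1) * (2 * q - 1 - (a - p)) + (q + r - 3 + (a - p)))))
      = (q - 1) * (6 * (r - p) * (a - p) * (2 * (q - p) - (a - p - 1))
        + 6 * (p - 1) * r * ((a - p - 1) * (2 * (q - 1) - (a - p - 1)))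
        + 3 * (p - 1) * r * (3 * (q - 1) - (r - 1) + (a - p - 1)) + Rb + Rc) := by
    subst hc; ring
  rw [key]
  apply mul_nonneg (by omega)
  have e1 : 0 ≤ 6 * (r - p) * (a - p) * (2 * (q - p) - (a - p - 1)) := by
    have u1 : 0 ≤ r - p := by omega
    have u2 : 0 ≤ a - p := by omega
    have u3 : 0 ≤ 2 * (q - p) - (a - p - 1) := by omega
    positivity
  have e2 : 0 ≤ 6 * (p - 1) * r * ((a - p - 1) * (2 * (q - 1) - (a - p - 1))) := by
    have u1 : 0 ≤ p - 1 := by omega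
    have u2 : 0 ≤ r := by omega
    have u3 : 0 ≤ 2 * (q - 1) - (a - p - 1) := by omega
    have u4 : 0 ≤ a - p - 1 := by omega
    positivity
  have e3 : 0 ≤ 3 * (p - 1) * r * (3 * (q - 1) + (a - p - 1)) := by
    have u1 : 0 ≤ p - 1 := by omega
    have u2 : 0 ≤ r := by omega
    have u3 : 0 ≤ 3 * (q - 1) + (a - p - 1) := by omega
    positivity
  have e4 : 3 * (p - 1) * r * (3 * (q - 1) - (r - 1) + (a - p - 1))
      = 3 * (p - 1) * r * (3 * (q - 1) + (a - p - 1)) - 3 * r * (p - 1) * (r - 1) := by ring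
  rw [e4]
  linarith

lemma KIs_nq3 {p q r a b c : ℤ} (hp : 1 ≤ p) (hpq : p ≤ q) (hqr : q ≤ r)
    (hab : a ≤ b) (hbc : b ≤ c) (hN : a + b + c = p + q + r + 1) (haq : q < a)
    (hcr : c ≤ r) : 0 ≤ KIs p q r a b c := by
  obtain ⟨h1, h2, h3⟩ := V_nq3 hpq hqr hab hbc hN haq hcr
  have g1 : fls r p q a b c = 0 := by
    unfold fls
    simp (disch := omega) only [if_pos]
    ring
  have g2 : fls q p r a b c = (q - 1) * (6 * (r - p) * (b - p) * (c - p) + Rr p r (a - q)
      + (6 * (r - p) * (c - p) * (a - p) + Rr p r (b - q))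
      + (6 * (r - p) * (a - p) * (b - p) + Rr p r (c - q))) := by
    unfold fls F6s
    simp (disch := omega) only [if_neg]
  have g3 : fls p q r a b c = (p - 1) * (6 * (r - q) * (b - q) * (c - q) + Rr q r (a - p)
      + (6 * (r - q) * (c - q) * (a - q) + Rr q r (b - p))
      + (6 * (r - q) * (a - q) * (b - q) + Rr q r (c - p))) := by
    unfold fls F6s
    simp (disch := omega) only [if_neg]
  have k1 := Rr_ge1 (i := p) (j := r) (X := a - q) hp (by omega) (by omega)
  have k2 := Rr_ge1 (i := p) (j := r) (X := b - q) hp (by omega) (by omega)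
  have k3 := Rr_ge1 (i := p) (j := r) (X := c - q) hp (by omega) (by omega)
  have k4 := Rr_ge1 (i := q) (j := r) (X := a - p) (by omega) hqr (by omega)
  have k5 := Rr_ge1 (i := q) (j := r) (X := b - p) (by omega) hqr (by omega)
  have k6 := Rr_ge1 (i := q) (j := r) (X := c - p) (by omega) hqr (by omega)
  unfold KIs kap
  rw [g1, g2, g3, h1, h2, h3]
  generalize Rr p r (a - q) = R1 at *
  generalize Rr p r (b - q) = R2 at *
  generalize Rr p r (c - q) = R3 at *
  generalize Rr q r (a - p) = R4 at *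
  generalize Rr q r (b - p) = R5 at *
  generalize Rr q r (c - p) = R6 at *
  have hc : c = p + q + r + 1 - a - b := by linarith
  obtain ⟨P, rfl⟩ : ∃ P, p = P + 1 := ⟨p - 1, by ring⟩
  obtain ⟨Q, rfl⟩ : ∃ Q, q = Q + 1 := ⟨q - 1, by ring⟩
  obtain ⟨R, rfl⟩ : ∃ R, r = R + 1 := ⟨r - 1, by ring⟩
  have key : 6 * ((P + 1) * (1 - (Q + 1)) * (1 - (R + 1)) *
        (-(a * b + b * c + c * a - a - b - c + 1) + (Q + 1) ^ 2 + 2 * (P + 1) * (R + 1) - (R + 1))
        + (Q + 1) * (1 - (P + 1)) * (1 - (R + 1)) *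
        (-(a * b + b * c + c * a - a - b - c + 1) + 2 * (Q + 1) * (R + 1) - (R + 1) + (P + 1) ^ 2)
        + (R + 1) * (1 - (P + 1)) * (1 - (Q + 1)) *
        (2 * (a * b + b * c + c * a - a - b - c + 1) - (Q + 1) ^ 2 - (P + 1) ^ 2
        - 2 * (P + 1) * (R + 1) - 2 * (Q + 1) * (R + 1) + (P + 1) + (Q + 1)))
      + 0 + ((Q + 1) - 1) * (6 * ((R + 1) - (P + 1)) * (b - (P + 1)) * (c - (P + 1)) + R1
      + (6 * ((R + 1) - (P + 1)) * (c - (P + 1)) * (a - (P + 1)) + R2)
      + (6 * ((R + 1) - (P + 1)) * (a - (P + 1)) * (b - (P + 1)) + R3))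
      + ((P + 1) - 1) * (6 * ((R + 1) - (Q + 1)) * (b - (Q + 1)) * (c - (Q + 1)) + R4
      + (6 * ((R + 1) - (Q + 1)) * (c - (Q + 1)) * (a - (Q + 1)) + R5)
      + (6 * ((R + 1) - (Q + 1)) * (a - (Q + 1)) * (b - (Q + 1)) + R6))
      = 6 * (R * (P ^ 3 + Q ^ 3) - 2 * P * Q * R ^ 2 - 2 * P * Q * (P - Q) ^ 2
          + R * (P ^ 2 + Q ^ 2) + P * Q * (P + Q) - 4 * P * Q * R)
        + Q * (R1 + R2 + R3) + P * (R4 + R5 + R6) := by
    subst hc; ring
  rw [key]
  have hP : 0 ≤ P := by omega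
  have hQ : 0 ≤ Q := by omega
  have hR : 0 ≤ R := by omega
  have hPQ : P ≤ Q := by omega
  have hQR : Q ≤ R := by omega
  have s1 : Q * (3 * (2 * P * R ^ 2)) ≤ Q * (R1 + R2 + R3) := by
    apply mul_le_mul_of_nonneg_left _ hQ
    have e : 2 * ((P + 1) - 1) * ((R + 1) - 1) ^ 2 = 2 * P * R ^ 2 := by ring
    rw [e] at k1 k2 k3
    linarith
  have s2 : P * (3 * (2 * Q * R ^ 2)) ≤ P * (R4 + R5 + R6) := by
    apply mul_le_mul_of_nonneg_left _ hP
    have e : 2 * ((Q + 1) - 1) * ((R + 1) - 1) ^ 2 = 2 * Q * R ^ 2 := by ring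
    rw [e] at k4 k5 k6
    linarith
  have main : 0 ≤ R * (P ^ 3 + Q ^ 3) - 2 * P * Q * (P - Q) ^ 2
          + R * (P ^ 2 + Q ^ 2) + P * Q * (P + Q) - 4 * P * Q * R := by
    rcases eq_or_lt_of_le hP with h0 | h0
    · subst h0
      have e : R * (0 ^ 3 + Q ^ 3) - 2 * 0 * Q * (0 - Q) ^ 2
          + R * (0 ^ 2 + Q ^ 2) + 0 * Q * (0 + Q) - 4 * 0 * Q * R = R * Q ^ 3 + R * Q ^ 2 := by ring
      rw [e]
      positivity
    · have e1 : R * (P ^ 3 + Q ^ 3) - 2 * P * Q * (P - Q) ^ 2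
          + R * (P ^ 2 + Q ^ 2) + P * Q * (P + Q) - 4 * P * Q * R
          = (R * (P + Q) - 2 * P * Q) * (P - Q) ^ 2 + R * (P * Q) * ((P - 1) + (Q - 1))
            + R * (P - Q) ^ 2 + P * Q * (P + Q) := by ring
      rw [e1]
      have u1 : 0 ≤ R * (P + Q) - 2 * P * Q := by
        have e : R * (P + Q) - 2 * P * Q = (R - Q) * (P + Q) + Q * (Q - P) := by ring
        rw [e]
        have v1 : 0 ≤ R - Q := by omega
        have v2 : 0 ≤ Q - P := by omega
        positivity
      have u2 : 0 ≤ (P - 1) + (Q - 1) := by omega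
      positivity
  have e5 : 6 * (R * (P ^ 3 + Q ^ 3) - 2 * P * Q * R ^ 2 - 2 * P * Q * (P - Q) ^ 2
          + R * (P ^ 2 + Q ^ 2) + P * Q * (P + Q) - 4 * P * Q * R)
      = 6 * (R * (P ^ 3 + Q ^ 3) - 2 * P * Q * (P - Q) ^ 2
          + R * (P ^ 2 + Q ^ 2) + P * Q * (P + Q) - 4 * P * Q * R)
        - Q * (3 * (2 * P * R ^ 2)) - P * (3 * (2 * Q * R ^ 2)) := by ring
  rw [e5]
  linarith



lemma KIs_zero_zero {r a b c : ℤ} (ha : 1 ≤ a)
    (hab : a ≤ b) (hbc : b ≤ c) (hN : a + b + c = 0 + 0 + r + 1) : 0 ≤ KIs 0 0 r a b c := by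
  obtain ⟨h1, h2, h3⟩ := V_nq3 (p := 0) (q := 0) (r := r) le_rfl (by omega) hab hbc hN (by omega)
    (by omega)
  have g1 : fls r 0 0 a b c = 0 := by
    unfold fls
    simp (disch := omega) only [if_pos]
    ring
  have g2 : fls 0 0 r a b c = -(3 * r * (2 * b * c - b - c) + 3 * r * (2 * c * a - c - a)
      + 3 * r * (2 * a * b - a - b)) := by
    unfold fls F6s
    simp (disch := omega) only [if_pos, if_neg]
    ring
  unfold KIs kap
  rw [g1, g2, h3]
  have : r = a + b + c - 1 := by linarith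
  subst this
  nlinarith

lemma KIs_zero_a {q r a b c : ℤ} (hq : 1 ≤ q) (hqr : q ≤ r) (ha : 1 ≤ a)
    (hab : a ≤ b) (hbc : b ≤ c) (hN : a + b + c = 0 + q + r + 1) (hrc : r < c) :
    0 ≤ KIs 0 q r a b c := by
  obtain ⟨h1, h2, h3⟩ := V_zero (p := 0) (by omega) hqr hab hbc hN (Or.inr hrc)
  have g3 : fls 0 q r a b c = 0 := by
    unfold fls F6s
    simp (disch := omega) only [if_pos, if_neg]
    ring
  have f1 := fls_nonneg (h := r) (i := 0) (j := q) (a := a) (b := b) (c := c) (by omega) (by omega)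
    (by omega) ha (by omega) (by omega)
  have f2 := fls_nonneg (h := q) (i := 0) (j := r) (a := a) (b := b) (c := c) (by omega) (by omega)
    (by omega) ha (by omega) (by omega)
  unfold KIs kap
  rw [h1, h2, h3, g3]
  linarith

lemma KIs_zero_b {q r a b c : ℤ} (hq : 1 ≤ q) (hqr : q ≤ r) (ha : 1 ≤ a)
    (hab : a ≤ b) (hbc : b ≤ c) (hN : a + b + c = 0 + q + r + 1) (hcq : c ≤ q) :
    0 ≤ KIs 0 q r a b c := by
  obtain ⟨h1, h2, h3⟩ := V_nq0 (p := 0) hqr (by omega) hab hbc hN hcq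
  have g3 : fls 0 q r a b c = 0 := by
    unfold fls F6s
    simp (disch := omega) only [if_pos, if_neg]
    ring
  have f1 := fls_nonneg (h := r) (i := 0) (j := q) (a := a) (b := b) (c := c) (by omega) (by omega)
    (by omega) ha (by omega) (by omega)
  have f2 := fls_nonneg (h := q) (i := 0) (j := r) (a := a) (b := b) (c := c) (by omega) (by omega)
    (by omega) ha (by omega) (by omega)
  unfold KIs kap
  rw [h1, h2, h3, g3]
  have e1 : 0 ≤ q - a := by omega
  have e2 : 0 ≤ q - b := by omega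
  have e3 : 0 ≤ q - c := by omega
  have hE : 0 ≤ (q - a) * (q - b) + (q - b) * (q - c) + (q - a) * (q - c) := by positivity
  have hT : r ≤ 2 * q - 1 := by omega
  generalize (q - a) * (q - b) + (q - b) * (q - c) + (q - a) * (q - c) = E at *
  obtain ⟨d, rfl⟩ : ∃ d, r = q + d := ⟨r - q, by ring⟩
  have hd : 0 ≤ d := by omega
  have hd' : d + 1 ≤ q := by omega
  have key : 0 ≤ d * ((q + d) * (q - 1) * (2 * q - 1) - q * (q + d - 1) * (d + 1)) := by
    rcases eq_or_lt_of_le hd with h0 | h0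
    · subst h0; simp
    · obtain ⟨m, rfl⟩ : ∃ m, q = d + 1 + m := ⟨q - d - 1, by ring⟩
      obtain ⟨n, rfl⟩ : ∃ n, d = n + 1 := ⟨d - 1, by ring⟩
      have hm : 0 ≤ m := by omega
      have hn : 0 ≤ n := by omega
      ring_nf
      positivity
  have e5 : 0 ≤ (q * (q + d - 1) + (q + d) * (q - 1)) * E := by
    have u1 : 0 ≤ q + d - 1 := by omega
    have u2 : 0 ≤ q - 1 := by omega
    have u3 : 0 ≤ q + d := by omega
    positivity
  have fin : 6 * (0 * (1 - q) * (1 - (q + d)) * ((q + d - q) * (2 * (q - 0) - (q + d - q) - 1)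
        + 2 * (q - 0) + 2 * E)
      + q * (1 - 0) * (1 - (q + d)) * ((q + d - q) ^ 2 + (q + d - q) - E)
      + (q + d) * (1 - 0) * (1 - q) * (-(q + d - q) * (2 * (q - 0) - 1) - E))
      = 6 * (d * ((q + d) * (q - 1) * (2 * q - 1) - q * (q + d - 1) * (d + 1)))
        + 6 * ((q * (q + d - 1) + (q + d) * (q - 1)) * E) := by ring
  rw [fin]
  linarith

lemma KIs_zero_c {q r a b c : ℤ} (hq : 1 ≤ q) (hqr : q ≤ r) (ha : 1 ≤ a)
    (hab : a ≤ b) (hbc : b ≤ c) (hN : a + b + c = 0 + q + r + 1) (hbq : b ≤ q) (hcq : q < c)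
    (hcr : c ≤ r) : 0 ≤ KIs 0 q r a b c := by
  obtain ⟨h1, h2, h3⟩ := V_nq1 (p := 0) (by omega) hab hbc hN hbq hcq hcr
  have g1 : fls r 0 q a b c = 0 := by
    unfold fls
    simp (disch := omega) only [if_pos]
    ring
  have g2 : fls q 0 r a b c = (q - 1) * (3 * r * (2 * a * b - a - b)) := by
    unfold fls F6s
    simp (disch := omega) only [if_pos, if_neg]
    ring
  have g3 : fls 0 q r a b c = 0 := by
    unfold fls F6s
    simp (disch := omega) only [if_pos, if_neg]
    ring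
  unfold KIs kap
  rw [h1, h2, h3, g1, g2, g3]
  obtain ⟨t, rfl⟩ : ∃ t, a = q - t := ⟨q - a, by ring⟩
  obtain ⟨u, rfl⟩ : ∃ u, b = q - u := ⟨q - b, by ring⟩
  have hc : c = r + 1 - q + (t + u) := by omega
  subst hc
  have ht : 0 ≤ t := by omega
  have hu : 0 ≤ u := by omega
  have hw : t + u ≤ q - 1 := by omega
  have key : 0 ≤ q * (q - 1 - (t + u)) * (q + r * (q - 2) + (r - 1) * (t + u)) := by
    rcases eq_or_lt_of_le hq with h0 | h0
    · have : q - 1 - (t + u) = 0 := by omega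
      rw [this]; simp
    · have v1 : 0 ≤ q - 1 - (t + u) := by omega
      have v2 : 0 ≤ q - 2 := by omega
      have v3 : 0 ≤ r - 1 := by omega
      have v4 : 0 ≤ r := by omega
      have v5 : 0 ≤ q := by omega
      positivity
  have k2 : 0 ≤ (q * (r - 1) + r * (q - 1)) * (t * u) := by
    have v2 : 0 ≤ q - 1 := by omega
    have v3 : 0 ≤ r - 1 := by omega
    have v4 : 0 ≤ r := by omega
    have v5 : 0 ≤ q := by omega
    positivity
  have k3 : 0 ≤ r * (q - 1) * (t + u) := by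
    have v2 : 0 ≤ q - 1 := by omega
    have v4 : 0 ≤ r := by omega
    positivity
  nlinarith

lemma KIs_zero_d {q r a b c : ℤ} (hq : 1 ≤ q) (ha : 1 ≤ a)
    (hbc : b ≤ c) (hN : a + b + c = 0 + q + r + 1) (haq : a ≤ q) (hbq : q < b)
    (hcr : c ≤ r) : 0 ≤ KIs 0 q r a b c := by
  obtain ⟨h1, h2, h3⟩ := V_nq2 (p := 0) (by omega) hbc hN haq hbq hcr
  have g1 : fls r 0 q a b c = 0 := by
    unfold fls
    simp (disch := omega) only [if_pos]
    ring
  have g2 : fls q 0 r a b c = (q - 1) * (3 * r * (2 * c * a - c - a) + 3 * r * (2 * a * b - a - b)) := by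
    unfold fls F6s
    simp (disch := omega) only [if_pos, if_neg]
    ring
  have g3 : fls 0 q r a b c = -(6 * (r - q) * (b - q) * (c - q) + (-6 * (r - q) * ((a - 1) * a)
      + 3 * r * (q - 1) * (2 * (a - 1) * (2 * q - 1 - a) + (q + r - 3 + a)))) := by
    unfold fls F6s Rr
    simp (disch := omega) only [if_pos, if_neg]
    ring
  unfold KIs kap
  rw [h1, h2, h3, g1, g2, g3]
  have hc : c = 0 + q + r + 1 - a - b := by linarith
  subst hc
  apply le_of_eq
  ring

lemma KIs_zero_e {q r a b c : ℤ} (hq : 1 ≤ q) (hqr : q ≤ r)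
    (hab : a ≤ b) (hbc : b ≤ c) (hN : a + b + c = 0 + q + r + 1) (haq : q < a)
    (hcr : c ≤ r) : 0 ≤ KIs 0 q r a b c := by
  obtain ⟨h1, h2, h3⟩ := V_nq3 (p := 0) (by omega) hqr hab hbc hN haq hcr
  have g1 : fls r 0 q a b c = 0 := by
    unfold fls
    simp (disch := omega) only [if_pos]
    ring
  have g2 : fls q 0 r a b c = (q - 1) * (3 * r * (2 * b * c - b - c) + 3 * r * (2 * c * a - c - a)
      + 3 * r * (2 * a * b - a - b)) := by
    unfold fls F6s
    simp (disch := omega) only [if_pos, if_neg]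
  have g3 : fls 0 q r a b c = -(6 * (r - q) * (b - q) * (c - q) + 6 * (r - q) * (c - q) * (a - q)
      + 6 * (r - q) * (a - q) * (b - q) + 3 * (2 * (q - 1) * ((r - q) ^ 2 + (q ^ 2 - 1) * r))) := by
    unfold fls F6s Rr
    simp (disch := omega) only [if_neg]
    ring
  unfold KIs kap
  rw [h1, h2, h3, g1, g2, g3]
  have hc : c = 0 + q + r + 1 - a - b := by linarith
  subst hc
  apply le_of_eq
  ring

theorem KIs_nonneg {p q r a b c : ℤ} (hp : 0 ≤ p) (hpq : p ≤ q) (hqr : q ≤ r) (ha : 1 ≤ a)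
    (hab : a ≤ b) (hbc : b ≤ c) (hN : a + b + c = p + q + r + 1) : 0 ≤ KIs p q r a b c := by
  rcases eq_or_lt_of_le hp with h0 | h0
  · subst h0
    rcases eq_or_lt_of_le hpq with h1 | h1
    · subst h1
      exact KIs_zero_zero ha hab hbc hN
    · rcases le_or_gt c r with hcr | hcr
      · rcases le_or_gt c q with hcq | hcq
        · exact KIs_zero_b (by omega) hqr ha hab hbc hN hcq
        · rcases le_or_gt b q with hbq | hbq
          · exact KIs_zero_c (by omega) hqr ha hab hbc hN hbq hcq hcr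
          · rcases le_or_gt a q with haq | haq
            · exact KIs_zero_d (by omega) ha hbc hN haq hbq hcr
            · exact KIs_zero_e (by omega) hqr hab hbc hN haq hcr
      · exact KIs_zero_a (by omega) hqr ha hab hbc hN hcr
  · rcases le_or_gt a p with hap | hap
    · exact KIs_caseI (by omega) hpq hqr ha hab hbc hN (Or.inl hap)
    · rcases le_or_gt c r with hcr | hcr
      · rcases le_or_gt c q with hcq | hcq
        · exact KIs_nq0 (by omega) hpq hqr hap hab hbc hN hcq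
        · rcases le_or_gt b q with hbq | hbq
          · exact KIs_nq1 (by omega) hpq hqr hap hab hbc hN hbq hcq hcr
          · rcases le_or_gt a q with haq | haq
            · exact KIs_nq2 (by omega) hqr hap hbc hN haq hbq hcr
            · exact KIs_nq3 (by omega) hpq hqr hab hbc hN haq hcr
      · exact KIs_caseI (by omega) hpq hqr ha hab hbc hN (Or.inr hcr)


/-! ### Symmetrisation -/

def F6 (i j X Y Z : ℤ) : ℤ := F6s (min i j) (max i j) X Y Z

lemma F6s_swap (i j X Y Z : ℤ) : F6s i j X Y Z = F6s i j X Z Y := by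
  unfold F6s
  split_ifs <;> ring

lemma F6_swap (i j X Y Z : ℤ) : F6 i j X Y Z = F6 i j X Z Y := F6s_swap _ _ _ _ _

lemma F6_comm (i j X Y Z : ℤ) : F6 i j X Y Z = F6 j i X Y Z := by
  unfold F6; rw [min_comm, max_comm]

lemma F6_nonneg {i j X Y Z : ℤ} (hi : 0 ≤ i) (hX : 1 ≤ X) (hY : 1 ≤ Y) (hZ : 1 ≤ Z) :
    0 ≤ F6 i j X Y Z := by
  unfold F6
  exact F6s_nonneg (le_trans hi (le_max_left _ _)) (le_trans (min_le_left _ _) (le_max_left _ _))
    hX hY hZ

def FL (h i j a b c : ℤ) : ℤ :=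
  (if a ≤ h then 0 else F6 i j (a - h) b c) + (if b ≤ h then 0 else F6 i j (b - h) c a)
    + (if c ≤ h then 0 else F6 i j (c - h) a b)

lemma FL_comm (h i j a b c : ℤ) : FL h i j a b c = FL h j i a b c := by
  unfold FL
  rw [F6_comm i j (a - h), F6_comm i j (b - h), F6_comm i j (c - h)]

lemma FL_rot (h i j a b c : ℤ) : FL h i j a b c = FL h i j b c a := by
  unfold FL; ring

lemma FL_swap (h i j a b c : ℤ) : FL h i j a b c = FL h i j b a c := by
  unfold FL
  rw [F6_swap i j (a - h) b c, F6_swap i j (b - h) c a, F6_swap i j (c - h) a b]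
  ring

lemma vu_rot (i j h a b c : ℤ) : vu i j h a b c = vu i j h b c a := by
  unfold vu; ring

lemma V_rot (i j h a b c : ℤ) : V i j h a b c = V i j h b c a := by
  unfold V; rw [vu_rot i j h a, vu_rot i h j a]

lemma V_swap (i j h a b c : ℤ) : V i j h a b c = V i j h b a c := by
  unfold V vu; ring

lemma V_comm (i j h a b c : ℤ) : V i j h a b c = V i h j a b c := by
  unfold V; ring

lemma kap_rot (i j h a b c : ℤ) : kap i j h a b c = kap i j h b c a := by
  unfold kap; rw [V_rot i j h a, V_rot j i h a, V_rot h i j a]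

lemma kap_swap (i j h a b c : ℤ) : kap i j h a b c = kap i j h b a c := by
  unfold kap; rw [V_swap i j h a, V_swap j i h a, V_swap h i j a]

lemma kap_comm1 (i j h a b c : ℤ) : kap i j h a b c = kap j i h a b c := by
  unfold kap; rw [V_comm h i j]; ring

lemma kap_comm2 (i j h a b c : ℤ) : kap i j h a b c = kap i h j a b c := by
  unfold kap; rw [V_comm i j h, V_comm j i h, V_comm h i j]; ring

/-- key expression -/
def KI (i j h a b c : ℤ) : ℤ :=
  6 * kap i j h a b c + (h - 1) * FL h i j a b c + (i - 1) * FL i j h a b c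
    + (j - 1) * FL j i h a b c

lemma KI_rot (i j h a b c : ℤ) : KI i j h a b c = KI i j h b c a := by
  unfold KI; rw [kap_rot, FL_rot h, FL_rot i, FL_rot j]

lemma KI_swap (i j h a b c : ℤ) : KI i j h a b c = KI i j h b a c := by
  unfold KI; rw [kap_swap, FL_swap h, FL_swap i, FL_swap j]

lemma KI_comm1 (i j h a b c : ℤ) : KI i j h a b c = KI j i h a b c := by
  unfold KI; rw [kap_comm1, FL_comm h]; ring

lemma KI_comm2 (i j h a b c : ℤ) : KI i j h a b c = KI i h j a b c := by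
  unfold KI; rw [kap_comm2, FL_comm i, FL_comm h, FL_comm j]
  ring

lemma KI_eq_KIs {p q r : ℤ} (hpq : p ≤ q) (hqr : q ≤ r) (a b c : ℤ) :
    KI p q r a b c = KIs p q r a b c := by
  have hpr := le_trans hpq hqr
  unfold KI KIs fls FL F6
  rw [min_eq_left hpq, max_eq_right hpq, min_eq_left hqr, max_eq_right hqr, min_eq_left hpr,
    max_eq_right hpr]
  ring

lemma KI_nonneg_aux {i j h a b c : ℤ} (hi : 0 ≤ i) (hij : i ≤ j) (hjh : j ≤ h) (ha : 1 ≤ a)
    (hb : 1 ≤ b) (hc : 1 ≤ c) (hN : a + b + c = i + j + h + 1) : 0 ≤ KI i j h a b c := by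
  have sorted : ∀ {a b c : ℤ}, 1 ≤ a → a ≤ b → b ≤ c → a + b + c = i + j + h + 1 →
      0 ≤ KI i j h a b c := by
    intro a b c ha hab hbc hN
    rw [KI_eq_KIs hij hjh]
    exact KIs_nonneg hi hij hjh ha hab hbc hN
  rcases le_total a b with hab | hab
  · rcases le_total b c with hbc | hbc
    · exact sorted ha hab hbc hN
    · rcases le_total a c with hac | hac
      · -- a ≤ c ≤ b
        rw [KI_rot, KI_rot, KI_swap]
        -- now c,a,b -> a,c,b
        exact sorted ha hac hbc (by linarith)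
      · -- c ≤ a ≤ b
        rw [KI_rot, KI_rot]
        exact sorted hc hac hab (by linarith)
  · rcases le_total b c with hbc | hbc
    · rcases le_total a c with hac | hac
      · -- b ≤ a ≤ c
        rw [KI_swap]
        exact sorted hb hab hac (by linarith)
      · -- b ≤ c ≤ a
        rw [KI_rot]
        exact sorted hb hbc hac (by linarith)
    · -- c ≤ b ≤ a
      rw [KI_rot, KI_swap]
      exact sorted hc hbc hab (by linarith)

theorem KI_nonneg {i j h a b c : ℤ} (hi : 0 ≤ i) (hj : 0 ≤ j) (hh : 0 ≤ h) (ha : 1 ≤ a)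
    (hb : 1 ≤ b) (hc : 1 ≤ c) (hN : a + b + c = i + j + h + 1) : 0 ≤ KI i j h a b c := by
  rcases le_total i j with hij | hij
  · rcases le_total j h with hjh | hjh
    · exact KI_nonneg_aux hi hij hjh ha hb hc hN
    · rcases le_total i h with hih | hih
      · rw [KI_comm2]
        exact KI_nonneg_aux hi hih hjh ha hb hc (by linarith)
      · -- h ≤ i ≤ j
        rw [KI_comm2, KI_comm1]
        exact KI_nonneg_aux hh hih hij ha hb hc (by linarith)
  · rcases le_total i h with hih | hih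
    · rw [KI_comm1]
      exact KI_nonneg_aux hj hij hih ha hb hc (by linarith)
    · rcases le_total j h with hjh | hjh
      · -- j ≤ h ≤ i
        rw [KI_comm1, KI_comm2]
        exact KI_nonneg_aux hj hjh hih ha hb hc (by linarith)
      · -- h ≤ j ≤ i
        rw [KI_comm1, KI_comm2, KI_comm1]
        exact KI_nonneg_aux hh hjh hij ha hb hc (by linarith)

end Pool.Agent.helper42.Theta
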