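import Pool.Agent.helper42.ThetaSeries
import Pool.Agent.helper42.ThetaIneq

/-!
# The flux argument (part 4)
-/

set_option autoImplicit false

namespace Pool.Agent.helper42.Theta

open PowerSeries Finset

variable {R : Type*} [CommRing R]

/-- convolution of a sequence with a power series -/
noncomputable def cv (K : R⟦X⟧) (f : ℕ → R) (n : ℕ) : R := ∑ p ∈ antidiagonal n, coeff p.1 K * f p.2

lemma cv_eq_coeff (K : R⟦X⟧) (f : ℕ → R) (n : ℕ) : cv K f n = coeff n (K * PowerSeries.mk f) := by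
  rw [coeff_mul]; simp [cv]

lemma cv_cv (K L : R⟦X⟧) (f : ℕ → R) (n : ℕ) : cv K (cv L f) n = cv (K * L) f n := by
  rw [cv_eq_coeff, cv_eq_coeff]
  have : PowerSeries.mk (cv L f) = L * PowerSeries.mk f := by
    ext m; rw [coeff_mk, cv_eq_coeff]
  rw [this, mul_assoc]

lemma cv_one (f : ℕ → R) (n : ℕ) : cv (1 : R⟦X⟧) f n = f n := by
  rw [cv_eq_coeff, one_mul, coeff_mk]

noncomputable def c1 (K : R⟦X⟧) (F : ℕ → ℕ → ℕ → R) (a b c : ℕ) : R := cv K (fun x => F x b c) a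
noncomputable def c2 (K : R⟦X⟧) (F : ℕ → ℕ → ℕ → R) (a b c : ℕ) : R := cv K (fun y => F a y c) b
noncomputable def c3 (K : R⟦X⟧) (F : ℕ → ℕ → ℕ → R) (a b c : ℕ) : R := cv K (fun z => F a b z) c

lemma c1_c2 (K L : R⟦X⟧) (F : ℕ → ℕ → ℕ → R) : c1 K (c2 L F) = c2 L (c1 K F) := by
  funext a b c
  simp only [c1, c2, cv, mul_sum]
  rw [sum_comm]
  refine sum_congr rfl fun _ _ => sum_congr rfl fun _ _ => ?_
  ring

lemma c1_c3 (K L : R⟦X⟧) (F : ℕ → ℕ → ℕ → R) : c1 K (c3 L F) = c3 L (c1 K F) := by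
  funext a b c
  simp only [c1, c3, cv, mul_sum]
  rw [sum_comm]
  refine sum_congr rfl fun _ _ => sum_congr rfl fun _ _ => ?_
  ring

lemma c2_c3 (K L : R⟦X⟧) (F : ℕ → ℕ → ℕ → R) : c2 K (c3 L F) = c3 L (c2 K F) := by
  funext a b c
  simp only [c2, c3, cv, mul_sum]
  rw [sum_comm]
  refine sum_congr rfl fun _ _ => sum_congr rfl fun _ _ => ?_
  ring

lemma c1_c1 {K L : R⟦X⟧} (h : K * L = 1) (F : ℕ → ℕ → ℕ → R) : c1 K (c1 L F) = F := by
  funext a b c
  show cv K (cv L (fun x => F x b c)) a = _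
  rw [cv_cv, h, cv_one]

lemma c2_c2 {K L : R⟦X⟧} (h : K * L = 1) (F : ℕ → ℕ → ℕ → R) : c2 K (c2 L F) = F := by
  funext a b c
  show cv K (cv L (fun x => F a x c)) b = _
  rw [cv_cv, h, cv_one]

lemma c3_c3 {K L : R⟦X⟧} (h : K * L = 1) (F : ℕ → ℕ → ℕ → R) : c3 K (c3 L F) = F := by
  funext a b c
  show cv K (cv L (fun x => F a b x)) c = _
  rw [cv_cv, h, cv_one]

lemma cv_add (K : R⟦X⟧) (f g : ℕ → R) (n : ℕ) : cv K (fun x => f x + g x) n = cv K f n + cv K g n := by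
  simp only [cv, mul_add, sum_add_distrib]

lemma cv_smul (K : R⟦X⟧) (t : R) (f : ℕ → R) (n : ℕ) : cv K (fun x => t * f x) n = t * cv K f n := by
  simp only [cv, mul_sum]
  refine sum_congr rfl fun _ _ => ?_
  ring

lemma c1_add (K : R⟦X⟧) (F F' : ℕ → ℕ → ℕ → R) : c1 K (F + F') = c1 K F + c1 K F' := by
  funext a b c; exact cv_add K _ _ a
lemma c2_add (K : R⟦X⟧) (F F' : ℕ → ℕ → ℕ → R) : c2 K (F + F') = c2 K F + c2 K F' := by
  funext a b c; exact cv_add K _ _ b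
lemma c3_add (K : R⟦X⟧) (F F' : ℕ → ℕ → ℕ → R) : c3 K (F + F') = c3 K F + c3 K F' := by
  funext a b c; exact cv_add K _ _ c

def sm (t : R) (F : ℕ → ℕ → ℕ → R) : ℕ → ℕ → ℕ → R := fun a b c => t * F a b c

lemma c1_sm (K : R⟦X⟧) (t : R) (F : ℕ → ℕ → ℕ → R) : c1 K (sm t F) = sm t (c1 K F) := by
  funext a b c; exact cv_smul K t _ a
lemma c2_sm (K : R⟦X⟧) (t : R) (F : ℕ → ℕ → ℕ → R) : c2 K (sm t F) = sm t (c2 K F) := by
  funext a b c; exact cv_smul K t _ b
lemma c3_sm (K : R⟦X⟧) (t : R) (F : ℕ → ℕ → ℕ → R) : c3 K (sm t F) = sm t (c3 K F) := by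
  funext a b c; exact cv_smul K t _ c

/-- membership of convolutions in a cone. -/
lemma cv_mem (P : Subsemiring R) {K : R⟦X⟧} (hK : ∀ n, coeff n K ∈ P) {f : ℕ → R} (hf : ∀ n, f n ∈ P)
    (n : ℕ) : cv K f n ∈ P :=
  P.sum_mem fun _ _ => P.mul_mem (hK _) (hf _)

/-- coefficient extraction of `opS`. -/
lemma coeff_opS (G : R⟦X⟧) (f : ℕ → R⟦X⟧) (a m : ℕ) :
    coeff (a + m) (opS G f (a + 1)) = cv G (fun x => coeff (x + m) (f (x + 1))) a := by
  unfold opS cv
  rw [map_sum, Finset.Nat.sum_antidiagonal_eq_sum_range_succ_mk]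
  refine sum_congr rfl fun l hl => ?_
  have hl' : l < a + 1 := mem_range.mp hl
  rw [mul_assoc, coeff_C_mul, coeff_X_pow_mul', if_pos (by omega)]
  have e1 : a + m - l = a - l + m := by omega
  have e2 : a + 1 - l = a - l + 1 := by omega
  rw [e1, e2]

/-! ### The data attached to a power series `E` -/

noncomputable def Gs (E : R⟦X⟧) : R⟦X⟧ := E - D E
noncomputable def Hs (E : R⟦X⟧) : R⟦X⟧ := PowerSeries.invOfUnit (Gs E) 1
noncomputable def Ps (E : R⟦X⟧) : R⟦X⟧ := E * Hs E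
noncomputable def Cs (E : R⟦X⟧) : R⟦X⟧ := -(D (Gs E)) * Hs E

lemma constantCoeff_Gs {E : R⟦X⟧} (hE : PowerSeries.constantCoeff E = 1) :
    PowerSeries.constantCoeff (Gs E) = 1 := by
  unfold Gs
  rw [map_sub, hE, ← PowerSeries.coeff_zero_eq_constantCoeff_apply, coeff_D]
  simp

lemma Gs_mul_Hs {E : R⟦X⟧} (hE : PowerSeries.constantCoeff E = 1) : Gs E * Hs E = 1 := by
  unfold Hs
  apply PowerSeries.mul_invOfUnit
  rw [constantCoeff_Gs hE]; simp

lemma Gs_mul_Ps {E : R⟦X⟧} (hE : PowerSeries.constantCoeff E = 1) :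
    Gs E * (Ps E - 1) = D E := by
  have h := Gs_mul_Hs hE
  unfold Ps
  have h2 : D E = E - Gs E := by unfold Gs; ring
  rw [h2]
  linear_combination E * h

lemma Cs_mul_Gs {E : R⟦X⟧} (hE : PowerSeries.constantCoeff E = 1) :
    Cs E * Gs E = -(D (Gs E)) := by
  have h := Gs_mul_Hs hE
  unfold Cs
  linear_combination (-(D (Gs E))) * h

/-- The polynomial giving the chromatic symmetric function of the theta graph with path lengths
`a+1, b+1, c+1`. -/
noncomputable def X0 (E : R⟦X⟧) (a b c : ℕ) : R :=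
  coeff (a + b + c + 2) (Sser (Ps E - 1) (Cs E) (a + 1) (b + 1) (c + 1))

noncomputable def K0 (E : R⟦X⟧) : ℕ → ℕ → ℕ → R := c1 (Gs E) (c2 (Gs E) (c3 (Gs E) (X0 E)))

lemma K0_eq {E : R⟦X⟧} (hE : PowerSeries.constantCoeff E = 1) (a b c : ℕ) :
    K0 E a b c = coeff (a + b + c + 2)
      (Rser (Gs E) (D E) (-(D (Gs E))) (a + 1) (b + 1) (c + 1)) := by
  have h := star_coeff (Gs E) (Ps E - 1) (Cs E) (by rw [Cs_mul_Gs hE, neg_neg]) (a + 1) (b + 1)
    (c + 1) (a + b + c + 2) (by ring)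
  rw [Gs_mul_Ps hE, Cs_mul_Gs hE] at h
  rw [← h]
  have e : a + b + c + 2 = a + (b + c + 2) := by ring
  rw [e, coeff_opS]
  unfold K0 c1
  congr 1
  funext x
  have e2 : x + (b + c + 2) = b + (x + c + 2) := by ring
  rw [e2, coeff_opS]
  unfold c2
  congr 1
  funext y
  have e3 : y + (x + c + 2) = c + (x + y + 2) := by ring
  rw [e3, coeff_opS]
  unfold c3
  congr 1
  funext z
  unfold X0
  have e4 : z + (x + y + 2) = x + y + z + 2 := by ring
  rw [e4]

/-! ### Triple sums -/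

/-- `∑_{i+j+h=N} f(i,j,h) E_i E_j E_h` -/
noncomputable def tri (N : ℕ) (E : R⟦X⟧) (f : ℕ → ℕ → ℕ → ℤ) : R :=
  ∑ i ∈ range (N + 1), ∑ j ∈ range (N + 1), ∑ h ∈ range (N + 1),
    if i + j + h = N then (f i j h : R) * (coeff i E * coeff j E * coeff h E) else 0

lemma tri_add (N : ℕ) (E : R⟦X⟧) (f g : ℕ → ℕ → ℕ → ℤ) :
    tri N E (fun i j h => f i j h + g i j h) = tri N E f + tri N E g := by
  unfold tri
  simp only [← sum_add_distrib]
  refine sum_congr rfl fun i _ => sum_congr rfl fun j _ => sum_congr rfl fun h _ => ?_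
  split_ifs
  · push_cast; ring
  · ring

lemma tri_smul (N : ℕ) (E : R⟦X⟧) (t : ℤ) (f : ℕ → ℕ → ℕ → ℤ) :
    tri N E (fun i j h => t * f i j h) = (t : R) * tri N E f := by
  unfold tri
  simp only [mul_sum]
  refine sum_congr rfl fun i _ => sum_congr rfl fun j _ => sum_congr rfl fun h _ => ?_
  split_ifs
  · push_cast; ring
  · ring

lemma tri_congr (N : ℕ) (E : R⟦X⟧) {f g : ℕ → ℕ → ℕ → ℤ}
    (h : ∀ i j h, i + j + h = N → f i j h = g i j h) : tri N E f = tri N E g := by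
  unfold tri
  refine sum_congr rfl fun i _ => sum_congr rfl fun j _ => sum_congr rfl fun k _ => ?_
  split_ifs with hN
  · rw [h i j k hN]
  · rfl

lemma tri_swap12 (N : ℕ) (E : R⟦X⟧) (f : ℕ → ℕ → ℕ → ℤ) :
    tri N E (fun i j h => f j i h) = tri N E f := by
  unfold tri
  rw [sum_comm]
  refine sum_congr rfl fun i _ => sum_congr rfl fun j _ => sum_congr rfl fun h _ => ?_
  have : j + i + h = i + j + h := by ring
  rw [this]
  split_ifs
  · ring
  · rfl

lemma tri_swap23 (N : ℕ) (E : R⟦X⟧) (f : ℕ → ℕ → ℕ → ℤ) :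
    tri N E (fun i j h => f i h j) = tri N E f := by
  unfold tri
  refine sum_congr rfl fun i _ => ?_
  rw [sum_comm]
  refine sum_congr rfl fun j _ => sum_congr rfl fun h _ => ?_
  have : i + h + j = i + j + h := by ring
  rw [this]
  split_ifs
  · ring
  · rfl

lemma tri_symm (N : ℕ) (E : R⟦X⟧) (f : ℕ → ℕ → ℕ → ℤ) :
    6 * tri N E f = tri N E (fun i j h => f i j h + f i h j + f j i h + f j h i + f h i j + f h j i) := by
  have h1 : tri N E (fun i j h => f i h j) = tri N E f := tri_swap23 N E f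
  have h2 : tri N E (fun i j h => f j i h) = tri N E f := tri_swap12 N E f
  have h3 : tri N E (fun i j h => f j h i) = tri N E f := by
    rw [← h1]; exact tri_swap12 N E (fun i j h => f i h j)
  have h4 : tri N E (fun i j h => f h i j) = tri N E f := by
    rw [← h2]; exact tri_swap23 N E (fun i j h => f j i h)
  have h5 : tri N E (fun i j h => f h j i) = tri N E f := by
    rw [← h4]; exact tri_swap12 N E (fun i j h => f h i j)
  rw [tri_add, tri_add, tri_add, tri_add, tri_add, h1, h2, h3, h4, h5]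
  ring

lemma tri_mem (P : Subsemiring R) (N : ℕ) {E : R⟦X⟧} (hE : ∀ n, coeff n E ∈ P)
    {f : ℕ → ℕ → ℕ → ℤ} (hf : ∀ i j h, i + j + h = N → 0 ≤ f i j h) : tri N E f ∈ P := by
  unfold tri
  refine P.sum_mem fun i _ => P.sum_mem fun j _ => P.sum_mem fun k _ => ?_
  split_ifs with h
  · refine P.mul_mem ?_ (P.mul_mem (P.mul_mem (hE _) (hE _)) (hE _))
    obtain ⟨m, hm⟩ := Int.eq_ofNat_of_zero_le (hf i j k h)
    rw [hm]
    simp only [Int.cast_natCast]
    exact natCast_mem P m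
  · exact P.zero_mem

/-- weighting a power series -/
noncomputable def tw (u : ℕ → ℤ) (E : R⟦X⟧) : R⟦X⟧ := PowerSeries.mk fun n => (u n : R) * coeff n E

lemma sum_antidiagonal_eq_range (N M : ℕ) (hM : N < M) (g : ℕ → ℕ → R) :
    ∑ p ∈ antidiagonal N, g p.1 p.2
      = ∑ i ∈ range M, ∑ j ∈ range M, if i + j = N then g i j else 0 := by
  rw [← sum_product', ← sum_filter]
  refine sum_congr ?_ fun _ _ => rfl
  ext ⟨i, j⟩
  simp only [HasAntidiagonal.mem_antidiagonal, mem_filter, mem_product, mem_range]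
  omega

lemma coeff_tw3 (N : ℕ) (E : R⟦X⟧) (u1 u2 u3 : ℕ → ℤ) :
    coeff N (tw u1 E * tw u2 E * tw u3 E) = tri N E (fun i j h => u1 i * u2 j * u3 h) := by
  rw [mul_assoc, coeff_mul]
  rw [sum_antidiagonal_eq_range N (N + 1) (by omega)
    (fun i m => coeff i (tw u1 E) * coeff m (tw u2 E * tw u3 E))]
  unfold tri
  refine sum_congr rfl fun i hi => ?_
  have hi' : i ≤ N := by have := mem_range.mp hi; omega
  -- the sum over `m` is the single term `m = N - i`
  rw [sum_eq_single (N - i)]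
  · rw [if_pos (by omega), coeff_mul]
    rw [sum_antidiagonal_eq_range (N - i) (N + 1) (by omega)
      (fun j h => coeff j (tw u2 E) * coeff h (tw u3 E)), mul_sum]
    refine sum_congr rfl fun j _ => ?_
    rw [mul_sum]
    refine sum_congr rfl fun h _ => ?_
    by_cases hh : j + h = N - i
    · rw [if_pos hh, if_pos (by omega)]
      simp only [tw, coeff_mk]
      push_cast
      ring
    · rw [if_neg hh, if_neg (by omega), mul_zero]
  · intro m _ hm
    rw [if_neg (by omega)]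
  · intro h
    exfalso; apply h; simp only [mem_range]; omega


/-! ### The coefficient formula for the core -/

lemma natCast_mul_tw (n : ℕ) (u : ℕ → ℤ) (E : R⟦X⟧) :
    (n : R⟦X⟧) * tw u E = tw (fun m => (n : ℤ) * u m) E := by
  ext m; rw [coeff_natCast_mul]; simp [tw]; ring

lemma tw_add (u v : ℕ → ℤ) (E : R⟦X⟧) : tw u E + tw v E = tw (fun m => u m + v m) E := by
  ext m; simp [tw]; ring

lemma tw_sub (u v : ℕ → ℤ) (E : R⟦X⟧) : tw u E - tw v E = tw (fun m => u m - v m) E := by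
  ext m; simp [tw]; ring

lemma tw_neg (u : ℕ → ℤ) (E : R⟦X⟧) : -tw u E = tw (fun m => -u m) E := by
  ext m; simp [tw]

lemma D_tw (u : ℕ → ℤ) (E : R⟦X⟧) : D (tw u E) = tw (fun m => (m : ℤ) * u m) E := by
  ext m; rw [coeff_D]; simp [tw]; ring

lemma self_eq_tw (E : R⟦X⟧) : E = tw (fun _ => 1) E := by
  ext m; simp [tw]

lemma hi_tw (a : ℕ) (u : ℕ → ℤ) (E : R⟦X⟧) :
    hi a (tw u E) = tw (fun m => ind a m * u m) E := by
  ext m
  rw [coeff_hi]
  simp only [tw, coeff_mk, ind]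
  by_cases h : a ≤ m
  · have : (a : ℤ) ≤ m := by exact_mod_cast h
    simp [h]
  · have : ¬ ((a : ℤ) ≤ m) := by exact_mod_cast h
    simp [h]

lemma ramp_tw (a : ℕ) (u : ℕ → ℤ) (E : R⟦X⟧) :
    ramp a (tw u E) = tw (fun m => pos a m * u m) E := by
  ext m
  rw [coeff_ramp]
  simp only [tw, coeff_mk, pos]
  by_cases h : a ≤ m
  · have : (a : ℤ) ≤ m := by exact_mod_cast h
    have h2 : a - m = 0 := by omega
    simp [h, h2]
  · have h1 : ¬ ((a : ℤ) ≤ m) := by exact_mod_cast h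
    have h2 : ((a - m : ℕ) : R) = (a : R) - (m : R) := by
      rw [Nat.cast_sub (by omega)]
    rw [h2, if_neg h1]
    push_cast; ring


lemma intCast_mul_tw (n : ℤ) (u : ℕ → ℤ) (E : R⟦X⟧) :
    (n : R⟦X⟧) * tw u E = tw (fun m => n * u m) E := by
  ext m
  have : (n : R⟦X⟧) = PowerSeries.C (n : R) := by simp
  rw [this, coeff_C_mul]; simp [tw]; ring

lemma tri_sub (N : ℕ) (E : R⟦X⟧) (f g : ℕ → ℕ → ℕ → ℤ) :
    tri N E (fun i j h => f i j h - g i j h) = tri N E f - tri N E g := by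
  have h := tri_add N E (fun i j h => f i j h - g i j h) g
  simp only [sub_add_cancel] at h
  rw [h]; ring

lemma Rser_coeff (E : R⟦X⟧) (a b c N : ℕ) :
    coeff N (Rser (Gs E) (D E) (-(D (Gs E))) a b c)
      = tri N E (fun i j h => (i : ℤ) * (1 - j) * (1 - h) * vu i j h a b c) := by
  have hG : Gs E = tw (fun m => 1 - (m : ℤ)) E := by
    unfold Gs
    have : E - D E = tw (fun _ => 1) E - D (tw (fun _ => 1) E) := by rw [← self_eq_tw]
    rw [this, D_tw, tw_sub]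
    congr 1
    funext m; ring
  have hD : D E = tw (fun m => (m : ℤ)) E := by
    have : D E = D (tw (fun _ => 1) E) := by rw [← self_eq_tw]
    rw [this, D_tw]
    congr 1
    funext m; ring
  have hγ : -(D (Gs E)) = tw (fun m => -((m : ℤ) * (1 - (m : ℤ)))) E := by
    rw [hG, D_tw, tw_neg]
  have hDε : D (D E) = tw (fun m => (m : ℤ) * m) E := by
    rw [hD, D_tw]
  have hhi : ∀ x : ℕ, hi x (Gs E) = tw (fun m => ind x m * (1 - (m : ℤ))) E := by
    intro x; rw [hG, hi_tw]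
  have hhi' : ∀ x : ℕ, (x : R⟦X⟧) * hi x (Gs E) - D (hi x (Gs E))
      = tw (fun m => ((x : ℤ) - m) * (ind x m * (1 - (m : ℤ)))) E := by
    intro x; rw [hhi, D_tw, natCast_mul_tw, tw_sub]
    congr 1
    funext m; ring
  have hr : ∀ x : ℕ, ramp x (D E) = tw (fun m => pos x m * (m : ℤ)) E := by
    intro x; rw [hD, ramp_tw]
  -- the factors
  have f1 : ((((a : ℤ) * b + b * c + c * a - a - b - c + 1 : ℤ)) : R⟦X⟧) * Gs E
      + (((a : ℤ) + b + c - 2 : ℤ) : R⟦X⟧) * -(D (Gs E))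
      = tw (fun m => (1 - (m : ℤ)) * (((a : ℤ) * b + b * c + c * a - a - b - c + 1)
          - ((a : ℤ) + b + c - 2) * m)) E := by
    rw [hγ, hG, intCast_mul_tw, intCast_mul_tw, tw_add]
    congr 1; funext m; ring
  have f2 : ∀ y z : ℕ, ((((y : ℤ) - 1) * (z - 1) : ℤ) : R⟦X⟧) * Gs E - -(D (Gs E))
      = tw (fun m => (1 - (m : ℤ)) * (((y : ℤ) - 1) * (z - 1) + m)) E := by
    intro y z
    rw [hγ, hG, intCast_mul_tw, tw_sub]
    congr 1; funext m; ring
  have f3 : ∀ y z : ℕ, (((y : ℤ) + z - 1 : ℤ) : R⟦X⟧) * Gs E + -(D (Gs E))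
      = tw (fun m => (1 - (m : ℤ)) * (((y : ℤ) + z - 1) - m)) E := by
    intro y z
    rw [hγ, hG, intCast_mul_tw, tw_add]
    congr 1; funext m; ring
  have f4 : D (D E) + ramp a (D E) + ramp b (D E) + ramp c (D E)
      = tw (fun m => (m : ℤ) * (m + (pos a m + pos b m + pos c m))) E := by
    rw [hr, hr, hr, hDε, tw_add, tw_add, tw_add]
    congr 1; funext m; ring
  have f5 : ∀ y z : ℕ, D (D E) + ramp y (D E) + ramp z (D E)
      = tw (fun m => (m : ℤ) * (m + (pos y m + pos z m))) E := by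
    intro y z
    rw [hr, hr, hDε, tw_add, tw_add]
    congr 1; funext m; ring
  have f6 : ∀ y z : ℕ, ((y : R⟦X⟧) * hi y (Gs E) - D (hi y (Gs E)))
        + ((((z : ℤ) - 1) : ℤ) : R⟦X⟧) * hi y (Gs E)
      = tw (fun m => (1 - (m : ℤ)) * (ind y m * ((y - m) + (z - 1)))) E := by
    intro y z
    rw [hhi', hhi, intCast_mul_tw, tw_add]
    congr 1; funext m; ring
  have f7 : ∀ y z : ℕ, ((((z : ℤ) - 1) : ℤ) : R⟦X⟧) * ((y : R⟦X⟧) * hi y (Gs E) - D (hi y (Gs E)))
        - ((((z : ℤ) - 1) : ℤ) : R⟦X⟧) * hi y (Gs E)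
      = tw (fun m => (1 - (m : ℤ)) * (ind y m * ((z - 1) * (y - m) - (z - 1)))) E := by
    intro y z
    rw [hhi', hhi, intCast_mul_tw, intCast_mul_tw, tw_sub]
    congr 1; funext m; ring
  have key : Rser (Gs E) (D E) (-(D (Gs E))) a b c
      = D E * Gs E * (((((a : ℤ) * b + b * c + c * a - a - b - c + 1 : ℤ)) : R⟦X⟧) * Gs E
          + (((a : ℤ) + b + c - 2 : ℤ) : R⟦X⟧) * -(D (Gs E)))
        + D E * -(D (Gs E)) * -(D (Gs E))
        + (D (D E) + ramp a (D E) + ramp b (D E) + ramp c (D E)) * Gs E * -(D (Gs E))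
        - (D E * hi a (Gs E) * (((((b : ℤ) - 1) * (c - 1) : ℤ) : R⟦X⟧) * Gs E - -(D (Gs E)))
          + D E * ((a : R⟦X⟧) * hi a (Gs E) - D (hi a (Gs E)))
            * ((((b : ℤ) + c - 1 : ℤ) : R⟦X⟧) * Gs E + -(D (Gs E)))
          + (D (D E) + ramp b (D E) + ramp c (D E)) * hi a (Gs E) * -(D (Gs E)))
        - (D E * hi b (Gs E) * (((((c : ℤ) - 1) * (a - 1) : ℤ) : R⟦X⟧) * Gs E - -(D (Gs E)))
          + D E * ((b : R⟦X⟧) * hi b (Gs E) - D (hi b (Gs E)))
            * ((((c : ℤ) + a - 1 : ℤ) : R⟦X⟧) * Gs E + -(D (Gs E)))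
          + (D (D E) + ramp c (D E) + ramp a (D E)) * hi b (Gs E) * -(D (Gs E)))
        - (D E * hi c (Gs E) * (((((a : ℤ) - 1) * (b - 1) : ℤ) : R⟦X⟧) * Gs E - -(D (Gs E)))
          + D E * ((c : R⟦X⟧) * hi c (Gs E) - D (hi c (Gs E)))
            * ((((a : ℤ) + b - 1 : ℤ) : R⟦X⟧) * Gs E + -(D (Gs E)))
          + (D (D E) + ramp a (D E) + ramp b (D E)) * hi c (Gs E) * -(D (Gs E)))
        + (D E * ((a : R⟦X⟧) * hi a (Gs E) - D (hi a (Gs E)))
            * (((b : R⟦X⟧) * hi b (Gs E) - D (hi b (Gs E)))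
              + ((((c : ℤ) - 1) : ℤ) : R⟦X⟧) * hi b (Gs E))
          + D E * hi a (Gs E) * (((((c : ℤ) - 1) : ℤ) : R⟦X⟧)
              * ((b : R⟦X⟧) * hi b (Gs E) - D (hi b (Gs E)))
            - ((((c : ℤ) - 1) : ℤ) : R⟦X⟧) * hi b (Gs E)))
        + (D E * ((b : R⟦X⟧) * hi b (Gs E) - D (hi b (Gs E)))
            * (((c : R⟦X⟧) * hi c (Gs E) - D (hi c (Gs E)))
              + ((((a : ℤ) - 1) : ℤ) : R⟦X⟧) * hi c (Gs E))
          + D E * hi b (Gs E) * (((((a : ℤ) - 1) : ℤ) : R⟦X⟧)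
              * ((c : R⟦X⟧) * hi c (Gs E) - D (hi c (Gs E)))
            - ((((a : ℤ) - 1) : ℤ) : R⟦X⟧) * hi c (Gs E)))
        + (D E * ((c : R⟦X⟧) * hi c (Gs E) - D (hi c (Gs E)))
            * (((a : R⟦X⟧) * hi a (Gs E) - D (hi a (Gs E)))
              + ((((b : ℤ) - 1) : ℤ) : R⟦X⟧) * hi a (Gs E))
          + D E * hi c (Gs E) * (((((b : ℤ) - 1) : ℤ) : R⟦X⟧)
              * ((a : R⟦X⟧) * hi a (Gs E) - D (hi a (Gs E)))
            - ((((b : ℤ) - 1) : ℤ) : R⟦X⟧) * hi a (Gs E))) := by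
    unfold Rser
    push_cast
    ring
  rw [key, f1, f2 b c, f2 c a, f2 a b, f3 b c, f3 c a, f3 a b, f4, f5 b c, f5 c a, f5 a b,
    f6 b c, f6 c a, f6 a b, f7 b c, f7 c a, f7 a b, hhi' a, hhi' b, hhi' c, hhi a, hhi b, hhi c,
    hγ, hG, hD]
  simp only [map_add, map_sub, coeff_tw3, ← tri_add, ← tri_sub]
  refine tri_congr N E fun i j h _ => ?_
  unfold vu
  ring


/-! ### The flux terms -/

lemma coeff_Gs (E : R⟦X⟧) (n : ℕ) : coeff n (Gs E) = (((1 - (n : ℤ)) : ℤ) : R) * coeff n E := by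
  unfold Gs; rw [map_sub, coeff_D]; push_cast; ring

lemma tri_rot (N : ℕ) (E : R⟦X⟧) (f : ℕ → ℕ → ℕ → ℤ) :
    tri N E f = ∑ h ∈ range (N + 1), ∑ i ∈ range (N + 1), ∑ j ∈ range (N + 1),
      if i + j + h = N then (f i j h : R) * (coeff i E * coeff j E * coeff h E) else 0 := by
  unfold tri
  rw [sum_comm]
  have : ∀ j ∈ range (N + 1), (∑ i ∈ range (N + 1), ∑ h ∈ range (N + 1),
      if i + j + h = N then (f i j h : R) * (coeff i E * coeff j E * coeff h E) else 0)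
      = ∑ h ∈ range (N + 1), ∑ i ∈ range (N + 1),
      if i + j + h = N then (f i j h : R) * (coeff i E * coeff j E * coeff h E) else 0 := by
    intro j _
    rw [sum_comm]
  rw [sum_congr rfl this, sum_comm]
  refine sum_congr rfl fun h _ => ?_
  rw [sum_comm]

lemma flux_tri (E : R⟦X⟧) (W : ℕ → ℕ → ℕ → ℤ) (a m : ℕ) :
    cv (Gs E) (fun x => ∑ q ∈ antidiagonal (x + m), (W x q.1 q.2 : R) * (coeff q.1 E * coeff q.2 E)) a
      = tri (a + m) E (fun i j h => if h ≤ a then (1 - (h : ℤ)) * W (a - h) i j else 0) := by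
  unfold cv
  rw [Finset.Nat.sum_antidiagonal_eq_sum_range_succ_mk, tri_rot]
  have hsub : range (a + 1) ⊆ range (a + m + 1) := by
    intro x hx; simp only [mem_range] at *; omega
  rw [← sum_subset hsub]
  · refine sum_congr rfl fun h hh => ?_
    have hh' : h ≤ a := by have := mem_range.mp hh; omega
    dsimp only
    rw [sum_antidiagonal_eq_range (a - h + m) (a + m + 1) (by omega)
      (fun i j => (W (a - h) i j : R) * (coeff i E * coeff j E)), mul_sum]
    refine sum_congr rfl fun i _ => ?_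
    rw [mul_sum]
    refine sum_congr rfl fun j _ => ?_
    by_cases hN : i + j = a - h + m
    · rw [if_pos hN, if_pos (by omega), if_pos hh', coeff_Gs]
      push_cast
      ring
    · rw [if_neg hN, if_neg (by omega), mul_zero]
  · intro h _ hh
    have hh' : ¬ h ≤ a := by intro h1; apply hh; simp only [mem_range]; omega
    refine sum_eq_zero fun i _ => sum_eq_zero fun j _ => ?_
    simp [hh']

/-- flux potentials -/
noncomputable def Psi (E : R⟦X⟧) (w : ℕ → ℕ → ℕ → ℕ → ℕ → ℤ) (a b c : ℕ) : R :=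
  ∑ q ∈ antidiagonal (a + b + c + 2), (w a b c q.1 q.2 : R) * (coeff q.1 E * coeff q.2 E)

def w1 (a b c i j : ℕ) : ℤ := F6 i j (a + 1) (b + 1) (c + 1)
def w2 (a b c i j : ℕ) : ℤ := F6 i j (b + 1) (c + 1) (a + 1)
def w3 (a b c i j : ℕ) : ℤ := F6 i j (c + 1) (a + 1) (b + 1)

lemma c1_Psi (E : R⟦X⟧) (a b c : ℕ) : c1 (Gs E) (Psi E w1) a b c
    = tri (a + b + c + 2) E (fun i j h => (1 - (h : ℤ)) *
        (if ((a : ℤ) + 1) ≤ h then 0 else F6 i j ((a : ℤ) + 1 - h) ((b : ℤ) + 1) ((c : ℤ) + 1))) := by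
  have h := flux_tri E (fun x i j => w1 x b c i j) a (b + c + 2)
  unfold c1 Psi
  have e : ∀ x : ℕ, x + b + c + 2 = x + (b + c + 2) := fun x => by ring
  simp only [e]
  rw [h]
  refine tri_congr _ E fun i j k hk => ?_
  by_cases hka : k ≤ a
  · have h1 : ¬ ((a : ℤ) + 1 ≤ k) := by omega
    rw [if_pos hka, if_neg h1]
    unfold w1
    have e2 : ((a - k : ℕ) : ℤ) + 1 = (a : ℤ) + 1 - k := by omega
    rw [e2]
  · have h1 : ((a : ℤ) + 1 ≤ k) := by omega
    rw [if_neg hka, if_pos h1, mul_zero]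

lemma c2_Psi (E : R⟦X⟧) (a b c : ℕ) : c2 (Gs E) (Psi E w2) a b c
    = tri (a + b + c + 2) E (fun i j h => (1 - (h : ℤ)) *
        (if ((b : ℤ) + 1) ≤ h then 0 else F6 i j ((b : ℤ) + 1 - h) ((c : ℤ) + 1) ((a : ℤ) + 1))) := by
  have h := flux_tri E (fun x i j => w2 a x c i j) b (a + c + 2)
  unfold c2 Psi
  have e : ∀ x : ℕ, a + x + c + 2 = x + (a + c + 2) := fun x => by ring
  simp only [e]
  rw [h]
  refine tri_congr _ E fun i j k hk => ?_
  by_cases hka : k ≤ b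
  · have h1 : ¬ ((b : ℤ) + 1 ≤ k) := by omega
    rw [if_pos hka, if_neg h1]
    unfold w2
    have e2 : ((b - k : ℕ) : ℤ) + 1 = (b : ℤ) + 1 - k := by omega
    rw [e2]
  · have h1 : ((b : ℤ) + 1 ≤ k) := by omega
    rw [if_neg hka, if_pos h1, mul_zero]

lemma c3_Psi (E : R⟦X⟧) (a b c : ℕ) : c3 (Gs E) (Psi E w3) a b c
    = tri (a + b + c + 2) E (fun i j h => (1 - (h : ℤ)) *
        (if ((c : ℤ) + 1) ≤ h then 0 else F6 i j ((c : ℤ) + 1 - h) ((a : ℤ) + 1) ((b : ℤ) + 1))) := by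
  have h := flux_tri E (fun x i j => w3 a b x i j) c (a + b + 2)
  unfold c3 Psi
  have e : ∀ x : ℕ, a + b + x + 2 = x + (a + b + 2) := fun x => by ring
  simp only [e]
  rw [h]
  refine tri_congr _ E fun i j k hk => ?_
  by_cases hka : k ≤ c
  · have h1 : ¬ ((c : ℤ) + 1 ≤ k) := by omega
    rw [if_pos hka, if_neg h1]
    unfold w3
    have e2 : ((c - k : ℕ) : ℤ) + 1 = (c : ℤ) + 1 - k := by omega
    rw [e2]
  · have h1 : ((c : ℤ) + 1 ≤ k) := by omega
    rw [if_neg hka, if_pos h1, mul_zero]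

/-- the reduced core -/
noncomputable def Kst (E : R⟦X⟧) : ℕ → ℕ → ℕ → R :=
  fun a b c => 36 * K0 E a b c
    - 3 * (c1 (Gs E) (Psi E w1) a b c + c2 (Gs E) (Psi E w2) a b c + c3 (Gs E) (Psi E w3) a b c)

lemma Kst_eq {E : R⟦X⟧} (hE : PowerSeries.constantCoeff E = 1) (a b c : ℕ) :
    6 * Kst E a b c = tri (a + b + c + 2) E
      (fun i j h => 6 * KI i j h ((a : ℤ) + 1) ((b : ℤ) + 1) ((c : ℤ) + 1)) := by
  have h1 : Kst E a b c = tri (a + b + c + 2) E (fun i j h =>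
      36 * ((i : ℤ) * (1 - j) * (1 - h) * vu i j h ((a : ℤ) + 1) ((b : ℤ) + 1) ((c : ℤ) + 1))
      - 3 * ((1 - (h : ℤ)) * FL h i j ((a : ℤ) + 1) ((b : ℤ) + 1) ((c : ℤ) + 1))) := by
    unfold Kst
    rw [K0_eq hE, Rser_coeff, c1_Psi, c2_Psi, c3_Psi, ← tri_add, ← tri_add]
    rw [tri_sub, tri_smul, tri_smul]
    push_cast
    congr 2
    refine tri_congr _ E fun i j k _ => ?_
    unfold FL
    ring
  rw [h1, tri_symm]
  refine tri_congr _ E fun i j k _ => ?_
  unfold KI kap V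
  rw [FL_comm k j i, FL_comm j k i, FL_comm i k j]
  ring

theorem X0_cone {E : R⟦X⟧} (hE : PowerSeries.constantCoeff E = 1) (P : Subsemiring R)
    (hP : ∀ n, coeff n E ∈ P) (a b c : ℕ) : 216 * X0 E a b c ∈ P := by
  have hGH := Gs_mul_Hs hE
  have hHG : Hs E * Gs E = 1 := by rw [mul_comm]; exact hGH
  -- `H` lies in the cone
  have hH : ∀ n, coeff n (Hs E) ∈ P := by
    intro n
    induction n using Nat.strong_induction_on with
    | _ n ih =>
      have h := congrArg (coeff n) hGH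
      rw [coeff_mul, coeff_one] at h
      rw [Finset.Nat.sum_antidiagonal_eq_sum_range_succ (fun i j => coeff i (Gs E) * coeff j (Hs E)),
        sum_range_succ'] at h
      have h0 : coeff 0 (Gs E) = 1 := by
        rw [PowerSeries.coeff_zero_eq_constantCoeff_apply]; exact constantCoeff_Gs hE
      rw [h0, one_mul, Nat.sub_zero] at h
      have h2 : coeff n (Hs E) = (if n = 0 then 1 else 0)
          + ∑ k ∈ range n, ((k : ℕ) : R) * coeff (k + 1) E * coeff (n - (k + 1)) (Hs E) := by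
        rw [← h, add_comm, ← add_assoc, ← sum_add_distrib]
        rw [sum_eq_zero, zero_add]
        intro k _
        rw [coeff_Gs]
        push_cast
        ring
      rw [h2]
      refine P.add_mem ?_ (P.sum_mem fun k hk => ?_)
      · split_ifs
        · exact P.one_mem
        · exact P.zero_mem
      · have hk' : k < n := mem_range.mp hk
        exact P.mul_mem (P.mul_mem (natCast_mem P k) (hP _)) (ih _ (by omega))
  have hPsi : ∀ w : ℕ → ℕ → ℕ → ℕ → ℕ → ℤ, (∀ a b c i j, 0 ≤ w a b c i j) →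
      ∀ a b c, Psi E w a b c ∈ P := by
    intro w hw a b c
    unfold Psi
    refine P.sum_mem fun q _ => P.mul_mem ?_ (P.mul_mem (hP _) (hP _))
    obtain ⟨m, hm⟩ := Int.eq_ofNat_of_zero_le (hw a b c q.1 q.2)
    rw [hm]
    simp only [Int.cast_natCast]
    exact natCast_mem P m
  have hw1 : ∀ a b c i j, 0 ≤ w1 a b c i j := fun a b c i j =>
    F6_nonneg (by omega) (by omega) (by omega) (by omega)
  have hw2 : ∀ a b c i j, 0 ≤ w2 a b c i j := fun a b c i j =>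
    F6_nonneg (by omega) (by omega) (by omega) (by omega)
  have hw3 : ∀ a b c i j, 0 ≤ w3 a b c i j := fun a b c i j =>
    F6_nonneg (by omega) (by omega) (by omega) (by omega)
  have hK : ∀ a b c, 6 * Kst E a b c ∈ P := by
    intro a b c
    rw [Kst_eq hE]
    refine tri_mem P _ hP fun i j k hijk => ?_
    have := KI_nonneg (i := i) (j := j) (h := k) (a := (a : ℤ) + 1) (b := (b : ℤ) + 1)
      (c := (c : ℤ) + 1) (by omega) (by omega) (by omega) (by omega) (by omega) (by omega)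
      (by omega)
    linarith
  -- decomposition
  have hdec : sm 216 (K0 E) = sm 6 (Kst E) + (sm 18 (c1 (Gs E) (Psi E w1))
      + (sm 18 (c2 (Gs E) (Psi E w2)) + sm 18 (c3 (Gs E) (Psi E w3)))) := by
    funext a b c
    show 216 * K0 E a b c = 6 * Kst E a b c + (18 * c1 (Gs E) (Psi E w1) a b c
      + (18 * c2 (Gs E) (Psi E w2) a b c + 18 * c3 (Gs E) (Psi E w3) a b c))
    unfold Kst
    ring
  have hX : sm 216 (X0 E) = c3 (Hs E) (c2 (Hs E) (c1 (Hs E) (sm 216 (K0 E)))) := by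
    rw [c1_sm, c2_sm, c3_sm]
    congr 1
    unfold K0
    rw [c1_c1 hHG, c2_c2 hHG, c3_c3 hHG]
  have hX2 : sm 216 (X0 E) = c3 (Hs E) (c2 (Hs E) (c1 (Hs E) (sm 6 (Kst E))))
      + (sm 18 (c3 (Hs E) (c2 (Hs E) (Psi E w1)))
        + (sm 18 (c3 (Hs E) (c1 (Hs E) (Psi E w2))) + sm 18 (c2 (Hs E) (c1 (Hs E) (Psi E w3))))) := by
    rw [hX, hdec]
    simp only [c1_add, c2_add, c3_add, c1_sm, c2_sm, c3_sm]
    rw [c1_c1 hHG, c1_c2 (Hs E) (Gs E), c2_c2 hHG, c1_c3 (Hs E) (Gs E), c2_c3 (Hs E) (Gs E),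
      c3_c3 hHG]
  have := congrFun (congrFun (congrFun hX2 a) b) c
  have e : sm 216 (X0 E) a b c = 216 * X0 E a b c := rfl
  rw [← e, this]
  refine P.add_mem ?_ (P.add_mem ?_ (P.add_mem ?_ ?_))
  · refine cv_mem P hH (fun z => cv_mem P hH (fun y => cv_mem P hH (fun x => ?_) _) _) _
    exact hK x y z
  · refine P.mul_mem (by exact_mod_cast natCast_mem P 18) ?_
    refine cv_mem P hH (fun z => cv_mem P hH (fun y => ?_) _) _
    exact hPsi w1 hw1 _ _ _
  · refine P.mul_mem (by exact_mod_cast natCast_mem P 18) ?_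
    refine cv_mem P hH (fun z => cv_mem P hH (fun y => ?_) _) _
    exact hPsi w2 hw2 _ _ _
  · refine P.mul_mem (by exact_mod_cast natCast_mem P 18) ?_
    refine cv_mem P hH (fun z => cv_mem P hH (fun y => ?_) _) _
    exact hPsi w3 hw3 _ _ _

end Pool.Agent.helper42.Theta
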