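import Pool.Agent.helper42.ThetaFlux
import Pool.Agent.helper42.ThetaColors

/-!
# Transfer to symmetric functions (part 5)
-/

set_option autoImplicit false

namespace Pool.Agent.helper42.Theta

open Finset

section Functoriality

variable {R S : Type*} [CommRing R] [CommRing S] (φ : R →+* S)

lemma map_D (f : PowerSeries R) : PowerSeries.map φ (D f) = D (PowerSeries.map φ f) := by
  ext n; rw [PowerSeries.coeff_map, coeff_D, coeff_D, PowerSeries.coeff_map]; simp

lemma map_ramp (a : ℕ) (f : PowerSeries R) :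
    PowerSeries.map φ (ramp a f) = ramp a (PowerSeries.map φ f) := by
  ext n; rw [PowerSeries.coeff_map, coeff_ramp, coeff_ramp, PowerSeries.coeff_map]; simp

lemma map_Gs (E : PowerSeries R) : PowerSeries.map φ (Gs E) = Gs (PowerSeries.map φ E) := by
  unfold Gs; rw [map_sub, map_D]

lemma map_Hs {E : PowerSeries R} (hE : PowerSeries.constantCoeff E = 1) :
    PowerSeries.map φ (Hs E) = Hs (PowerSeries.map φ E) := by
  have h1 : PowerSeries.constantCoeff (PowerSeries.map φ E) = 1 := by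
    rw [← PowerSeries.coeff_zero_eq_constantCoeff_apply, PowerSeries.coeff_map,
      PowerSeries.coeff_zero_eq_constantCoeff_apply, hE, map_one]
  have h2 := Gs_mul_Hs h1
  have h3 : Gs (PowerSeries.map φ E) * PowerSeries.map φ (Hs E) = 1 := by
    rw [← map_Gs, ← map_mul, Gs_mul_Hs hE, map_one]
  calc PowerSeries.map φ (Hs E)
      = (Gs (PowerSeries.map φ E) * Hs (PowerSeries.map φ E)) * PowerSeries.map φ (Hs E) := by
        rw [h2, one_mul]
    _ = Hs (PowerSeries.map φ E) * (Gs (PowerSeries.map φ E) * PowerSeries.map φ (Hs E)) := by ring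
    _ = Hs (PowerSeries.map φ E) := by rw [h3, mul_one]

lemma map_X0 {E : PowerSeries R} (hE : PowerSeries.constantCoeff E = 1) (a b c : ℕ) :
    φ (X0 E a b c) = X0 (PowerSeries.map φ E) a b c := by
  unfold X0
  rw [← PowerSeries.coeff_map]
  congr 1
  unfold Sser Ps Cs
  simp only [map_add, map_sub, map_mul, map_one, map_natCast, map_D, map_ramp, map_Hs φ hE,
    map_Gs, map_neg]

end Functoriality

/-- weights of the formal variables -/
def wf : ℕ → ℕ := fun i => i + 1

/-- weighted homogeneity of all coefficients of a power series over the formal ring -/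
def HomS (f : PowerSeries (MvPolynomial ℕ ℤ)) : Prop :=
  ∀ n, PowerSeries.coeff n f ∈ MvPolynomial.weightedHomogeneousSubmodule ℤ wf n

lemma HomS.add {f g : PowerSeries (MvPolynomial ℕ ℤ)} (hf : HomS f) (hg : HomS g) :
    HomS (f + g) := fun n => by
  rw [map_add]; exact Submodule.add_mem _ (hf n) (hg n)

lemma HomS.neg {f : PowerSeries (MvPolynomial ℕ ℤ)} (hf : HomS f) : HomS (-f) := fun n => by
  rw [map_neg]; exact Submodule.neg_mem _ (hf n)

lemma HomS.sub {f g : PowerSeries (MvPolynomial ℕ ℤ)} (hf : HomS f) (hg : HomS g) :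
    HomS (f - g) := fun n => by
  rw [map_sub]; exact Submodule.sub_mem _ (hf n) (hg n)

lemma mem_mul {p q : MvPolynomial ℕ ℤ} {m n k : ℕ} (h : m + n = k)
    (hp : p ∈ MvPolynomial.weightedHomogeneousSubmodule ℤ wf m)
    (hq : q ∈ MvPolynomial.weightedHomogeneousSubmodule ℤ wf n) :
    p * q ∈ MvPolynomial.weightedHomogeneousSubmodule ℤ wf k := by
  rw [MvPolynomial.mem_weightedHomogeneousSubmodule] at *
  rw [← h]; exact hp.mul hq

lemma natCast_mul_mem (t : ℕ) {p : MvPolynomial ℕ ℤ} {m : ℕ}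
    (hp : p ∈ MvPolynomial.weightedHomogeneousSubmodule ℤ wf m) :
    (t : MvPolynomial ℕ ℤ) * p ∈ MvPolynomial.weightedHomogeneousSubmodule ℤ wf m := by
  rw [← nsmul_eq_mul]; exact Submodule.smul_of_tower_mem _ t hp

lemma HomS.mul {f g : PowerSeries (MvPolynomial ℕ ℤ)} (hf : HomS f) (hg : HomS g) :
    HomS (f * g) := fun n => by
  rw [PowerSeries.coeff_mul]
  refine Submodule.sum_mem _ fun p hp => mem_mul ?_ (hf p.1) (hg p.2)
  simpa using hp

lemma HomS.one : HomS 1 := fun n => by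
  rw [PowerSeries.coeff_one]
  split_ifs with h
  · subst h; exact MvPolynomial.isWeightedHomogeneous_one ℤ wf
  · exact Submodule.zero_mem _

lemma HomS.natCast_mul (t : ℕ) {f : PowerSeries (MvPolynomial ℕ ℤ)} (hf : HomS f) :
    HomS ((t : PowerSeries (MvPolynomial ℕ ℤ)) * f) := fun n => by
  rw [coeff_natCast_mul]; exact natCast_mul_mem t (hf n)

lemma HomS.D {f : PowerSeries (MvPolynomial ℕ ℤ)} (hf : HomS f) : HomS (D f) := fun n => by
  rw [coeff_D]; exact natCast_mul_mem n (hf n)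

lemma HomS.ramp (a : ℕ) {f : PowerSeries (MvPolynomial ℕ ℤ)} (hf : HomS f) : HomS (ramp a f) :=
  fun n => by rw [coeff_ramp]; exact natCast_mul_mem _ (hf n)

lemma HomS.Hs {E : PowerSeries (MvPolynomial ℕ ℤ)} (hE : PowerSeries.constantCoeff E = 1)
    (h : HomS E) : HomS (Hs E) := by
  have hG : HomS (Gs E) := h.sub h.D
  intro n
  induction n using Nat.strong_induction_on with
  | _ n ih =>
    have h1 := congrArg (PowerSeries.coeff n) (Gs_mul_Hs hE)
    rw [PowerSeries.coeff_mul, PowerSeries.coeff_one] at h1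
    rw [Finset.Nat.sum_antidiagonal_eq_sum_range_succ
      (fun i j => PowerSeries.coeff i (Gs E) * PowerSeries.coeff j (Theta.Hs E)),
      sum_range_succ'] at h1
    have h0 : PowerSeries.coeff 0 (Gs E) = 1 := by
      rw [PowerSeries.coeff_zero_eq_constantCoeff_apply]; exact constantCoeff_Gs hE
    rw [h0, one_mul, Nat.sub_zero] at h1
    have h2 : PowerSeries.coeff n (Theta.Hs E) = (if n = 0 then 1 else 0)
        - ∑ k ∈ range n, PowerSeries.coeff (k + 1) (Gs E)
          * PowerSeries.coeff (n - (k + 1)) (Theta.Hs E) := by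
      rw [← h1]; ring
    rw [h2]
    refine Submodule.sub_mem _ ?_ (Submodule.sum_mem _ fun k hk => ?_)
    · split_ifs with h3
      · subst h3; exact MvPolynomial.isWeightedHomogeneous_one ℤ wf
      · exact Submodule.zero_mem _
    · have hk' : k < n := mem_range.mp hk
      exact mem_mul (by omega) (hG (k + 1)) (ih _ (by omega))

lemma X0_hom {E : PowerSeries (MvPolynomial ℕ ℤ)} (hE : PowerSeries.constantCoeff E = 1)
    (h : HomS E) (a b c : ℕ) :
    X0 E a b c ∈ MvPolynomial.weightedHomogeneousSubmodule ℤ wf (a + b + c + 2) := by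
  have hH := HomS.Hs hE h
  have hG : HomS (Gs E) := h.sub h.D
  have hP : HomS (Ps E - 1) := (h.mul hH).sub HomS.one
  have hC : HomS (Cs E) := (hG.D.neg).mul hH
  have hS : HomS (Sser (Ps E - 1) (Cs E) (a + 1) (b + 1) (c + 1)) := by
    unfold Sser
    refine HomS.add (HomS.sub ?_ (hP.mul hC.D)) ((((hP.ramp _).add (hP.ramp _)).add
      (hP.ramp _)).mul hC)
    have e : (((a + 1 : ℕ) : PowerSeries (MvPolynomial ℕ ℤ)) * ((b + 1 : ℕ))
        + ((b + 1 : ℕ)) * ((c + 1 : ℕ)) + ((c + 1 : ℕ)) * ((a + 1 : ℕ)) - ((a + 1 : ℕ))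
        - ((b + 1 : ℕ)) - ((c + 1 : ℕ)) + 1) * (Ps E - 1)
        = ((a * b + b * c + c * a + a + b + c + 1 : ℕ) : PowerSeries (MvPolynomial ℕ ℤ))
          * (Ps E - 1) := by
      push_cast; ring
    rw [e]
    exact hP.natCast_mul _
  exact hS _

/-- formal generating function `1 + y₀ z + y₁ z² + ⋯` -/
noncomputable def Ef : PowerSeries (MvPolynomial ℕ ℤ) :=
  PowerSeries.mk fun n => Nat.casesOn n 1 fun m => MvPolynomial.X m

lemma constantCoeff_Ef : PowerSeries.constantCoeff Ef = 1 := by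
  rw [← PowerSeries.coeff_zero_eq_constantCoeff_apply, Ef, PowerSeries.coeff_mk]
  rfl

lemma HomS_Ef : HomS Ef := fun n => by
  unfold Ef
  rw [PowerSeries.coeff_mk]
  cases n with
  | zero => exact MvPolynomial.isWeightedHomogeneous_one ℤ wf
  | succ n => exact MvPolynomial.isWeightedHomogeneous_X ℤ wf n

/-- cone of polynomials with nonnegative coefficients -/
def cone : Subsemiring (MvPolynomial ℕ ℤ) where
  carrier := {f | ∀ m, 0 ≤ MvPolynomial.coeff m f}
  mul_mem' := by
    intro f g hf hg m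
    rw [MvPolynomial.coeff_mul]
    exact Finset.sum_nonneg fun p _ => mul_nonneg (hf _) (hg _)
  one_mem' := by
    intro m
    rw [MvPolynomial.coeff_one]
    split_ifs <;> norm_num
  add_mem' := by
    intro f g hf hg m
    rw [MvPolynomial.coeff_add]
    exact add_nonneg (hf _) (hg _)
  zero_mem' := by
    intro m
    rw [MvPolynomial.coeff_zero]

lemma X0_Ef_nonneg (a b c : ℕ) (m : ℕ →₀ ℕ) : 0 ≤ MvPolynomial.coeff m (X0 Ef a b c) := by
  have h : 216 * X0 Ef a b c ∈ cone := by
    refine X0_cone constantCoeff_Ef cone (fun n => ?_) a b c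
    unfold Ef
    rw [PowerSeries.coeff_mk]
    cases n with
    | zero => exact cone.one_mem
    | succ n =>
      intro m
      show 0 ≤ MvPolynomial.coeff m (MvPolynomial.X n : MvPolynomial ℕ ℤ)
      rw [MvPolynomial.coeff_X]
      split_ifs <;> norm_num
  have h2 := h m
  have e : (216 : MvPolynomial ℕ ℤ) * X0 Ef a b c = MvPolynomial.C (216 : ℤ) * X0 Ef a b c := by
    congr 1
  rw [e, MvPolynomial.coeff_C_mul] at h2
  omega

/-- expansion of a homogeneous polynomial with nonnegative coefficients. -/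
lemma expand {R : Type*} [CommRing R] (e : ℕ → R) (N : ℕ) (f : MvPolynomial ℕ ℤ)
    (hf : f ∈ MvPolynomial.weightedHomogeneousSubmodule ℤ wf N)
    (hpos : ∀ m, 0 ≤ MvPolynomial.coeff m f) :
    ∃ coef : Nat.Partition N → ℕ,
      MvPolynomial.aeval (fun i => e (i + 1)) f = ∑ μ : Nat.Partition N,
        (coef μ : R) * (μ.parts.map e).prod := by
  have key : MvPolynomial.aeval (fun i => e (i + 1)) f
      ∈ Submodule.span ℕ (Set.range fun μ : Nat.Partition N => (μ.parts.map e).prod) := by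
    rw [MvPolynomial.as_sum f, map_sum]
    refine Submodule.sum_mem _ fun m hm => ?_
    rw [MvPolynomial.aeval_monomial]
    obtain ⟨t, ht⟩ := Int.eq_ofNat_of_zero_le (hpos m)
    rw [ht]
    have hw : Finsupp.weight wf m = N := hf (MvPolynomial.mem_support_iff.mp hm)
    have hparts : ∃ μ : Nat.Partition N, μ.parts = (Finsupp.toMultiset m).map (· + 1) := by
      refine ⟨⟨(Finsupp.toMultiset m).map (· + 1), ?_, ?_⟩, rfl⟩
      · intro i hi
        rw [Multiset.mem_map] at hi
        obtain ⟨j, _, rfl⟩ := hi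
        omega
      · rw [← hw, Finsupp.weight_apply, Finsupp.toMultiset_map, Finsupp.sum_toMultiset,
          Finsupp.sum_mapDomain_index (fun _ => by simp) (fun _ _ _ => by simp [add_mul])]
        rfl
    obtain ⟨μ, hμ⟩ := hparts
    have hprod : (m.prod fun i k => e (i + 1) ^ k) = (μ.parts.map e).prod := by
      rw [hμ, Multiset.map_map, Finsupp.toMultiset_map, Finsupp.prod_toMultiset,
        Finsupp.prod_mapDomain_index (fun _ => pow_zero _) (fun _ _ _ => pow_add _ _ _)]
      rfl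
    rw [hprod]
    have : (algebraMap ℤ R) (t : ℤ) * (μ.parts.map e).prod = t • (μ.parts.map e).prod := by
      simp [nsmul_eq_mul]
    rw [this]
    exact Submodule.smul_mem _ _ (Submodule.subset_span ⟨μ, rfl⟩)
  rw [Submodule.mem_span_range_iff_exists_fun] at key
  obtain ⟨c, hc⟩ := key
  refine ⟨c, ?_⟩
  rw [← hc]
  refine Finset.sum_congr rfl fun μ _ => ?_
  rw [nsmul_eq_mul]

section Final

variable {R : Type*} [CommRing R] {σ : Type*} [Fintype σ] [DecidableEq σ] (ξ : σ → R)

lemma Pser_eq : Pser ξ = Ps (Eser ξ) := by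
  have h1 := Eser_Pser ξ
  have h2 := Gs_mul_Hs (constantCoeff_Eser ξ)
  unfold Ps
  unfold Gs at h2
  calc Pser ξ = ((Eser ξ - D (Eser ξ)) * Hs (Eser ξ)) * Pser ξ := by rw [h2, one_mul]
    _ = ((Eser ξ - D (Eser ξ)) * Pser ξ) * Hs (Eser ξ) := by ring
    _ = Eser ξ * Hs (Eser ξ) := by rw [h1]

lemma Cser_eq : Cser ξ = Cs (Eser ξ) := by
  have h1 := Cser_mul_G ξ
  have h2 := Gs_mul_Hs (constantCoeff_Eser ξ)
  unfold Cs
  unfold Gs at *
  calc Cser ξ = ((Eser ξ - D (Eser ξ)) * Hs (Eser ξ)) * Cser ξ := by rw [h2, one_mul]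
    _ = -(-(Cser ξ * (Eser ξ - D (Eser ξ)))) * Hs (Eser ξ) := by ring
    _ = -(D (Eser ξ - D (Eser ξ))) * Hs (Eser ξ) := by rw [← h1]

theorem tht_eq_X0 (a b c : ℕ) : tht ξ a b c = X0 (Eser ξ) a b c := by
  rw [tht_eq, FF, X0, Pser_eq, Cser_eq]

omit [DecidableEq σ] in
lemma coeff_Eser (n : ℕ) : PowerSeries.coeff n (Eser ξ)
    = ∑ t ∈ powersetCard n univ, ∏ i ∈ t, ξ i := by
  unfold Eser
  rw [Finset.prod_one_add, map_sum]
  have : ∀ t ∈ (univ : Finset σ).powerset,
      PowerSeries.coeff n (∏ i ∈ t, (PowerSeries.C (ξ i) * PowerSeries.X))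
        = if t.card = n then ∏ i ∈ t, ξ i else 0 := by
    intro t _
    rw [Finset.prod_mul_distrib, Finset.prod_const, ← map_prod, PowerSeries.coeff_C_mul_X_pow]
    simp only [eq_comm]
  rw [sum_congr rfl this, ← sum_filter]
  refine sum_congr ?_ fun _ _ => rfl
  ext t
  simp [Finset.mem_powersetCard]

end Final

/-- The positivity theorem for the weighted theta sums. -/
theorem tht_positive {σ : Type} [Fintype σ] [DecidableEq σ] (a b c : ℕ) :
    ∃ coef : Nat.Partition (a + b + c + 2) → ℕ,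
      tht (fun s : σ => (MvPolynomial.X s : MvPolynomial σ ℤ)) a b c
        = ∑ μ : Nat.Partition (a + b + c + 2),
          (coef μ : MvPolynomial σ ℤ) *
            (μ.parts.map (fun i => MvPolynomial.esymm σ ℤ i)).prod := by
  obtain ⟨coef, h⟩ := expand (fun i => MvPolynomial.esymm σ ℤ i) (a + b + c + 2) (X0 Ef a b c)
    (X0_hom constantCoeff_Ef HomS_Ef a b c) (X0_Ef_nonneg a b c)
  refine ⟨coef, ?_⟩
  rw [← h, tht_eq_X0]
  have h2 := map_X0 ((MvPolynomial.aeval (fun i => MvPolynomial.esymm σ ℤ (i + 1)) :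
    MvPolynomial ℕ ℤ →ₐ[ℤ] MvPolynomial σ ℤ) : MvPolynomial ℕ ℤ →+* MvPolynomial σ ℤ)
    constantCoeff_Ef a b c
  have h3 : PowerSeries.map ((MvPolynomial.aeval (fun i => MvPolynomial.esymm σ ℤ (i + 1)) :
    MvPolynomial ℕ ℤ →ₐ[ℤ] MvPolynomial σ ℤ) : MvPolynomial ℕ ℤ →+* MvPolynomial σ ℤ) Ef
      = Eser (fun s : σ => (MvPolynomial.X s : MvPolynomial σ ℤ)) := by
    ext1 n
    rw [PowerSeries.coeff_map, coeff_Eser]
    unfold Ef
    rw [PowerSeries.coeff_mk]
    cases n with
    | zero => simp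
    | succ n => simp [MvPolynomial.esymm]
  rw [h3] at h2
  rw [← h2]
  rfl

end Pool.Agent.helper42.Theta
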