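import Mathlib

/-!
# Power series computations for chromatic symmetric functions of theta graphs (part 1)
-/

set_option autoImplicit false

namespace Pool.Agent.helper42.Theta

open PowerSeries Finset

variable {R : Type*} [CommRing R]

/-- Euler operator `z d/dz` on power series. -/
noncomputable def D (f : R⟦X⟧) : R⟦X⟧ := PowerSeries.mk fun n => (n : R) * coeff n f

@[simp] lemma coeff_D (f : R⟦X⟧) (n : ℕ) : coeff n (D f) = (n : R) * coeff n f := by
  simp [D]

lemma D_add (f g : R⟦X⟧) : D (f + g) = D f + D g := by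
  ext n; simp [mul_add]

lemma D_sub (f g : R⟦X⟧) : D (f - g) = D f - D g := by
  ext n; simp [mul_sub]

lemma D_neg (f : R⟦X⟧) : D (-f) = -D f := by
  ext n; simp

lemma D_mul (f g : R⟦X⟧) : D (f * g) = D f * g + f * D g := by
  ext n
  simp only [coeff_D, map_add, coeff_mul, mul_sum]
  rw [← sum_add_distrib]
  refine sum_congr rfl fun p hp => ?_
  have h : p.1 + p.2 = n := by simpa using hp
  rw [← h]; push_cast; ring

/-- truncation: coefficients of index `< a`. -/
noncomputable def lo (a : ℕ) (f : R⟦X⟧) : R⟦X⟧ :=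
  PowerSeries.mk fun n => if n < a then coeff n f else 0

/-- tail: coefficients of index `≥ a`. -/
noncomputable def hi (a : ℕ) (f : R⟦X⟧) : R⟦X⟧ :=
  PowerSeries.mk fun n => if a ≤ n then coeff n f else 0

/-- ramp: multiply the coefficient of index `n` by `(a - n)_+`. -/
noncomputable def ramp (a : ℕ) (f : R⟦X⟧) : R⟦X⟧ :=
  PowerSeries.mk fun n => ((a - n : ℕ) : R) * coeff n f

@[simp] lemma coeff_lo (a : ℕ) (f : R⟦X⟧) (n : ℕ) :
    coeff n (lo a f) = if n < a then coeff n f else 0 := by simp [lo]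

@[simp] lemma coeff_hi (a : ℕ) (f : R⟦X⟧) (n : ℕ) :
    coeff n (hi a f) = if a ≤ n then coeff n f else 0 := by simp [hi]

@[simp] lemma coeff_ramp (a : ℕ) (f : R⟦X⟧) (n : ℕ) :
    coeff n (ramp a f) = ((a - n : ℕ) : R) * coeff n f := by simp [ramp]

lemma lo_eq (a : ℕ) (f : R⟦X⟧) : lo a f = f - hi a f := by
  ext n
  by_cases h : n < a
  · simp [h, not_le.mpr h]
  · simp [h, not_lt.mp h]

lemma ramp_eq (a : ℕ) (f : R⟦X⟧) : ramp a f = (a : R⟦X⟧) * lo a f - D (lo a f) := by
  ext n
  have h1 : coeff n ((a : R⟦X⟧) * lo a f) = (a : R) * coeff n (lo a f) := by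
    have : (a : R⟦X⟧) = PowerSeries.C (a : R) := by simp
    rw [this, coeff_C_mul]
  rw [map_sub, h1]
  by_cases h : n < a
  · simp [h, Nat.cast_sub h.le]; ring
  · simp [h, Nat.sub_eq_zero_of_le (not_lt.mp h)]

lemma coeff_mul_of_dvd {a N : ℕ} {f : R⟦X⟧} (h : X ^ a ∣ f) (hN : N < a) : coeff N f = 0 :=
  (PowerSeries.X_pow_dvd_iff.mp h) N hN

lemma dvd_hi (a : ℕ) (f : R⟦X⟧) : X ^ a ∣ hi a f := by
  rw [PowerSeries.X_pow_dvd_iff]; intro m hm; simp [not_le.mpr hm]

lemma dvd_D {a : ℕ} {f : R⟦X⟧} (h : X ^ a ∣ f) : X ^ a ∣ D f := by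
  rw [PowerSeries.X_pow_dvd_iff] at *; intro m hm; simp [h m hm]

/-- `(n-a)_+` version of the ramp, vanishing for `n ≤ a`. -/
lemma dvd_upramp (a : ℕ) (f : R⟦X⟧) : X ^ a ∣ (D f - (a : R⟦X⟧) * f + ramp a f) := by
  rw [PowerSeries.X_pow_dvd_iff]
  intro m hm
  have h1 : coeff m ((a : R⟦X⟧) * f) = (a : R) * coeff m f := by
    have : (a : R⟦X⟧) = PowerSeries.C (a : R) := by simp
    rw [this, coeff_C_mul]
  rw [map_add, map_sub, h1]
  simp [Nat.cast_sub hm.le]; ring

/-- the `G`-convolution operator in one bin variable. -/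
noncomputable def opS (G : R⟦X⟧) (f : ℕ → R⟦X⟧) (a : ℕ) : R⟦X⟧ :=
  ∑ l ∈ range a, PowerSeries.C (coeff l G) * X ^ l * f (a - l)

lemma lo_eq_sum (a : ℕ) (f : R⟦X⟧) : lo a f = ∑ l ∈ range a, PowerSeries.C (coeff l f) * X ^ l := by
  ext n
  rw [map_sum]
  simp only [coeff_C_mul_X_pow, coeff_lo]
  rw [Finset.sum_ite_eq]
  simp

lemma ramp_eq_sum (a : ℕ) (f : R⟦X⟧) :
    ramp a f = ∑ l ∈ range a, PowerSeries.C (coeff l f) * X ^ l * (((a - l : ℕ) : ℕ) : R⟦X⟧) := by
  ext n
  rw [map_sum]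
  have : ∀ l ∈ range a, coeff n (PowerSeries.C (coeff l f) * X ^ l * (((a - l : ℕ) : ℕ) : R⟦X⟧))
      = if n = l then ((a - l : ℕ) : R) * coeff l f else 0 := by
    intro l _
    have h1 : (((a - l : ℕ) : ℕ) : R⟦X⟧) = PowerSeries.C ((a - l : ℕ) : R) := by simp
    rw [h1, mul_comm, coeff_C_mul, coeff_C_mul_X_pow]
    split_ifs <;> simp
  rw [sum_congr rfl this, Finset.sum_ite_eq]
  simp only [coeff_ramp, mem_range]
  split_ifs with h
  · rfl
  · simp [Nat.sub_eq_zero_of_le (not_lt.mp h)]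

lemma ramp_conv (a : ℕ) (G f : R⟦X⟧) :
    ∑ l ∈ range a, PowerSeries.C (coeff l G) * X ^ l * ramp (a - l) f = ramp a (G * f) := by
  ext n
  rw [map_sum]
  have : ∀ l ∈ range a, coeff n (PowerSeries.C (coeff l G) * X ^ l * ramp (a - l) f)
      = if l ≤ n then coeff l G * (((a - n : ℕ) : R) * coeff (n - l) f) else 0 := by
    intro l _
    rw [mul_assoc, coeff_C_mul, coeff_X_pow_mul']
    split_ifs with h
    · rw [coeff_ramp]
      have : a - l - (n - l) = a - n := by omega
      rw [this]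
    · simp
  rw [sum_congr rfl this, coeff_ramp, coeff_mul, Finset.Nat.sum_antidiagonal_eq_sum_range_succ
    (fun i j => coeff i G * coeff j f)]
  by_cases hn : n < a
  · rw [← sum_filter]
    have : (range a).filter (fun l => l ≤ n) = range n.succ := by
      ext l; simp only [mem_filter, mem_range]; omega
    rw [this, mul_sum]
    refine sum_congr rfl fun l _ => ?_
    ring
  · have h0 : a - n = 0 := by omega
    rw [h0]
    simp

/-- the key evaluation of `opS` on functions affine in the bin size plus a ramp. -/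
lemma opS_affine (G : R⟦X⟧) (u0 u1 f v : R⟦X⟧) (F : ℕ → R⟦X⟧)
    (hF : ∀ x, F x = u0 + (x : R⟦X⟧) * u1 + ramp x f * v) (a : ℕ) :
    opS G F a = lo a G * u0 + ramp a G * u1 + ramp a (G * f) * v := by
  unfold opS
  have : ∀ l ∈ range a, PowerSeries.C (coeff l G) * X ^ l * F (a - l)
      = (PowerSeries.C (coeff l G) * X ^ l) * u0
        + (PowerSeries.C (coeff l G) * X ^ l * (((a - l : ℕ) : ℕ) : R⟦X⟧)) * u1
        + (PowerSeries.C (coeff l G) * X ^ l * ramp (a - l) f) * v := by
    intro l _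
    rw [hF]; ring
  rw [sum_congr rfl this, sum_add_distrib, sum_add_distrib, ← sum_mul, ← sum_mul, ← sum_mul,
    ← lo_eq_sum, ← ramp_eq_sum, ramp_conv]


noncomputable def Sser (P C : R⟦X⟧) (a b c : ℕ) : R⟦X⟧ :=
  ((a : R⟦X⟧) * b + b * c + c * a - a - b - c + 1) * P - P * D C
    + (ramp a P + ramp b P + ramp c P) * C

lemma opS3 (G P C : R⟦X⟧) (a b c : ℕ) :
    opS G (fun a' => opS G (fun b' => opS G (fun c' => Sser P C a' b' c') c) b) a
    = P * (ramp a G * ramp b G * lo c G + ramp a G * lo b G * ramp c G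
          + lo a G * ramp b G * ramp c G - ramp a G * lo b G * lo c G
          - lo a G * ramp b G * lo c G - lo a G * lo b G * ramp c G + lo a G * lo b G * lo c G)
      - lo a G * lo b G * lo c G * (P * D C)
      + C * (ramp a (G * P) * lo b G * lo c G + lo a G * ramp b (G * P) * lo c G
          + lo a G * lo b G * ramp c (G * P)) := by
  have h1 : ∀ a' b' : ℕ, opS G (fun c' => Sser P C a' b' c') c
      = lo c G * (((a' : R⟦X⟧) * b' - a' - b' + 1) * P - P * D C + (ramp a' P + ramp b' P) * C)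
        + ramp c G * (((a' : R⟦X⟧) + b' - 1) * P) + ramp c (G * P) * C := by
    intro a' b'
    apply opS_affine
    intro x
    unfold Sser
    ring
  have h2 : ∀ a' : ℕ, opS G (fun b' => opS G (fun c' => Sser P C a' b' c') c) b
      = lo b G * (lo c G * ((1 - (a' : R⟦X⟧)) * P - P * D C + ramp a' P * C)
          + ramp c G * (((a' : R⟦X⟧) - 1) * P) + ramp c (G * P) * C)
        + ramp b G * (lo c G * ((a' : R⟦X⟧) - 1) * P + ramp c G * P)
        + ramp b (G * P) * (lo c G * C) := by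
    intro a'
    apply opS_affine
    intro x
    rw [h1]
    ring
  have h3 : opS G (fun a' => opS G (fun b' => opS G (fun c' => Sser P C a' b' c') c) b) a
      = lo a G * (lo b G * (lo c G * (P - P * D C) - ramp c G * P + ramp c (G * P) * C)
          + ramp b G * (ramp c G * P - lo c G * P) + ramp b (G * P) * (lo c G * C))
        + ramp a G * (lo b G * (ramp c G * P - lo c G * P) + ramp b G * lo c G * P)
        + ramp a (G * P) * (lo b G * lo c G * C) := by
    apply opS_affine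
    intro x
    rw [h2]
    ring
  rw [h3]
  ring

/-- The right-hand side of the key identity. -/
noncomputable def Rser (G ε γ : R⟦X⟧) (a b c : ℕ) : R⟦X⟧ :=
  let A := hi a G
  let B := hi b G
  let K := hi c G
  let A' := (a : R⟦X⟧) * A - D A
  let B' := (b : R⟦X⟧) * B - D B
  let K' := (c : R⟦X⟧) * K - D K
  ε * (((a : R⟦X⟧) * b + b * c + c * a - a - b - c + 1) * G ^ 2
      + ((a : R⟦X⟧) + b + c - 2) * γ * G + γ ^ 2)
    + G * γ * D ε + γ * G * (ramp a ε + ramp b ε + ramp c ε)
    - (ε * (A * (((b : R⟦X⟧) - 1) * (c - 1) * G - γ) + A' * (((b : R⟦X⟧) + c - 1) * G + γ))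
        + A * γ * D ε + A * γ * (ramp b ε + ramp c ε))
    - (ε * (B * (((c : R⟦X⟧) - 1) * (a - 1) * G - γ) + B' * (((c : R⟦X⟧) + a - 1) * G + γ))
        + B * γ * D ε + B * γ * (ramp c ε + ramp a ε))
    - (ε * (K * (((a : R⟦X⟧) - 1) * (b - 1) * G - γ) + K' * (((a : R⟦X⟧) + b - 1) * G + γ))
        + K * γ * D ε + K * γ * (ramp a ε + ramp b ε))
    + ε * (A' * B' + ((c : R⟦X⟧) - 1) * (A' * B + A * B') - ((c : R⟦X⟧) - 1) * A * B)
    + ε * (B' * K' + ((a : R⟦X⟧) - 1) * (B' * K + B * K') - ((a : R⟦X⟧) - 1) * B * K)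
    + ε * (K' * A' + ((b : R⟦X⟧) - 1) * (K' * A + K * A') - ((b : R⟦X⟧) - 1) * K * A)

lemma star_aux (G P C : R⟦X⟧) (hG : D G = -(C * G)) (a b c : ℕ) :
    let A := hi a G
    let B := hi b G
    let K := hi c G
    let A' := (a : R⟦X⟧) * A - D A
    let B' := (b : R⟦X⟧) * B - D B
    let K' := (c : R⟦X⟧) * K - D K
    let ε := G * P
    let W := -(P * C * (G ^ 3 - G ^ 2 * (A + B + K) + G * (A * B + B * K + K * A)))
    P * (ramp a G * ramp b G * lo c G + ramp a G * lo b G * ramp c G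
          + lo a G * ramp b G * ramp c G - ramp a G * lo b G * lo c G
          - lo a G * ramp b G * lo c G - lo a G * lo b G * ramp c G + lo a G * lo b G * lo c G)
      - lo a G * lo b G * lo c G * (P * D C)
      + C * (ramp a (G * P) * lo b G * lo c G + lo a G * ramp b (G * P) * lo c G
          + lo a G * lo b G * ramp c (G * P))
    = Rser G (G * P) (C * G) a b c + (D W - ((a : R⟦X⟧) + b + c - 1) * W)
      + (-(P * (A' * B' * K + A' * B * K' + A * B' * K' - A' * B * K - A * B' * K - A * B * K'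
            + A * B * K)) + A * B * K * (P * D C)
        + C * ((D ε - a * ε + ramp a ε) * (B * K) + (D ε - b * ε + ramp b ε) * (K * A)
            + (D ε - c * ε + ramp c ε) * (A * B))) := by
  intro A B K A' B' K' ε W
  have hW : D W = -((D P * C + P * D C) * (G ^ 3 - G ^ 2 * (A + B + K) + G * (A * B + B * K + K * A))
      + P * C * (3 * G ^ 2 * D G - (2 * G * D G * (A + B + K) + G ^ 2 * (D A + D B + D K))
        + (D G * (A * B + B * K + K * A)
          + G * (D A * B + A * D B + D B * K + B * D K + D K * A + K * D A)))) := by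
    simp only [W, D_neg, D_mul, D_sub, D_add, pow_succ, pow_zero, one_mul]
    ring
  have hε : D ε = D G * P + G * D P := by simp only [ε, D_mul]
  rw [hW]
  simp only [Rser]
  change _ = _
  simp only [ramp_eq a G, ramp_eq b G, ramp_eq c G]
  simp only [lo_eq a G, lo_eq b G, lo_eq c G, D_sub]
  have hε' : D (G * P) = D G * P + G * D P := D_mul _ _
  simp only [hε', hG, hε, A', B', K', W]
  have e1 : D (hi a G) = D A := rfl
  have e2 : D (hi b G) = D B := rfl
  have e3 : D (hi c G) = D K := rfl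
  simp only [e1, e2, e3]
  have e4 : hi a G = A := rfl
  have e5 : hi b G = B := rfl
  have e6 : hi c G = K := rfl
  simp only [e4, e5, e6, ε]
  generalize D A = dA
  generalize D B = dB
  generalize D K = dK
  generalize D P = dP
  generalize D C = dC
  generalize ramp a (G * P) = ra
  generalize ramp b (G * P) = rb
  generalize ramp c (G * P) = rc
  generalize A = A
  generalize B = B
  generalize K = K
  ring


lemma coeff_natCast_mul (n : ℕ) (f : R⟦X⟧) (m : ℕ) :
    coeff m ((n : R⟦X⟧) * f) = (n : R) * coeff m f := by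
  have : (n : R⟦X⟧) = PowerSeries.C (n : R) := by simp
  rw [this, coeff_C_mul]

/-- the key identity, on the level of coefficients. -/
lemma star_coeff (G P C : R⟦X⟧) (hG : D G = -(C * G)) (a b c N : ℕ) (hN : N + 1 = a + b + c) :
    coeff N (opS G (fun a' => opS G (fun b' => opS G (fun c' => Sser P C a' b' c') c) b) a)
      = coeff N (Rser G (G * P) (C * G) a b c) := by
  rw [opS3, star_aux G P C hG a b c]
  have hNc : (a : R⟦X⟧) + b + c - 1 = (N : R⟦X⟧) := by
    have : ((N : R⟦X⟧) + 1) = a + b + c := by exact_mod_cast congrArg (Nat.cast : ℕ → R⟦X⟧) hN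
    rw [← this]; ring
  rw [hNc]
  have key : ∀ (W Z : R⟦X⟧), X ^ (a + b + c) ∣ Z → coeff N (D W - (N : R⟦X⟧) * W) + coeff N Z = 0 := by
    intro W Z hZ
    rw [coeff_mul_of_dvd hZ (by omega), map_sub, coeff_D, coeff_natCast_mul]; ring
  rw [map_add, map_add, add_assoc, key, add_zero]
  have hA := dvd_hi a G
  have hB := dvd_hi b G
  have hK := dvd_hi c G
  have hA' : X ^ a ∣ ((a : R⟦X⟧) * hi a G - D (hi a G)) := dvd_sub (hA.mul_left _) (dvd_D hA)
  have hB' : X ^ b ∣ ((b : R⟦X⟧) * hi b G - D (hi b G)) := dvd_sub (hB.mul_left _) (dvd_D hB)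
  have hK' : X ^ c ∣ ((c : R⟦X⟧) * hi c G - D (hi c G)) := dvd_sub (hK.mul_left _) (dvd_D hK)
  have m3 : ∀ {u v w : R⟦X⟧}, X ^ a ∣ u → X ^ b ∣ v → X ^ c ∣ w → X ^ (a + b + c) ∣ u * v * w := by
    intro u v w hu hv hw
    rw [pow_add, pow_add]
    exact mul_dvd_mul (mul_dvd_mul hu hv) hw
  refine dvd_add (dvd_add ?_ ?_) ?_
  · rw [dvd_neg]
    refine Dvd.dvd.mul_left ?_ _
    refine dvd_add (dvd_sub (dvd_sub (dvd_sub (dvd_add (dvd_add ?_ ?_) ?_) ?_) ?_) ?_) ?_
    · exact m3 hA' hB' hK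
    · exact m3 hA' hB hK'
    · exact m3 hA hB' hK'
    · exact m3 hA' hB hK
    · exact m3 hA hB' hK
    · exact m3 hA hB hK'
    · exact m3 hA hB hK
  · exact (m3 hA hB hK).mul_right _
  · refine Dvd.dvd.mul_left ?_ _
    refine dvd_add (dvd_add ?_ ?_) ?_
    · have := m3 (dvd_upramp a (G * P)) hB hK
      rwa [mul_assoc] at this
    · have := m3 hA (dvd_upramp b (G * P)) hK
      have e : hi a G * (D (G * P) - (b : R⟦X⟧) * (G * P) + ramp b (G * P)) * hi c G
        = (D (G * P) - (b : R⟦X⟧) * (G * P) + ramp b (G * P)) * (hi c G * hi a G) := by ring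
      rwa [e] at this
    · have := m3 hA hB (dvd_upramp c (G * P))
      have e : hi a G * hi b G * (D (G * P) - (c : R⟦X⟧) * (G * P) + ramp c (G * P))
        = (D (G * P) - (c : R⟦X⟧) * (G * P) + ramp c (G * P)) * (hi a G * hi b G) := by ring
      rwa [e] at this

end Pool.Agent.helper42.Theta
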