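import Mathlib

/-!
# Definitions for the escape problem on the torus

`Tⁿ = (ℝ/ℤ)ⁿ` is treated through its universal cover: functions on `Tⁿ × (ℝ/ℤ)` are functions on
`(Fin n → ℝ) × ℝ` that are invariant under integer translations, curves in `Tⁿ` are curves in
`Fin n → ℝ`.
-/

noncomputable section

namespace Ton

/-- `f ∈ C²(Tⁿ × T)`: a `C²` function on `ℝⁿ × ℝ`, invariant under all integer translations. -/
def IsC2Torus {n : ℕ} (f : (Fin n → ℝ) × ℝ → ℝ) : Prop :=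
  ContDiff ℝ 2 f ∧
    ∀ (k : Fin n → ℤ) (l : ℤ) (x : Fin n → ℝ) (t : ℝ), f (x + (fun j => (k j : ℝ)), t + l) = f (x, t)

/-- `g` is `ε`-close to `f` in the `C²` topology: all derivatives of order `0`, `1`, `2` (in `x` and
`t` together) of the difference are smaller than `ε` everywhere. -/
def C2Close {n : ℕ} (ε : ℝ) (f g : (Fin n → ℝ) × ℝ → ℝ) : Prop :=
  ∀ i : ℕ, i ≤ 2 → ∀ p, ‖iteratedFDeriv ℝ i (fun q => g q - f q) p‖ < ε

/-- The Euler–Lagrange equation `d/dt (∂L/∂v (x, x', t)) = ∂L/∂x (x, x', t)` for a curve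
`x : ℝ → ℝⁿ` defined for all times and a time dependent Lagrangian `L (x, v, t)`. -/
def IsELOrbit {n : ℕ} (L : (Fin n → ℝ) → (Fin n → ℝ) → ℝ → ℝ) (x : ℝ → Fin n → ℝ) : Prop :=
  Differentiable ℝ x ∧
    ∀ t, HasDerivAt (fun s => fderiv ℝ (fun v => L (x s) v s) (deriv x s))
      (fderiv ℝ (fun q => L q (deriv x t) t) (x t)) t

/-- The Lagrangian `L(x,v,t) = ½ ⟨A v, v⟩ + f(x,t)`: kinetic energy of the flat metric `A` plus
`f`. -/
def Lag {n : ℕ} (A : Matrix (Fin n) (Fin n) ℝ) (f : (Fin n → ℝ) × ℝ → ℝ)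
    (x v : Fin n → ℝ) (t : ℝ) : ℝ :=
  (1/2) * (v ⬝ᵥ A.mulVec v) + f (x, t)

end Ton
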