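import Pool.Agent.helper42.TonMain

/-!
Density of Lagrangians with escaping orbits, and density of large growth.
-/

noncomputable section

namespace Ton

open Set Filter Topology Matrix
open scoped NNReal ContDiff

section force

variable {n : ℕ} (S : Finset (Option (Fin n) → ℤ)) (c : (Option (Fin n) → ℤ) → ℂ)

open Classical in
/-- modes that depend on `x` -/
def SS (S : Finset (Option (Fin n) → ℤ)) : Finset (Option (Fin n) → ℤ) :=
  S.filter fun κ => (fun i => κ (some i)) ≠ 0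

/-- index set of the symmetrized expansion -/
abbrev II (S : Finset (Option (Fin n) → ℤ)) := ↥(SS S) × Bool

/-- sign -/
def sg (b : Bool) : ℤ := if b then 1 else -1

/-- spatial frequencies -/
def kI (a : II S) (i : Fin n) : ℤ := sg a.2 * a.1.1 (some i)

/-- temporal frequencies -/
def k0I (a : II S) : ℤ := sg a.2 * a.1.1 none

/-- coefficients -/
def cI (a : II S) : ℂ := if a.2 then c a.1.1 / 2 else (starRingEnd ℂ) (c a.1.1) / 2

/-- involution -/
def sI (a : II S) : II S := (a.1, !a.2)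

lemma sI_inv : Function.Involutive (sI S) := by
  rintro ⟨a, b⟩
  simp [sI]

lemma kI_s (a : II S) : kI S (sI S a) = - kI S a := by
  obtain ⟨a, b⟩ := a
  funext i
  cases b <;> simp [kI, sI, sg]

lemma k0I_s (a : II S) : k0I S (sI S a) = - k0I S a := by
  obtain ⟨a, b⟩ := a
  cases b <;> simp [k0I, sI, sg]

lemma cI_s (a : II S) : cI S c (sI S a) = (starRingEnd ℂ) (cI S c a) := by
  obtain ⟨a, b⟩ := a
  cases b <;> simp [cI, sI, map_ofNat]

lemma kI_ne (a : II S) : kI S a ≠ 0 := by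
  classical
  obtain ⟨⟨κ, hκ⟩, b⟩ := a
  have h1 : (fun i => κ (some i)) ≠ 0 := by
    unfold SS at hκ
    exact (Finset.mem_filter.mp hκ).2
  intro h
  apply h1
  funext i
  have := congrFun h i
  cases b <;> simpa [kI, sg] using this

lemma force_eq (B : Matrix (Fin n) (Fin n) ℝ) (x : Fin n → ℝ) (t : ℝ) (j : Fin n) :
    (fF (kI S) (k0I S) (cI S c) B j (fun l => (x l : ℂ)) t).re
      = B.mulVec (fun l => fderiv ℝ (tp S c) (x, t) (Pi.single l 1, 0)) j := by
  classical
  -- right-hand side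
  have hR : B.mulVec (fun l => fderiv ℝ (tp S c) (x, t) (Pi.single l 1, 0)) j
      = (∑ κ ∈ S, c κ * (2 * Real.pi * Complex.I *
        ((B.mulVec (fun l => (κ (some l) : ℝ)) j : ℝ) : ℂ)) * Ek κ (x, t)).re := by
    have h1 : ∀ l, fderiv ℝ (tp S c) (x, t) (Pi.single l 1, 0)
        = (∑ κ ∈ S, c κ * (2 * Real.pi * Complex.I * ((κ (some l) : ℝ) : ℂ)) * Ek κ (x, t)).re := by
      intro l
      rw [tp_fderiv]
      congr 1
      refine Finset.sum_congr rfl fun κ _ => ?_
      have : ∑ i, (κ (some i) : ℝ) * (Pi.single l (1:ℝ) : Fin n → ℝ) i = (κ (some l) : ℝ) := by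
        simp [Pi.single_apply]
      rw [this]
    simp only [h1]
    have h2 : B.mulVec (fun l => (∑ κ ∈ S, c κ * (2 * Real.pi * Complex.I *
        ((κ (some l) : ℝ) : ℂ)) * Ek κ (x, t)).re) j
        = ∑ l, B j l * (∑ κ ∈ S, c κ * (2 * Real.pi * Complex.I *
        ((κ (some l) : ℝ) : ℂ)) * Ek κ (x, t)).re := rfl
    rw [h2]
    have h3 : ∀ l, B j l * (∑ κ ∈ S, c κ * (2 * Real.pi * Complex.I *
        ((κ (some l) : ℝ) : ℂ)) * Ek κ (x, t)).re
        = ((B j l : ℂ) * ∑ κ ∈ S, c κ * (2 * Real.pi * Complex.I *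
        ((κ (some l) : ℝ) : ℂ)) * Ek κ (x, t)).re := by
      intro l
      rw [Complex.re_ofReal_mul]
    simp only [h3]
    rw [← Complex.re_sum]
    congr 1
    simp only [Finset.mul_sum]
    rw [Finset.sum_comm]
    refine Finset.sum_congr rfl fun κ _ => ?_
    have h4 : B.mulVec (fun l => (κ (some l) : ℝ)) j = ∑ l, B j l * (κ (some l) : ℝ) := rfl
    rw [h4]
    push_cast
    rw [Finset.mul_sum, Finset.mul_sum, Finset.sum_mul]
    refine Finset.sum_congr rfl fun l _ => ?_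
    ring
  rw [hR]
  -- restrict to SS
  have hres : ∑ κ ∈ S, c κ * (2 * Real.pi * Complex.I *
        ((B.mulVec (fun l => (κ (some l) : ℝ)) j : ℝ) : ℂ)) * Ek κ (x, t)
      = ∑ κ ∈ SS S, c κ * (2 * Real.pi * Complex.I *
        ((B.mulVec (fun l => (κ (some l) : ℝ)) j : ℝ) : ℂ)) * Ek κ (x, t) := by
    unfold SS
    rw [Finset.sum_filter_of_ne]
    intro κ _ hne h0
    apply hne
    have h5 : (fun l => (κ (some l) : ℝ)) = 0 := by
      funext l
      have := congrFun h0 l
      simp only [Pi.zero_apply] at this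
      simp [this]
    rw [h5, Matrix.mulVec_zero]
    simp
  rw [hres, ← Finset.sum_coe_sort (SS S), Complex.re_sum]
  unfold fF
  rw [Fintype.sum_prod_type, Complex.re_sum]
  refine Finset.sum_congr rfl fun κ _ => ?_
  rw [Fintype.sum_bool]
  set φ : ℝ := ∑ i, (κ.1 (some i) : ℝ) * x i + (κ.1 none : ℝ) * t with hφ
  have hE : Ek κ.1 (x, t) = Complex.exp (2 * Real.pi * Complex.I * (φ : ℂ)) := rfl
  have ht : fc (kI S) (cI S c) B (κ, true) j * Complex.exp (2 * Real.pi * Complex.I *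
      (∑ l, (kI S (κ, true) l : ℂ) * (x l : ℂ) + (k0I S (κ, true) : ℂ) * t))
      = (1/2) * (c κ.1 * (2 * Real.pi * Complex.I *
        ((B.mulVec (fun l => (κ.1 (some l) : ℝ)) j : ℝ) : ℂ)) * Ek κ.1 (x, t)) := by
    rw [hE]
    unfold fc
    have e1 : (fun l => (kI S (κ, true) l : ℝ)) = fun l => (κ.1 (some l) : ℝ) := by
      funext l; simp [kI, sg]
    have e2 : cI S c (κ, true) = c κ.1 / 2 := by simp [cI]
    have e3 : (∑ l, (kI S (κ, true) l : ℂ) * (x l : ℂ) + (k0I S (κ, true) : ℂ) * t)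
        = ((φ : ℝ) : ℂ) := by
      rw [hφ]
      simp [kI, k0I, sg]
    rw [e1, e2, e3]
    ring
  have hf : fc (kI S) (cI S c) B (κ, false) j * Complex.exp (2 * Real.pi * Complex.I *
      (∑ l, (kI S (κ, false) l : ℂ) * (x l : ℂ) + (k0I S (κ, false) : ℂ) * t))
      = (starRingEnd ℂ) ((1/2) * (c κ.1 * (2 * Real.pi * Complex.I *
        ((B.mulVec (fun l => (κ.1 (some l) : ℝ)) j : ℝ) : ℂ)) * Ek κ.1 (x, t))) := by
    rw [hE]
    unfold fc
    have e1 : (fun l => (kI S (κ, false) l : ℝ)) = - fun l => (κ.1 (some l) : ℝ) := by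
      funext l; simp [kI, sg]
    have e2 : cI S c (κ, false) = (starRingEnd ℂ) (c κ.1) / 2 := by simp [cI]
    have e3 : (∑ l, (kI S (κ, false) l : ℂ) * (x l : ℂ) + (k0I S (κ, false) : ℂ) * t)
        = ((-φ : ℝ) : ℂ) := by
      rw [hφ]
      simp [kI, k0I, sg, Finset.sum_neg_distrib]
      ring
    rw [e1, e2, e3, Matrix.mulVec_neg]
    simp only [map_mul, map_div₀, map_one, map_ofNat, Complex.conj_ofReal, Complex.conj_I,
      ← Complex.exp_conj, Pi.neg_apply]
    have e4 : 2 * (Real.pi : ℂ) * Complex.I * ((-φ : ℝ) : ℂ)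
        = 2 * (Real.pi : ℂ) * -Complex.I * (φ : ℂ) := by
      push_cast; ring
    rw [e4]
    push_cast
    ring
  rw [ht, hf, Complex.add_re, Complex.conj_re]
  set T := c κ.1 * (2 * Real.pi * Complex.I *
        ((B.mulVec (fun l => (κ.1 (some l) : ℝ)) j : ℝ) : ℂ)) * Ek κ.1 (x, t)
  have : ((1/2 : ℂ) * T).re = (1/2) * T.re := by
    have h : (1/2 : ℂ) = ((1/2 : ℝ) : ℂ) := by push_cast; ring
    rw [h, Complex.re_ofReal_mul]
  rw [this]
  ring

end force

theorem escape_dense {n : ℕ} (hn : 4 ≤ n) {A : Matrix (Fin n) (Fin n) ℝ} (hA : A.PosDef)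
    {f : (Fin n → ℝ) × ℝ → ℝ} (hf : IsC2Torus f) {ε : ℝ} (hε : 0 < ε) :
    ∃ g, IsC2Torus g ∧ C2Close ε f g ∧
      ∃ x, IsELOrbit (Lag A g) x ∧ Tendsto (fun t => ‖deriv x t‖) atTop atTop := by
  classical
  have hsymm : A.IsSymm := by
    have := hA.isHermitian
    rwa [Matrix.IsHermitian, Matrix.conjTranspose_eq_transpose_of_trivial] at this
  have hdet : IsUnit A.det := isUnit_iff_ne_zero.mpr hA.det_pos.ne'
  obtain ⟨S, c, hSc⟩ := trig_approx (f := f) hf.2 hf.1 (half_pos hε)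
  -- the lattice direction
  set 𝒦 : Finset (Fin n → ℤ) := Finset.univ.image (kI S) ∪
    ((Finset.univ.image fun ab : II S × II S => kI S ab.1 + kI S ab.2).filter fun K => K ≠ 0)
    with h𝒦
  obtain ⟨R, hR⟩ := exists_R 𝒦 (by
    intro K hK
    rw [h𝒦, Finset.mem_union] at hK
    rcases hK with hK | hK
    · obtain ⟨a, -, rfl⟩ := Finset.mem_image.mp hK
      exact kI_ne S a
    · exact (Finset.mem_filter.mp hK).2)
  set M : II S → ℝ := fun a => ∑ l, |(kI S a l : ℝ)| + |(k0I S a : ℝ)| with hM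
  have hM0 : ∀ a, 0 ≤ M a := fun a => by positivity
  set C : ℝ := 2 * ∑ a, M a with hC
  have hMC : ∀ a, M a ≤ ∑ a, M a := fun a =>
    Finset.single_le_sum (f := M) (fun a _ => hM0 a) (Finset.mem_univ a)
  have hC0 : 0 ≤ ∑ a, M a := Finset.sum_nonneg fun a _ => hM0 a
  set Λ : ℝ := C + 1 with hΛ
  have hΛ0 : 0 < Λ := by positivity
  set y : ℝ → Fin n → ℝ := yy hn R Λ with hy
  have hyd : ∀ j, Differentiable ℝ (fun s => y s j) := fun j t =>
    (yy_hasDerivAt hn R Λ j t).differentiableAt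
  have hyT : ∀ j, TA (-1) (-(1/4)) (deriv (fun s => y s j)) := fun j => yy_TA hn R Λ j
  have hn2 : ∀ r : ℝ, |r| ≤ ‖(2 * Real.pi * Complex.I * (r : ℂ) : ℂ)‖ := by
    intro r
    rw [norm_mul, norm_mul, norm_mul, Complex.norm_I, Complex.norm_real, Complex.norm_real,
      mul_one, Real.norm_of_nonneg Real.pi_pos.le, Complex.norm_ofNat, Real.norm_eq_abs]
    have := Real.pi_gt_three
    nlinarith [abs_nonneg r]
  have hlow1 : ∀ a, ∃ c0 : ℝ, 0 < c0 ∧ ∀ t, c0 * jb t ^ (1/4 : ℝ) ≤ ‖fW (kI S) (k0I S) y a t‖ := by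
    intro a
    refine ⟨1, one_pos, fun t => ?_⟩
    rw [one_mul]
    refine le_trans ?_ (hn2 _)
    refine yy_freq_low hn R (C := C) le_rfl (kI S a) (k0I S a) ?_ ?_ t
    · exact hR _ (by rw [h𝒦]; exact Finset.mem_union_left _ (Finset.mem_image_of_mem _ (Finset.mem_univ a)))
    · have := hMC a
      simp only [hM] at this hC ⊢
      rw [hC]
      linarith
  have hlow2 : ∀ a b, kI S a + kI S b ≠ 0 → ∃ c0 : ℝ, 0 < c0 ∧ ∀ t, c0 * jb t ^ (1/4 : ℝ) ≤
      ‖fW (kI S) (k0I S) y a t + fW (kI S) (k0I S) y b t‖ := by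
    intro a b hab
    refine ⟨1, one_pos, fun t => ?_⟩
    rw [one_mul]
    have e : fW (kI S) (k0I S) y a t + fW (kI S) (k0I S) y b t
        = 2 * Real.pi * Complex.I * ((∑ l, ((kI S a + kI S b) l : ℝ) * deriv (fun s => y s l) t
          + ((k0I S a + k0I S b : ℤ) : ℝ) : ℝ) : ℂ) := by
      unfold fW
      simp only [Pi.add_apply, Int.cast_add, add_mul, Finset.sum_add_distrib]
      push_cast
      ring
    rw [e]
    refine le_trans ?_ (hn2 _)
    refine yy_freq_low hn R (C := C) le_rfl (kI S a + kI S b) (k0I S a + k0I S b) ?_ ?_ t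
    · refine hR _ ?_
      rw [h𝒦]
      refine Finset.mem_union_right _ (Finset.mem_filter.mpr ⟨?_, hab⟩)
      exact Finset.mem_image.mpr ⟨(a, b), Finset.mem_univ _, rfl⟩
    · have h1 := hMC a
      have h2 := hMC b
      have h3 : ∑ l, |((kI S a + kI S b) l : ℝ)| ≤ ∑ l, |(kI S a l : ℝ)| + ∑ l, |(kI S b l : ℝ)| := by
        rw [← Finset.sum_add_distrib]
        refine Finset.sum_le_sum fun l _ => ?_
        rw [Pi.add_apply, Int.cast_add]
        exact abs_add_le _ _
      have h4 : |((k0I S a + k0I S b : ℤ) : ℝ)| ≤ |(k0I S a : ℝ)| + |(k0I S b : ℝ)| := by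
        rw [Int.cast_add]
        exact abs_add_le _ _
      simp only [hM] at h1 h2 hC
      rw [hC]
      linarith
  obtain ⟨X, u, hXy, hu, hXd, hXode⟩ := exists_path (B := A⁻¹) (y := y) (sI_inv S) (kI_s S)
    (k0I_s S) (cI_s S c) hyd hyT hlow1 hlow2
  -- the data of the bump
  set w : Fin n → ℝ → ℝ := fun j t => ∑ l, A j l * u t l with hw
  have hwT : ∀ j, TA (1/4) (3/4) (w j) := fun j =>
    TA.sum _ fun l _ => TA.const_mul _ (hu l)
  set e : Fin 3 → ℝ → ℝ := fun i t => (X t (idx hn i) - y t (idx hn i))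
    - (R : ℝ) ^ ((i : ℕ) + 1) * (X t (ix0 hn) - y t (ix0 hn)) with he
  have heT : ∀ i, TA (1/4) (1/2) (e i) := fun i => (hXy _).sub (TA.const_mul _ (hXy _))
  set Z : Fin 3 → ℝ → ℝ := fun i t => zt hn R i (fun j => X t j) with hZ
  have hZe : ∀ i t, Z i t = YY (av i) t + e i t := by
    intro i t
    simp only [hZ, he]
    rw [← zt_yy hn R Λ i t, zt_apply, zt_apply]
    ring
  have hZf : ∀ i, Z i = fun t => YY (av i) t + e i t := fun i => funext fun t => hZe i t
  have hZd : ∀ i, Differentiable ℝ (Z i) := by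
    intro i
    rw [hZf i]
    have h1 : Differentiable ℝ (YY (av i)) := fun t => (YY_hasDerivAt (av i) t).differentiableAt
    exact h1.add (heT i).diff
  have hZ' : ∀ i, TA (7/20) 0 (deriv (Z i)) := by
    intro i
    have h1 : deriv (Z i) = fun t => jb t ^ (-(av i)) + deriv (e i) t := by
      funext t
      rw [hZf i]
      exact ((YY_hasDerivAt (av i) t).add ((heT i).diff t).hasDerivAt).deriv
    rw [h1]
    refine TA.add ?_ ?_
    · exact (TA_jb_rpow (-(av i))).mono (by norm_num) (by have := av_nonneg i; linarith)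
    · exact (heT i).deriv.mono (by norm_num) (by norm_num)
  have hX' : ∀ j, TA (1/4) (-(1/4)) (deriv (fun t => X t j)) := by
    intro j
    have h1 : deriv (fun t => X t j) = fun t => deriv (fun s => y s j) t
        + deriv (fun t => X t j - y t j) t := by
      funext t
      have h2 := ((hyd j) t).hasDerivAt.add ((hXy j).diff t).hasDerivAt
      have h3 : (fun s => y s j) + (fun t => X t j - y t j) = fun t => X t j := by
        funext t; simp
      rw [h3] at h2
      exact h2.deriv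
    rw [h1]
    refine TA.add ((hyT j).mono (by norm_num) le_rfl) ((hXy j).deriv.mono le_rfl (by norm_num))
  obtain ⟨s₀, hs₀, hsep⟩ := sep hZe (fun i => (heT i).bd)
  obtain ⟨g₀, hg₀c, hg₀p, hg₀b, T, hT⟩ := bump_exists (w := w) (X := fun j t => X t j)
    (ζ := zt hn R) (Z := Z) (zt_int hn R) hwT hXd hX' hZd hZ' (fun i t => rfl) hs₀ hsep (half_pos hε)
  -- the perturbed function
  set g : (Fin n → ℝ) × ℝ → ℝ := fun p => tp S c p + g₀ p with hg
  have htpc : ContDiff ℝ 2 (tp S c) := contDiff_infty.mp (tp_contDiff S c) 2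
  have hgT : IsC2Torus g := by
    refine ⟨htpc.add hg₀c, fun k l x t => ?_⟩
    simp only [hg]
    rw [tp_per S c k l x t, hg₀p k l x t]
  have hgd : Differentiable ℝ g := hgT.1.differentiable (by norm_num)
  refine ⟨g, hgT, ?_, ?_⟩
  · intro i hi p
    have e1 : (fun q => g q - f q) = fun q => (tp S c q - f q) + g₀ q := by
      funext q; simp only [hg]; ring
    rw [e1]
    have e2 : iteratedFDeriv ℝ i (fun q => (tp S c q - f q) + g₀ q) p
        = iteratedFDeriv ℝ i (fun q => tp S c q - f q) p + iteratedFDeriv ℝ i g₀ p := by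
      refine iteratedFDeriv_add_apply ?_ ?_
      · exact ((htpc.sub hf.1).of_le (by exact_mod_cast hi)).contDiffAt
      · exact (hg₀c.of_le (by exact_mod_cast hi)).contDiffAt
    rw [e2]
    calc _ ≤ ‖iteratedFDeriv ℝ i (fun q => tp S c q - f q) p‖ + ‖iteratedFDeriv ℝ i g₀ p‖ :=
          norm_add_le _ _
      _ < ε / 2 + ε / 2 := add_lt_add (hSc i hi p) (hg₀b i hi p)
      _ = ε := by ring
  · -- the orbit
    set V : ℝ → Fin n → ℝ := fun t j => deriv (fun s => X s j) t with hV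
    have hXV : ∀ t, HasDerivAt X (V t) t := fun t => hasDerivAt_pi.mpr fun j => (hXd j t).hasDerivAt
    have hNF : ∀ t, T ≤ t → HasDerivAt V (ell A⁻¹ (fderiv ℝ g (X t, t))) t := by
      intro t ht
      refine hasDerivAt_pi.mpr fun j => ?_
      have h1 := hXode j t
      have h2 : (fF (kI S) (k0I S) (cI S c) A⁻¹ j (fun l => (X t l : ℂ)) t).re + u t j
          = ell A⁻¹ (fderiv ℝ g (X t, t)) j := by
        rw [force_eq, ell_apply]
        have h3 : (fun l => fderiv ℝ g (X t, t) (Pi.single l 1, 0))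
            = (fun l => fderiv ℝ (tp S c) (X t, t) (Pi.single l 1, 0)) + A.mulVec (u t) := by
          funext l
          have h4 : fderiv ℝ g (X t, t) = fderiv ℝ (tp S c) (X t, t) + fderiv ℝ g₀ (X t, t) :=
            fderiv_add (htpc.differentiable (by norm_num) _) (hg₀c.differentiable (by norm_num) _)
          rw [h4, ContinuousLinearMap.add_apply, Pi.add_apply]
          congr 1
          have h5 := hT t ht (Pi.single l 1)
          have h6 : (fun j => X t j, t) = (X t, t) := rfl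
          rw [h6] at h5
          rw [h5]
          simp only [Pi.single_apply, mul_ite, mul_one, mul_zero, Finset.sum_ite_eq',
            Finset.mem_univ, if_true, hw]
          rfl
        rw [h3, Matrix.mulVec_add, Matrix.mulVec_mulVec, Matrix.nonsing_inv_mul _ hdet,
          Matrix.one_mulVec]
        rfl
      rw [← h2]
      exact h1
    obtain ⟨z, hz0, hz⟩ := NF_global A⁻¹ hgT T (X T, V T)
    obtain ⟨K, hK⟩ := NF_lipschitz A⁻¹ hgT
    obtain ⟨hel, hder⟩ := ode_to_el hsymm hdet hgd hz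
    refine ⟨fun t => (z t).1, hel, ?_⟩
    have hagree : ∀ t, T ≤ t → z t = (X t, V t) := by
      intro t ht
      have hXc : Continuous X := continuous_iff_continuousAt.mpr fun t => (hXV t).continuousAt
      have hVc : Continuous V := by
        refine continuous_pi fun j => ?_
        exact (hX' j).diff.continuous
      have hzc : Continuous z := continuous_iff_continuousAt.mpr fun t => (hz t).continuousAt
      exact ODE_solution_unique (v := NF A⁻¹ g) (K := K) hK hzc.continuousOn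
        (fun s _ => (hz s).hasDerivWithinAt) (hXc.prodMk hVc).continuousOn
        (fun s hs => ((hXV s).prodMk (hNF s hs.1)).hasDerivWithinAt) hz0 ⟨ht, le_rfl⟩
    -- growth
    obtain ⟨D, hD⟩ := (hXy (ix0 hn)).deriv.bd
    have hgrow : ∀ t, T ≤ t → Λ * |t| ^ (1/4 : ℝ) - |D| ≤ ‖deriv (fun t => (z t).1) t‖ := by
      intro t ht
      rw [hder, hagree t ht]
      refine le_trans ?_ (norm_le_pi_norm (V t) (ix0 hn))
      have h1 : V t (ix0 hn) = deriv (fun s => y s (ix0 hn)) t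
          + deriv (fun t => X t (ix0 hn) - y t (ix0 hn)) t := by
        have h2 := ((hyd (ix0 hn)) t).hasDerivAt.add ((hXy (ix0 hn)).diff t).hasDerivAt
        have h3 : (fun s => y s (ix0 hn)) + (fun t => X t (ix0 hn) - y t (ix0 hn))
            = fun t => X t (ix0 hn) := by
          funext t; simp
        rw [h3] at h2
        exact h2.deriv
      have h4 : deriv (fun s => y s (ix0 hn)) t = Λ * jb t ^ (1/4 : ℝ) := by
        rw [hy, yy_deriv]
        beta_reduce
        have e2 : ∑ i' : Fin 3, (if ix0 hn = idx hn i' then (1:ℝ) else 0) * jb t ^ (-(av i')) = 0 := by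
          refine Finset.sum_eq_zero fun j _ => ?_
          simp [ix0_ne hn j]
        rw [e2]
        have e4 : ((ix0 hn : Fin n) : ℕ) = 0 := rfl
        rw [e4]
        ring
      have h5 : |deriv (fun t => X t (ix0 hn) - y t (ix0 hn)) t| ≤ |D| := by
        refine (hD t).trans ?_
        have h6 : jb t ^ (-((1:ℝ)/2 - 1/4)) ≤ 1 :=
          Real.rpow_le_one_of_one_le_of_nonpos (one_le_jb t) (by norm_num)
        calc D * jb t ^ (-((1:ℝ)/2 - 1/4)) ≤ |D| * jb t ^ (-((1:ℝ)/2 - 1/4)) :=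
              mul_le_mul_of_nonneg_right (le_abs_self _) (jb_rpow_pos _ _).le
          _ ≤ |D| * 1 := mul_le_mul_of_nonneg_left h6 (abs_nonneg _)
          _ = |D| := mul_one _
      rw [h1, h4, Real.norm_eq_abs]
      have h7 : |t| ^ (1/4 : ℝ) ≤ jb t ^ (1/4 : ℝ) :=
        Real.rpow_le_rpow (abs_nonneg t) (abs_le_jb t) (by norm_num)
      have h8 : Λ * |t| ^ (1/4 : ℝ) ≤ Λ * jb t ^ (1/4 : ℝ) := mul_le_mul_of_nonneg_left h7 hΛ0.le
      have h9 := le_abs_self (Λ * jb t ^ (1/4 : ℝ) + deriv (fun t => X t (ix0 hn) - y t (ix0 hn)) t)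
      have h10 := neg_le_of_abs_le h5
      linarith
    have hlim : Tendsto (fun t : ℝ => Λ * |t| ^ (1/4 : ℝ) - |D|) atTop atTop := by
      refine tendsto_atTop_add_const_right _ _ (Tendsto.const_mul_atTop hΛ0 ?_)
      exact (tendsto_rpow_atTop (by norm_num)).comp tendsto_abs_atTop_atTop
    refine tendsto_atTop_mono' atTop ?_ hlim
    filter_upwards [eventually_ge_atTop T] with t ht using hgrow t ht

/-- There is an orbit that starts with speed larger than `N` at some time and later has speed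
larger than `Ψ` of the starting speed. -/
def Grows {n : ℕ} (L : (Fin n → ℝ) → (Fin n → ℝ) → ℝ → ℝ) (Ψ : ℝ → ℝ) (N : ℝ) : Prop :=
  ∃ x, IsELOrbit L x ∧ ∃ t₀ t₁ : ℝ, t₀ < t₁ ∧ N < ‖deriv x t₀‖ ∧ Ψ ‖deriv x t₀‖ < ‖deriv x t₁‖

theorem grows_dense {n : ℕ} (hn : 4 ≤ n) {A : Matrix (Fin n) (Fin n) ℝ} (hA : A.PosDef)
    (Ψ : ℝ → ℝ) (N : ℝ) {f : (Fin n → ℝ) × ℝ → ℝ} (hf : IsC2Torus f) {ε : ℝ} (hε : 0 < ε) :
    ∃ g, IsC2Torus g ∧ C2Close ε f g ∧ Grows (Lag A g) Ψ N := by
  obtain ⟨g, hg, hgf, x, hx, hlim⟩ := escape_dense hn hA hf hε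
  refine ⟨g, hg, hgf, x, hx, ?_⟩
  obtain ⟨t₀, ht₀⟩ := (hlim.eventually_gt_atTop N).exists
  obtain ⟨t₁, ht₁, ht₁'⟩ := ((hlim.eventually_gt_atTop (Ψ ‖deriv x t₀‖)).and
    (eventually_gt_atTop t₀)).exists
  exact ⟨t₀, t₁, ht₁', ht₀, ht₁⟩

theorem grows_open {n : ℕ} {A : Matrix (Fin n) (Fin n) ℝ} (hA : A.PosDef)
    (Ψ : ℝ → ℝ) (N : ℝ) {f : (Fin n → ℝ) × ℝ → ℝ} (hf : IsC2Torus f) (h : Grows (Lag A f) Ψ N) :
    ∃ δ > 0, ∀ g, IsC2Torus g → C2Close δ f g → Grows (Lag A g) Ψ N := by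
  have hsymm : A.IsSymm := by
    have := hA.isHermitian
    rwa [Matrix.IsHermitian, Matrix.conjTranspose_eq_transpose_of_trivial] at this
  have hdet : IsUnit A.det := isUnit_iff_ne_zero.mpr hA.det_pos.ne'
  obtain ⟨x, hx, t₀, t₁, ht, hN, hΨ⟩ := h
  obtain ⟨δ, hδ, hopen⟩ := openness hsymm hdet hf hx ht.le (sub_pos.mpr hΨ)
  refine ⟨δ, hδ, fun g hg hgf => ?_⟩
  obtain ⟨y, hy, -, hy1, hy2⟩ := hopen g hg hgf
  refine ⟨y, hy, t₀, t₁, ht, by rw [hy1]; exact hN, ?_⟩
  rw [hy1]
  have h1 : ‖deriv x t₁‖ - ‖deriv y t₁‖ ≤ ‖deriv y t₁ - deriv x t₁‖ := by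
    rw [norm_sub_rev]
    exact norm_sub_norm_le _ _
  linarith

end Ton
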