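import Pool.Agent.helper42.TonT

/-!
Symbol classes of functions on `V × ℝ`.
-/

noncomputable section

namespace Ton

open Real Filter Topology ContDiff

/-- all derivatives bounded -/
def BdD {V F : Type*} [NormedAddCommGroup V] [NormedSpace ℝ V] [NormedAddCommGroup F]
    [NormedSpace ℝ F] (g : V → F) : Prop :=
  ContDiff ℝ ∞ g ∧ ∀ i : ℕ, ∃ C : ℝ, 0 ≤ C ∧ ∀ z, ‖iteratedFDeriv ℝ i g z‖ ≤ C

lemma sincos_bound (n : ℕ) : (∀ x, |iteratedDeriv n Real.sin x| ≤ 1) ∧
    (∀ x, |iteratedDeriv n Real.cos x| ≤ 1) := by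
  induction n with
  | zero =>
    constructor
    · intro x; rw [iteratedDeriv_zero]; exact Real.abs_sin_le_one x
    · intro x; rw [iteratedDeriv_zero]; exact Real.abs_cos_le_one x
  | succ n ih =>
    constructor
    · intro x
      rw [Real.iteratedDeriv_add_one_sin]
      exact ih.2 x
    · intro x
      rw [Real.iteratedDeriv_add_one_cos, Pi.neg_apply, abs_neg]
      exact ih.1 x

lemma BdD_sin : BdD Real.sin := by
  refine ⟨Real.contDiff_sin, fun i => ⟨1, zero_le_one, fun z => ?_⟩⟩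
  rw [norm_iteratedFDeriv_eq_norm_iteratedDeriv]
  exact (sincos_bound i).1 z

lemma BdD_cos : BdD Real.cos := by
  refine ⟨Real.contDiff_cos, fun i => ⟨1, zero_le_one, fun z => ?_⟩⟩
  rw [norm_iteratedFDeriv_eq_norm_iteratedDeriv]
  exact (sincos_bound i).2 z

/-- smooth functions that are locally constant outside a compact set have bounded derivatives -/
lemma BdD_of_const {g : ℝ → ℝ} (hg : ContDiff ℝ ∞ g) (a b : ℝ) (h0 : ∀ t, t < a → g t = g (a - 1))
    (h1 : ∀ t, b < t → g t = g (b + 1)) : BdD g := by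
  refine ⟨hg, fun i => ?_⟩
  have hc : Continuous (iteratedFDeriv ℝ i g) := hg.continuous_iteratedFDeriv (by exact_mod_cast le_top)
  obtain ⟨C, hC⟩ := (isCompact_Icc (a := a) (b := b)).exists_bound_of_continuousOn hc.continuousOn
  set K := max (max C 0) (max |g (a - 1)| |g (b + 1)|) with hK
  have hconst : ∀ c : ℝ, ∀ z, ‖iteratedFDeriv ℝ i (fun _ : ℝ => c) z‖ ≤ |c| := by
    intro c z
    rcases Nat.eq_zero_or_pos i with h | h
    · subst h
      rw [norm_iteratedFDeriv_zero]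
      rfl
    · rw [iteratedFDeriv_const_of_ne h.ne']
      simp
  refine ⟨K, (le_max_right _ _).trans (le_max_left _ _), fun z => ?_⟩
  by_cases hz : z ∈ Set.Icc a b
  · exact (hC z hz).trans ((le_max_left _ _).trans (le_max_left _ _))
  · rw [Set.mem_Icc, not_and_or, not_le, not_le] at hz
    rcases hz with hz | hz
    · have : g =ᶠ[𝓝 z] fun _ => g (a - 1) := by
        filter_upwards [Iio_mem_nhds hz] with t ht using h0 t ht
      rw [this.iteratedFDeriv ℝ i |>.eq_of_nhds]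
      exact (hconst _ z).trans ((le_max_left _ _).trans (le_max_right _ _))
    · have : g =ᶠ[𝓝 z] fun _ => g (b + 1) := by
        filter_upwards [Ioi_mem_nhds hz] with t ht using h1 t ht
      rw [this.iteratedFDeriv ℝ i |>.eq_of_nhds]
      exact (hconst _ z).trans ((le_max_right _ _).trans (le_max_right _ _))

section

variable {V : Type*} [NormedAddCommGroup V] [NormedSpace ℝ V]
variable {F : Type*} [NormedAddCommGroup F] [NormedSpace ℝ F]

/-- symbol class on `V × ℝ` -/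
def GC (β c : ℝ) (f : V × ℝ → F) : Prop :=
  ContDiff ℝ ∞ f ∧ ∀ i : ℕ, ∃ C : ℝ, 0 ≤ C ∧ ∀ p : V × ℝ,
    ‖iteratedFDeriv ℝ i f p‖ ≤ C * jb p.2 ^ (-c + β * i)

lemma GC.mono {β c c' : ℝ} {f : V × ℝ → F} (h : GC β c f) (hc : c' ≤ c) : GC β c' f := by
  refine ⟨h.1, fun i => ?_⟩
  obtain ⟨C, hC0, hC⟩ := h.2 i
  refine ⟨C, hC0, fun p => (hC p).trans ?_⟩
  exact mul_le_mul_of_nonneg_left (jb_rpow_le (by linarith) _) hC0

lemma GC.add {β c : ℝ} {f g : V × ℝ → F} (hf : GC β c f) (hg : GC β c g) :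
    GC β c (fun p => f p + g p) := by
  refine ⟨hf.1.add hg.1, fun i => ?_⟩
  obtain ⟨C, hC0, hC⟩ := hf.2 i
  obtain ⟨D, hD0, hD⟩ := hg.2 i
  refine ⟨C + D, by positivity, fun p => ?_⟩
  have e : iteratedFDeriv ℝ i (fun p => f p + g p) p
      = iteratedFDeriv ℝ i f p + iteratedFDeriv ℝ i g p :=
    iteratedFDeriv_add_apply ((hf.1.of_le (by exact_mod_cast le_top)).contDiffAt)
      ((hg.1.of_le (by exact_mod_cast le_top)).contDiffAt)
  rw [e, add_mul]
  exact (norm_add_le _ _).trans (add_le_add (hC p) (hD p))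

lemma GC.clm {G : Type*} [NormedAddCommGroup G] [NormedSpace ℝ G] {β c : ℝ} {f : V × ℝ → F}
    (hf : GC β c f) (A : F →L[ℝ] G) : GC β c (fun p => A (f p)) := by
  refine ⟨A.contDiff.comp hf.1, fun i => ?_⟩
  obtain ⟨C, hC0, hC⟩ := hf.2 i
  refine ⟨‖A‖ * C, by positivity, fun p => ?_⟩
  have := A.norm_iteratedFDeriv_comp_left (x := p) (n := i) (N := ∞) hf.1.contDiffAt
    (by exact_mod_cast le_top)
  refine this.trans ?_
  rw [mul_assoc]
  exact mul_le_mul_of_nonneg_left (hC p) (norm_nonneg _)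

lemma GC.smulc {β c : ℝ} {f : V × ℝ → ℝ} (hf : GC β c f) (v : F) :
    GC β c (fun p => f p • v) := by
  have := hf.clm (ContinuousLinearMap.toSpanSingleton ℝ v)
  simpa [ContinuousLinearMap.toSpanSingleton_apply] using this

lemma GC.neg {β c : ℝ} {f : V × ℝ → F} (hf : GC β c f) : GC β c (fun p => - f p) := by
  have := hf.clm (-(ContinuousLinearMap.id ℝ F))
  simpa using this

lemma GC.sub {β c : ℝ} {f g : V × ℝ → F} (hf : GC β c f) (hg : GC β c g) :
    GC β c (fun p => f p - g p) := by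
  simpa [sub_eq_add_neg] using hf.add hg.neg

lemma GC.mul {β c d : ℝ} {f g : V × ℝ → ℝ} (hf : GC β c f) (hg : GC β d g) :
    GC β (c + d) (fun p => f p * g p) := by
  refine ⟨hf.1.mul hg.1, fun i => ?_⟩
  choose C hC0 hC using hf.2
  choose D hD0 hD using hg.2
  refine ⟨∑ l ∈ Finset.range (i + 1), (i.choose l : ℝ) * C l * D (i - l), ?_, fun p => ?_⟩
  · exact Finset.sum_nonneg fun l _ => mul_nonneg (mul_nonneg (Nat.cast_nonneg _) (hC0 _)) (hD0 _)
  · refine (norm_iteratedFDeriv_mul_le (N := ∞) hf.1 hg.1 p (by exact_mod_cast le_top)).trans ?_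
    rw [Finset.sum_mul]
    refine Finset.sum_le_sum fun l hl => ?_
    have hl' : l ≤ i := Nat.lt_succ_iff.mp (Finset.mem_range.mp hl)
    have e : jb p.2 ^ (-(c + d) + β * i)
        = jb p.2 ^ (-c + β * l) * jb p.2 ^ (-d + β * ((i - l : ℕ) : ℝ)) := by
      rw [jb_rpow_add]
      congr 1
      rw [Nat.cast_sub hl']
      ring
    rw [e]
    have e2 : (i.choose l : ℝ) * C l * D (i - l) *
        (jb p.2 ^ (-c + β * l) * jb p.2 ^ (-d + β * ((i - l : ℕ) : ℝ)))
        = ((i.choose l : ℝ) * (C l * jb p.2 ^ (-c + β * l))) *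
          (D (i - l) * jb p.2 ^ (-d + β * ((i - l : ℕ) : ℝ))) := by ring
    rw [e2]
    refine mul_le_mul ?_ (hD _ p) (norm_nonneg _) ?_
    · exact mul_le_mul_of_nonneg_left (hC l p) (Nat.cast_nonneg _)
    · exact mul_nonneg (Nat.cast_nonneg _) (mul_nonneg (hC0 _) (jb_rpow_pos _ _).le)

lemma GC.const (β : ℝ) (a : F) (hβ : 0 ≤ β) : GC β 0 (fun _ : V × ℝ => a) := by
  refine ⟨contDiff_const, fun i => ⟨‖a‖, norm_nonneg _, fun p => ?_⟩⟩
  have h1 : ‖iteratedFDeriv ℝ i (fun _ : V × ℝ => a) p‖ ≤ ‖a‖ := by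
    rcases Nat.eq_zero_or_pos i with h | h
    · subst h
      rw [norm_iteratedFDeriv_zero]
    · rw [iteratedFDeriv_const_of_ne h.ne']
      simp
  refine h1.trans ?_
  have : 1 ≤ jb p.2 ^ (-0 + β * (i:ℝ)) := one_le_jb_rpow (by positivity) _
  nlinarith [norm_nonneg a]

lemma GC.sum {β c : ℝ} (hβ : 0 ≤ β) {ι : Type*} (s : Finset ι) {f : ι → V × ℝ → F}
    (hf : ∀ i ∈ s, GC β c (f i)) : GC β c (fun p => ∑ i ∈ s, f i p) := by
  classical
  induction s using Finset.induction_on with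
  | empty =>
    have h := (GC.const (V := V) β (0 : F) hβ)
    have : GC β c (fun _ : V × ℝ => (0 : F)) := by
      refine ⟨contDiff_const, fun i => ⟨0, le_rfl, fun p => ?_⟩⟩
      rw [iteratedFDeriv_fun_zero]
      simp
    simpa using this
  | insert i s his ih =>
    have := (hf i (Finset.mem_insert_self _ _)).add
      (ih (fun j hj => hf j (Finset.mem_insert_of_mem hj)))
    simpa [Finset.sum_insert his] using this

lemma GC.prod {β : ℝ} (hβ : 0 ≤ β) {ι : Type*} (s : Finset ι) {f : ι → V × ℝ → ℝ}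
    (hf : ∀ i ∈ s, GC β 0 (f i)) : GC β 0 (fun p => ∏ i ∈ s, f i p) := by
  classical
  induction s using Finset.induction_on with
  | empty => simpa using (GC.const (V := V) β (1 : ℝ) hβ)
  | insert i s his ih =>
    have := (hf i (Finset.mem_insert_self _ _)).mul
      (ih (fun j hj => hf j (Finset.mem_insert_of_mem hj)))
    simpa [Finset.prod_insert his] using this

end

section time

variable {V : Type*} [NormedAddCommGroup V] [NormedSpace ℝ V]

lemma TA.contDiff {σ c : ℝ} {φ : ℝ → ℝ} (h : TA σ c φ) : ContDiff ℝ ∞ φ := by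
  rw [contDiff_infty]
  intro n
  induction n generalizing c φ with
  | zero =>
    have := h.diff.continuous
    exact_mod_cast contDiff_zero.mpr this
  | succ n ih =>
    have h1 : ((n + 1 : ℕ) : WithTop ℕ∞) = (n : WithTop ℕ∞) + 1 := by push_cast; rfl
    rw [h1, contDiff_succ_iff_deriv]
    refine ⟨h.diff, ?_, ih h.deriv⟩
    intro hn
    exact absurd hn (by exact_mod_cast WithTop.coe_ne_top)

lemma time_bound {σ : ℝ} (i : ℕ) : ∀ {c : ℝ} {φ : ℝ → ℝ}, TA σ c φ → ∃ C : ℝ, 0 ≤ C ∧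
    ∀ p : V × ℝ, ‖iteratedFDeriv ℝ i (fun p : V × ℝ => φ p.2) p‖ ≤ C * jb p.2 ^ (-c + σ * i) := by
  induction i with
  | zero =>
    intro c φ h
    obtain ⟨C, hC⟩ := h.bd
    refine ⟨max C 0, le_max_right _ _, fun p => ?_⟩
    rw [norm_iteratedFDeriv_zero, Nat.cast_zero, mul_zero, add_zero]
    exact (hC p.2).trans (mul_le_mul_of_nonneg_right (le_max_left _ _) (jb_rpow_pos _ _).le)
  | succ i ih =>
    intro c φ h
    obtain ⟨C, hC0, hC⟩ := ih h.deriv
    refine ⟨‖ContinuousLinearMap.toSpanSingleton ℝ (ContinuousLinearMap.snd ℝ V ℝ)‖ * C,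
      by positivity, fun p => ?_⟩
    rw [← norm_iteratedFDeriv_fderiv]
    have hf : fderiv ℝ (fun p : V × ℝ => φ p.2)
        = fun p => (ContinuousLinearMap.toSpanSingleton ℝ (ContinuousLinearMap.snd ℝ V ℝ))
          (deriv φ p.2) := by
      funext p
      have h1 : HasFDerivAt (fun p : V × ℝ => p.2) (ContinuousLinearMap.snd ℝ V ℝ) p :=
        hasFDerivAt_snd
      have h2 := (h.diff p.2).hasDerivAt.comp_hasFDerivAt p h1
      rw [ContinuousLinearMap.toSpanSingleton_apply]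
      exact h2.fderiv
    rw [hf]
    have hcd : ContDiff ℝ ∞ (fun p : V × ℝ => deriv φ p.2) := h.deriv.contDiff.comp contDiff_snd
    have h3 := (ContinuousLinearMap.toSpanSingleton ℝ
      (ContinuousLinearMap.snd ℝ V ℝ)).norm_iteratedFDeriv_comp_left (x := p) (n := i) (N := ∞)
      hcd.contDiffAt (by exact_mod_cast le_top)
    refine h3.trans ?_
    rw [mul_assoc]
    refine mul_le_mul_of_nonneg_left ((hC p).trans (le_of_eq ?_)) (norm_nonneg _)
    congr 2
    push_cast
    ring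

lemma GC.time {β c : ℝ} {φ : ℝ → ℝ} (h : TA β c φ) : GC β c (fun p : V × ℝ => φ p.2) :=
  ⟨h.contDiff.comp contDiff_snd, fun i => time_bound i h⟩

/-- composition -/
lemma GC.comp {β : ℝ} {g : ℝ → ℝ} (hg : BdD g) {f : V × ℝ → ℝ}
    (hf : ContDiff ℝ ∞ f) (hf' : GC β (-β) (fderiv ℝ f)) : GC β 0 (fun p => g (f p)) := by
  refine ⟨hg.1.comp hf, fun i => ?_⟩
  choose C hC0 hC using hg.2
  choose D hD0 hD using hf'.2
  set CC := ∑ l ∈ Finset.range (i + 1), C l with hCC
  set DD := 1 + ∑ l ∈ Finset.range (i + 1), D l with hDD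
  have hDD1 : 1 ≤ DD := by
    rw [hDD]
    linarith [Finset.sum_nonneg (s := Finset.range (i+1)) (f := D) fun l _ => hD0 l]
  have hCl : ∀ l ≤ i, C l ≤ CC := fun l hl =>
    Finset.single_le_sum (f := C) (fun l _ => hC0 l) (Finset.mem_range.mpr (by omega))
  have hDl : ∀ l ≤ i, D l ≤ DD := fun l hl => by
    have := Finset.single_le_sum (f := D) (fun l _ => hD0 l) (Finset.mem_range.mpr
      (by omega : l < i + 1))
    linarith
  have hCC0 : 0 ≤ CC := Finset.sum_nonneg fun l _ => hC0 l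
  refine ⟨(i.factorial : ℝ) * CC * DD ^ i, by positivity, fun p => ?_⟩
  have h1 := norm_iteratedFDeriv_comp_le (N := ∞) (n := i) hg.1 hf (by exact_mod_cast le_top) p
    (C := CC) (D := DD * jb p.2 ^ β) (fun l hl => (hC l _).trans (hCl l hl)) (by
      intro l hl1 hl
      obtain ⟨m, rfl⟩ : ∃ m, l = m + 1 := ⟨l - 1, by omega⟩
      rw [← norm_iteratedFDeriv_fderiv]
      refine (hD m p).trans ?_
      rw [mul_pow]
      have e : (jb p.2 ^ β) ^ (m + 1) = jb p.2 ^ (- -β + β * m) := by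
        rw [← Real.rpow_natCast, ← Real.rpow_mul (jb_pos _).le]
        congr 1
        push_cast
        ring
      rw [e]
      refine mul_le_mul_of_nonneg_right ?_ (jb_rpow_pos _ _).le
      calc D m ≤ DD := hDl m (by omega)
        _ = DD ^ 1 := (pow_one _).symm
        _ ≤ DD ^ (m + 1) := pow_le_pow_right₀ hDD1 (by omega))
  refine (h1.trans (le_of_eq ?_))
  rw [mul_pow]
  have e : (jb p.2 ^ β) ^ i = jb p.2 ^ (-0 + β * i) := by
    rw [← Real.rpow_natCast, ← Real.rpow_mul (jb_pos _).le]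
    congr 1
    ring
  rw [e]
  ring

end time

end Ton
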