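import Pool.Agent.helper42.TonT

/-!
Two-step averaging: an explicit curve `X = y + ξ + ξ₂` which solves `X'' = F(X,t) + u` with
`u = O((1+t²)^(-3/8))` for a trigonometric polynomial force `F`.
-/

noncomputable section

namespace Ton

open Complex

/-- one mode -/
lemma mode_corrector {W e h : ℝ → ℂ} {c c0 : ℝ} (hW : TA (-1) (-(1/4)) W) (hc0 : 0 < c0)
    (hlow : ∀ t, c0 * jb t ^ (1/4 : ℝ) ≤ ‖W t‖)
    (he : ∀ t, HasDerivAt e (W t * e t) t) (hb : ∃ C, ∀ t, ‖e t‖ ≤ C)
    (hh : TA (-1) c h) :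
    TA (-1) (c + 1/2) (fun t => h t * ((W t)⁻¹ * (W t)⁻¹)) ∧
    TA (1/4) (c + 1/2) (fun t => h t * ((W t)⁻¹ * (W t)⁻¹) * e t) ∧
    ∃ R : ℝ → ℂ, TA (1/4) (c + 5/4) R ∧
      ∀ t, HasDerivAt (deriv (fun t => h t * ((W t)⁻¹ * (W t)⁻¹) * e t)) (h t * e t + R t) t := by
  have hne : ∀ t, W t ≠ 0 := fun t h => by
    have := hlow t
    rw [h, norm_zero] at this
    exact absurd this (not_le.mpr (mul_pos hc0 (jb_rpow_pos _ _)))
  have hinv : TA (-1) (1/4) (fun t => (W t)⁻¹) := TA_inv hW hc0 hlow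
  set H : ℝ → ℂ := fun t => h t * ((W t)⁻¹ * (W t)⁻¹) with hHdef
  have hH : TA (-1) (c + 1/2) H := (hh.mul (hinv.mul hinv)).mono le_rfl (by linarith)
  have hE : TA (1/4) 0 e := TA_lin (hW.mono (by norm_num) le_rfl) he hb
  have hHE : TA (1/4) (c + 1/2) (fun t => H t * e t) :=
    ((hH.mono (by norm_num : (-1:ℝ) ≤ 1/4) le_rfl).mul hE).mono le_rfl (by linarith)
  refine ⟨hH, hHE, fun t => (deriv (deriv H) t + 2 * (deriv H t * W t) + H t * deriv W t) * e t,
    ?_, ?_⟩
  · have h1 : TA (-1) (c + 5/4) (fun t => deriv (deriv H) t) :=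
      hH.deriv.deriv.mono le_rfl (by linarith)
    have h2 : TA (-1) (c + 5/4) (fun t => 2 * (deriv H t * W t)) :=
      (TA.const_mul 2 (hH.deriv.mul hW)).mono le_rfl (by linarith)
    have h3 : TA (-1) (c + 5/4) (fun t => H t * deriv W t) :=
      (hH.mul hW.deriv).mono le_rfl (by linarith)
    have h4 := (((h1.add h2).add h3).mono (by norm_num : (-1:ℝ) ≤ 1/4) le_rfl).mul hE
    exact h4.mono le_rfl (by linarith)
  · have hd1 : ∀ t, HasDerivAt (fun t => H t * e t) ((deriv H t + H t * W t) * e t) t := by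
      intro t
      have := (hH.diff t).hasDerivAt.mul (he t)
      have e1 : (deriv H t + H t * W t) * e t = deriv H t * e t + H t * (W t * e t) := by ring
      rw [e1]
      exact this
    have e2 : deriv (fun t => H t * e t) = fun t => (deriv H t + H t * W t) * e t := by
      funext t; exact (hd1 t).deriv
    intro t
    rw [e2]
    have h1 : HasDerivAt (fun t => deriv H t + H t * W t)
        (deriv (deriv H) t + (deriv H t * W t + H t * deriv W t)) t :=
      (hH.deriv.diff t).hasDerivAt.add ((hH.diff t).hasDerivAt.mul (hW.diff t).hasDerivAt)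
    have h2 := h1.mul (he t)
    have e3 : h t * e t + (deriv (deriv H) t + 2 * (deriv H t * W t) + H t * deriv W t) * e t
        = (deriv (deriv H) t + (deriv H t * W t + H t * deriv W t)) * e t
          + (deriv H t + H t * W t) * (W t * e t) := by
      have : H t * (W t * W t) = h t := by
        simp only [hHdef]
        field_simp [hne t]
      linear_combination (-(e t)) * this
    rw [e3]
    exact h2

section main

variable {n : ℕ} {ι : Type} [Fintype ι] (k : ι → Fin n → ℤ) (k0 : ι → ℤ) (c : ι → ℂ)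
  (B : Matrix (Fin n) (Fin n) ℝ) (y : ℝ → Fin n → ℝ)

/-- force coefficients `2πi c_a (B k_a)` -/
def fc (a : ι) (j : Fin n) : ℂ := 2 * Real.pi * I * c a * ((B.mulVec (fun l => (k a l : ℝ)) j : ℝ) : ℂ)

/-- phase -/
def ph (a : ι) (t : ℝ) : ℝ := ∑ l, (k a l : ℝ) * y t l + (k0 a : ℝ) * t

/-- 2πi times the frequency -/
def fW (a : ι) (t : ℝ) : ℂ :=
  2 * Real.pi * I * ((∑ l, (k a l : ℝ) * deriv (fun s => y s l) t + (k0 a : ℝ) : ℝ) : ℂ)

/-- exponential along the curve `y` -/
def fe (a : ι) (t : ℝ) : ℂ := exp (2 * Real.pi * I * ((ph k k0 y a t : ℝ) : ℂ))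

/-- trigonometric force evaluated at a complex point -/
def fF (j : Fin n) (z : Fin n → ℂ) (t : ℝ) : ℂ :=
  ∑ a, fc k c B a j * exp (2 * Real.pi * I * (∑ l, (k a l : ℂ) * z l + (k0 a : ℂ) * t))

variable {k k0 c B y}

lemma fe_norm (a : ι) (t : ℝ) : ‖fe k k0 y a t‖ = 1 := by
  unfold fe
  rw [show (2 * (Real.pi : ℂ) * I * ((ph k k0 y a t : ℝ) : ℂ))
    = ((2 * Real.pi * ph k k0 y a t : ℝ) : ℂ) * I by push_cast; ring]
  exact Complex.norm_exp_ofReal_mul_I _

lemma fe_deriv (hy : ∀ j, Differentiable ℝ (fun s => y s j)) (a : ι) (t : ℝ) :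
    HasDerivAt (fe k k0 y a) (fW k k0 y a t * fe k k0 y a t) t := by
  have h1 : HasDerivAt (ph k k0 y a)
      (∑ l, (k a l : ℝ) * deriv (fun s => y s l) t + (k0 a : ℝ)) t := by
    unfold ph
    refine HasDerivAt.add (HasDerivAt.fun_sum fun l _ => ?_) ?_
    · exact ((hy l) t).hasDerivAt.const_mul _
    · simpa using (hasDerivAt_id t).const_mul (k0 a : ℝ)
  have h2 := (h1.ofReal_comp.const_mul (2 * Real.pi * I : ℂ)).cexp
  unfold fe fW
  rw [mul_comm (Complex.exp _)] at h2
  exact h2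

lemma fW_TA (hv : ∀ j, TA (-1) (-(1/4)) (deriv (fun s => y s j))) (a : ι) :
    TA (-1) (-(1/4)) (fW k k0 y a) := by
  have h1 : TA (-1) (-(1/4)) (fun t => ∑ l, (k a l : ℝ) * deriv (fun s => y s l) t + (k0 a : ℝ)) := by
    refine TA.add (TA.sum _ fun l _ => TA.const_mul _ (hv l)) ?_
    exact (TA.const (-1) (k0 a : ℝ)).mono le_rfl (by norm_num)
  have h2 := h1.clm Complex.ofRealCLM
  exact TA.const_mul _ h2

/-- twice differentiable with second derivative `g` -/
def D2 (f g : ℝ → ℂ) : Prop := Differentiable ℝ f ∧ ∀ t, HasDerivAt (deriv f) (g t) t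

lemma D2.add {f g f' g' : ℝ → ℂ} (h : D2 f g) (h' : D2 f' g') :
    D2 (fun t => f t + f' t) (fun t => g t + g' t) := by
  refine ⟨h.1.add h'.1, fun t => ?_⟩
  have : deriv (fun t => f t + f' t) = fun t => deriv f t + deriv f' t := by
    funext t; exact deriv_add (h.1 t) (h'.1 t)
  rw [this]
  exact (h.2 t).add (h'.2 t)

lemma D2.zero : D2 (fun _ => 0) (fun _ => 0) := by
  refine ⟨differentiable_const _, fun t => ?_⟩
  have : deriv (fun _ : ℝ => (0 : ℂ)) = fun _ => 0 := by funext t; simp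
  rw [this]
  exact hasDerivAt_const _ _

lemma D2.sum {κ : Type*} (s : Finset κ) {f g : κ → ℝ → ℂ} (h : ∀ i ∈ s, D2 (f i) (g i)) :
    D2 (fun t => ∑ i ∈ s, f i t) (fun t => ∑ i ∈ s, g i t) := by
  classical
  induction s using Finset.induction_on with
  | empty => simpa using D2.zero
  | insert i s his ih =>
    have := (h i (Finset.mem_insert_self _ _)).add
      (ih (fun j hj => h j (Finset.mem_insert_of_mem hj)))
    simpa [Finset.sum_insert his] using this

lemma D2.congr {f g g' : ℝ → ℂ} (h : D2 f g) (e : ∀ t, g t = g' t) : D2 f g' :=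
  ⟨h.1, fun t => by rw [← e t]; exact h.2 t⟩

variable (k k0 c B y)

/-- first corrector -/
def xi (j : Fin n) (t : ℝ) : ℂ :=
  ∑ a, fc k c B a j * ((fW k k0 y a t)⁻¹ * (fW k k0 y a t)⁻¹) * fe k k0 y a t

/-- coefficients of the quadratic term -/
def hh (a b : ι) (j : Fin n) (t : ℝ) : ℂ :=
  2 * Real.pi * I * (∑ l, (k a l : ℂ) * fc k c B b l) * fc k c B a j *
    ((fW k k0 y b t)⁻¹ * (fW k k0 y b t)⁻¹)

open Classical in
/-- second corrector -/
def xi2 (j : Fin n) (t : ℝ) : ℂ :=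
  ∑ a, ∑ b, if k a + k b = 0 then 0 else
    hh k k0 c B y a b j t * ((fW k k0 y a t + fW k k0 y b t)⁻¹ * (fW k k0 y a t + fW k k0 y b t)⁻¹) *
      (fe k k0 y a t * fe k k0 y b t)

variable {k k0 c B y}

lemma hh_TA (hv : ∀ j, TA (-1) (-(1/4)) (deriv (fun s => y s j)))
    (hlow1 : ∀ a, ∃ c0 : ℝ, 0 < c0 ∧ ∀ t, c0 * jb t ^ (1/4 : ℝ) ≤ ‖fW k k0 y a t‖)
    (a b : ι) (j : Fin n) : TA (-1) (1/2) (hh k k0 c B y a b j) := by
  obtain ⟨c0, hc0, hl⟩ := hlow1 b
  have hinv := TA_inv (fW_TA (k := k) (k0 := k0) hv b) hc0 hl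
  exact (TA.const_mul _ (hinv.mul hinv)).mono le_rfl (by norm_num)

lemma xi_TA (hy : ∀ j, Differentiable ℝ (fun s => y s j))
    (hv : ∀ j, TA (-1) (-(1/4)) (deriv (fun s => y s j)))
    (hlow1 : ∀ a, ∃ c0 : ℝ, 0 < c0 ∧ ∀ t, c0 * jb t ^ (1/4 : ℝ) ≤ ‖fW k k0 y a t‖)
    (j : Fin n) : TA (1/4) (1/2) (xi k k0 c B y j) := by
  refine TA.sum _ fun a _ => ?_
  obtain ⟨c0, hc0, hl⟩ := hlow1 a
  have := (mode_corrector (fW_TA (k0 := k0) hv a) hc0 hl (fe_deriv hy a)
    ⟨1, fun t => (fe_norm a t).le⟩ (TA.const (-1) (fc k c B a j))).2.1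
  exact this.mono le_rfl (by norm_num)

lemma pair_deriv (hy : ∀ j, Differentiable ℝ (fun s => y s j)) (a b : ι) (t : ℝ) :
    HasDerivAt (fun t => fe k k0 y a t * fe k k0 y b t)
      ((fW k k0 y a t + fW k k0 y b t) * (fe k k0 y a t * fe k k0 y b t)) t := by
  have := (fe_deriv (k := k) (k0 := k0) hy a t).mul (fe_deriv (k := k) (k0 := k0) hy b t)
  have e : (fW k k0 y a t + fW k k0 y b t) * (fe k k0 y a t * fe k k0 y b t)
      = fW k k0 y a t * fe k k0 y a t * fe k k0 y b t
        + fe k k0 y a t * (fW k k0 y b t * fe k k0 y b t) := by ring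
  rw [e]
  exact this

lemma pair_norm (a b : ι) : ∃ C, ∀ t, ‖fe k k0 y a t * fe k k0 y b t‖ ≤ C :=
  ⟨1, fun t => by rw [norm_mul, fe_norm, fe_norm, one_mul]⟩

lemma xi2_TA (hy : ∀ j, Differentiable ℝ (fun s => y s j))
    (hv : ∀ j, TA (-1) (-(1/4)) (deriv (fun s => y s j)))
    (hlow1 : ∀ a, ∃ c0 : ℝ, 0 < c0 ∧ ∀ t, c0 * jb t ^ (1/4 : ℝ) ≤ ‖fW k k0 y a t‖)
    (hlow2 : ∀ a b, k a + k b ≠ 0 →
      ∃ c0 : ℝ, 0 < c0 ∧ ∀ t, c0 * jb t ^ (1/4 : ℝ) ≤ ‖fW k k0 y a t + fW k k0 y b t‖)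
    (j : Fin n) : TA (1/4) 1 (xi2 k k0 c B y j) := by
  refine TA.sum _ fun a _ => TA.sum _ fun b _ => ?_
  by_cases hab : k a + k b = 0
  · simp only [hab, if_true]
    exact TA.zero _ _
  · simp only [hab, if_false]
    obtain ⟨c0, hc0, hl⟩ := hlow2 a b hab
    have := (mode_corrector ((fW_TA (k0 := k0) hv a).add (fW_TA (k0 := k0) hv b)) hc0 hl
      (pair_deriv hy a b) (pair_norm a b) (hh_TA (c := c) (B := B) hv hlow1 a b j)).2.1
    exact this.mono le_rfl (by norm_num)

lemma xi_D2 (hy : ∀ j, Differentiable ℝ (fun s => y s j))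
    (hv : ∀ j, TA (-1) (-(1/4)) (deriv (fun s => y s j)))
    (hlow1 : ∀ a, ∃ c0 : ℝ, 0 < c0 ∧ ∀ t, c0 * jb t ^ (1/4 : ℝ) ≤ ‖fW k k0 y a t‖)
    (j : Fin n) : ∃ R : ℝ → ℂ, TA (1/4) (3/4) R ∧
      D2 (xi k k0 c B y j) (fun t => ∑ a, fc k c B a j * fe k k0 y a t + R t) := by
  have h := fun a => (mode_corrector (fW_TA (k0 := k0) hv a) (hlow1 a).choose_spec.1
    (hlow1 a).choose_spec.2 (fe_deriv hy a)
    ⟨1, fun t => (fe_norm a t).le⟩ (TA.const (-1) (fc k c B a j))).2
  choose h1 R hR hd using h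
  refine ⟨fun t => ∑ a, R a t, TA.sum _ fun a _ => (hR a).mono le_rfl (by norm_num), ?_⟩
  have := D2.sum (Finset.univ) (f := fun a t => fc k c B a j *
    ((fW k k0 y a t)⁻¹ * (fW k k0 y a t)⁻¹) * fe k k0 y a t)
    (g := fun a t => fc k c B a j * fe k k0 y a t + R a t)
    (fun a _ => ⟨(h1 a).diff, hd a⟩)
  refine D2.congr this fun t => ?_
  rw [Finset.sum_add_distrib]

open Classical in
lemma xi2_D2 (hy : ∀ j, Differentiable ℝ (fun s => y s j))
    (hv : ∀ j, TA (-1) (-(1/4)) (deriv (fun s => y s j)))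
    (hlow1 : ∀ a, ∃ c0 : ℝ, 0 < c0 ∧ ∀ t, c0 * jb t ^ (1/4 : ℝ) ≤ ‖fW k k0 y a t‖)
    (hlow2 : ∀ a b, k a + k b ≠ 0 →
      ∃ c0 : ℝ, 0 < c0 ∧ ∀ t, c0 * jb t ^ (1/4 : ℝ) ≤ ‖fW k k0 y a t + fW k k0 y b t‖)
    (j : Fin n) : ∃ R : ℝ → ℂ, TA (1/4) (3/4) R ∧
      D2 (xi2 k k0 c B y j) (fun t => ∑ a, ∑ b, (if k a + k b = 0 then 0 else
        hh k k0 c B y a b j t * (fe k k0 y a t * fe k k0 y b t)) + R t) := by
  have h : ∀ a b, ∃ R : ℝ → ℂ, TA (1/4) (3/4) R ∧ D2
      (fun t => if k a + k b = 0 then 0 else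
        hh k k0 c B y a b j t * ((fW k k0 y a t + fW k k0 y b t)⁻¹ *
        (fW k k0 y a t + fW k k0 y b t)⁻¹) * (fe k k0 y a t * fe k k0 y b t))
      (fun t => (if k a + k b = 0 then 0 else
        hh k k0 c B y a b j t * (fe k k0 y a t * fe k k0 y b t)) + R t) := by
    intro a b
    by_cases hab : k a + k b = 0
    · refine ⟨fun _ => 0, TA.zero _ _, ?_⟩
      simp only [hab, if_true, add_zero]
      exact D2.zero
    · obtain ⟨c0, hc0, hl⟩ := hlow2 a b hab
      obtain ⟨-, h1, R, hR, hd⟩ := mode_corrector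
        ((fW_TA (k0 := k0) hv a).add (fW_TA (k0 := k0) hv b)) hc0 hl
        (pair_deriv hy a b) (pair_norm a b) (hh_TA (c := c) (B := B) hv hlow1 a b j)
      refine ⟨R, hR.mono le_rfl (by norm_num), ?_⟩
      simp only [hab, if_false]
      exact ⟨h1.diff, hd⟩
  choose R hR hd using h
  refine ⟨fun t => ∑ a, ∑ b, R a b t, TA.sum _ fun a _ => TA.sum _ fun b _ => hR a b, ?_⟩
  have := D2.sum (Finset.univ) (fun a _ => D2.sum (Finset.univ) (fun b _ => hd a b))
  refine D2.congr this fun t => ?_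
  simp only [Finset.sum_add_distrib]

open Classical in
/-- the resonant part of the quadratic term is smaller by cancellation -/
lemma Z_TA (hy : ∀ j, Differentiable ℝ (fun s => y s j))
    (hv : ∀ j, TA (-1) (-(1/4)) (deriv (fun s => y s j)))
    (hlow1 : ∀ a, ∃ c0 : ℝ, 0 < c0 ∧ ∀ t, c0 * jb t ^ (1/4 : ℝ) ≤ ‖fW k k0 y a t‖)
    (j : Fin n) : TA (1/4) (3/4) (fun t => ∑ a, ∑ b, if k a + k b = 0 then
        hh k k0 c B y a b j t * (fe k k0 y a t * fe k k0 y b t) else 0) := by
  have e : (fun t => ∑ a, ∑ b, if k a + k b = 0 then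
        hh k k0 c B y a b j t * (fe k k0 y a t * fe k k0 y b t) else 0)
      = fun t => (1/2 : ℂ) * ∑ a, ∑ b, if k a + k b = 0 then
        (hh k k0 c B y a b j t + hh k k0 c B y b a j t) *
          (fe k k0 y a t * fe k k0 y b t) else 0 := by
    funext t
    have h1 : (∑ a, ∑ b, if k a + k b = 0 then
        hh k k0 c B y a b j t * (fe k k0 y a t * fe k k0 y b t) else 0)
        = ∑ a, ∑ b, if k a + k b = 0 then
        hh k k0 c B y b a j t * (fe k k0 y a t * fe k k0 y b t) else 0 := by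
      rw [Finset.sum_comm]
      refine Finset.sum_congr rfl fun a _ => Finset.sum_congr rfl fun b _ => ?_
      rw [add_comm (k b) (k a), mul_comm (fe k k0 y b t)]
    have h2 : (∑ a, ∑ b, if k a + k b = 0 then
        (hh k k0 c B y a b j t + hh k k0 c B y b a j t) *
          (fe k k0 y a t * fe k k0 y b t) else 0)
        = (∑ a, ∑ b, if k a + k b = 0 then
        hh k k0 c B y a b j t * (fe k k0 y a t * fe k k0 y b t) else 0)
        + ∑ a, ∑ b, if k a + k b = 0 then
        hh k k0 c B y b a j t * (fe k k0 y a t * fe k k0 y b t) else 0 := by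
      rw [← Finset.sum_add_distrib]
      refine Finset.sum_congr rfl fun a _ => ?_
      rw [← Finset.sum_add_distrib]
      refine Finset.sum_congr rfl fun b _ => ?_
      split_ifs
      · ring
      · simp
    rw [h2, ← h1]
    ring
  have goal : TA (1/4) (3/4) (fun t => (1/2 : ℂ) * ∑ a, ∑ b, if k a + k b = 0 then
        (hh k k0 c B y a b j t + hh k k0 c B y b a j t) *
          (fe k k0 y a t * fe k k0 y b t) else 0) := by
    refine TA.const_mul _ (TA.sum _ fun a _ => TA.sum _ fun b _ => ?_)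
    by_cases hab : k a + k b = 0
    · simp only [hab, if_true]
      obtain ⟨ca, hca, hla⟩ := hlow1 a
      obtain ⟨cb, hcb, hlb⟩ := hlow1 b
      have hWa := fW_TA (k := k) (k0 := k0) hv a
      have hWb := fW_TA (k := k) (k0 := k0) hv b
      have hia := TA_inv hWa hca hla
      have hib := TA_inv hWb hcb hlb
      have hne : ∀ (a : ι) (c0 : ℝ), 0 < c0 → (∀ t, c0 * jb t ^ (1/4 : ℝ) ≤ ‖fW k k0 y a t‖) →
          ∀ t, fW k k0 y a t ≠ 0 := fun a c0 hc0 hl t h => by
        have := hl t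
        rw [h, norm_zero] at this
        exact absurd this (not_le.mpr (mul_pos hc0 (jb_rpow_pos _ _)))
      have hna := hne a ca hca hla
      have hnb := hne b cb hcb hlb
      -- the sum of frequencies is constant
      set m : ℂ := 2 * Real.pi * I * ((k0 a : ℂ) + (k0 b : ℂ)) with hm
      have hsum : ∀ t, fW k k0 y a t + fW k k0 y b t = m := by
        intro t
        have h0 : ∀ l, (k a l : ℝ) + (k b l : ℝ) = 0 := by
          intro l
          have := congrFun hab l
          simp only [Pi.add_apply, Pi.zero_apply] at this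
          exact_mod_cast this
        have h1 : (∑ l, (k a l : ℝ) * deriv (fun s => y s l) t + (k0 a : ℝ))
            + (∑ l, (k b l : ℝ) * deriv (fun s => y s l) t + (k0 b : ℝ))
            = (k0 a : ℝ) + (k0 b : ℝ) := by
          have : ∑ l, (k a l : ℝ) * deriv (fun s => y s l) t
              + ∑ l, (k b l : ℝ) * deriv (fun s => y s l) t = 0 := by
            rw [← Finset.sum_add_distrib]
            refine Finset.sum_eq_zero fun l _ => ?_
            rw [← add_mul, h0 l, zero_mul]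
          linarith
        unfold fW
        rw [← mul_add, ← Complex.ofReal_add, h1, hm]
        push_cast
        ring
      -- algebra
      set q : ℂ := ∑ l, (k a l : ℂ) * ((B.mulVec (fun l => (k a l : ℝ)) l : ℝ) : ℂ) with hq
      set K : ℂ := (2 * Real.pi * I) * (2 * Real.pi * I) * (2 * Real.pi * I) * c a * c b * q *
        ((B.mulVec (fun l => (k a l : ℝ)) j : ℝ) : ℂ) with hK
      have hkb : (fun l => (k b l : ℝ)) = - fun l => (k a l : ℝ) := by
        funext l
        have := congrFun hab l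
        simp only [Pi.add_apply, Pi.zero_apply] at this
        have h2 : k b l = - k a l := by linarith
        simp [h2]
      have hBb : ∀ l, B.mulVec (fun l => (k b l : ℝ)) l = - B.mulVec (fun l => (k a l : ℝ)) l := by
        intro l
        rw [hkb, Matrix.mulVec_neg]
        rfl
      have hab' : ∀ t, hh k k0 c B y a b j t = -K * ((fW k k0 y b t)⁻¹ * (fW k k0 y b t)⁻¹) := by
        intro t
        unfold hh fc
        have : ∑ l, (k a l : ℂ) * (2 * Real.pi * I * c b *
            ((B.mulVec (fun l => (k b l : ℝ)) l : ℝ) : ℂ)) = -(2 * Real.pi * I * c b) * q := by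
          rw [hq, Finset.mul_sum]
          refine Finset.sum_congr rfl fun l _ => ?_
          rw [hBb l]
          push_cast
          ring
        rw [this, hK]
        ring
      have hba' : ∀ t, hh k k0 c B y b a j t = K * ((fW k k0 y a t)⁻¹ * (fW k k0 y a t)⁻¹) := by
        intro t
        unfold hh fc
        have : ∑ l, (k b l : ℂ) * (2 * Real.pi * I * c a *
            ((B.mulVec (fun l => (k a l : ℝ)) l : ℝ) : ℂ)) = -(2 * Real.pi * I * c a) * q := by
          rw [hq, Finset.mul_sum]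
          refine Finset.sum_congr rfl fun l _ => ?_
          have h3 : (k b l : ℂ) = - (k a l : ℂ) := by
            have := congrFun hkb l
            simp only [Pi.neg_apply] at this
            exact_mod_cast this
          rw [h3]
          ring
        rw [this, hK, hBb j]
        push_cast
        ring
      have hfin : (fun t => (hh k k0 c B y a b j t + hh k k0 c B y b a j t) *
          (fe k k0 y a t * fe k k0 y b t)) = fun t => (K * m) * (((fW k k0 y b t - fW k k0 y a t) *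
            (((fW k k0 y a t)⁻¹ * (fW k k0 y a t)⁻¹) * ((fW k k0 y b t)⁻¹ * (fW k k0 y b t)⁻¹))) *
            (fe k k0 y a t * fe k k0 y b t)) := by
        funext t
        rw [hab' t, hba' t, ← hsum t]
        have h1 := hna t
        have h2 := hnb t
        field_simp
        ring
      rw [hfin]
      have hE : TA (1/4) 0 (fun t => fe k k0 y a t * fe k k0 y b t) :=
        TA_lin ((hWa.add hWb).mono (by norm_num) le_rfl) (pair_deriv hy a b) (pair_norm a b)
      have h5 := (hWb.sub hWa).mul ((hia.mul hia).mul (hib.mul hib))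
      have h6 := (h5.mono (by norm_num : (-1:ℝ) ≤ 1/4) le_rfl).mul hE
      exact (TA.const_mul _ h6).mono le_rfl (by norm_num)
    · simp only [hab, if_false]
      exact TA.zero _ _
  rw [← e] at goal
  exact goal

theorem residual (hy : ∀ j, Differentiable ℝ (fun s => y s j))
    (hv : ∀ j, TA (-1) (-(1/4)) (deriv (fun s => y s j)))
    (hlow1 : ∀ a, ∃ c0 : ℝ, 0 < c0 ∧ ∀ t, c0 * jb t ^ (1/4 : ℝ) ≤ ‖fW k k0 y a t‖)
    (hlow2 : ∀ a b, k a + k b ≠ 0 →
      ∃ c0 : ℝ, 0 < c0 ∧ ∀ t, c0 * jb t ^ (1/4 : ℝ) ≤ ‖fW k k0 y a t + fW k k0 y b t‖)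
    (j : Fin n) : ∃ u : ℝ → ℂ, TA (1/4) (3/4) u ∧
      D2 (fun t => (y t j : ℂ) + (xi k k0 c B y j t + xi2 k k0 c B y j t))
        (fun t => fF k k0 c B j
          (fun l => (y t l : ℂ) + (xi k k0 c B y l t + xi2 k k0 c B y l t)) t + u t) := by
  classical
  obtain ⟨R1, hR1, hd1⟩ := xi_D2 (c := c) (B := B) hy hv hlow1 j
  obtain ⟨R2, hR2, hd2⟩ := xi2_D2 (c := c) (B := B) hy hv hlow1 hlow2 j
  have hZ := Z_TA (c := c) (B := B) hy hv hlow1 j
  have hxi := fun l => xi_TA (c := c) (B := B) hy hv hlow1 l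
  have hxi2 := fun l => xi2_TA (c := c) (B := B) hy hv hlow1 hlow2 l
  have heta : ∀ l, TA (1/4) (1/2) (fun t => xi k k0 c B y l t + xi2 k k0 c B y l t) :=
    fun l => (hxi l).add ((hxi2 l).mono le_rfl (by norm_num))
  set w : ι → ℝ → ℂ := fun a t => 2 * Real.pi * I *
    ∑ l, (k a l : ℂ) * (xi k k0 c B y l t + xi2 k k0 c B y l t) with hw
  have hwT : ∀ a, TA (1/4) (1/2) (w a) := fun a =>
    TA.const_mul _ (TA.sum _ fun l _ => TA.const_mul _ (heta l))
  have hE2 : ∀ a, TA (1/4) 1 (fun t => exp (w a t) - 1 - w a t) := fun a =>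
    (TA_E2 (by norm_num) (hwT a)).mono le_rfl (by norm_num)
  have hfe : ∀ a, TA (1/4) 0 (fe k k0 y a) := fun a =>
    TA_lin ((fW_TA hv a).mono (by norm_num) le_rfl) (fe_deriv hy a)
      ⟨1, fun t => (fe_norm a t).le⟩
  have hyy : TA (-1) (3/4) (fun t => ((deriv (deriv (fun s => y s j)) t : ℝ) : ℂ)) :=
    ((hv j).deriv.clm Complex.ofRealCLM).mono le_rfl (by norm_num)
  have hdy : D2 (fun t => (y t j : ℂ)) (fun t => ((deriv (deriv (fun s => y s j)) t : ℝ) : ℂ)) := by
    have h1 : ∀ t, HasDerivAt (fun t => (y t j : ℂ)) ((deriv (fun s => y s j) t : ℝ) : ℂ) t :=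
      fun t => (hy j t).hasDerivAt.ofReal_comp
    refine ⟨fun t => (h1 t).differentiableAt, fun t => ?_⟩
    have : deriv (fun t => (y t j : ℂ)) = fun t => ((deriv (fun s => y s j) t : ℝ) : ℂ) := by
      funext t; exact (h1 t).deriv
    rw [this]
    exact ((hv j).diff t).hasDerivAt.ofReal_comp
  refine ⟨fun t => ((deriv (deriv (fun s => y s j)) t : ℝ) : ℂ) + R1 t + R2 t
      - (∑ a, ∑ b, if k a + k b = 0 then
        hh k k0 c B y a b j t * (fe k k0 y a t * fe k k0 y b t) else 0)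
      - (∑ a, fc k c B a j * (fe k k0 y a t * (2 * Real.pi * I *
          ∑ l, (k a l : ℂ) * xi2 k k0 c B y l t)))
      - ∑ a, fc k c B a j * (fe k k0 y a t * (exp (w a t) - 1 - w a t)), ?_, ?_⟩
  · refine TA.sub (TA.sub (TA.sub (TA.add (TA.add ?_ hR1) hR2) hZ) ?_) ?_
    · exact hyy.mono (by norm_num) le_rfl
    · refine TA.sum _ fun a _ => TA.const_mul _ ?_
      exact ((hfe a).mul (TA.const_mul _ (TA.sum _ fun l _ => TA.const_mul _ (hxi2 l)))).mono
        le_rfl (by norm_num)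
    · refine TA.sum _ fun a _ => TA.const_mul _ ?_
      exact ((hfe a).mul (hE2 a)).mono le_rfl (by norm_num)
  · refine D2.congr (hdy.add (hd1.add hd2)) fun t => ?_
    have hexp : ∀ a, exp (2 * Real.pi * I * (∑ l, (k a l : ℂ) *
        ((y t l : ℂ) + (xi k k0 c B y l t + xi2 k k0 c B y l t)) + (k0 a : ℂ) * t))
        = fe k k0 y a t * exp (w a t) := by
      intro a
      unfold fe ph
      rw [← Complex.exp_add]
      congr 1
      simp only [hw]
      push_cast
      rw [← mul_add]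
      congr 1
      simp only [mul_add, Finset.sum_add_distrib]
      ring
    have h1 : fF k k0 c B j
          (fun l => (y t l : ℂ) + (xi k k0 c B y l t + xi2 k k0 c B y l t)) t
        = ∑ a, fc k c B a j * fe k k0 y a t
          + ∑ a, fc k c B a j * (fe k k0 y a t * w a t)
          + ∑ a, fc k c B a j * (fe k k0 y a t * (exp (w a t) - 1 - w a t)) := by
      unfold fF
      rw [← Finset.sum_add_distrib, ← Finset.sum_add_distrib]
      refine Finset.sum_congr rfl fun a _ => ?_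
      rw [hexp a]
      ring
    have h2 : ∑ a, fc k c B a j * (fe k k0 y a t * w a t)
        = ∑ a, fc k c B a j * (fe k k0 y a t * (2 * Real.pi * I *
          ∑ l, (k a l : ℂ) * xi k k0 c B y l t))
        + ∑ a, fc k c B a j * (fe k k0 y a t * (2 * Real.pi * I *
          ∑ l, (k a l : ℂ) * xi2 k k0 c B y l t)) := by
      rw [← Finset.sum_add_distrib]
      refine Finset.sum_congr rfl fun a _ => ?_
      simp only [hw, mul_add, Finset.sum_add_distrib]
    have h3 : ∑ a, fc k c B a j * (fe k k0 y a t * (2 * Real.pi * I *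
          ∑ l, (k a l : ℂ) * xi k k0 c B y l t))
        = ∑ a, ∑ b, hh k k0 c B y a b j t * (fe k k0 y a t * fe k k0 y b t) := by
      refine Finset.sum_congr rfl fun a _ => ?_
      have h4 : ∑ l, (k a l : ℂ) * xi k k0 c B y l t
          = ∑ b, (∑ l, (k a l : ℂ) * fc k c B b l) *
            ((fW k k0 y b t)⁻¹ * (fW k k0 y b t)⁻¹) * fe k k0 y b t := by
        unfold xi
        simp only [Finset.mul_sum, Finset.sum_mul]
        rw [Finset.sum_comm]
        refine Finset.sum_congr rfl fun b _ => Finset.sum_congr rfl fun l _ => ?_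
        ring
      rw [h4, Finset.mul_sum, Finset.mul_sum, Finset.mul_sum]
      refine Finset.sum_congr rfl fun b _ => ?_
      unfold hh
      ring
    have h5 : ∑ a, ∑ b, hh k k0 c B y a b j t * (fe k k0 y a t * fe k k0 y b t)
        = (∑ a, ∑ b, if k a + k b = 0 then 0 else
          hh k k0 c B y a b j t * (fe k k0 y a t * fe k k0 y b t))
        + ∑ a, ∑ b, if k a + k b = 0 then
          hh k k0 c B y a b j t * (fe k k0 y a t * fe k k0 y b t) else 0 := by
      rw [← Finset.sum_add_distrib]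
      refine Finset.sum_congr rfl fun a _ => ?_
      rw [← Finset.sum_add_distrib]
      refine Finset.sum_congr rfl fun b _ => ?_
      split_ifs <;> simp
    rw [h1, h2, h3, h5]
    ring

section real

variable {s : ι → ι} (hs : Function.Involutive s) (hk : ∀ a, k (s a) = - k a)
  (hk0 : ∀ a, k0 (s a) = - k0 a) (hc : ∀ a, c (s a) = (starRingEnd ℂ) (c a))

include hk hc in
lemma fc_conj (a : ι) (j : Fin n) : (starRingEnd ℂ) (fc k c B a j) = fc k c B (s a) j := by
  have h1 : (fun l => (k (s a) l : ℝ)) = - fun l => (k a l : ℝ) := by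
    funext l
    simp [hk a]
  unfold fc
  rw [h1, Matrix.mulVec_neg, hc a]
  simp only [map_mul, Complex.conj_ofReal, Complex.conj_I, map_ofNat, Pi.neg_apply]
  push_cast
  ring

include hk hk0 in
lemma fW_conj (a : ι) (t : ℝ) : (starRingEnd ℂ) (fW k k0 y a t) = fW k k0 y (s a) t := by
  have h1 : (∑ l, (k (s a) l : ℝ) * deriv (fun s => y s l) t + (k0 (s a) : ℝ))
      = -(∑ l, (k a l : ℝ) * deriv (fun s => y s l) t + (k0 a : ℝ)) := by
    rw [hk a, hk0 a]
    simp only [Pi.neg_apply, Int.cast_neg, neg_mul, Finset.sum_neg_distrib]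
    ring
  unfold fW
  rw [h1]
  simp only [map_mul, Complex.conj_ofReal, Complex.conj_I, map_ofNat]
  push_cast
  ring

include hk hk0 in
lemma fe_conj (a : ι) (t : ℝ) : (starRingEnd ℂ) (fe k k0 y a t) = fe k k0 y (s a) t := by
  have h1 : ph k k0 y (s a) t = - ph k k0 y a t := by
    unfold ph
    rw [hk a, hk0 a]
    simp only [Pi.neg_apply, Int.cast_neg, neg_mul, Finset.sum_neg_distrib]
    ring
  unfold fe
  rw [← Complex.exp_conj, h1]
  congr 1
  simp only [map_mul, Complex.conj_ofReal, Complex.conj_I, map_ofNat]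
  push_cast
  ring

include hs hk hk0 hc in
lemma xi_conj (j : Fin n) (t : ℝ) :
    (starRingEnd ℂ) (xi k k0 c B y j t) = xi k k0 c B y j t := by
  unfold xi
  rw [map_sum]
  rw [← Equiv.sum_comp hs.toPerm (fun a => fc k c B a j *
    ((fW k k0 y a t)⁻¹ * (fW k k0 y a t)⁻¹) * fe k k0 y a t)]
  refine Finset.sum_congr rfl fun a _ => ?_
  simp only [map_mul, map_inv₀, fc_conj hk hc, fW_conj hk hk0, fe_conj hk hk0,
    Function.Involutive.coe_toPerm]

include hk hk0 hc in
lemma hh_conj (a b : ι) (j : Fin n) (t : ℝ) :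
    (starRingEnd ℂ) (hh k k0 c B y a b j t) = hh k k0 c B y (s a) (s b) j t := by
  have h1 : (starRingEnd ℂ) (∑ l, (k a l : ℂ) * fc k c B b l)
      = - ∑ l, (k (s a) l : ℂ) * fc k c B (s b) l := by
    rw [map_sum, ← Finset.sum_neg_distrib]
    refine Finset.sum_congr rfl fun l _ => ?_
    rw [map_mul, fc_conj hk hc, hk a]
    simp only [Pi.neg_apply, Int.cast_neg]
    rw [map_intCast]
    ring
  unfold hh
  rw [map_mul, map_mul, map_mul, h1, map_mul, map_mul, map_mul, map_inv₀, fW_conj hk hk0,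
    fc_conj hk hc]
  simp only [Complex.conj_I, map_ofNat, Complex.conj_ofReal]
  ring

open Classical in
include hs hk hk0 hc in
lemma xi2_conj (j : Fin n) (t : ℝ) :
    (starRingEnd ℂ) (xi2 k k0 c B y j t) = xi2 k k0 c B y j t := by
  have hiff : ∀ a b, (k (s a) + k (s b) = 0) ↔ (k a + k b = 0) := by
    intro a b
    rw [hk a, hk b, ← neg_add, neg_eq_zero]
  set G : ι → ι → ℂ := fun a b => if k a + k b = 0 then 0 else
    hh k k0 c B y a b j t * ((fW k k0 y a t + fW k k0 y b t)⁻¹ * (fW k k0 y a t + fW k k0 y b t)⁻¹) *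
      (fe k k0 y a t * fe k k0 y b t) with hG
  have hGc : ∀ a b, (starRingEnd ℂ) (G a b) = G (s a) (s b) := by
    intro a b
    simp only [hG]
    by_cases hab : k a + k b = 0
    · rw [if_pos hab, if_pos ((hiff a b).mpr hab), map_zero]
    · rw [if_neg hab, if_neg (fun h => hab ((hiff a b).mp h))]
      simp only [map_mul, map_inv₀, map_add, hh_conj hk hk0 hc, fW_conj hk hk0, fe_conj hk hk0]
  have hx : xi2 k k0 c B y j t = ∑ a, ∑ b, G a b := rfl
  rw [hx, map_sum]
  have e1 : ∀ a, (starRingEnd ℂ) (∑ b, G a b) = ∑ b, G (s a) b := by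
    intro a
    rw [map_sum]
    refine Eq.trans ?_ (Equiv.sum_comp hs.toPerm (fun b => G (s a) b))
    exact Finset.sum_congr rfl fun b _ => hGc a b
  refine Eq.trans (Finset.sum_congr rfl fun a _ => e1 a) ?_
  exact Equiv.sum_comp hs.toPerm (fun a => ∑ b, G a b)

include hs hk hk0 hc in
theorem exists_path (hy : ∀ j, Differentiable ℝ (fun s => y s j))
    (hv : ∀ j, TA (-1) (-(1/4)) (deriv (fun s => y s j)))
    (hlow1 : ∀ a, ∃ c0 : ℝ, 0 < c0 ∧ ∀ t, c0 * jb t ^ (1/4 : ℝ) ≤ ‖fW k k0 y a t‖)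
    (hlow2 : ∀ a b, k a + k b ≠ 0 →
      ∃ c0 : ℝ, 0 < c0 ∧ ∀ t, c0 * jb t ^ (1/4 : ℝ) ≤ ‖fW k k0 y a t + fW k k0 y b t‖) :
    ∃ X u : ℝ → Fin n → ℝ,
      (∀ j, TA (1/4) (1/2) (fun t => X t j - y t j)) ∧
      (∀ j, TA (1/4) (3/4) (fun t => u t j)) ∧
      (∀ j, Differentiable ℝ (fun t => X t j)) ∧
      ∀ j t, HasDerivAt (deriv (fun t => X t j))
        ((fF k k0 c B j (fun l => (X t l : ℂ)) t).re + u t j) t := by
  have hres := fun j => residual (c := c) (B := B) hy hv hlow1 hlow2 j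
  choose u hu hd using hres
  set X : ℝ → Fin n → ℝ := fun t j => ((y t j : ℂ) + (xi k k0 c B y j t + xi2 k k0 c B y j t)).re
    with hX
  have hXc : ∀ j t, ((X t j : ℝ) : ℂ) = (y t j : ℂ) + (xi k k0 c B y j t + xi2 k k0 c B y j t) := by
    intro j t
    rw [hX]
    refine Complex.conj_eq_iff_re.mp ?_
    rw [map_add, map_add, xi_conj hs hk hk0 hc, xi2_conj hs hk hk0 hc, Complex.conj_ofReal]
  have hXf : ∀ j, (fun t => X t j) = fun t => Complex.reCLM
      ((y t j : ℂ) + (xi k k0 c B y j t + xi2 k k0 c B y j t)) := by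
    intro j; rfl
  refine ⟨X, fun t j => (u j t).re, fun j => ?_, fun j => (hu j).clm Complex.reCLM, fun j => ?_,
    fun j t => ?_⟩
  · have h1 : TA (1/4) (1/2) (fun t => xi k k0 c B y j t + xi2 k k0 c B y j t) :=
      (xi_TA hy hv hlow1 j).add ((xi2_TA hy hv hlow1 hlow2 j).mono le_rfl (by norm_num))
    have h2 := h1.clm Complex.reCLM
    have e : (fun t => X t j - y t j)
        = fun t => Complex.reCLM (xi k k0 c B y j t + xi2 k k0 c B y j t) := by
      funext t
      simp [hX]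
    rw [e]
    exact h2
  · rw [hXf j]
    exact Complex.reCLM.differentiable.comp (hd j).1
  · have h1 : deriv (fun t => X t j) = fun t => Complex.reCLM
        (deriv (fun t => (y t j : ℂ) + (xi k k0 c B y j t + xi2 k k0 c B y j t)) t) := by
      funext t
      rw [hXf j]
      exact (Complex.reCLM.hasFDerivAt.comp_hasDerivAt t ((hd j).1 t).hasDerivAt).deriv
    rw [h1]
    have h2 := Complex.reCLM.hasFDerivAt.comp_hasDerivAt t ((hd j).2 t)
    have h3 : (fun l => (X t l : ℂ)) = fun l => (y t l : ℂ) +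
        (xi k k0 c B y l t + xi2 k k0 c B y l t) := by
      funext l; exact hXc l t
    rw [h3]
    have h4 : Complex.reCLM (fF k k0 c B j (fun l => (y t l : ℂ) +
        (xi k k0 c B y l t + xi2 k k0 c B y l t)) t + u j t)
        = (fF k k0 c B j (fun l => (y t l : ℂ) +
        (xi k k0 c B y l t + xi2 k k0 c B y l t)) t).re + (u j t).re := by
      simp
    rw [← h4]
    exact h2

end real

end main

end Ton
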