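import Pool.Agent.helper42.TonBump

/-!
Periodization of the perturbation.
-/

noncomputable section

namespace Ton

open Real Filter Topology ContDiff

section per

variable {n : ℕ}

/-- time shift by an integer -/
def sh (n : ℕ) (m : ℤ) : (Fin n → ℝ) × ℝ := (0, (m : ℝ))

/-- periodization in time -/
def per (H : (Fin n → ℝ) × ℝ → ℝ) (p : (Fin n → ℝ) × ℝ) : ℝ := ∑' m : ℤ, H (p + sh n m)

variable {H : (Fin n → ℝ) × ℝ → ℝ} {K : Set ((Fin n → ℝ) × ℝ)} {a b : ℝ}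

lemma per_local (hK : IsClosed K) (hH : ∀ p, p ∉ K → H p = 0)
    (hab : ∀ p, H p ≠ 0 → a ≤ p.2 ∧ p.2 ≤ b) (p : (Fin n → ℝ) × ℝ) (m₀ : ℤ)
    (h : ∀ m : ℤ, m ≠ m₀ → p + sh n m ∉ K) :
    per H =ᶠ[𝓝 p] fun q => H (q + sh n m₀) := by
  classical
  set M : Finset ℤ := (Finset.Icc ⌊a - 1 - p.2⌋ ⌈b + 1 - p.2⌉).erase m₀ with hM
  have h1 : ∀ᶠ q in 𝓝 p, ∀ m ∈ M, q + sh n m ∉ K := by
    rw [Filter.eventually_all_finset]
    intro m hm
    have hc : Continuous (fun q : (Fin n → ℝ) × ℝ => q + sh n m) := continuous_id.add continuous_const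
    have hop : IsOpen Kᶜ := hK.isOpen_compl
    exact hc.continuousAt.eventually (hop.mem_nhds (h m (Finset.ne_of_mem_erase hm)))
  have h2 : ∀ᶠ q in 𝓝 p, |q.2 - p.2| < 1 := by
    have hc : Continuous (fun q : (Fin n → ℝ) × ℝ => |q.2 - p.2|) :=
      continuous_abs.comp (continuous_snd.sub continuous_const)
    have := hc.continuousAt (x := p)
    refine this.eventually_lt_const ?_
    simp
  filter_upwards [h1, h2] with q hq1 hq2
  unfold per
  refine tsum_eq_single m₀ fun m hm => ?_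
  by_cases hmM : m ∈ M
  · exact hH _ (hq1 m hmM)
  · by_contra hne
    obtain ⟨h3, h4⟩ := hab _ hne
    apply hmM
    rw [hM, Finset.mem_erase, Finset.mem_Icc]
    have e : (q + sh n m).2 = q.2 + m := rfl
    rw [e] at h3 h4
    rw [abs_lt] at hq2
    refine ⟨hm, ?_, ?_⟩
    · have : ((⌊a - 1 - p.2⌋ : ℤ) : ℝ) ≤ (m : ℝ) := (Int.floor_le _).trans (by linarith)
      exact_mod_cast this
    · have : (m : ℝ) ≤ ((⌈b + 1 - p.2⌉ : ℤ) : ℝ) := le_trans (by linarith) (Int.le_ceil _)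
      exact_mod_cast this

lemma exists_m0 (huniq : ∀ p, ∀ m m' : ℤ, p + sh n m ∈ K → p + sh n m' ∈ K → m = m')
    (p : (Fin n → ℝ) × ℝ) : ∃ m₀ : ℤ, ∀ m : ℤ, m ≠ m₀ → p + sh n m ∉ K := by
  by_cases h : ∃ m₀ : ℤ, p + sh n m₀ ∈ K
  · obtain ⟨m₀, hm₀⟩ := h
    exact ⟨m₀, fun m hm hmem => hm (huniq p m m₀ hmem hm₀)⟩
  · push Not at h
    exact ⟨0, fun m _ => h m⟩

lemma per_contDiff (hK : IsClosed K) (hH : ∀ p, p ∉ K → H p = 0)
    (hab : ∀ p, H p ≠ 0 → a ≤ p.2 ∧ p.2 ≤ b)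
    (huniq : ∀ p, ∀ m m' : ℤ, p + sh n m ∈ K → p + sh n m' ∈ K → m = m')
    (hsm : ContDiff ℝ ∞ H) : ContDiff ℝ ∞ (per H) := by
  rw [contDiff_iff_contDiffAt]
  intro p
  obtain ⟨m₀, hm₀⟩ := exists_m0 huniq p
  refine ContDiffAt.congr_of_eventuallyEq ?_ (per_local hK hH hab p m₀ hm₀)
  exact (hsm.comp (contDiff_id.add contDiff_const)).contDiffAt

lemma per_bound (hK : IsClosed K) (hH : ∀ p, p ∉ K → H p = 0)
    (hab : ∀ p, H p ≠ 0 → a ≤ p.2 ∧ p.2 ≤ b)
    (huniq : ∀ p, ∀ m m' : ℤ, p + sh n m ∈ K → p + sh n m' ∈ K → m = m')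
    {i : ℕ} {C : ℝ} (hC : ∀ p, ‖iteratedFDeriv ℝ i H p‖ ≤ C) (p : (Fin n → ℝ) × ℝ) :
    ‖iteratedFDeriv ℝ i (per H) p‖ ≤ C := by
  obtain ⟨m₀, hm₀⟩ := exists_m0 huniq p
  have h1 := (per_local hK hH hab p m₀ hm₀).iteratedFDeriv ℝ i |>.eq_of_nhds
  rw [h1, iteratedFDeriv_comp_add_right]
  exact hC _

lemma per_time (p : (Fin n → ℝ) × ℝ) (l : ℤ) : per H (p + sh n l) = per H p := by
  unfold per
  have : ∀ m : ℤ, H (p + sh n l + sh n m) = H (p + sh n (l + m)) := by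
    intro m
    congr 1
    unfold sh
    rw [add_assoc]
    congr 1
    simp
  simp only [this]
  exact (Equiv.addLeft l).tsum_eq (fun m => H (p + sh n m))

lemma per_space {v : (Fin n → ℝ) × ℝ} (hv : ∀ p, H (p + v) = H p) (p : (Fin n → ℝ) × ℝ) :
    per H (p + v) = per H p := by
  unfold per
  refine tsum_congr fun m => ?_
  rw [add_right_comm, hv]

end per

section main

variable {n : ℕ} {w X : Fin n → ℝ → ℝ} {ζ : Fin 3 → ((Fin n → ℝ) →L[ℝ] ℝ)} {Z : Fin 3 → ℝ → ℝ}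

/-- support set -/
def KK (ζ : Fin 3 → ((Fin n → ℝ) →L[ℝ] ℝ)) (Z : Fin 3 → ℝ → ℝ) (s₀ : ℝ) :
    Set ((Fin n → ℝ) × ℝ) :=
  {p | s₀ ≤ p.2 ∧ ∀ i, 40 * (jb p.2 ^ (7/20 : ℝ) * |sin (π * (ζ i p.1 - Z i p.2))|) ≤ 1}

lemma KK_closed (hZ : ∀ i, Differentiable ℝ (Z i)) (s₀ : ℝ) : IsClosed (KK ζ Z s₀) := by
  have h : KK ζ Z s₀ = {p | s₀ ≤ p.2} ∩ ⋂ i,
      {p : (Fin n → ℝ) × ℝ | 40 * (jb p.2 ^ (7/20 : ℝ) * |sin (π * (ζ i p.1 - Z i p.2))|) ≤ 1} := by
    ext p
    simp [KK]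
  rw [h]
  refine IsClosed.inter (isClosed_le continuous_const continuous_snd) (isClosed_iInter fun i => ?_)
  refine isClosed_le (continuous_const.mul (Continuous.mul ?_ ?_)) continuous_const
  · exact (jb_rpow_continuous _).comp continuous_snd
  · exact continuous_abs.comp (Real.continuous_sin.comp (continuous_const.mul
      (((ζ i).continuous.comp continuous_fst).sub ((hZ i).continuous.comp continuous_snd))))

lemma KK_uniq {s₀ : ℝ} (hs₀ : 1 ≤ s₀)
    (hsep : ∀ s, s₀ ≤ s → ∀ m : ℝ, 1 ≤ m → ∃ i : Fin 3,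
      s ^ (-(7/20) : ℝ) / 9 ≤ |sin (π * (Z i (s + m) - Z i s))|) (p : (Fin n → ℝ) × ℝ)
    (m m' : ℤ) (h : p + sh n m ∈ KK ζ Z s₀) (h' : p + sh n m' ∈ KK ζ Z s₀) : m = m' := by
  have key : ∀ m m' : ℤ, p + sh n m ∈ KK ζ Z s₀ → p + sh n m' ∈ KK ζ Z s₀ → m < m' → False := by
    intro m m' h h' hlt
    obtain ⟨h1, h2⟩ := h
    obtain ⟨h3, h4⟩ := h'
    have e : ∀ m : ℤ, (p + sh n m).2 = p.2 + m := fun m => rfl
    have e' : ∀ m : ℤ, (p + sh n m).1 = p.1 := fun m => by simp [sh]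
    simp only [e, e'] at h1 h2 h3 h4
    have hm1 : (1:ℝ) ≤ (m' : ℝ) - m := by
      have : m + 1 ≤ m' := hlt
      have : ((m + 1 : ℤ) : ℝ) ≤ (m' : ℝ) := by exact_mod_cast this
      push_cast at this
      linarith
    obtain ⟨i, hi⟩ := hsep (p.2 + m) h1 (m' - m) hm1
    have e2 : p.2 + (m:ℝ) + ((m':ℝ) - m) = p.2 + m' := by ring
    rw [e2] at hi
    have hs0 : 0 < p.2 + (m:ℝ) := by linarith
    have hb : ∀ t, p.2 + (m:ℝ) ≤ t → 40 * (jb t ^ (7/20 : ℝ) * |sin (π * (ζ i p.1 - Z i t))|) ≤ 1 →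
        |sin (π * (ζ i p.1 - Z i t))| ≤ (p.2 + (m:ℝ)) ^ (-(7/20) : ℝ) / 40 := by
      intro t ht h5
      have h6 : (p.2 + (m:ℝ)) ^ (7/20 : ℝ) ≤ jb t ^ (7/20 : ℝ) :=
        Real.rpow_le_rpow hs0.le (ht.trans ((le_abs_self t).trans (abs_le_jb t))) (by norm_num)
      have h7 : (p.2 + (m:ℝ)) ^ (7/20 : ℝ) * |sin (π * (ζ i p.1 - Z i t))| ≤
          jb t ^ (7/20 : ℝ) * |sin (π * (ζ i p.1 - Z i t))| :=
        mul_le_mul_of_nonneg_right h6 (abs_nonneg _)
      have h8 : 0 < (p.2 + (m:ℝ)) ^ (7/20 : ℝ) := Real.rpow_pos_of_pos hs0 _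
      rw [Real.rpow_neg hs0.le, le_div_iff₀ (by norm_num), ← one_div, le_div_iff₀ h8]
      linarith
    have hA := hb (p.2 + m) le_rfl (h2 i)
    have hB := hb (p.2 + m') (by linarith) (h4 i)
    have e3 : π * (Z i (p.2 + m') - Z i (p.2 + m))
        = π * (ζ i p.1 - Z i (p.2 + m)) - π * (ζ i p.1 - Z i (p.2 + m')) := by ring
    rw [e3, Real.sin_sub] at hi
    set A := π * (ζ i p.1 - Z i (p.2 + m))
    set B := π * (ζ i p.1 - Z i (p.2 + m'))
    have h9 : |sin A * cos B - cos A * sin B| ≤ |sin A| + |sin B| := by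
      refine (abs_sub _ _).trans ?_
      rw [abs_mul, abs_mul]
      have hcB := Real.abs_cos_le_one B
      have hcA := Real.abs_cos_le_one A
      nlinarith [abs_nonneg (sin A), abs_nonneg (sin B)]
    have h10 : 0 < (p.2 + (m:ℝ)) ^ (-(7/20) : ℝ) := Real.rpow_pos_of_pos hs0 _
    linarith
  rcases lt_trichotomy m m' with hlt | heq | hgt
  · exact (key m m' h h' hlt).elim
  · exact heq
  · exact (key m' m h' h hgt).elim

/-- uniform bounds for the time cut-offs -/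
lemma th_bound (i : ℕ) : ∃ C : ℝ, 0 ≤ C ∧ ∀ (j : ℕ) (p : (Fin n → ℝ) × ℝ),
    ‖iteratedFDeriv ℝ i (fun p : (Fin n → ℝ) × ℝ => th j p.2) p‖ ≤ C := by
  choose C hC0 hC using BdD_S.2
  set CC := ∑ l ∈ Finset.range (i + 1), C l with hCC
  have hCl : ∀ l ≤ i, C l ≤ CC := fun l hl =>
    Finset.single_le_sum (f := C) (fun l _ => hC0 l) (Finset.mem_range.mpr (by omega))
  have hCC0 : 0 ≤ CC := Finset.sum_nonneg fun l _ => hC0 l
  have one : ∀ (lam : ℝ), 0 ≤ lam → lam ≤ 1 → ContDiff ℝ ∞ (fun p : (Fin n → ℝ) × ℝ =>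
      Real.smoothTransition (p.2 * lam - 1)) ∧ ∀ p : (Fin n → ℝ) × ℝ,
      ‖iteratedFDeriv ℝ i (fun p : (Fin n → ℝ) × ℝ => Real.smoothTransition (p.2 * lam - 1)) p‖
        ≤ (i.factorial : ℝ) * CC * 1 ^ i := by
    intro lam h0 h1
    have hsm : ContDiff ℝ ∞ (fun p : (Fin n → ℝ) × ℝ => p.2 * lam - 1) :=
      (contDiff_snd.mul contDiff_const).sub contDiff_const
    refine ⟨BdD_S.1.comp hsm, fun p => ?_⟩
    refine norm_iteratedFDeriv_comp_le (N := ∞) (n := i) BdD_S.1 hsm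
      (by exact_mod_cast le_top) p (C := CC) (D := 1)
      (fun l hl => (hC l _).trans (hCl l hl)) ?_
    intro l hl1 hl
    obtain ⟨m, rfl⟩ : ∃ m, l = m + 1 := ⟨l - 1, by omega⟩
    rw [← norm_iteratedFDeriv_fderiv]
    have hfd : fderiv ℝ (fun p : (Fin n → ℝ) × ℝ => p.2 * lam - 1)
        = fun _ => lam • ContinuousLinearMap.snd ℝ (Fin n → ℝ) ℝ := by
      funext q
      have h2 : HasFDerivAt (fun p : (Fin n → ℝ) × ℝ => p.2)
        (ContinuousLinearMap.snd ℝ (Fin n → ℝ) ℝ) q := hasFDerivAt_snd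
      exact ((h2.mul_const lam).sub_const 1).fderiv
    rw [hfd, one_pow]
    rcases Nat.eq_zero_or_pos m with h | h
    · subst h
      rw [norm_iteratedFDeriv_zero]
      calc ‖lam • ContinuousLinearMap.snd ℝ (Fin n → ℝ) ℝ‖
          ≤ ‖lam‖ * ‖ContinuousLinearMap.snd ℝ (Fin n → ℝ) ℝ‖ :=
            ContinuousLinearMap.opNorm_smul_le _ _
        _ ≤ 1 * 1 := by
          refine mul_le_mul ?_ (ContinuousLinearMap.norm_snd_le _ _ _) (norm_nonneg _) zero_le_one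
          rw [Real.norm_of_nonneg h0]; exact h1
        _ = 1 := one_mul 1
    · rw [iteratedFDeriv_const_of_ne h.ne']
      simp
  refine ⟨(i.factorial : ℝ) * CC * 1 ^ i + (i.factorial : ℝ) * CC * 1 ^ i, by positivity,
    fun j p => ?_⟩
  obtain ⟨c1, h1⟩ := one ((1/2) ^ j) (by positivity) (pow_le_one₀ (by norm_num) (by norm_num))
  obtain ⟨c2, h2⟩ := one ((1/2) ^ (j+1)) (by positivity) (pow_le_one₀ (by norm_num) (by norm_num))
  have e : iteratedFDeriv ℝ i (fun p : (Fin n → ℝ) × ℝ => th j p.2) p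
      = iteratedFDeriv ℝ i (fun p : (Fin n → ℝ) × ℝ =>
          Real.smoothTransition (p.2 * (1/2) ^ j - 1)) p
        - iteratedFDeriv ℝ i (fun p : (Fin n → ℝ) × ℝ =>
          Real.smoothTransition (p.2 * (1/2) ^ (j+1) - 1)) p := by
    exact iteratedFDeriv_sub_apply ((c1.of_le (by exact_mod_cast le_top)).contDiffAt)
      ((c2.of_le (by exact_mod_cast le_top)).contDiffAt)
  rw [e]
  exact (norm_sub_le _ _).trans (add_le_add (h1 p) (h2 p))

lemma th_contDiff (j : ℕ) : ContDiff ℝ ∞ (fun p : (Fin n → ℝ) × ℝ => th j p.2) := by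
  have hsm : ∀ lam : ℝ, ContDiff ℝ ∞ (fun p : (Fin n → ℝ) × ℝ => p.2 * lam - 1) := fun lam =>
    (contDiff_snd.mul contDiff_const).sub contDiff_const
  exact (BdD_S.1.comp (hsm _)).sub (BdD_S.1.comp (hsm _))

/-- the blocks -/
def HH (w X : Fin n → ℝ → ℝ) (ζ : Fin 3 → ((Fin n → ℝ) →L[ℝ] ℝ)) (Z : Fin 3 → ℝ → ℝ) (j : ℕ)
    (p : (Fin n → ℝ) × ℝ) : ℝ := th j p.2 * Gful w X ζ Z p

lemma HH_bound (hG : GC (7/20) (3/4) (Gful w X ζ Z)) (i : ℕ) (hi : i ≤ 2) :
    ∃ C : ℝ, 0 ≤ C ∧ ∀ (j : ℕ) (p : (Fin n → ℝ) × ℝ),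
      ‖iteratedFDeriv ℝ i (HH w X ζ Z j) p‖ ≤ C * ((2:ℝ) ^ (-(1/20) : ℝ)) ^ j := by
  choose D hD0 hD using hG.2
  choose C hC0 hC using th_bound (n := n)
  refine ⟨∑ l ∈ Finset.range (i + 1), (i.choose l : ℝ) * C l * D (i - l), ?_, fun j p => ?_⟩
  · exact Finset.sum_nonneg fun l _ => mul_nonneg (mul_nonneg (Nat.cast_nonneg _) (hC0 _)) (hD0 _)
  · by_cases hp : p.2 < 2 ^ j
    · have : HH w X ζ Z j =ᶠ[𝓝 p] fun _ => 0 := by
        have h1 : ∀ᶠ q in 𝓝 p, q.2 < (2:ℝ) ^ j :=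
          (continuous_snd.continuousAt (x := p)).eventually_lt_const hp
        filter_upwards [h1] with q hq
        unfold HH
        rw [th_zero_left hq.le, zero_mul]
      rw [this.iteratedFDeriv ℝ i |>.eq_of_nhds, iteratedFDeriv_fun_zero]
      have h2 : 0 ≤ ∑ l ∈ Finset.range (i + 1), (i.choose l : ℝ) * C l * D (i - l) :=
        Finset.sum_nonneg fun l _ => mul_nonneg (mul_nonneg (Nat.cast_nonneg _) (hC0 _)) (hD0 _)
      simp only [Pi.zero_apply, norm_zero]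
      positivity
    · push Not at hp
      have hj : (jb p.2) ^ (-(1/20) : ℝ) ≤ ((2:ℝ) ^ (-(1/20) : ℝ)) ^ j := by
        rw [← Real.rpow_natCast, ← Real.rpow_mul (by norm_num), mul_comm, Real.rpow_mul (by norm_num),
          Real.rpow_natCast]
        exact Real.rpow_le_rpow_of_nonpos (by positivity)
          (hp.trans ((le_abs_self _).trans (abs_le_jb _))) (by norm_num)
      refine (norm_iteratedFDeriv_mul_le (N := ∞) (th_contDiff j) hG.1 p
        (by exact_mod_cast le_top)).trans ?_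
      rw [Finset.sum_mul]
      refine Finset.sum_le_sum fun l hl => ?_
      have hl' : l ≤ i := Nat.lt_succ_iff.mp (Finset.mem_range.mp hl)
      have e2 : (i.choose l : ℝ) * C l * D (i - l) * ((2:ℝ) ^ (-(1/20) : ℝ)) ^ j
          = ((i.choose l : ℝ) * C l) * (D (i - l) * ((2:ℝ) ^ (-(1/20) : ℝ)) ^ j) := by ring
      rw [e2]
      refine mul_le_mul ?_ ?_ (norm_nonneg _) (mul_nonneg (Nat.cast_nonneg _) (hC0 _))
      · exact mul_le_mul_of_nonneg_left (hC l j p) (Nat.cast_nonneg _)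
      · refine (hD _ p).trans (mul_le_mul_of_nonneg_left ?_ (hD0 _))
        refine le_trans (jb_rpow_le ?_ _) hj
        have : ((i - l : ℕ) : ℝ) ≤ 2 := by
          have : i - l ≤ 2 := by omega
          exact_mod_cast this
        linarith

/-- The perturbation. -/
theorem bump_exists (hζ : ∀ i (k : Fin n → ℤ), ∃ l : ℤ, ζ i (fun j => (k j : ℝ)) = l)
    (hw : ∀ j, TA (1/4) (3/4) (w j)) (hX : ∀ j, Differentiable ℝ (X j))
    (hX' : ∀ j, TA (1/4) (-(1/4)) (deriv (X j))) (hZ : ∀ i, Differentiable ℝ (Z i))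
    (hZ' : ∀ i, TA (7/20) 0 (deriv (Z i))) (hZX : ∀ i t, Z i t = ζ i (fun j => X j t))
    {s₀ : ℝ} (hs₀ : 1 ≤ s₀)
    (hsep : ∀ s, s₀ ≤ s → ∀ m : ℝ, 1 ≤ m → ∃ i : Fin 3,
      s ^ (-(7/20) : ℝ) / 9 ≤ |sin (π * (Z i (s + m) - Z i s))|) {ε : ℝ} (hε : 0 < ε) :
    ∃ g : (Fin n → ℝ) × ℝ → ℝ, ContDiff ℝ 2 g ∧
      (∀ (k : Fin n → ℤ) (l : ℤ) (x : Fin n → ℝ) (t : ℝ), g (x + (fun j => (k j : ℝ)), t + l)
        = g (x, t)) ∧
      (∀ i ≤ 2, ∀ p, ‖iteratedFDeriv ℝ i g p‖ < ε) ∧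
      ∃ T : ℝ, ∀ t, T ≤ t → ∀ v : Fin n → ℝ,
        fderiv ℝ g (fun j => X j t, t) (v, 0) = ∑ j, w j t * v j := by
  have hG := Gful_GC (ζ := ζ) hw hX hX' hZ hZ'
  have hKc := KK_closed (ζ := ζ) hZ s₀
  have huniq := KK_uniq (ζ := ζ) hs₀ hsep
  obtain ⟨J₀, hJ₀⟩ := pow_unbounded_of_one_lt s₀ (by norm_num : (1:ℝ) < 2)
  -- block facts
  have hsmH : ∀ j, ContDiff ℝ ∞ (HH w X ζ Z j) := fun j => (th_contDiff j).mul hG.1
  have hHK : ∀ j, J₀ ≤ j → ∀ p, p ∉ KK ζ Z s₀ → HH w X ζ Z j p = 0 := by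
    intro j hj p hp
    unfold KK at hp
    simp only [Set.mem_setOf_eq, not_and_or, not_le, not_forall] at hp
    rcases hp with hp | ⟨i, hi⟩
    · unfold HH
      rw [th_zero_left, zero_mul]
      exact (hp.le.trans hJ₀.le).trans (pow_le_pow_right₀ (by norm_num) hj)
    · unfold HH
      rw [Gful_zero hi, mul_zero]
  have hab : ∀ j, ∀ p, HH w X ζ Z j p ≠ 0 → (2:ℝ) ^ j ≤ p.2 ∧ p.2 ≤ 2 ^ (j + 2) := by
    intro j p hp
    constructor
    · by_contra h
      push Not at h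
      exact hp (by unfold HH; rw [th_zero_left h.le, zero_mul])
    · by_contra h
      push Not at h
      exact hp (by unfold HH; rw [th_zero_right h.le, zero_mul])
  set r : ℝ := (2:ℝ) ^ (-(1/20) : ℝ) with hr
  have hr0 : 0 < r := Real.rpow_pos_of_pos (by norm_num) _
  have hr1 : r < 1 := Real.rpow_lt_one_of_one_lt_of_neg (by norm_num) (by norm_num)
  choose! C hC0 hC using (fun i hi => HH_bound (ζ := ζ) (Z := Z) (w := w) (X := X) hG i hi)
  set CC := C 0 + C 1 + C 2 with hCCdef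
  have hCC0 : 0 ≤ CC := by
    have := hC0 0 (by norm_num); have := hC0 1 (by norm_num); have := hC0 2 (by norm_num)
    positivity
  have hCi : ∀ i ≤ 2, C i ≤ CC := by
    intro i hi
    have h0 := hC0 0 (by norm_num); have h1 := hC0 1 (by norm_num); have h2 := hC0 2 (by norm_num)
    interval_cases i <;> linarith
  -- choose J
  have hJ : ∃ J, J₀ ≤ J ∧ CC * r ^ J * (1 - r)⁻¹ < ε := by
    have ht : Tendsto (fun J : ℕ => CC * r ^ J * (1 - r)⁻¹) atTop (𝓝 (CC * 0 * (1 - r)⁻¹)) :=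
      ((tendsto_pow_atTop_nhds_zero_of_lt_one hr0.le hr1).const_mul CC).mul_const _
    rw [mul_zero, zero_mul] at ht
    obtain ⟨N, hN⟩ := eventually_atTop.mp (ht.eventually_lt_const hε)
    exact ⟨max J₀ N, le_max_left _ _, hN _ (le_max_right _ _)⟩
  obtain ⟨J, hJJ₀, hJε⟩ := hJ
  set h : ℕ → (Fin n → ℝ) × ℝ → ℝ := fun j => per (HH w X ζ Z (J + j)) with hhdef
  have hsm : ∀ j, ContDiff ℝ ∞ (h j) := fun j =>
    per_contDiff hKc (hHK (J + j) (by omega)) (hab (J + j)) huniq (hsmH (J + j))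
  have hbd : ∀ i ≤ 2, ∀ j p, ‖iteratedFDeriv ℝ i (h j) p‖ ≤ CC * r ^ (J + j) := by
    intro i hi j p
    refine per_bound hKc (hHK (J + j) (by omega)) (hab (J + j)) huniq (fun q => ?_) p
    exact (hC i hi (J + j) q).trans (mul_le_mul_of_nonneg_right (hCi i hi) (by positivity))
  have hsumm : Summable (fun j => CC * r ^ (J + j)) := by
    simp_rw [pow_add]
    exact ((summable_geometric_of_lt_one hr0.le hr1).mul_left _).mul_left _
  have htsum : ∑' j, CC * r ^ (J + j) = CC * r ^ J * (1 - r)⁻¹ := by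
    simp_rw [pow_add, ← mul_assoc]
    rw [tsum_mul_left, tsum_geometric_of_lt_one hr0.le hr1]
  have hcd2 : ∀ j, ContDiff ℝ 2 (h j) := fun j => contDiff_infty.mp (hsm j) 2
  have hv : ∀ k : ℕ, (k : ℕ∞) ≤ (2 : ℕ∞) → Summable (fun j => CC * r ^ (J + j)) := fun _ _ => hsumm
  have h'f : ∀ (k : ℕ) (j : ℕ) (x : (Fin n → ℝ) × ℝ), (k : ℕ∞) ≤ (2 : ℕ∞) →
      ‖iteratedFDeriv ℝ k (h j) x‖ ≤ CC * r ^ (J + j) := by
    intro k j x hk
    exact hbd k (by exact_mod_cast hk) j x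
  refine ⟨fun p => ∑' j, h j p, ?_, ?_, ?_, 2 ^ (J + 1), ?_⟩
  · exact contDiff_tsum (N := (2 : ℕ∞)) (v := fun _ j => CC * r ^ (J + j)) hcd2 hv h'f
  · intro k l x t
    refine tsum_congr fun j => ?_
    have e : (x + (fun j => (k j : ℝ)), t + (l:ℝ)) = (x, t) + (fun j => (k j : ℝ), 0) + sh n l := by
      simp [sh]
    rw [e, hhdef]
    simp only
    rw [per_time, per_space]
    intro p
    unfold HH
    rw [Gful_periodic hζ]
    simp
  · intro i hi p
    have h1 := iteratedFDeriv_tsum_apply (N := (2 : ℕ∞)) (v := fun _ j => CC * r ^ (J + j))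
      hcd2 hv h'f (k := i) (by exact_mod_cast hi) p
    rw [h1]
    refine lt_of_le_of_lt ?_ hJε
    rw [← htsum]
    exact tsum_of_norm_bounded hsumm.hasSum fun j => hbd i hi j p
  · intro t ht v
    set p : (Fin n → ℝ) × ℝ := (fun j => X j t, t) with hp
    have hs₀t : s₀ ≤ t := by
      refine hJ₀.le.trans (le_trans ?_ ht)
      exact pow_le_pow_right₀ (by norm_num) (by omega)
    have hpK : p ∈ KK ζ Z s₀ := by
      refine ⟨hs₀t, fun i => ?_⟩
      have : ζ i p.1 - Z i p.2 = 0 := by rw [hZX, hp]; simp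
      rw [this]
      simp
    have hm0 : ∀ m : ℤ, m ≠ 0 → p + sh n m ∉ KK ζ Z s₀ := by
      intro m hm hmem
      refine hm (huniq p m 0 hmem ?_)
      have : p + sh n 0 = p := by simp [sh]
      rw [this]
      exact hpK
    have hloc : ∀ j, fderiv ℝ (h j) p = fderiv ℝ (HH w X ζ Z (J + j)) p := by
      intro j
      have h1 := per_local hKc (hHK (J + j) (by omega)) (hab (J + j)) p 0 hm0
      have h2 : (fun q => HH w X ζ Z (J + j) (q + sh n 0)) = HH w X ζ Z (J + j) := by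
        funext q
        have : q + sh n 0 = q := by simp [sh]
        rw [this]
      rw [h2] at h1
      exact h1.fderiv_eq
    have hderiv : ∀ j, fderiv ℝ (HH w X ζ Z (J + j)) p (v, 0)
        = th (J + j) t * ∑ j, w j t * v j := by
      intro j
      have h1 : HasFDerivAt (fun q : (Fin n → ℝ) × ℝ => q.2)
        (ContinuousLinearMap.snd ℝ (Fin n → ℝ) ℝ) p := hasFDerivAt_snd
      have hth : Differentiable ℝ (th (J + j)) := by
        have hS : Differentiable ℝ Real.smoothTransition :=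
          BdD_S.1.differentiable (by simp)
        unfold th
        exact (hS.comp ((differentiable_id.mul_const _).sub_const _)).sub
          (hS.comp ((differentiable_id.mul_const _).sub_const _))
      have h2 := (hth p.2).hasDerivAt.comp_hasFDerivAt p h1
      have h3 := (hG.1.differentiable (by simp) p).hasFDerivAt
      have h4 := h2.mul h3
      have h5 : fderiv ℝ (HH w X ζ Z (J + j)) p = _ := h4.fderiv
      rw [h5]
      simp only [ContinuousLinearMap.add_apply, ContinuousLinearMap.smul_apply,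
        ContinuousLinearMap.coe_snd', smul_eq_mul, mul_zero, add_zero]
      rw [hp, Gful_fderiv hw hX hZ hZX]
      rfl
    have hfd : fderiv ℝ (fun p => ∑' j, h j p) p = ∑' j, fderiv ℝ (h j) p := by
      refine fderiv_tsum_apply (u := fun j => CC * r ^ (J + j)) hsumm
        (fun j => (hsm j).differentiable (by simp)) (fun j x => ?_) (x₀ := p) ?_ p
      · have := hbd 1 (by norm_num) j x
        rwa [norm_iteratedFDeriv_one] at this
      · refine Summable.of_norm_bounded hsumm fun j => ?_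
        have := hbd 0 (by norm_num) j p
        rwa [norm_iteratedFDeriv_zero] at this
    have hsf : Summable (fun j => fderiv ℝ (h j) p) := by
      refine Summable.of_norm_bounded hsumm fun j => ?_
      have := hbd 1 (by norm_num) j p
      rwa [norm_iteratedFDeriv_one] at this
    rw [hfd]
    have h6 : (∑' j, fderiv ℝ (h j) p) (v, 0) = ∑' j, (fderiv ℝ (h j) p) (v, 0) := by
      exact (ContinuousLinearMap.apply ℝ ℝ ((v, 0) : (Fin n → ℝ) × ℝ)).map_tsum hsf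
    rw [h6]
    have h7 : ∀ j, (fderiv ℝ (h j) p) (v, 0) = th (J + j) t * ∑ j, w j t * v j := by
      intro j
      rw [hloc, hderiv]
    simp_rw [h7]
    rw [tsum_mul_right, (th_hasSum ht).tsum_eq, one_mul]

end main

end Ton
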