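import Pool.Agent.helper42.TonNewton
import Pool.Agent.helper42.TonPath
import Pool.Agent.helper42.TonPer

/-!
Assembly: density of escaping orbits.
-/

noncomputable section

namespace Ton

open Set Filter Topology Matrix Complex
open scoped NNReal ContDiff

/-- a good base for the lattice direction -/
lemma exists_R {n : ℕ} (𝒦 : Finset (Fin n → ℤ)) (h0 : ∀ K ∈ 𝒦, K ≠ 0) :
    ∃ R : ℕ, ∀ K ∈ 𝒦, (∑ l, K l * (R : ℤ) ^ (l : ℕ)) ≠ 0 := by
  classical
  by_contra hcon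
  push Not at hcon
  set P : (Fin n → ℤ) → Polynomial ℤ := fun K =>
    ∑ l : Fin n, Polynomial.C (K l) * Polynomial.X ^ (l : ℕ) with hP
  have hPne : ∀ K, K ≠ 0 → P K ≠ 0 := by
    intro K hK hz
    apply hK
    funext i
    have : (P K).coeff (i : ℕ) = K i := by
      simp only [hP, Polynomial.finsetSum_coeff, Polynomial.coeff_C_mul, Polynomial.coeff_X_pow]
      rw [Finset.sum_eq_single i]
      · simp
      · intro j _ hj
        have : (i : ℕ) ≠ (j : ℕ) := fun h => hj (Fin.ext h.symm)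
        simp [this]
      · simp
    rw [hz] at this
    simpa using this.symm
  have hprod : ∏ K ∈ 𝒦, P K ≠ 0 := Finset.prod_ne_zero_iff.mpr fun K hK => hPne K (h0 K hK)
  apply hprod
  refine Polynomial.eq_zero_of_infinite_isRoot _ ?_
  refine Set.Infinite.mono (s := Set.range (fun R : ℕ => (R : ℤ))) ?_
    (Set.infinite_range_of_injective Nat.cast_injective)
  rintro _ ⟨R, rfl⟩
  obtain ⟨K, hK, hR⟩ := hcon R
  rw [Set.mem_setOf_eq, Polynomial.IsRoot.def, Polynomial.eval_prod]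
  refine Finset.prod_eq_zero hK ?_
  simp only [hP, Polynomial.eval_finset_sum, Polynomial.eval_mul, Polynomial.eval_C,
    Polynomial.eval_pow, Polynomial.eval_X]
  exact hR

section path

variable {n : ℕ} (hn : 4 ≤ n)

/-- coordinate indices `1, 2, 3` -/
def idx (i : Fin 3) : Fin n := ⟨i + 1, by have := i.2; omega⟩

/-- coordinate index `0` -/
def ix0 : Fin n := ⟨0, by omega⟩

lemma idx_inj {i j : Fin 3} (h : idx hn i = idx hn j) : i = j := by
  have := congrArg Fin.val h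
  simp only [idx] at this
  exact Fin.ext (by omega)

lemma ix0_ne (i : Fin 3) : ix0 hn ≠ idx hn i := by
  intro h
  have := congrArg Fin.val h
  simp only [idx, ix0] at this
  omega

/-- the averaged path -/
def yy (R : ℕ) (Λ : ℝ) (t : ℝ) (j : Fin n) : ℝ :=
  Λ * (R : ℝ) ^ (j : ℕ) * YY (-(1/4)) t + ∑ i : Fin 3, (if j = idx hn i then 1 else 0) * YY (av i) t

lemma yy_hasDerivAt (R : ℕ) (Λ : ℝ) (j : Fin n) (t : ℝ) :
    HasDerivAt (fun t => yy hn R Λ t j) (Λ * (R : ℝ) ^ (j : ℕ) * jb t ^ (1/4 : ℝ)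
      + ∑ i : Fin 3, (if j = idx hn i then 1 else 0) * jb t ^ (-(av i))) t := by
  unfold yy
  refine HasDerivAt.add ?_ (HasDerivAt.fun_sum fun i _ => (YY_hasDerivAt (av i) t).const_mul _)
  have := (YY_hasDerivAt (-(1/4)) t).const_mul (Λ * (R : ℝ) ^ (j : ℕ))
  rwa [neg_neg] at this

lemma av_nonneg (i : Fin 3) : 0 ≤ av i := by
  fin_cases i <;> norm_num [av]

lemma yy_deriv (R : ℕ) (Λ : ℝ) (j : Fin n) : deriv (fun t => yy hn R Λ t j)
    = fun t => Λ * (R : ℝ) ^ (j : ℕ) * jb t ^ (1/4 : ℝ)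
      + ∑ i : Fin 3, (if j = idx hn i then 1 else 0) * jb t ^ (-(av i)) := by
  funext t; exact (yy_hasDerivAt hn R Λ j t).deriv

lemma yy_TA (R : ℕ) (Λ : ℝ) (j : Fin n) :
    TA (-1) (-(1/4)) (deriv (fun t => yy hn R Λ t j)) := by
  rw [yy_deriv]
  refine TA.add (TA.const_mul _ (TA_jb_rpow (1/4))) (TA.sum _ fun i _ => TA.const_mul _ ?_)
  exact (TA_jb_rpow (-(av i))).mono le_rfl (by have := av_nonneg i; linarith)

/-- frequency along the path -/
lemma yy_freq (R : ℕ) (Λ : ℝ) (K : Fin n → ℤ) (K0 : ℤ) (t : ℝ) :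
    ∑ l, (K l : ℝ) * deriv (fun s => yy hn R Λ s l) t + (K0 : ℝ)
      = Λ * ((∑ l, K l * (R : ℤ) ^ (l : ℕ) : ℤ) : ℝ) * jb t ^ (1/4 : ℝ)
        + (∑ i : Fin 3, (K (idx hn i) : ℝ) * jb t ^ (-(av i)) + K0) := by
  simp only [yy_deriv, mul_add, Finset.sum_add_distrib]
  have e1 : ∑ l, (K l : ℝ) * (Λ * (R : ℝ) ^ (l : ℕ) * jb t ^ (1/4 : ℝ))
      = Λ * ((∑ l, K l * (R : ℤ) ^ (l : ℕ) : ℤ) : ℝ) * jb t ^ (1/4 : ℝ) := by
    push_cast
    rw [Finset.mul_sum, Finset.sum_mul]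
    refine Finset.sum_congr rfl fun l _ => ?_
    ring
  have e2 : ∑ l, (K l : ℝ) * ∑ i : Fin 3, (if l = idx hn i then 1 else 0) * jb t ^ (-(av i))
      = ∑ i : Fin 3, (K (idx hn i) : ℝ) * jb t ^ (-(av i)) := by
    simp only [Finset.mul_sum]
    rw [Finset.sum_comm]
    refine Finset.sum_congr rfl fun i _ => ?_
    rw [Finset.sum_eq_single (idx hn i)]
    · simp
    · intro l _ hl
      simp [hl]
    · simp
  rw [e1, e2]
  ring

lemma yy_freq_low (R : ℕ) {Λ C : ℝ} (hΛ : C + 1 ≤ Λ) (K : Fin n → ℤ) (K0 : ℤ)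
    (hR : (∑ l, K l * (R : ℤ) ^ (l : ℕ)) ≠ 0)
    (hC : ∑ l, |(K l : ℝ)| + |(K0 : ℝ)| ≤ C) (t : ℝ) :
    jb t ^ (1/4 : ℝ) ≤ |∑ l, (K l : ℝ) * deriv (fun s => yy hn R Λ s l) t + (K0 : ℝ)| := by
  rw [yy_freq]
  set m : ℤ := ∑ l, K l * (R : ℤ) ^ (l : ℕ)
  have hm : (1:ℝ) ≤ |(m : ℝ)| := by
    have : 1 ≤ |m| := Int.one_le_abs hR
    exact_mod_cast this
  have hj1 : 1 ≤ jb t ^ (1/4 : ℝ) := one_le_jb_rpow (by norm_num) t
  have hC0 : 0 ≤ C := le_trans (by positivity) hC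
  have h1 : |∑ i : Fin 3, (K (idx hn i) : ℝ) * jb t ^ (-(av i)) + K0| ≤ C := by
    refine le_trans ?_ hC
    refine (abs_add_le _ _).trans (add_le_add ?_ le_rfl)
    refine (Finset.abs_sum_le_sum_abs _ _).trans ?_
    have h2 : ∀ i : Fin 3, |(K (idx hn i) : ℝ) * jb t ^ (-(av i))| ≤ |(K (idx hn i) : ℝ)| := by
      intro i
      rw [abs_mul, abs_of_pos (jb_rpow_pos _ _)]
      have : jb t ^ (-(av i)) ≤ 1 :=
        Real.rpow_le_one_of_one_le_of_nonpos (one_le_jb t) (by have := av_nonneg i; linarith)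
      nlinarith [abs_nonneg (K (idx hn i) : ℝ)]
    refine (Finset.sum_le_sum fun i _ => h2 i).trans ?_
    have h3 : ∑ i : Fin 3, |(K (idx hn i) : ℝ)|
        = ∑ l ∈ Finset.univ.image (idx hn), |(K l : ℝ)| := by
      rw [Finset.sum_image]
      intro a _ b _ hab
      exact idx_inj hn hab
    rw [h3]
    exact Finset.sum_le_sum_of_subset_of_nonneg (Finset.subset_univ _) fun _ _ _ => abs_nonneg _
  have h4 : |Λ * (m : ℝ) * jb t ^ (1/4 : ℝ)| ≤
      |Λ * (m : ℝ) * jb t ^ (1/4 : ℝ) + (∑ i : Fin 3, (K (idx hn i) : ℝ) * jb t ^ (-(av i)) + K0)|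
      + C := by
    have := abs_sub_abs_le_abs_sub (Λ * (m : ℝ) * jb t ^ (1/4 : ℝ))
      (-(∑ i : Fin 3, (K (idx hn i) : ℝ) * jb t ^ (-(av i)) + K0))
    rw [sub_neg_eq_add, abs_neg] at this
    linarith
  have h5 : |Λ * (m : ℝ) * jb t ^ (1/4 : ℝ)| = Λ * |(m : ℝ)| * jb t ^ (1/4 : ℝ) := by
    rw [abs_mul, abs_mul, abs_of_pos (jb_rpow_pos _ _), abs_of_nonneg (by linarith : 0 ≤ Λ)]
  have h6 : Λ * jb t ^ (1/4 : ℝ) ≤ Λ * |(m : ℝ)| * jb t ^ (1/4 : ℝ) := by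
    have : Λ * 1 ≤ Λ * |(m : ℝ)| := mul_le_mul_of_nonneg_left hm (by linarith)
    nlinarith
  nlinarith

/-- transversal forms -/
def zt (R : ℕ) (i : Fin 3) : (Fin n → ℝ) →L[ℝ] ℝ :=
  ContinuousLinearMap.proj (R := ℝ) (φ := fun _ : Fin n => ℝ) (idx hn i)
    - ((R : ℝ) ^ ((i : ℕ) + 1)) • ContinuousLinearMap.proj (R := ℝ) (φ := fun _ : Fin n => ℝ) (ix0 hn)

lemma zt_apply (R : ℕ) (i : Fin 3) (v : Fin n → ℝ) :
    zt hn R i v = v (idx hn i) - (R : ℝ) ^ ((i : ℕ) + 1) * v (ix0 hn) := by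
  simp [zt]

lemma zt_int (R : ℕ) (i : Fin 3) (k : Fin n → ℤ) :
    ∃ l : ℤ, zt hn R i (fun j => (k j : ℝ)) = l :=
  ⟨k (idx hn i) - (R : ℤ) ^ ((i : ℕ) + 1) * k (ix0 hn), by rw [zt_apply]; push_cast; ring⟩

lemma zt_yy (R : ℕ) (Λ : ℝ) (i : Fin 3) (t : ℝ) :
    zt hn R i (fun j => yy hn R Λ t j) = YY (av i) t := by
  rw [zt_apply]
  unfold yy
  have e1 : ∑ i' : Fin 3, (if idx hn i = idx hn i' then (1:ℝ) else 0) * YY (av i') t
      = YY (av i) t := by
    rw [Finset.sum_eq_single i]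
    · simp
    · intro j _ hj
      have : idx hn i ≠ idx hn j := fun h => hj (idx_inj hn h).symm
      simp [this]
    · simp
  have e2 : ∑ i' : Fin 3, (if ix0 hn = idx hn i' then (1:ℝ) else 0) * YY (av i') t = 0 := by
    refine Finset.sum_eq_zero fun j _ => ?_
    simp [ix0_ne hn j]
  rw [e1, e2]
  have e3 : ((idx hn i : Fin n) : ℕ) = (i : ℕ) + 1 := rfl
  have e4 : ((ix0 hn : Fin n) : ℕ) = 0 := rfl
  rw [e3, e4]
  ring

end path

section trig

variable {n : ℕ}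

/-- phase exponential -/
def Ek (κ : Option (Fin n) → ℤ) (p : (Fin n → ℝ) × ℝ) : ℂ :=
  Complex.exp (2 * Real.pi * Complex.I *
    ((∑ i, (κ (some i) : ℝ) * p.1 i + (κ none : ℝ) * p.2 : ℝ) : ℂ))

lemma tp_contDiff (S : Finset (Option (Fin n) → ℤ)) (c : (Option (Fin n) → ℤ) → ℂ) :
    ContDiff ℝ ∞ (tp S c) := by
  unfold tp
  refine Complex.reCLM.contDiff.comp (ContDiff.sum fun κ _ => contDiff_const.mul ?_)
  refine ContDiff.cexp (contDiff_const.mul (Complex.ofRealCLM.contDiff.comp ?_))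
  refine ContDiff.add (ContDiff.sum fun i _ => contDiff_const.mul ?_)
    (contDiff_const.mul contDiff_snd)
  exact (contDiff_apply ℝ ℝ i).comp contDiff_fst

lemma tp_fderiv (S : Finset (Option (Fin n) → ℤ)) (c : (Option (Fin n) → ℤ) → ℂ)
    (p : (Fin n → ℝ) × ℝ) (v : Fin n → ℝ) :
    fderiv ℝ (tp S c) p (v, 0) = (∑ κ ∈ S, c κ * (2 * Real.pi * Complex.I *
      ((∑ i, (κ (some i) : ℝ) * v i : ℝ) : ℂ)) * Ek κ p).re := by
  have hline : HasDerivAt (fun s : ℝ => tp S c (p + s • (v, (0:ℝ)))) (fderiv ℝ (tp S c) p (v, 0)) 0 := by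
    have h1 : HasFDerivAt (tp S c) (fderiv ℝ (tp S c) p) (p + (0:ℝ) • (v, (0:ℝ))) := by
      rw [zero_smul, add_zero]
      exact ((tp_contDiff S c).differentiable (by simp) p).hasFDerivAt
    have h2 : HasDerivAt (fun s : ℝ => p + s • (v, (0:ℝ))) (v, (0:ℝ)) 0 := by
      have := ((hasDerivAt_id (0:ℝ)).smul_const ((v, (0:ℝ)) : (Fin n → ℝ) × ℝ)).const_add p
      simpa using this
    exact h1.comp_hasDerivAt 0 h2
  have hline2 : HasDerivAt (fun s : ℝ => tp S c (p + s • (v, (0:ℝ))))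
      (∑ κ ∈ S, c κ * (2 * Real.pi * Complex.I *
      ((∑ i, (κ (some i) : ℝ) * v i : ℝ) : ℂ)) * Ek κ p).re 0 := by
    have hk : ∀ κ : Option (Fin n) → ℤ, HasDerivAt (fun s : ℝ => c κ * Complex.exp (2 * Real.pi *
        Complex.I * ((∑ i, (κ (some i) : ℝ) * (p + s • (v, (0:ℝ))).1 i
          + (κ none : ℝ) * (p + s • (v, (0:ℝ))).2 : ℝ) : ℂ)))
        (c κ * (2 * Real.pi * Complex.I * ((∑ i, (κ (some i) : ℝ) * v i : ℝ) : ℂ)) * Ek κ p) 0 := by
      intro κ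
      have h3 : HasDerivAt (fun s : ℝ => ∑ i, (κ (some i) : ℝ) * (p + s • (v, (0:ℝ))).1 i
          + (κ none : ℝ) * (p + s • (v, (0:ℝ))).2) (∑ i, (κ (some i) : ℝ) * v i) 0 := by
        have h4 : ∀ i, HasDerivAt (fun s : ℝ => (κ (some i) : ℝ) * (p + s • (v, (0:ℝ))).1 i)
            ((κ (some i) : ℝ) * v i) 0 := by
          intro i
          have h5 : HasDerivAt (fun s : ℝ => p.1 i + s * v i) (1 * v i) 0 :=
            ((hasDerivAt_id (0:ℝ)).mul_const (v i)).const_add (p.1 i)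
          rw [one_mul] at h5
          have h6 := h5.const_mul (κ (some i) : ℝ)
          simpa using h6
        have h7 : (fun s : ℝ => ∑ i, (κ (some i) : ℝ) * (p + s • (v, (0:ℝ))).1 i
          + (κ none : ℝ) * (p + s • (v, (0:ℝ))).2) = fun s : ℝ =>
            ∑ i, (κ (some i) : ℝ) * (p + s • (v, (0:ℝ))).1 i + (κ none : ℝ) * p.2 := by
          funext s; simp
        rw [h7]
        exact (HasDerivAt.fun_sum fun i _ => h4 i).add_const _
      have h8 := ((h3.ofReal_comp.const_mul (2 * Real.pi * Complex.I : ℂ)).cexp).const_mul (c κ)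
      have e0 : p + (0:ℝ) • (v, (0:ℝ)) = p := by rw [zero_smul, add_zero]
      rw [e0] at h8
      have e9 : c κ * (2 * Real.pi * Complex.I * ((∑ i, (κ (some i) : ℝ) * v i : ℝ) : ℂ)) * Ek κ p
          = c κ * (Complex.exp (2 * Real.pi * Complex.I *
            ((∑ i, (κ (some i) : ℝ) * p.1 i + (κ none : ℝ) * p.2 : ℝ) : ℂ)) *
            (2 * Real.pi * Complex.I * ((∑ i, (κ (some i) : ℝ) * v i : ℝ) : ℂ))) := by
        unfold Ek
        ring
      rw [e9]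
      exact h8
    have h9 := Complex.reCLM.hasFDerivAt.comp_hasDerivAt (0:ℝ)
      (HasDerivAt.fun_sum (u := S) fun κ _ => hk κ)
    exact h9
  exact hline.unique hline2

lemma tp_per (S : Finset (Option (Fin n) → ℤ)) (c : (Option (Fin n) → ℤ) → ℂ) : Per (tp S c) := by
  intro k l x t
  unfold tp
  congr 1
  refine Finset.sum_congr rfl fun κ _ => ?_
  congr 1
  rw [Complex.exp_eq_exp_iff_exists_int]
  refine ⟨∑ i, κ (some i) * k i + κ none * l, ?_⟩
  simp only [Pi.add_apply, mul_add, Finset.sum_add_distrib]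
  push_cast
  ring

end trig

end Ton
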