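import Mathlib

/-!
Trigonometric polynomials are dense in the `C²` functions on `𝕋ⁿ × 𝕋`.
-/

noncomputable section

namespace Ton

open MeasureTheory Filter Topology

variable {n : ℕ}

/-- the torus -/
abbrev Tor (n : ℕ) := UnitAddTorus (Option (Fin n))

/-- projection -/
def pr (p : (Fin n → ℝ) × ℝ) : Tor n
  | none => (p.2 : UnitAddCircle)
  | some i => (p.1 i : UnitAddCircle)

lemma pr_add (p q : (Fin n → ℝ) × ℝ) : pr (p + q) = pr p + pr q := by
  funext o
  cases o <;> simp [pr]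

lemma pr_sub (p q : (Fin n → ℝ) × ℝ) : pr (p - q) = pr p - pr q := by
  funext o
  cases o <;> simp [pr]

/-- the homeomorphism -/
def ho (n : ℕ) : (Fin n → ℝ) × ℝ ≃ₜ (Option (Fin n) → ℝ) where
  toFun p o := match o with
    | none => p.2
    | some i => p.1 i
  invFun q := (fun i => q (some i), q none)
  left_inv p := rfl
  right_inv q := by funext o; cases o <;> rfl
  continuous_toFun := by
    refine continuous_pi fun o => ?_
    cases o with
    | none => exact continuous_snd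
    | some i => exact (continuous_apply i).comp continuous_fst
  continuous_invFun := by
    refine Continuous.prodMk (continuous_pi fun i => continuous_apply _) (continuous_apply _)

lemma pr_openQuotient : IsOpenQuotientMap (pr (n := n)) := by
  have h1 : IsOpenQuotientMap (Pi.map (fun (_ : Option (Fin n)) (x : ℝ) => (x : UnitAddCircle))) :=
    IsOpenQuotientMap.piMap fun _ => by
      exact QuotientAddGroup.isOpenQuotientMap_mk
  have h2 : IsOpenQuotientMap (ho n) := (ho n).isOpenQuotientMap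
  have h3 := h1.comp h2
  have e : (Pi.map (fun (_ : Option (Fin n)) (x : ℝ) => (x : UnitAddCircle))) ∘ (ho n) = pr := by
    funext p o
    cases o <;> rfl
  rw [e] at h3
  exact h3

/-- representative -/
def rp (τ : Tor n) : (Fin n → ℝ) × ℝ := Function.surjInv pr_openQuotient.surjective τ

lemma pr_rp (τ : Tor n) : pr (rp τ) = τ := Function.surjInv_eq _ _

section per

variable {G : Type*}

/-- periodicity -/
def Per (F : (Fin n → ℝ) × ℝ → G) : Prop :=
  ∀ (k : Fin n → ℤ) (l : ℤ) (x : Fin n → ℝ) (t : ℝ), F (x + (fun j => (k j : ℝ)), t + l) = F (x, t)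

lemma Per.eq_of_pr {F : (Fin n → ℝ) × ℝ → G} (hF : Per F) {p q : (Fin n → ℝ) × ℝ}
    (h : pr p = pr q) : F p = F q := by
  have h1 : ∀ a b : ℝ, (a : UnitAddCircle) = b → ∃ m : ℤ, a = b + m := by
    intro a b hab
    have : ((a - b : ℝ) : UnitAddCircle) = 0 := by
      rw [AddCircle.coe_sub, hab, sub_self]
    obtain ⟨m, hm⟩ := (AddCircle.coe_eq_zero_iff 1).mp this
    refine ⟨m, ?_⟩
    rw [zsmul_eq_mul, mul_one] at hm
    linarith
  have hl := h1 p.2 q.2 (congrFun h none)
  have hk := fun i => h1 (p.1 i) (q.1 i) (congrFun h (some i))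
  obtain ⟨l, hl⟩ := hl
  choose k hk using hk
  have e : p = (q.1 + (fun j => (k j : ℝ)), q.2 + l) := by
    refine Prod.ext ?_ ?_
    · funext i
      exact hk i
    · exact hl
  rw [e]
  exact hF k l q.1 q.2

/-- descend a periodic function to the torus -/
def DD (F : (Fin n → ℝ) × ℝ → G) (τ : Tor n) : G := F (rp τ)

lemma DD_pr {F : (Fin n → ℝ) × ℝ → G} (hF : Per F) (p : (Fin n → ℝ) × ℝ) : DD F (pr p) = F p :=
  hF.eq_of_pr (pr_rp _)

lemma DD_cont [TopologicalSpace G] {F : (Fin n → ℝ) × ℝ → G} (hF : Per F) (hc : Continuous F) :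
    Continuous (DD F) := by
  rw [pr_openQuotient.isQuotientMap.continuous_iff]
  have : DD F ∘ pr = F := by
    funext p; exact DD_pr hF p
  rw [this]
  exact hc

lemma Per.fderiv [NormedAddCommGroup G] [NormedSpace ℝ G] {F : (Fin n → ℝ) × ℝ → G} (hF : Per F) :
    Per (_root_.fderiv ℝ F) := by
  intro k l x t
  have h := fderiv_comp_add_right (𝕜 := ℝ) (f := F) (x := (x, t))
    (((fun j => (k j : ℝ)), (l : ℝ)) : (Fin n → ℝ) × ℝ)
  have h2 : (fun p => F (p + ((fun j => (k j : ℝ)), (l : ℝ)))) = F := by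
    funext p
    exact hF k l p.1 p.2
  rw [h2] at h
  exact h.symm

end per

section conv

variable {G : Type*} [NormedAddCommGroup G] [NormedSpace ℝ G] (μ : Measure (Tor n))

/-- convolution on the torus -/
def PF (K : Tor n → ℝ) (F : (Fin n → ℝ) × ℝ → G) (z : (Fin n → ℝ) × ℝ) : G :=
  ∫ τ, K τ • DD F (pr z - τ) ∂μ

variable {μ} [IsFiniteMeasure μ]

lemma DD_bounded {F : (Fin n → ℝ) × ℝ → G} (hF : Per F) (hc : Continuous F) :
    ∃ C : ℝ, 0 ≤ C ∧ ∀ τ, ‖DD F τ‖ ≤ C := by
  obtain ⟨C, hC⟩ := isCompact_univ.exists_bound_of_continuousOn (DD_cont hF hc).continuousOn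
  exact ⟨max C 0, le_max_right _ _, fun τ => (hC τ (Set.mem_univ _)).trans (le_max_left _ _)⟩

lemma cont_integrable {F : Tor n → G} (hF : Continuous F) : Integrable F μ := by
  have := hF.continuousOn.integrableOn_compact (μ := μ) isCompact_univ
  rwa [integrableOn_univ] at this

lemma PF_hasFDerivAt {K : Tor n → ℝ} (hK : Continuous K) {F : (Fin n → ℝ) × ℝ → G} (hF : Per F)
    (hc : ContDiff ℝ 1 F) (z : (Fin n → ℝ) × ℝ) :
    HasFDerivAt (PF μ K F) (PF μ K (fderiv ℝ F) z) z := by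
  have hF'c : Continuous (fderiv ℝ F) := hc.continuous_fderiv (by norm_num)
  obtain ⟨C, hC0, hC⟩ := DD_bounded hF.fderiv hF'c
  obtain ⟨D, hD⟩ := isCompact_univ.exists_bound_of_continuousOn hK.continuousOn
  have hcont : ∀ z, Continuous (fun τ => K τ • DD F (pr z - τ)) := fun z =>
    hK.smul ((DD_cont hF hc.continuous).comp (continuous_const.sub continuous_id))
  have hcont' : ∀ z, Continuous (fun τ => K τ • DD (fderiv ℝ F) (pr z - τ)) := fun z =>
    hK.smul ((DD_cont hF.fderiv hF'c).comp (continuous_const.sub continuous_id))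
  refine hasFDerivAt_integral_of_dominated_of_fderiv_le (μ := μ)
    (F := fun z τ => K τ • DD F (pr z - τ)) (F' := fun z τ => K τ • DD (fderiv ℝ F) (pr z - τ))
    (bound := fun _ => |D| * C) (s := Set.univ) univ_mem ?_ ?_ ?_ ?_ ?_ ?_
  · exact Eventually.of_forall fun z => (cont_integrable (hcont z)).aestronglyMeasurable
  · exact cont_integrable (hcont z)
  · exact (cont_integrable (hcont' z)).aestronglyMeasurable
  · refine ae_of_all _ fun τ z _ => ?_
    rw [norm_smul]
    exact mul_le_mul ((hD τ (Set.mem_univ _)).trans (le_abs_self _)) (hC _) (norm_nonneg _)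
      (abs_nonneg _)
  · exact integrable_const _
  · refine ae_of_all _ fun τ z _ => ?_
    have e : ∀ (H : Type _) (F : (Fin n → ℝ) × ℝ → H), Per F → ∀ z, DD F (pr z - τ) = F (z - rp τ) := by
      intro H F hF z
      have : pr z - τ = pr (z - rp τ) := by rw [pr_sub, pr_rp]
      rw [this, DD_pr hF]
    have e1 : (fun z => K τ • DD F (pr z - τ)) = fun z => K τ • F (z - rp τ) := by
      funext z; rw [e _ F hF z]
    rw [e1, e _ _ hF.fderiv z]
    have h1 : HasFDerivAt F (fderiv ℝ F (z - rp τ)) (z - rp τ) :=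
      (hc.differentiable (by norm_num) _).hasFDerivAt
    have h2 : HasFDerivAt (fun z => F (z - rp τ)) (fderiv ℝ F (z - rp τ)) z := by
      have := h1.comp z ((hasFDerivAt_id z).sub_const (rp τ))
      rw [ContinuousLinearMap.comp_id] at this
      exact this
    exact h2.const_smul (K τ)

lemma PF_fderiv {K : Tor n → ℝ} (hK : Continuous K) {F : (Fin n → ℝ) × ℝ → G} (hF : Per F)
    (hc : ContDiff ℝ 1 F) : fderiv ℝ (PF μ K F) = PF μ K (fderiv ℝ F) := by
  funext z
  exact (PF_hasFDerivAt hK hF hc z).fderiv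

/-- approximation property -/
lemma PF_approx [CompleteSpace G] {F : (Fin n → ℝ) × ℝ → G} (hF : Per F) (hc : Continuous F) {φ K : Tor n → ℝ}
    (hφc : Continuous φ) (hKc : Continuous K) (hφ0 : ∀ τ, 0 ≤ φ τ) (hφ1 : ∫ τ, φ τ ∂μ = 1)
    {M ε η : ℝ} (hM : ∀ τ, ‖DD F τ‖ ≤ M) (hη : ∀ τ, |K τ - φ τ| ≤ η)
    (hU : ∀ τ, φ τ ≠ 0 → ∀ σ, ‖DD F (σ - τ) - DD F σ‖ ≤ ε) (z : (Fin n → ℝ) × ℝ) :
    ‖PF μ K F z - F z‖ ≤ η * M * μ.real Set.univ + ε := by
  have hDc := DD_cont hF hc
  have hη0 : 0 ≤ η := (abs_nonneg _).trans (hη 0)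
  have hε0 : 0 ≤ ε := by
    by_contra h
    push Not at h
    have : ∀ τ, φ τ = 0 := by
      intro τ
      by_contra hτ
      exact absurd ((norm_nonneg _).trans (hU τ hτ 0)) (not_le.mpr h)
    simp only [this, integral_zero] at hφ1
    exact zero_ne_one hφ1
  have hi1 : Integrable (fun τ => K τ • DD F (pr z - τ)) μ :=
    cont_integrable (hKc.smul (hDc.comp (continuous_const.sub continuous_id)))
  have hi2 : Integrable (fun τ => φ τ • DD F (pr z)) μ :=
    cont_integrable (hφc.smul continuous_const)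
  have hi3 : Integrable (fun τ => (K τ - φ τ) • DD F (pr z - τ)) μ :=
    cont_integrable ((hKc.sub hφc).smul (hDc.comp (continuous_const.sub continuous_id)))
  have hi4 : Integrable (fun τ => φ τ • (DD F (pr z - τ) - DD F (pr z))) μ :=
    cont_integrable (hφc.smul ((hDc.comp (continuous_const.sub continuous_id)).sub continuous_const))
  have e1 : F z = ∫ τ, φ τ • DD F (pr z) ∂μ := by
    rw [integral_smul_const, hφ1, one_smul, DD_pr hF]
  have e2 : PF μ K F z - F z = ∫ τ, (K τ - φ τ) • DD F (pr z - τ) ∂μ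
      + ∫ τ, φ τ • (DD F (pr z - τ) - DD F (pr z)) ∂μ := by
    rw [e1, PF, ← integral_sub hi1 hi2, ← integral_add hi3 hi4]
    refine integral_congr_ae (ae_of_all _ fun τ => ?_)
    simp only [sub_smul, smul_sub]
    abel
  rw [e2]
  refine (norm_add_le _ _).trans (add_le_add ?_ ?_)
  · refine norm_integral_le_of_norm_le_const (ae_of_all _ fun τ => ?_)
    rw [norm_smul]
    exact mul_le_mul (hη τ) (hM _) (norm_nonneg _) hη0
  · refine (norm_integral_le_of_norm_le (g := fun τ => φ τ * ε)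
      ((cont_integrable hφc).mul_const ε) (ae_of_all _ fun τ => ?_)).trans (le_of_eq ?_)
    · rw [norm_smul, Real.norm_of_nonneg (hφ0 τ)]
      by_cases h : φ τ = 0
      · rw [h]; simp
      · exact mul_le_mul_of_nonneg_left (hU τ h _) (hφ0 τ)
    · rw [integral_mul_const, hφ1, one_mul]

end conv

/-- trigonometric polynomial -/
def tp (S : Finset (Option (Fin n) → ℤ)) (c : (Option (Fin n) → ℤ) → ℂ) (p : (Fin n → ℝ) × ℝ) : ℝ :=
  (∑ κ ∈ S, c κ * Complex.exp (2 * Real.pi * Complex.I *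
    ((∑ i, (κ (some i) : ℝ) * p.1 i + (κ none : ℝ) * p.2 : ℝ) : ℂ))).re

lemma mFourier_pr (κ : Option (Fin n) → ℤ) (p : (Fin n → ℝ) × ℝ) :
    UnitAddTorus.mFourier κ (pr p) = Complex.exp (2 * Real.pi * Complex.I *
    ((∑ i, (κ (some i) : ℝ) * p.1 i + (κ none : ℝ) * p.2 : ℝ) : ℂ)) := by
  have h1 : UnitAddTorus.mFourier κ (pr p) = ∏ o, fourier (κ o) (pr p o) := rfl
  rw [h1, Fintype.prod_option]
  have h2 : ∀ (m : ℤ) (x : ℝ), (fourier m (x : UnitAddCircle) : ℂ)
      = Complex.exp (2 * Real.pi * Complex.I * ((m : ℝ) * x : ℝ)) := by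
    intro m x
    rw [fourier_coe_apply]
    congr 1
    push_cast
    ring
  have h3 : ∀ i, (fourier (κ (some i)) (pr p (some i)) : ℂ)
      = Complex.exp (2 * Real.pi * Complex.I * ((κ (some i) : ℝ) * p.1 i : ℝ)) := fun i => h2 _ _
  have h4 : (fourier (κ none) (pr p none) : ℂ)
      = Complex.exp (2 * Real.pi * Complex.I * ((κ none : ℝ) * p.2 : ℝ)) := h2 _ _
  rw [h4]
  simp only [h3]
  rw [← Complex.exp_sum, ← Complex.exp_add]
  congr 1
  push_cast
  rw [← Finset.mul_sum]
  ring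

theorem PF_trig {μ : Measure (Tor n)} [IsFiniteMeasure μ] [μ.IsAddLeftInvariant] [μ.IsNegInvariant]
    {f : (Fin n → ℝ) × ℝ → ℝ} (hf : Per f) (hc : Continuous f) {K : C(Tor n, ℂ)}
    (hK : K ∈ Submodule.span ℂ (Set.range (UnitAddTorus.mFourier (d := Option (Fin n))))) :
    ∃ (S : Finset (Option (Fin n) → ℤ)) (c : (Option (Fin n) → ℤ) → ℂ),
      PF μ (fun τ => (K τ).re) f = tp S c := by
  obtain ⟨a, ha⟩ := Finsupp.mem_span_range_iff_exists_finsupp.mp hK
  have hDc := DD_cont hf hc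
  refine ⟨a.support, fun κ => a κ * ∫ τ, UnitAddTorus.mFourier κ (-τ) * ((DD f τ : ℝ) : ℂ) ∂μ, ?_⟩
  funext z
  unfold PF tp
  have hKe : ∀ τ, K τ = ∑ κ ∈ a.support, a κ * UnitAddTorus.mFourier κ τ := by
    intro τ
    rw [← ha, Finsupp.sum, ContinuousMap.sum_apply]
    rfl
  have h1 : ∫ τ, (K τ).re • DD f (pr z - τ) ∂μ = (∫ τ, K τ * ((DD f (pr z - τ) : ℝ) : ℂ) ∂μ).re := by
    have hint : Integrable (fun τ => K τ * ((DD f (pr z - τ) : ℝ) : ℂ)) μ := by
      refine cont_integrable (K.continuous.mul (Complex.continuous_ofReal.comp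
        (hDc.comp (continuous_const.sub continuous_id))))
    have := (integral_re hint)
    simp only [RCLike.re_to_complex] at this
    rw [← this]
    refine integral_congr_ae (ae_of_all _ fun τ => ?_)
    simp
  rw [h1]
  congr 1
  have h2 : ∫ τ, K τ * ((DD f (pr z - τ) : ℝ) : ℂ) ∂μ
      = ∫ τ, K (pr z - τ) * ((DD f τ : ℝ) : ℂ) ∂μ := by
    rw [← integral_sub_left_eq_self (fun τ => K τ * ((DD f (pr z - τ) : ℝ) : ℂ)) μ (pr z)]
    refine integral_congr_ae (ae_of_all _ fun τ => ?_)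
    simp
  rw [h2]
  have h3 : ∀ τ, K (pr z - τ) * ((DD f τ : ℝ) : ℂ) = ∑ κ ∈ a.support,
      a κ * UnitAddTorus.mFourier κ (pr z) * (UnitAddTorus.mFourier κ (-τ) * ((DD f τ : ℝ) : ℂ)) := by
    intro τ
    rw [hKe, Finset.sum_mul]
    refine Finset.sum_congr rfl fun κ _ => ?_
    have : UnitAddTorus.mFourier κ (pr z - τ)
        = UnitAddTorus.mFourier κ (pr z) * UnitAddTorus.mFourier κ (-τ) := by
      rw [sub_eq_add_neg]
      simp only [UnitAddTorus.mFourier, ContinuousMap.coe_mk, Pi.add_apply]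
      rw [← Finset.prod_mul_distrib]
      refine Finset.prod_congr rfl fun o _ => ?_
      simp only [fourier_apply, smul_add, AddCircle.toCircle_add, Circle.coe_mul]
    rw [this]
    ring
  simp only [h3]
  rw [integral_finset_sum]
  · refine Finset.sum_congr rfl fun κ _ => ?_
    rw [integral_const_mul, mFourier_pr]
    ring
  · intro κ _
    refine cont_integrable (continuous_const.mul (((UnitAddTorus.mFourier κ).continuous.comp
      continuous_neg).mul (Complex.continuous_ofReal.comp hDc)))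

theorem trig_approx {f : (Fin n → ℝ) × ℝ → ℝ} (hf : Per f) (hc : ContDiff ℝ 2 f) {ε : ℝ}
    (hε : 0 < ε) : ∃ (S : Finset (Option (Fin n) → ℤ)) (c : (Option (Fin n) → ℤ) → ℂ),
      ∀ i ≤ 2, ∀ p, ‖iteratedFDeriv ℝ i (fun q => tp S c q - f q) p‖ < ε := by
  classical
  set μ : Measure (Tor n) := Measure.addHaar with hμ
  have hc1 : ContDiff ℝ 1 (fderiv ℝ f) := hc.fderiv_right (by norm_num)
  have hc2 : Continuous (fderiv ℝ (fderiv ℝ f)) := hc1.continuous_fderiv (by norm_num)
  have hp1 : Per (fderiv ℝ f) := hf.fderiv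
  have hp2 : Per (fderiv ℝ (fderiv ℝ f)) := hp1.fderiv
  obtain ⟨M0, hM00, hM0⟩ := DD_bounded hf hc.continuous
  obtain ⟨M1, hM10, hM1⟩ := DD_bounded hp1 hc1.continuous
  obtain ⟨M2, hM20, hM2⟩ := DD_bounded hp2 hc2
  -- uniform continuity
  have huc : ∀ (G : Type) [NormedAddCommGroup G] (F : (Fin n → ℝ) × ℝ → G),
      Per F → Continuous F → ∀ᶠ τ in 𝓝 (0 : Tor n), ∀ σ, ‖DD F (σ - τ) - DD F σ‖ ≤ ε / 2 := by
    intro G _ F hF hFc
    have h1 : UniformContinuous (DD F) :=
      CompactSpace.uniformContinuous_of_continuous (DD_cont hF hFc)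
    rw [Metric.uniformContinuous_iff] at h1
    obtain ⟨δ, hδ, h1⟩ := h1 (ε / 2) (by positivity)
    filter_upwards [Metric.ball_mem_nhds (0 : Tor n) hδ] with τ hτ σ
    rw [← dist_eq_norm]
    refine (h1 ?_).le
    rw [dist_eq_norm]
    rw [Metric.mem_ball, dist_zero_right] at hτ
    have : σ - τ - σ = -τ := by abel
    rw [this, norm_neg]
    exact hτ
  have hU := ((huc ℝ f hf hc.continuous).and (huc _ _ hp1 hc1.continuous)).and
    (huc _ _ hp2 hc2)
  obtain ⟨δ, hδ, hU⟩ := Metric.eventually_nhds_iff.mp hU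
  -- the bump
  set φ₀ : Tor n → ℝ := fun τ => max 0 (δ - ‖τ‖) with hφ₀
  have hφ₀c : Continuous φ₀ := continuous_const.max (continuous_const.sub continuous_norm)
  have hφ₀0 : ∀ τ, 0 ≤ φ₀ τ := fun τ => le_max_left _ _
  have hI : 0 < ∫ τ, φ₀ τ ∂μ := by
    refine (integral_pos_iff_support_of_nonneg hφ₀0 (cont_integrable hφ₀c)).mpr ?_
    have hop : IsOpen (Function.support φ₀) := hφ₀c.isOpen_support
    refine hop.measure_pos μ ⟨0, ?_⟩
    rw [Function.mem_support, hφ₀]
    simp only [norm_zero, sub_zero]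
    rw [max_eq_right hδ.le]
    exact hδ.ne'
  set φ : Tor n → ℝ := fun τ => φ₀ τ / ∫ τ, φ₀ τ ∂μ with hφ
  have hφc : Continuous φ := hφ₀c.div_const _
  have hφ0 : ∀ τ, 0 ≤ φ τ := fun τ => div_nonneg (hφ₀0 τ) hI.le
  have hφ1 : ∫ τ, φ τ ∂μ = 1 := by
    rw [hφ, integral_div, div_self hI.ne']
  have hφs : ∀ τ, φ τ ≠ 0 → dist τ 0 < δ := by
    intro τ hτ
    rw [dist_zero_right]
    by_contra h
    push Not at h
    apply hτ
    simp only [hφ, hφ₀]
    rw [max_eq_left (by linarith), zero_div]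
  -- Stone-Weierstrass
  set MM := M0 + M1 + M2 + 1 with hMM
  set η := ε / (4 * MM * (μ.real Set.univ + 1)) with hηdef
  have hμ0 : 0 ≤ μ.real Set.univ := measureReal_nonneg
  have hMM0 : 0 < MM := by positivity
  have hη0 : 0 < η := by positivity
  have hdense : (⟨fun τ => (φ τ : ℂ), Complex.continuous_ofReal.comp hφc⟩ : C(Tor n, ℂ)) ∈
      closure ((Submodule.span ℂ (Set.range (UnitAddTorus.mFourier (d := Option (Fin n)))) :
        Submodule ℂ C(Tor n, ℂ)) : Set C(Tor n, ℂ)) := by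
    rw [← Submodule.topologicalClosure_coe, UnitAddTorus.span_mFourier_closure_eq_top]
    trivial
  obtain ⟨K, hKs, hKd⟩ := Metric.mem_closure_iff.mp hdense η hη0
  have hKη : ∀ τ, |(K τ).re - φ τ| ≤ η := by
    intro τ
    have h1 : ‖K τ - (φ τ : ℂ)‖ ≤ η := by
      rw [dist_comm, dist_eq_norm] at hKd
      exact (ContinuousMap.norm_coe_le_norm (K - _) τ).trans hKd.le
    have h2 := (Complex.abs_re_le_norm (K τ - (φ τ : ℂ))).trans h1
    simpa using h2
  have hKc : Continuous (fun τ => (K τ).re) := Complex.continuous_re.comp K.continuous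
  obtain ⟨S, c, hSc⟩ := PF_trig (μ := μ) hf hc.continuous hKs
  refine ⟨S, c, ?_⟩
  have key : ∀ M ≤ MM, η * M * μ.real Set.univ + ε / 2 < ε := by
    intro M hM
    have h1 : η * M * μ.real Set.univ ≤ η * MM * (μ.real Set.univ + 1) := by
      refine mul_le_mul (mul_le_mul_of_nonneg_left hM hη0.le) (by linarith) hμ0 (by positivity)
    have h2 : η * MM * (μ.real Set.univ + 1) = ε / 4 := by
      rw [hηdef]
      field_simp
    linarith
  have b0 := fun z => PF_approx (μ := μ) hf hc.continuous hφc hKc hφ0 hφ1 hM0 hKη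
    (fun τ hτ => (hU (hφs τ hτ)).1.1) z
  have b1 := fun z => PF_approx (μ := μ) hp1 hc1.continuous hφc hKc hφ0 hφ1 hM1 hKη
    (fun τ hτ => (hU (hφs τ hτ)).1.2) z
  have b2 := fun z => PF_approx (μ := μ) hp2 hc2 hφc hKc hφ0 hφ1 hM2 hKη
    (fun τ hτ => (hU (hφs τ hτ)).2) z
  have hd0 : ∀ z, HasFDerivAt (fun q => tp S c q - f q)
      (PF μ (fun τ => (K τ).re) (fderiv ℝ f) z - fderiv ℝ f z) z := by
    intro z
    rw [← hSc]
    exact (PF_hasFDerivAt hKc hf (hc.of_le (by norm_num)) z).sub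
      (hc.differentiable (by norm_num) z).hasFDerivAt
  have hfd0 : fderiv ℝ (fun q => tp S c q - f q)
      = fun z => PF μ (fun τ => (K τ).re) (fderiv ℝ f) z - fderiv ℝ f z := by
    funext z; exact (hd0 z).fderiv
  have hfd1 : ∀ z, fderiv ℝ (fun z => PF μ (fun τ => (K τ).re) (fderiv ℝ f) z - fderiv ℝ f z) z
      = PF μ (fun τ => (K τ).re) (fderiv ℝ (fderiv ℝ f)) z - fderiv ℝ (fderiv ℝ f) z := by
    intro z
    exact ((PF_hasFDerivAt hKc hp1 hc1 z).sub (hc1.differentiable (by norm_num) z).hasFDerivAt).fderiv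
  intro i hi p
  interval_cases i
  · rw [norm_iteratedFDeriv_zero, ← hSc]
    exact (b0 p).trans_lt (key M0 (by rw [hMM]; linarith))
  · rw [norm_iteratedFDeriv_one, hfd0]
    exact (b1 p).trans_lt (key M1 (by rw [hMM]; linarith))
  · rw [← norm_iteratedFDeriv_fderiv, norm_iteratedFDeriv_one, hfd0, hfd1]
    exact (b2 p).trans_lt (key M2 (by rw [hMM]; linarith))

end Ton
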