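import Pool.Agent.helper42.TonODE
import Pool.Agent.helper42.TonTrig

/-!
The Euler–Lagrange equation of `½⟨Av,v⟩ + f(x,t)` as a first order system; openness.
-/

noncomputable section

namespace Ton

open Set Filter Topology Metric Matrix
open scoped NNReal ContDiff

variable {n : ℕ}

/-- `T ↦ B (T(e_l,0))_l` -/
def ell (B : Matrix (Fin n) (Fin n) ℝ) : (((Fin n → ℝ) × ℝ) →L[ℝ] ℝ) →L[ℝ] (Fin n → ℝ) :=
  (LinearMap.toContinuousLinearMap (Matrix.mulVecLin B)).comp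
    (ContinuousLinearMap.pi fun l =>
      ContinuousLinearMap.apply ℝ ℝ ((Pi.single l 1, 0) : (Fin n → ℝ) × ℝ))

lemma ell_apply (B : Matrix (Fin n) (Fin n) ℝ) (T : ((Fin n → ℝ) × ℝ) →L[ℝ] ℝ) :
    ell B T = B.mulVec (fun l => T (Pi.single l 1, 0)) := rfl

/-- Newton vector field -/
def NF (B : Matrix (Fin n) (Fin n) ℝ) (f : (Fin n → ℝ) × ℝ → ℝ) (t : ℝ)
    (z : (Fin n → ℝ) × (Fin n → ℝ)) : (Fin n → ℝ) × (Fin n → ℝ) :=
  (z.2, ell B (fderiv ℝ f (z.1, t)))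

lemma NF_lipschitz (B : Matrix (Fin n) (Fin n) ℝ) {f : (Fin n → ℝ) × ℝ → ℝ} (hf : IsC2Torus f) :
    ∃ K : ℝ≥0, ∀ t, LipschitzWith K (NF B f t) := by
  have hc1 : ContDiff ℝ 1 (fderiv ℝ f) := hf.1.fderiv_right (by norm_num)
  have hc2 : Continuous (fderiv ℝ (fderiv ℝ f)) := hc1.continuous_fderiv (by norm_num)
  have hper : Per f := hf.2
  obtain ⟨C, hC0, hC⟩ := DD_bounded hper.fderiv.fderiv hc2
  have hb : ∀ p, ‖fderiv ℝ (fderiv ℝ f) p‖₊ ≤ (⟨C, hC0⟩ : ℝ≥0) := by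
    intro p
    have := hC (pr p)
    rw [DD_pr hper.fderiv.fderiv] at this
    exact_mod_cast this
  have hL1 : LipschitzWith ⟨C, hC0⟩ (fderiv ℝ f) :=
    lipschitzWith_of_nnnorm_fderiv_le (hc1.differentiable (by norm_num)) hb
  refine ⟨max 1 (‖ell B‖₊ * (⟨C, hC0⟩ * max 1 0)), fun t => ?_⟩
  have h1 : LipschitzWith (max 1 0) (fun z : (Fin n → ℝ) × (Fin n → ℝ) => (z.1, t)) :=
    LipschitzWith.prod_fst.prodMk (LipschitzWith.const t)
  exact LipschitzWith.prod_snd.prodMk ((ell B).lipschitz.comp (hL1.comp h1))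

lemma NF_contDiff (B : Matrix (Fin n) (Fin n) ℝ) {f : (Fin n → ℝ) × ℝ → ℝ} (hf : IsC2Torus f) :
    ContDiff ℝ 1 (fun p : ((Fin n → ℝ) × (Fin n → ℝ)) × ℝ => NF B f p.2 p.1) := by
  have hc1 : ContDiff ℝ 1 (fderiv ℝ f) := hf.1.fderiv_right (by norm_num)
  refine (contDiff_snd.comp contDiff_fst).prodMk ((ell B).contDiff.comp (hc1.comp ?_))
  exact (contDiff_fst.comp contDiff_fst).prodMk contDiff_snd

theorem NF_global (B : Matrix (Fin n) (Fin n) ℝ) {f : (Fin n → ℝ) × ℝ → ℝ} (hf : IsC2Torus f)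
    (t₀ : ℝ) (z₀ : (Fin n → ℝ) × (Fin n → ℝ)) :
    ∃ z : ℝ → (Fin n → ℝ) × (Fin n → ℝ), z t₀ = z₀ ∧ ∀ t, HasDerivAt z (NF B f t (z t)) t := by
  obtain ⟨K, hK⟩ := NF_lipschitz B hf
  exact global_exists (NF B f) K hK (NF_contDiff B hf) t₀ z₀

/-- dot product -/
def dotL (n : ℕ) : (Fin n → ℝ) →L[ℝ] ((Fin n → ℝ) →L[ℝ] ℝ) :=
  ∑ j, (ContinuousLinearMap.proj (R := ℝ) (φ := fun _ : Fin n => ℝ) j).smulRight
    (ContinuousLinearMap.proj (R := ℝ) (φ := fun _ : Fin n => ℝ) j)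

lemma dotL_apply (a w : Fin n → ℝ) : dotL n a w = ∑ j, a j * w j := by
  simp [dotL, ContinuousLinearMap.sum_apply]

/-- inverse of the dot product map -/
def undot (n : ℕ) : ((Fin n → ℝ) →L[ℝ] ℝ) →L[ℝ] (Fin n → ℝ) :=
  ContinuousLinearMap.pi fun j => ContinuousLinearMap.apply ℝ ℝ (Pi.single j 1 : Fin n → ℝ)

lemma undot_dotL (a : Fin n → ℝ) : undot n (dotL n a) = a := by
  funext j
  show dotL n a (Pi.single j 1) = a j
  rw [dotL_apply]
  simp [Pi.single_apply]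

lemma dotL_undot (T : (Fin n → ℝ) →L[ℝ] ℝ) : dotL n (undot n T) = T := by
  refine ContinuousLinearMap.ext fun w => ?_
  rw [dotL_apply]
  have h1 : w = ∑ j, w j • (Pi.single j (1:ℝ) : Fin n → ℝ) := by
    funext i
    simp [Finset.sum_apply, Pi.single_apply]
  conv_rhs => rw [h1, map_sum]
  refine Finset.sum_congr rfl fun j _ => ?_
  rw [map_smul, smul_eq_mul, mul_comm]
  rfl

lemma hasFDerivAt_quad {A : Matrix (Fin n) (Fin n) ℝ} (hA : A.IsSymm) (c : ℝ) (v : Fin n → ℝ) :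
    HasFDerivAt (fun v : Fin n → ℝ => (1/2) * (v ⬝ᵥ A.mulVec v) + c) (dotL n (A.mulVec v)) v := by
  have hp : ∀ i : Fin n, HasFDerivAt (fun v : Fin n → ℝ => v i)
      (ContinuousLinearMap.proj (R := ℝ) (φ := fun _ : Fin n => ℝ) i) v := fun i =>
    (ContinuousLinearMap.proj (R := ℝ) (φ := fun _ : Fin n => ℝ) i).hasFDerivAt
  have hm : ∀ i : Fin n, HasFDerivAt (fun v : Fin n → ℝ => A.mulVec v i)
      (∑ j, A i j • ContinuousLinearMap.proj (R := ℝ) (φ := fun _ : Fin n => ℝ) j) v := by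
    intro i
    have : (fun v : Fin n → ℝ => A.mulVec v i) = fun v => ∑ j, A i j * v j := by
      funext v; rfl
    rw [this]
    exact HasFDerivAt.fun_sum fun j _ => (hp j).const_mul (A i j)
  have h1 := (HasFDerivAt.fun_sum (u := Finset.univ) fun i _ => (hp i).mul (hm i)).const_mul (1/2 : ℝ)
  have h2 := h1.add_const c
  refine h2.congr_fderiv ?_
  refine ContinuousLinearMap.ext fun w => ?_
  rw [dotL_apply]
  have hsymm : ∀ i j, A i j = A j i := fun i j => hA.apply j i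
  have e1 : ∑ i, v i * (∑ j, A i j * w j) = ∑ i, A.mulVec v i * w i := by
    have : ∀ i, A.mulVec v i * w i = ∑ j, v j * (A j i * w i) := by
      intro i
      have : A.mulVec v i = ∑ j, A i j * v j := rfl
      rw [this, Finset.sum_mul]
      refine Finset.sum_congr rfl fun j _ => ?_
      rw [hsymm i j]; ring
    simp only [this, Finset.mul_sum]
    rw [Finset.sum_comm]
  simp only [ContinuousLinearMap.smul_apply, ContinuousLinearMap.sum_apply,
    ContinuousLinearMap.add_apply, ContinuousLinearMap.proj_apply, smul_eq_mul,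
    Finset.sum_add_distrib]
  rw [e1]
  ring

lemma fderiv_v {A : Matrix (Fin n) (Fin n) ℝ} (hA : A.IsSymm) (f : (Fin n → ℝ) × ℝ → ℝ)
    (x v : Fin n → ℝ) (t : ℝ) :
    fderiv ℝ (fun v => Lag A f x v t) v = dotL n (A.mulVec v) :=
  (hasFDerivAt_quad hA (f (x, t)) v).fderiv

lemma fderiv_x (A : Matrix (Fin n) (Fin n) ℝ) {f : (Fin n → ℝ) × ℝ → ℝ} (hf : Differentiable ℝ f)
    (x v : Fin n → ℝ) (t : ℝ) :
    fderiv ℝ (fun q => Lag A f q v t) x
      = dotL n (fun l => fderiv ℝ f (x, t) (Pi.single l 1, 0)) := by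
  have h1 : HasFDerivAt (fun q : Fin n → ℝ => (q, t))
      ((ContinuousLinearMap.id ℝ (Fin n → ℝ)).prod 0) x :=
    (hasFDerivAt_id x).prodMk (hasFDerivAt_const t x)
  have h2 := (hf (x, t)).hasFDerivAt.comp x h1
  have h3 : HasFDerivAt (fun q => Lag A f q v t)
      ((fderiv ℝ f (x, t)).comp ((ContinuousLinearMap.id ℝ (Fin n → ℝ)).prod 0)) x :=
    h2.const_add _
  rw [h3.fderiv]
  rw [← dotL_undot ((fderiv ℝ f (x, t)).comp ((ContinuousLinearMap.id ℝ (Fin n → ℝ)).prod 0))]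
  congr 1

theorem el_to_ode {A : Matrix (Fin n) (Fin n) ℝ} (hA : A.IsSymm) (hdet : IsUnit A.det)
    {f : (Fin n → ℝ) × ℝ → ℝ} (hf : Differentiable ℝ f) {x : ℝ → Fin n → ℝ}
    (hx : IsELOrbit (Lag A f) x) (t : ℝ) :
    HasDerivAt (fun t => (x t, deriv x t)) (NF A⁻¹ f t (x t, deriv x t)) t := by
  have h1 := hx.2 t
  simp only [fderiv_v hA, fderiv_x A hf] at h1
  have h2 : HasDerivAt (deriv x) (ell A⁻¹ (fderiv ℝ f (x t, t))) t := by
    have h3 := (((LinearMap.toContinuousLinearMap (Matrix.mulVecLin A⁻¹)).comp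
      (undot n)).hasFDerivAt).comp_hasDerivAt t h1
    have e1 : (((LinearMap.toContinuousLinearMap (Matrix.mulVecLin A⁻¹)).comp
      (undot n)) ∘ fun s => dotL n (A.mulVec (deriv x s))) = deriv x := by
      funext s
      simp only [Function.comp_apply, ContinuousLinearMap.comp_apply, undot_dotL]
      show A⁻¹.mulVec (A.mulVec (deriv x s)) = deriv x s
      rw [Matrix.mulVec_mulVec, Matrix.nonsing_inv_mul _ hdet, Matrix.one_mulVec]
    rw [e1] at h3
    have e2 : ((LinearMap.toContinuousLinearMap (Matrix.mulVecLin A⁻¹)).comp (undot n))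
        (dotL n fun l => fderiv ℝ f (x t, t) (Pi.single l 1, 0))
        = ell A⁻¹ (fderiv ℝ f (x t, t)) := by
      simp only [ContinuousLinearMap.comp_apply, undot_dotL]
      rfl
    rw [e2] at h3
    exact h3
  exact (hx.1 t).hasDerivAt.prodMk h2

theorem ode_to_el {A : Matrix (Fin n) (Fin n) ℝ} (hA : A.IsSymm) (hdet : IsUnit A.det)
    {f : (Fin n → ℝ) × ℝ → ℝ} (hf : Differentiable ℝ f)
    {z : ℝ → (Fin n → ℝ) × (Fin n → ℝ)} (hz : ∀ t, HasDerivAt z (NF A⁻¹ f t (z t)) t) :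
    IsELOrbit (Lag A f) (fun t => (z t).1) ∧ ∀ t, deriv (fun t => (z t).1) t = (z t).2 := by
  have h1 : ∀ t, HasDerivAt (fun t => (z t).1) (z t).2 t := fun t =>
    ((ContinuousLinearMap.fst ℝ (Fin n → ℝ) (Fin n → ℝ)).hasFDerivAt (x := z t)).comp_hasDerivAt t
      (hz t)
  have h2 : ∀ t, HasDerivAt (fun t => (z t).2) (ell A⁻¹ (fderiv ℝ f ((z t).1, t))) t := fun t =>
    ((ContinuousLinearMap.snd ℝ (Fin n → ℝ) (Fin n → ℝ)).hasFDerivAt (x := z t)).comp_hasDerivAt t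
      (hz t)
  have h3 : deriv (fun t => (z t).1) = fun t => (z t).2 := by
    funext t; exact (h1 t).deriv
  refine ⟨⟨fun t => (h1 t).differentiableAt, fun t => ?_⟩, fun t => (h1 t).deriv⟩
  simp only [fderiv_v hA, fderiv_x A hf, h3]
  have h4 := (((dotL n).comp (LinearMap.toContinuousLinearMap
    (Matrix.mulVecLin A))).hasFDerivAt).comp_hasDerivAt t (h2 t)
  have e : ((dotL n).comp (LinearMap.toContinuousLinearMap (Matrix.mulVecLin A)))
      (ell A⁻¹ (fderiv ℝ f ((z t).1, t)))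
      = dotL n (fun l => fderiv ℝ f ((z t).1, t) (Pi.single l 1, 0)) := by
    simp only [ContinuousLinearMap.comp_apply]
    congr 1
    show A.mulVec (A⁻¹.mulVec _) = _
    rw [Matrix.mulVec_mulVec, Matrix.mul_nonsing_inv _ hdet, Matrix.one_mulVec]
    rfl
  rw [e] at h4
  exact h4

/-- Openness: the orbit with the same initial data of a `C²`-close function stays close. -/
theorem openness {A : Matrix (Fin n) (Fin n) ℝ} (hA : A.IsSymm) (hdet : IsUnit A.det)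
    {f : (Fin n → ℝ) × ℝ → ℝ} (hf : IsC2Torus f) {x : ℝ → Fin n → ℝ}
    (hx : IsELOrbit (Lag A f) x) {t₀ t₁ : ℝ} (ht : t₀ ≤ t₁) {η : ℝ} (hη : 0 < η) :
    ∃ δ > 0, ∀ g : (Fin n → ℝ) × ℝ → ℝ, IsC2Torus g → C2Close δ f g →
      ∃ y : ℝ → Fin n → ℝ, IsELOrbit (Lag A g) y ∧ y t₀ = x t₀ ∧ deriv y t₀ = deriv x t₀ ∧
        ‖deriv y t₁ - deriv x t₁‖ < η := by
  obtain ⟨K, hK⟩ := NF_lipschitz A⁻¹ hf
  have hfd : Differentiable ℝ f := hf.1.differentiable (by norm_num)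
  have hlim : Tendsto (fun ε => gronwallBound 0 K (ε + 0) (t₁ - t₀)) (𝓝 0) (𝓝 0) := by
    have hc : Continuous (fun ε => gronwallBound 0 K (ε + 0) (t₁ - t₀)) :=
      (gronwallBound_continuous_ε 0 K (t₁ - t₀)).comp (continuous_id.add continuous_const)
    have := hc.tendsto 0
    simpa [gronwallBound_ε0] using this
  obtain ⟨r, hr, hrb⟩ := Metric.eventually_nhds_iff.mp (hlim.eventually_lt_const hη)
  refine ⟨r / (2 * (‖ell A⁻¹‖ + 1)), by positivity, fun g hg hgf => ?_⟩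
  have hgd : Differentiable ℝ g := hg.1.differentiable (by norm_num)
  obtain ⟨z, hz0, hz⟩ := NF_global A⁻¹ hg t₀ (x t₀, deriv x t₀)
  obtain ⟨h1, h2⟩ := ode_to_el hA hdet hgd hz
  refine ⟨fun t => (z t).1, h1, by simp [hz0], by rw [h2, hz0], ?_⟩
  have hxo := el_to_ode hA hdet hfd hx
  have hbd : ∀ t, dist (NF A⁻¹ g t (z t)) (NF A⁻¹ f t (z t)) ≤ r / 2 := by
    intro t
    have h3 : NF A⁻¹ g t (z t) - NF A⁻¹ f t (z t)
        = (0, ell A⁻¹ (fderiv ℝ g ((z t).1, t) - fderiv ℝ f ((z t).1, t))) := by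
      unfold NF
      rw [map_sub]
      ext <;> simp
    have h4 : ‖fderiv ℝ g ((z t).1, t) - fderiv ℝ f ((z t).1, t)‖ ≤ r / (2 * (‖ell A⁻¹‖ + 1)) := by
      have h5 := hgf 1 (by norm_num) ((z t).1, t)
      rw [norm_iteratedFDeriv_one] at h5
      have h6 : fderiv ℝ (fun q => g q - f q) ((z t).1, t)
          = fderiv ℝ g ((z t).1, t) - fderiv ℝ f ((z t).1, t) := fderiv_fun_sub (hgd _) (hfd _)
      rw [h6] at h5
      exact h5.le
    rw [dist_eq_norm, h3, Prod.norm_def, norm_zero, max_eq_right (norm_nonneg _)]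
    refine ((ell A⁻¹).le_opNorm _).trans ?_
    have h7 : ‖ell A⁻¹‖ * ‖fderiv ℝ g ((z t).1, t) - fderiv ℝ f ((z t).1, t)‖
        ≤ (‖ell A⁻¹‖ + 1) * (r / (2 * (‖ell A⁻¹‖ + 1))) :=
      mul_le_mul (by linarith) h4 (norm_nonneg _) (by positivity)
    have h8 : (‖ell A⁻¹‖ + 1) * (r / (2 * (‖ell A⁻¹‖ + 1))) = r / 2 := by
      have : 0 < ‖ell A⁻¹‖ + 1 := by positivity
      field_simp
    linarith
  have hcz : Continuous z := continuous_iff_continuousAt.mpr fun t => (hz t).continuousAt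
  have hcx : Continuous (fun t => (x t, deriv x t)) :=
    continuous_iff_continuousAt.mpr fun t => (hxo t).continuousAt
  have hG := dist_le_of_approx_trajectories_ODE (v := NF A⁻¹ f) (K := K) (εf := r / 2) (εg := 0)
    (δ := 0) (a := t₀) (b := t₁) (f := z) (g := fun t => (x t, deriv x t))
    hK hcz.continuousOn (fun t _ => (hz t).hasDerivWithinAt) (fun t _ => hbd t)
    hcx.continuousOn (fun t _ => (hxo t).hasDerivWithinAt) (fun t _ => by rw [dist_self])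
    (by rw [hz0, dist_self]) t₁ ⟨ht, le_rfl⟩
  have hr2 : gronwallBound 0 K (r / 2 + 0) (t₁ - t₀) < η :=
    hrb (by rw [Real.dist_eq, sub_zero, abs_of_pos (by positivity)]; linarith)
  rw [h2, ← dist_eq_norm]
  refine lt_of_le_of_lt ?_ (hG.trans_lt hr2)
  rw [Prod.dist_eq]
  exact le_max_right _ _

end Ton
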