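import Mathlib

/-!
Symbol classes of functions of one real variable: `T σ L c f` says that `f` and its derivatives up to
order `L` satisfy `|f^(l)(t)| ≤ C (1+t^2)^((-c+σ l)/2)`.
-/

noncomputable section

namespace Ton

open Real

/-- Japanese bracket. -/
def jb (t : ℝ) : ℝ := Real.sqrt (1 + t ^ 2)

lemma jb_sq (t : ℝ) : jb t ^ 2 = 1 + t ^ 2 := Real.sq_sqrt (by positivity)

lemma one_le_jb (t : ℝ) : 1 ≤ jb t := by
  unfold jb
  rw [Real.one_le_sqrt]
  nlinarith [sq_nonneg t]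

lemma jb_pos (t : ℝ) : 0 < jb t := lt_of_lt_of_le one_pos (one_le_jb t)

lemma abs_le_jb (t : ℝ) : |t| ≤ jb t := by
  unfold jb
  rw [← Real.sqrt_sq_eq_abs]
  exact Real.sqrt_le_sqrt (by linarith)

lemma jb_le (t : ℝ) : jb t ≤ 1 + |t| := by
  unfold jb
  rw [Real.sqrt_le_left (by positivity)]
  nlinarith [sq_abs t, abs_nonneg t]

lemma jb_rpow_pos (t c : ℝ) : 0 < jb t ^ c := Real.rpow_pos_of_pos (jb_pos t) c

lemma jb_rpow_le {c d : ℝ} (h : c ≤ d) (t : ℝ) : jb t ^ c ≤ jb t ^ d :=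
  Real.rpow_le_rpow_of_exponent_le (one_le_jb t) h

lemma jb_rpow_add (t c d : ℝ) : jb t ^ c * jb t ^ d = jb t ^ (c + d) :=
  (Real.rpow_add (jb_pos t) c d).symm

lemma one_le_jb_rpow {c : ℝ} (hc : 0 ≤ c) (t : ℝ) : 1 ≤ jb t ^ c :=
  Real.one_le_rpow (one_le_jb t) hc

lemma jb_hasDerivAt (t : ℝ) : HasDerivAt jb (t / jb t) t := by
  have h1 : HasDerivAt (fun t : ℝ => 1 + t ^ 2) (2 * t) t := by
    simpa using (hasDerivAt_pow 2 t).const_add 1
  have h2 := h1.sqrt (by positivity)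
  have : 2 * t / (2 * Real.sqrt (1 + t ^ 2)) = t / jb t := by
    unfold jb
    rw [mul_div_mul_left _ _ (by norm_num)]
  rw [this] at h2
  exact h2

lemma jb_rpow_hasDerivAt (γ t : ℝ) :
    HasDerivAt (fun t => jb t ^ γ) (γ * (t * jb t ^ (γ - 2))) t := by
  have h := (jb_hasDerivAt t).rpow_const (p := γ) (Or.inl (jb_pos t).ne')
  have e : t / jb t * γ * jb t ^ (γ - 1) = γ * (t * jb t ^ (γ - 2)) := by
    have h1 : jb t ^ (γ - 1) = jb t ^ (γ - 2) * jb t := by
      rw [← Real.rpow_add_one (jb_pos t).ne']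
      congr 1
      ring
    rw [h1]
    field_simp [(jb_pos t).ne']
  rw [e] at h
  exact h

section
variable {F : Type*} [NormedAddCommGroup F] [NormedSpace ℝ F]

/-- order 0 bound -/
def Bd (c : ℝ) (f : ℝ → F) : Prop := ∃ C : ℝ, ∀ t, ‖f t‖ ≤ C * jb t ^ (-c)

/-- symbol class up to order `L` -/
def TL (σ : ℝ) : ℕ → ℝ → (ℝ → F) → Prop
  | 0, c, f => Bd c f
  | L + 1, c, f => Bd c f ∧ Differentiable ℝ f ∧ TL σ L (c - σ) (deriv f)

/-- symbol class -/
def TA (σ c : ℝ) (f : ℝ → F) : Prop := ∀ L, TL σ L c f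

lemma Bd.mono {c c' : ℝ} {f : ℝ → F} (h : Bd c f) (hc : c' ≤ c) : Bd c' f := by
  obtain ⟨C, hC⟩ := h
  refine ⟨max C 0, fun t => (hC t).trans ?_⟩
  calc C * jb t ^ (-c) ≤ max C 0 * jb t ^ (-c) :=
        mul_le_mul_of_nonneg_right (le_max_left _ _) (jb_rpow_pos _ _).le
    _ ≤ max C 0 * jb t ^ (-c') :=
        mul_le_mul_of_nonneg_left (jb_rpow_le (by linarith) t) (le_max_right _ _)

lemma TL.bd {σ c : ℝ} {L : ℕ} {f : ℝ → F} (h : TL σ L c f) : Bd c f := by
  cases L with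
  | zero => exact h
  | succ L => exact h.1

lemma TL.mono {L : ℕ} : ∀ {σ σ' c c' : ℝ} {f : ℝ → F}, TL σ L c f → σ ≤ σ' → c' ≤ c →
    TL σ' L c' f := by
  induction L with
  | zero => intro σ σ' c c' f h _ hc; exact Bd.mono h hc
  | succ L ih =>
    intro σ σ' c c' f h hs hc
    exact ⟨Bd.mono h.1 hc, h.2.1, ih h.2.2 hs (by linarith)⟩

lemma TL.pred {L : ℕ} : ∀ {σ c : ℝ} {f : ℝ → F}, TL σ (L + 1) c f → TL σ L c f := by
  induction L with
  | zero => intro σ c f h; exact h.1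
  | succ L ih =>
    intro σ c f h
    exact ⟨h.1, h.2.1, ih h.2.2⟩

lemma TA.mono {σ σ' c c' : ℝ} {f : ℝ → F} (h : TA σ c f) (hs : σ ≤ σ') (hc : c' ≤ c) :
    TA σ' c' f := fun L => (h L).mono hs hc

lemma TA.bd {σ c : ℝ} {f : ℝ → F} (h : TA σ c f) : Bd c f := h 0

lemma TA.diff {σ c : ℝ} {f : ℝ → F} (h : TA σ c f) : Differentiable ℝ f := (h 1).2.1

lemma TA.deriv {σ c : ℝ} {f : ℝ → F} (h : TA σ c f) : TA σ (c - σ) (deriv f) :=
  fun L => (h (L + 1)).2.2

lemma TA.of_deriv {σ c : ℝ} {f : ℝ → F} (hb : Bd c f) (hd : Differentiable ℝ f)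
    (h : TA σ (c - σ) (_root_.deriv f)) : TA σ c f := by
  intro L
  cases L with
  | zero => exact hb
  | succ L => exact ⟨hb, hd, h L⟩

lemma Bd.add {c : ℝ} {f g : ℝ → F} (hf : Bd c f) (hg : Bd c g) : Bd c (fun t => f t + g t) := by
  obtain ⟨C, hC⟩ := hf
  obtain ⟨D, hD⟩ := hg
  refine ⟨C + D, fun t => (norm_add_le _ _).trans ?_⟩
  rw [add_mul]
  exact add_le_add (hC t) (hD t)

lemma TL.add {L : ℕ} : ∀ {σ c : ℝ} {f g : ℝ → F}, TL σ L c f → TL σ L c g →
    TL σ L c (fun t => f t + g t) := by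
  induction L with
  | zero => intro σ c f g hf hg; exact Bd.add hf hg
  | succ L ih =>
    intro σ c f g hf hg
    refine ⟨Bd.add hf.1 hg.1, hf.2.1.add hg.2.1, ?_⟩
    have : _root_.deriv (fun t => f t + g t) = fun t => _root_.deriv f t + _root_.deriv g t := by
      funext t
      exact deriv_add (hf.2.1 t) (hg.2.1 t)
    rw [this]
    exact ih hf.2.2 hg.2.2

lemma TA.add {σ c : ℝ} {f g : ℝ → F} (hf : TA σ c f) (hg : TA σ c g) :
    TA σ c (fun t => f t + g t) := fun L => (hf L).add (hg L)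

lemma TL.clm {G : Type*} [NormedAddCommGroup G] [NormedSpace ℝ G] (A : F →L[ℝ] G) {L : ℕ} :
    ∀ {σ c : ℝ} {f : ℝ → F}, TL σ L c f → TL σ L c (fun t => A (f t)) := by
  have hb : ∀ {c : ℝ} {f : ℝ → F}, Bd c f → Bd c (fun t => A (f t)) := by
    rintro c f ⟨C, hC⟩
    refine ⟨‖A‖ * C, fun t => (A.le_opNorm _).trans ?_⟩
    rw [mul_assoc]
    exact mul_le_mul_of_nonneg_left (hC t) (norm_nonneg _)
  induction L with
  | zero => intro σ c f hf; exact hb hf
  | succ L ih =>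
    intro σ c f hf
    refine ⟨hb hf.1, A.differentiable.comp hf.2.1, ?_⟩
    have : _root_.deriv (fun t => A (f t)) = fun t => A (_root_.deriv f t) := by
      funext t
      exact (A.hasFDerivAt.comp_hasDerivAt t (hf.2.1 t).hasDerivAt).deriv
    rw [this]
    exact ih hf.2.2

lemma TA.clm {G : Type*} [NormedAddCommGroup G] [NormedSpace ℝ G] (A : F →L[ℝ] G)
    {σ c : ℝ} {f : ℝ → F} (hf : TA σ c f) : TA σ c (fun t => A (f t)) :=
  fun L => (hf L).clm A

lemma TA.neg {σ c : ℝ} {f : ℝ → F} (hf : TA σ c f) : TA σ c (fun t => - f t) := by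
  simpa using hf.clm (-(ContinuousLinearMap.id ℝ F))

lemma TA.sub {σ c : ℝ} {f g : ℝ → F} (hf : TA σ c f) (hg : TA σ c g) :
    TA σ c (fun t => f t - g t) := by
  have := hf.add hg.neg
  simpa [sub_eq_add_neg] using this

lemma TA.zero (σ c : ℝ) : TA σ c (fun _ : ℝ => (0 : F)) := by
  have hb : ∀ c : ℝ, Bd c (fun _ : ℝ => (0 : F)) := fun c => ⟨0, fun t => by simp⟩
  intro L
  induction L generalizing c with
  | zero => exact hb c
  | succ L ih =>
    refine ⟨hb c, differentiable_const _, ?_⟩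
    have : _root_.deriv (fun _ : ℝ => (0 : F)) = fun _ => 0 := by
      funext t; simp
    rw [this]
    exact ih _

lemma TA.const (σ : ℝ) (a : F) : TA σ 0 (fun _ : ℝ => a) := by
  refine TA.of_deriv ⟨‖a‖, fun t => by simp⟩ (differentiable_const _) ?_
  have : _root_.deriv (fun _ : ℝ => a) = fun _ => 0 := by
    funext t; simp
  rw [this]
  exact TA.zero _ _

lemma TA.sum {ι : Type*} (s : Finset ι) {σ c : ℝ} {f : ι → ℝ → F} (hf : ∀ i ∈ s, TA σ c (f i)) :
    TA σ c (fun t => ∑ i ∈ s, f i t) := by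
  classical
  induction s using Finset.induction_on with
  | empty => simpa using TA.zero σ c
  | insert i s his ih =>
    have := (hf i (Finset.mem_insert_self _ _)).add
      (ih (fun j hj => hf j (Finset.mem_insert_of_mem hj)))
    simpa [Finset.sum_insert his] using this

end

section
variable {𝔸 : Type*} [NormedRing 𝔸] [NormedAlgebra ℝ 𝔸]

lemma Bd.mul {c d : ℝ} {f g : ℝ → 𝔸} (hf : Bd c f) (hg : Bd d g) :
    Bd (c + d) (fun t => f t * g t) := by
  obtain ⟨C, hC⟩ := hf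
  obtain ⟨D, hD⟩ := hg
  refine ⟨C * D, fun t => (norm_mul_le _ _).trans ?_⟩
  have e : C * D * jb t ^ (-(c + d)) = (C * jb t ^ (-c)) * (D * jb t ^ (-d)) := by
    rw [show -(c + d) = -c + -d by ring, ← jb_rpow_add]
    ring
  rw [e]
  exact mul_le_mul (hC t) (hD t) (norm_nonneg _) ((norm_nonneg _).trans (hC t))

lemma TL.mul {L : ℕ} : ∀ {σ c d : ℝ} {f g : ℝ → 𝔸}, TL σ L c f → TL σ L d g →
    TL σ L (c + d) (fun t => f t * g t) := by
  induction L with
  | zero => intro σ c d f g hf hg; exact Bd.mul hf hg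
  | succ L ih =>
    intro σ c d f g hf hg
    refine ⟨Bd.mul hf.1 hg.1, hf.2.1.mul hg.2.1, ?_⟩
    have : _root_.deriv (fun t => f t * g t)
        = fun t => _root_.deriv f t * g t + f t * _root_.deriv g t := by
      funext t
      exact deriv_mul (hf.2.1 t) (hg.2.1 t)
    rw [this]
    have h1 := ih hf.2.2 hg.pred
    have h2 := ih hf.pred hg.2.2
    refine TL.add (h1.mono le_rfl (by linarith)) (h2.mono le_rfl (by linarith))

lemma TA.mul {σ c d : ℝ} {f g : ℝ → 𝔸} (hf : TA σ c f) (hg : TA σ d g) :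
    TA σ (c + d) (fun t => f t * g t) := fun L => (hf L).mul (hg L)

lemma TA.const_mul {σ c : ℝ} (a : 𝔸) {f : ℝ → 𝔸} (hf : TA σ c f) :
    TA σ c (fun t => a * f t) := by
  have := (TA.const σ a).mul hf
  simpa using this

end

lemma TA_id : TA (-1) (-1) (fun t : ℝ => t) := by
  refine TA.of_deriv ⟨1, fun t => ?_⟩ differentiable_id ?_
  · simpa using abs_le_jb t
  · have : deriv (fun t : ℝ => t) = fun _ => 1 := by funext t; simp
    rw [this]
    simpa using TA.const (-1) (1 : ℝ)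

lemma TA_jb_rpow (γ : ℝ) : TA (-1) (-γ) (fun t => jb t ^ γ) := by
  have hb : ∀ γ : ℝ, Bd (-γ) (fun t => jb t ^ γ) := fun γ => ⟨1, fun t => by
    rw [neg_neg, one_mul, Real.norm_of_nonneg (jb_rpow_pos t γ).le]⟩
  intro L
  induction L generalizing γ with
  | zero => exact hb γ
  | succ L ih =>
    refine ⟨hb γ, fun t => (jb_rpow_hasDerivAt γ t).differentiableAt, ?_⟩
    have : deriv (fun t => jb t ^ γ) = fun t => γ * (t * jb t ^ (γ - 2)) := by
      funext t
      exact (jb_rpow_hasDerivAt γ t).deriv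
    rw [this]
    have h1 := (TA_id L).mul (ih (γ - 2))
    have h2 := (TA.const (-1) γ L).mul h1
    exact h2.mono le_rfl (by linarith)

section
variable {σ : ℝ}

lemma TA_inv {a c0 : ℝ} {N : ℝ → ℂ} (hN : TA σ (-a) N) (hc0 : 0 < c0)
    (hlow : ∀ t, c0 * jb t ^ a ≤ ‖N t‖) : TA σ a (fun t => (N t)⁻¹) := by
  have hne : ∀ t, N t ≠ 0 := fun t h => by
    have := hlow t
    rw [h, norm_zero] at this
    exact absurd this (not_le.mpr (mul_pos hc0 (jb_rpow_pos _ _)))
  have hb : Bd a (fun t => (N t)⁻¹) := by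
    refine ⟨c0⁻¹, fun t => ?_⟩
    rw [norm_inv, Real.rpow_neg (jb_pos t).le, ← mul_inv]
    exact inv_anti₀ (mul_pos hc0 (jb_rpow_pos _ _)) (hlow t)
  have hd : ∀ t, HasDerivAt (fun t => (N t)⁻¹) (-(deriv N t) * ((N t)⁻¹ * (N t)⁻¹)) t := by
    intro t
    have := (hN.diff t).hasDerivAt.inv (hne t)
    have e : -(deriv N t) * ((N t)⁻¹ * (N t)⁻¹) = -deriv N t / N t ^ 2 := by
      rw [div_eq_mul_inv, sq, mul_inv]
    rw [e]
    exact this
  intro L
  induction L with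
  | zero => exact hb
  | succ L ih =>
    refine ⟨hb, fun t => (hd t).differentiableAt, ?_⟩
    have : deriv (fun t => (N t)⁻¹) = fun t => -(deriv N t) * ((N t)⁻¹ * (N t)⁻¹) := by
      funext t; exact (hd t).deriv
    rw [this]
    have h1 := (hN.deriv.neg L).mul (ih.mul ih)
    exact h1.mono le_rfl (by linarith)

/-- solutions of `e' = M e` -/
lemma TA_lin {M e : ℝ → ℂ} (hM : TA σ (-σ) M) (he : ∀ t, HasDerivAt e (M t * e t) t)
    (hb : ∃ C, ∀ t, ‖e t‖ ≤ C) : TA σ 0 e := by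
  have hb' : Bd 0 e := by
    obtain ⟨C, hC⟩ := hb
    exact ⟨C, fun t => by simpa using hC t⟩
  intro L
  induction L with
  | zero => exact hb'
  | succ L ih =>
    refine ⟨hb', fun t => (he t).differentiableAt, ?_⟩
    have : deriv e = fun t => M t * e t := by
      funext t; exact (he t).deriv
    rw [this]
    exact ((hM L).mul ih).mono le_rfl (by linarith)

lemma TA_exp {c : ℝ} (hc : 0 ≤ c) {w : ℝ → ℂ} (hw : TA σ c w) :
    TA σ 0 (fun t => Complex.exp (w t)) := by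
  have hd : ∀ t, HasDerivAt (fun t => Complex.exp (w t)) (deriv w t * Complex.exp (w t)) t := by
    intro t
    have := (hw.diff t).hasDerivAt.cexp
    rwa [mul_comm] at this
  refine TA_lin (hw.deriv.mono le_rfl (by linarith)) hd ?_
  obtain ⟨C, hC⟩ := hw.bd
  refine ⟨Real.exp (max C 0), fun t => ?_⟩
  refine (Complex.norm_exp_le_exp_norm _).trans (Real.exp_le_exp.mpr ((hC t).trans ?_))
  calc C * jb t ^ (-c) ≤ max C 0 * jb t ^ (-c) :=
        mul_le_mul_of_nonneg_right (le_max_left _ _) (jb_rpow_pos _ _).le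
    _ ≤ max C 0 * 1 := by
        refine mul_le_mul_of_nonneg_left ?_ (le_max_right _ _)
        exact Real.rpow_le_one_of_one_le_of_nonpos (one_le_jb t) (by linarith)
    _ = max C 0 := mul_one _

lemma exp_sub_bound (z : ℂ) : ‖Complex.exp z - 1‖ ≤ ‖z‖ * Real.exp ‖z‖ := by
  simpa using Complex.norm_exp_sub_sum_le_norm_mul_exp z 1

lemma exp_sub_bound2 (z : ℂ) : ‖Complex.exp z - 1 - z‖ ≤ ‖z‖ ^ 2 * Real.exp ‖z‖ := by
  have := Complex.norm_exp_sub_sum_le_norm_mul_exp z 2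
  simp only [Finset.sum_range_succ, Finset.sum_range_zero, pow_zero, Nat.factorial_zero,
    Nat.cast_one, div_one, zero_add, pow_one, Nat.factorial_one] at this
  rwa [← sub_sub] at this

lemma Bd.norm_le {c : ℝ} (hc : 0 ≤ c) {w : ℝ → ℂ} (hw : Bd c w) : ∃ M, 0 ≤ M ∧ ∀ t, ‖w t‖ ≤ M := by
  obtain ⟨C, hC⟩ := hw
  refine ⟨max C 0, le_max_right _ _, fun t => (hC t).trans ?_⟩
  calc C * jb t ^ (-c) ≤ max C 0 * jb t ^ (-c) :=
        mul_le_mul_of_nonneg_right (le_max_left _ _) (jb_rpow_pos _ _).le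
    _ ≤ max C 0 * 1 := by
        refine mul_le_mul_of_nonneg_left ?_ (le_max_right _ _)
        exact Real.rpow_le_one_of_one_le_of_nonpos (one_le_jb t) (by linarith)
    _ = max C 0 := mul_one _

lemma TA_E1 {c : ℝ} (hc : 0 ≤ c) {w : ℝ → ℂ} (hw : TA σ c w) :
    TA σ c (fun t => Complex.exp (w t) - 1) := by
  have hd : ∀ t, HasDerivAt (fun t => Complex.exp (w t) - 1)
      (deriv w t * Complex.exp (w t)) t := by
    intro t
    have := (hw.diff t).hasDerivAt.cexp.sub_const 1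
    rwa [mul_comm] at this
  refine TA.of_deriv ?_ (fun t => (hd t).differentiableAt) ?_
  · obtain ⟨M, hM0, hM⟩ := hw.bd.norm_le hc
    obtain ⟨C, hC⟩ := hw.bd
    refine ⟨C * Real.exp M, fun t => (exp_sub_bound _).trans ?_⟩
    rw [mul_right_comm]
    exact mul_le_mul (hC t) (Real.exp_le_exp.mpr (hM t)) (Real.exp_pos _).le
      ((norm_nonneg _).trans (hC t))
  · have : deriv (fun t => Complex.exp (w t) - 1) = fun t => deriv w t * Complex.exp (w t) := by
      funext t; exact (hd t).deriv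
    rw [this]
    exact (hw.deriv.mul (TA_exp hc hw)).mono le_rfl (by linarith)

lemma TA_E2 {c : ℝ} (hc : 0 ≤ c) {w : ℝ → ℂ} (hw : TA σ c w) :
    TA σ (2 * c) (fun t => Complex.exp (w t) - 1 - w t) := by
  have hd : ∀ t, HasDerivAt (fun t => Complex.exp (w t) - 1 - w t)
      (deriv w t * (Complex.exp (w t) - 1)) t := by
    intro t
    have := ((hw.diff t).hasDerivAt.cexp.sub_const 1).sub (hw.diff t).hasDerivAt
    have e : deriv w t * (Complex.exp (w t) - 1)
        = Complex.exp (w t) * deriv w t - deriv w t := by ring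
    rw [e]
    exact this
  refine TA.of_deriv ?_ (fun t => (hd t).differentiableAt) ?_
  · obtain ⟨M, hM0, hM⟩ := hw.bd.norm_le hc
    obtain ⟨C, hC⟩ := hw.bd
    refine ⟨C ^ 2 * Real.exp M, fun t => (exp_sub_bound2 _).trans ?_⟩
    have h1 : ‖w t‖ ^ 2 ≤ C ^ 2 * jb t ^ (-(2 * c)) := by
      have e : C ^ 2 * jb t ^ (-(2 * c)) = (C * jb t ^ (-c)) ^ 2 := by
        rw [show -(2 * c) = -c + -c by ring, ← jb_rpow_add]
        ring
      rw [e]
      exact pow_le_pow_left₀ (norm_nonneg _) (hC t) 2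
    rw [mul_right_comm]
    exact mul_le_mul h1 (Real.exp_le_exp.mpr (hM t)) (Real.exp_pos _).le
      ((by positivity : (0:ℝ) ≤ ‖w t‖ ^ 2).trans h1)
  · have : deriv (fun t => Complex.exp (w t) - 1 - w t)
        = fun t => deriv w t * (Complex.exp (w t) - 1) := by
      funext t; exact (hd t).deriv
    rw [this]
    exact (hw.deriv.mul (TA_E1 hc hw)).mono le_rfl (by linarith)

end

end Ton
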