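import Pool.Agent.helper42.TspBounds

set_option autoImplicit false

namespace Pool.Agent.helper42.TSP

open MeasureTheory Filter Topology Real
open scoped ENNReal

/-- remainder in Stirling's formula -/
noncomputable def rr (n : ℕ) : ℝ := Real.log n.factorial - n * Real.log n + n

lemma tendsto_log_div_self : Tendsto (fun d : ℕ => Real.log d / d) atTop (𝓝 0) := by
  exact (Real.isLittleO_log_id_atTop.tendsto_div_nhds_zero).comp
    (tendsto_natCast_atTop_atTop (R := ℝ))

lemma tendsto_rr : Tendsto (fun n : ℕ => rr n / n) atTop (𝓝 0) := by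
  have h1 : Tendsto (fun n : ℕ => Real.log (Stirling.stirlingSeq n)) atTop (𝓝 (Real.log (√π))) :=
    Stirling.tendsto_stirlingSeq_sqrt_pi.log (by positivity)
  have hinv : Tendsto (fun n : ℕ => ((n : ℝ))⁻¹) atTop (𝓝 0) := tendsto_inv_atTop_nhds_zero_nat
  have h2 : Tendsto (fun n : ℕ => Real.log (Stirling.stirlingSeq n) * ((n : ℝ))⁻¹
      + (1 / 2) * (Real.log 2 * ((n : ℝ))⁻¹ + Real.log n / n)) atTop
      (𝓝 (Real.log (√π) * 0 + (1 / 2) * (Real.log 2 * 0 + 0))) :=
    (h1.mul hinv).add (Tendsto.const_mul _ ((Tendsto.const_mul _ hinv).add tendsto_log_div_self))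
  simp only [mul_zero, add_zero] at h2
  refine h2.congr' ?_
  filter_upwards [eventually_ge_atTop 1] with n hn
  have hn0 : (0 : ℝ) < n := by exact_mod_cast hn
  rw [Stirling.log_stirlingSeq_formula]
  unfold rr
  rw [Real.log_mul (by norm_num) hn0.ne', Real.log_div hn0.ne' (Real.exp_pos 1).ne', Real.log_exp]
  field_simp
  ring

lemma half_bounds (d : ℕ) : (d : ℝ) / 2 - 1 / 2 ≤ ((d / 2 : ℕ) : ℝ) ∧ ((d / 2 : ℕ) : ℝ) ≤ (d : ℝ) / 2 := by
  have h1 : d ≤ 2 * (d / 2) + 1 := by omega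
  have h2 : 2 * (d / 2) ≤ d := by omega
  have h1' : (d : ℝ) ≤ 2 * ((d / 2 : ℕ) : ℝ) + 1 := by exact_mod_cast h1
  have h2' : 2 * ((d / 2 : ℕ) : ℝ) ≤ d := by exact_mod_cast h2
  constructor <;> linarith

lemma tendsto_half : Tendsto (fun d : ℕ => ((d / 2 : ℕ) : ℝ) / d) atTop (𝓝 (1 / 2)) := by
  have hinv : Tendsto (fun n : ℕ => ((n : ℝ))⁻¹) atTop (𝓝 0) := tendsto_inv_atTop_nhds_zero_nat
  have hlow : Tendsto (fun d : ℕ => (1 : ℝ) / 2 - (1 / 2) * ((d : ℝ))⁻¹) atTop
      (𝓝 (1 / 2 - (1 / 2) * 0)) := Tendsto.sub tendsto_const_nhds (Tendsto.const_mul _ hinv)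
  rw [mul_zero, sub_zero] at hlow
  refine tendsto_of_tendsto_of_tendsto_of_le_of_le' hlow tendsto_const_nhds ?_ ?_
  · filter_upwards [eventually_ge_atTop 1] with d hd
    have hd0 : (0 : ℝ) < d := by exact_mod_cast hd
    rw [le_div_iff₀ hd0]
    have := (half_bounds d).1
    have e : (1 / 2 - 1 / 2 * ((d : ℝ))⁻¹) * d = d / 2 - 1 / 2 := by field_simp
    rw [e]; exact this
  · filter_upwards [eventually_ge_atTop 1] with d hd
    have hd0 : (0 : ℝ) < d := by exact_mod_cast hd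
    rw [div_le_iff₀ hd0]
    have := (half_bounds d).2
    linarith

/-- the main part -/
lemma tendsto_log_fact_half : Tendsto (fun d : ℕ => Real.log ((d / 2).factorial : ℝ) / d
    - (1 / 2) * Real.log d) atTop (𝓝 (-(1 / 2) * (Real.log 2 + 1))) := by
  have hhalf := tendsto_half
  have hdiv : Tendsto (fun d : ℕ => d / 2) atTop atTop := Nat.tendsto_div_const_atTop (by norm_num)
  have h1 : Tendsto (fun d : ℕ => Real.log (((d / 2 : ℕ) : ℝ) / d)) atTop (𝓝 (Real.log (1 / 2))) :=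
    hhalf.log (by norm_num)
  have h2 : Tendsto (fun d : ℕ => rr (d / 2) / ((d / 2 : ℕ) : ℝ) * (((d / 2 : ℕ) : ℝ) / d)) atTop
      (𝓝 (0 * (1 / 2))) := (tendsto_rr.comp hdiv).mul hhalf
  have h3 : Tendsto (fun d : ℕ => ((((d / 2 : ℕ) : ℝ) / d) - 1 / 2) * Real.log ((d / 2 : ℕ) : ℝ))
      atTop (𝓝 0) := by
    refine squeeze_zero_norm' ?_ tendsto_log_div_self
    filter_upwards [eventually_ge_atTop 2] with d hd
    have hd0 : (0 : ℝ) < d := by exact_mod_cast (by omega : 0 < d)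
    have hn1 : (1 : ℝ) ≤ ((d / 2 : ℕ) : ℝ) := by
      have : 1 ≤ d / 2 := by omega
      exact_mod_cast this
    have hb := half_bounds d
    rw [norm_mul, Real.norm_eq_abs, Real.norm_eq_abs]
    have e1 : |((d / 2 : ℕ) : ℝ) / d - 1 / 2| ≤ 1 / d := by
      rw [abs_le]
      constructor
      · have : -(1 / (d : ℝ)) + 1 / 2 ≤ ((d / 2 : ℕ) : ℝ) / d := by
          rw [le_div_iff₀ hd0]
          have e : (-(1 / (d : ℝ)) + 1 / 2) * d = d / 2 - 1 := by field_simp; ring
          rw [e]; linarith [hb.1]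
        linarith
      · have : ((d / 2 : ℕ) : ℝ) / d ≤ 1 / 2 := by
          rw [div_le_iff₀ hd0]; linarith [hb.2]
        have : 0 < 1 / (d : ℝ) := by positivity
        linarith
    have e2 : |Real.log ((d / 2 : ℕ) : ℝ)| ≤ Real.log d := by
      rw [abs_of_nonneg (Real.log_nonneg hn1)]
      exact Real.log_le_log (by linarith) (by linarith [hb.2])
    calc _ ≤ (1 / (d : ℝ)) * Real.log d :=
          mul_le_mul e1 e2 (abs_nonneg _) (by positivity)
      _ = Real.log d / d := by ring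
  have h4 := ((h3.add (h1.const_mul (1 / 2))).sub hhalf).add h2
  have e : (0 + 1 / 2 * Real.log (1 / 2) - 1 / 2 + 0 * (1 / 2) : ℝ)
      = -(1 / 2) * (Real.log 2 + 1) := by
    rw [one_div, Real.log_inv]; ring
  rw [e] at h4
  refine h4.congr' ?_
  filter_upwards [eventually_ge_atTop 2] with d hd
  have hd0 : (0 : ℝ) < d := by exact_mod_cast (by omega : 0 < d)
  have hn0 : (0 : ℝ) < ((d / 2 : ℕ) : ℝ) := by
    have : 0 < d / 2 := by omega
    exact_mod_cast this
  rw [Real.log_div hn0.ne' hd0.ne']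
  unfold rr
  field_simp
  ring

lemma tendsto_log_Gamma : Tendsto (fun d : ℕ => Real.log (Real.Gamma ((d : ℝ) / 2 + 1)) / d
    - (1 / 2) * Real.log d) atTop (𝓝 (-(1 / 2) * (Real.log 2 + 1))) := by
  have hup : Tendsto (fun d : ℕ => Real.log ((d / 2).factorial : ℝ) / d - (1 / 2) * Real.log d
      + (Real.log 2 * ((d : ℝ))⁻¹ + Real.log d / d)) atTop
      (𝓝 (-(1 / 2) * (Real.log 2 + 1) + (Real.log 2 * 0 + 0))) :=
    tendsto_log_fact_half.add ((Tendsto.const_mul _ tendsto_inv_atTop_nhds_zero_nat).add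
      tendsto_log_div_self)
  rw [mul_zero, add_zero, add_zero] at hup
  refine tendsto_of_tendsto_of_tendsto_of_le_of_le' tendsto_log_fact_half hup ?_ ?_
  · filter_upwards [eventually_ge_atTop 2] with d hd
    have hd0 : (0 : ℝ) < d := by exact_mod_cast (by omega : 0 < d)
    have hb := half_bounds d
    have hn1 : (1 : ℝ) ≤ ((d / 2 : ℕ) : ℝ) := by
      have : 1 ≤ d / 2 := by omega
      exact_mod_cast this
    have h1 : Real.Gamma (((d / 2 : ℕ) : ℝ) + 1) ≤ Real.Gamma ((d : ℝ) / 2 + 1) :=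
      Real.Gamma_strictMonoOn_Ici.monotoneOn (by rw [Set.mem_Ici]; linarith)
        (by rw [Set.mem_Ici]; linarith [hb.2]) (by linarith [hb.2])
    rw [Real.Gamma_nat_eq_factorial] at h1
    have h2 : Real.log ((d / 2).factorial : ℝ) ≤ Real.log (Real.Gamma ((d : ℝ) / 2 + 1)) :=
      Real.log_le_log (by positivity) h1
    have h3 := div_le_div_of_nonneg_right h2 hd0.le
    linarith
  · filter_upwards [eventually_ge_atTop 2] with d hd
    have hd0 : (0 : ℝ) < d := by exact_mod_cast (by omega : 0 < d)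
    have hb := half_bounds d
    have hn1 : (1 : ℝ) ≤ ((d / 2 : ℕ) : ℝ) := by
      have : 1 ≤ d / 2 := by omega
      exact_mod_cast this
    have h1 : Real.Gamma ((d : ℝ) / 2 + 1) ≤ Real.Gamma (((d / 2 + 1 : ℕ) : ℝ) + 1) :=
      Real.Gamma_strictMonoOn_Ici.monotoneOn (by rw [Set.mem_Ici]; linarith [hb.2])
        (by rw [Set.mem_Ici]; push_cast; linarith [hb.2]) (by push_cast; linarith [hb.1])
    rw [Real.Gamma_nat_eq_factorial, Nat.factorial_succ] at h1
    have hG : 0 < Real.Gamma ((d : ℝ) / 2 + 1) := Real.Gamma_pos_of_pos (by positivity)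
    have h2 := Real.log_le_log hG h1
    push_cast at h2
    rw [Real.log_mul (by positivity) (by positivity)] at h2
    have h3 : Real.log (((d / 2 : ℕ) : ℝ) + 1) ≤ Real.log 2 + Real.log d := by
      rw [← Real.log_mul (by norm_num) hd0.ne']
      apply Real.log_le_log (by positivity)
      have : (2 : ℝ) ≤ d := by exact_mod_cast hd
      linarith [hb.2]
    have h4 : Real.log (Real.Gamma ((d : ℝ) / 2 + 1)) ≤ Real.log 2 + Real.log d
        + Real.log ((d / 2).factorial : ℝ) := by linarith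
    have h5 := div_le_div_of_nonneg_right h4 hd0.le
    have h6 : (Real.log 2 + Real.log d + Real.log ((d / 2).factorial : ℝ)) / d
        = Real.log 2 * ((d : ℝ))⁻¹ + Real.log d / d + Real.log ((d / 2).factorial : ℝ) / d := by
      field_simp
    rw [h6] at h5
    linarith

lemma vr_eq {d : ℕ} (hd : 1 ≤ d) : vr d = √π ^ d / Real.Gamma ((d : ℝ) / 2 + 1) := by
  have : Nonempty (Fin d) := ⟨⟨0, hd⟩⟩
  unfold vr vb
  rw [EuclideanSpace.volume_ball]
  simp only [ENNReal.ofReal_one, one_pow, one_mul, Fintype.card_fin]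
  rw [ENNReal.toReal_ofReal]
  have : 0 < Real.Gamma ((d : ℝ) / 2 + 1) := Real.Gamma_pos_of_pos (by positivity)
  positivity

/-- `√d V_d^(1/d) → √(2πe)` -/
lemma tendsto_vr : Tendsto (fun d : ℕ => √(d : ℝ) * vr d ^ ((1 : ℝ) / d)) atTop
    (𝓝 (√(2 * π * Real.exp 1))) := by
  have h1 : Tendsto (fun d : ℕ => Real.log (√π) - (Real.log (Real.Gamma ((d : ℝ) / 2 + 1)) / d
    - (1 / 2) * Real.log d)) atTop (𝓝 (Real.log (√π) - (-(1 / 2) * (Real.log 2 + 1)))) :=
    Tendsto.sub tendsto_const_nhds tendsto_log_Gamma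
  have h2 := (Real.continuous_exp.tendsto _).comp h1
  have e1 : Real.exp (Real.log (√π) - (-(1 / 2) * (Real.log 2 + 1))) = √(2 * π * Real.exp 1) := by
    have e2 : Real.log (√π) - (-(1 / 2) * (Real.log 2 + 1)) = Real.log (√(2 * π * Real.exp 1)) := by
      rw [Real.log_sqrt (by positivity), Real.log_sqrt (by positivity),
        Real.log_mul (by positivity) (by positivity), Real.log_mul (by positivity) (by positivity),
        Real.log_exp]
      ring
    rw [e2, Real.exp_log (by positivity)]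
  rw [e1] at h2
  refine h2.congr' ?_
  filter_upwards [eventually_ge_atTop 1] with d hd
  have hd0 : (0 : ℝ) < d := by exact_mod_cast hd
  have hG : 0 < Real.Gamma ((d : ℝ) / 2 + 1) := Real.Gamma_pos_of_pos (by positivity)
  have hv := vr_pos (d := d)
  simp only [Function.comp]
  have e3 : √(d : ℝ) * vr d ^ ((1 : ℝ) / d)
      = Real.exp (Real.log (√(d : ℝ) * vr d ^ ((1 : ℝ) / d))) := by
    rw [Real.exp_log (by positivity)]
  rw [e3]
  congr 1
  rw [Real.log_mul (by positivity) (by positivity), Real.log_rpow hv, Real.log_sqrt hd0.le, vr_eq hd,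
    Real.log_div (by positivity) hG.ne', Real.log_pow]
  field_simp
  ring


/-! ### Passing to the limit -/

lemma upper_lim {a t : ℕ → ℝ≥0∞} {C : ℕ → ℝ} {c : ℝ} (hC : Tendsto C atTop (𝓝 c))
    (h : ∀ᶠ d in atTop, a d ≤ ENNReal.ofReal (C d) * t d) (ht : ∀ d, t d ≤ 1) :
    limsup a atTop ≤ ENNReal.ofReal c * limsup t atTop
      ∧ liminf a atTop ≤ ENNReal.ofReal c * liminf t atTop := by
  have hT1 : limsup t atTop ≠ ∞ := by
    refine ne_top_of_le_ne_top ENNReal.one_ne_top ?_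
    exact limsup_le_of_le (by isBoundedDefault) (Eventually.of_forall ht)
  have hT2 : liminf t atTop ≠ ∞ := ne_top_of_le_ne_top hT1 (liminf_le_limsup)
  have step : ∀ c', c < c' → limsup a atTop ≤ ENNReal.ofReal c' * limsup t atTop
      ∧ liminf a atTop ≤ ENNReal.ofReal c' * liminf t atTop := by
    intro c' hc'
    have hev : ∀ᶠ d in atTop, a d ≤ ENNReal.ofReal c' * t d := by
      filter_upwards [h, hC.eventually (gt_mem_nhds hc')] with d h1 h2
      refine h1.trans ?_
      gcongr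
    constructor
    · rw [← ENNReal.limsup_const_mul_of_ne_top ENNReal.ofReal_ne_top]
      exact limsup_le_limsup hev
    · rw [← ENNReal.liminf_const_mul_of_ne_top ENNReal.ofReal_ne_top]
      exact liminf_le_liminf hev
  have hlim : ∀ T : ℝ≥0∞, T ≠ ∞ → Tendsto (fun c' : ℝ => ENNReal.ofReal c' * T) (𝓝[>] c)
      (𝓝 (ENNReal.ofReal c * T)) := by
    intro T hT
    apply ENNReal.Tendsto.mul_const
    · apply tendsto_nhdsWithin_of_tendsto_nhds
      exact ENNReal.tendsto_ofReal tendsto_id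
    · right; exact hT
  constructor
  · refine ge_of_tendsto (hlim _ hT1) ?_
    filter_upwards [self_mem_nhdsWithin] with c' hc'
    exact (step c' hc').1
  · refine ge_of_tendsto (hlim _ hT2) ?_
    filter_upwards [self_mem_nhdsWithin] with c' hc'
    exact (step c' hc').2

lemma lower_lim {a t : ℕ → ℝ≥0∞} {C : ℕ → ℝ} {c : ℝ} (hC : Tendsto C atTop (𝓝 c))
    (h : ∀ᶠ d in atTop, ENNReal.ofReal (C d) * t d ≤ a d) (ht : ∀ d, t d ≤ 1) :
    ENNReal.ofReal c * limsup t atTop ≤ limsup a atTop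
      ∧ ENNReal.ofReal c * liminf t atTop ≤ liminf a atTop := by
  have hT1 : limsup t atTop ≠ ∞ := by
    refine ne_top_of_le_ne_top ENNReal.one_ne_top ?_
    exact limsup_le_of_le (by isBoundedDefault) (Eventually.of_forall ht)
  have hT2 : liminf t atTop ≠ ∞ := ne_top_of_le_ne_top hT1 (liminf_le_limsup)
  have step : ∀ c', c' < c → ENNReal.ofReal c' * limsup t atTop ≤ limsup a atTop
      ∧ ENNReal.ofReal c' * liminf t atTop ≤ liminf a atTop := by
    intro c' hc'
    have hev : ∀ᶠ d in atTop, ENNReal.ofReal c' * t d ≤ a d := by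
      filter_upwards [h, hC.eventually (lt_mem_nhds hc')] with d h1 h2
      refine le_trans ?_ h1
      gcongr
    constructor
    · rw [← ENNReal.limsup_const_mul_of_ne_top ENNReal.ofReal_ne_top]
      exact limsup_le_limsup hev
    · rw [← ENNReal.liminf_const_mul_of_ne_top ENNReal.ofReal_ne_top]
      exact liminf_le_liminf hev
  have hlim : ∀ T : ℝ≥0∞, T ≠ ∞ → Tendsto (fun c' : ℝ => ENNReal.ofReal c' * T) (𝓝[<] c)
      (𝓝 (ENNReal.ofReal c * T)) := by
    intro T hT
    apply ENNReal.Tendsto.mul_const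
    · apply tendsto_nhdsWithin_of_tendsto_nhds
      exact ENNReal.tendsto_ofReal tendsto_id
    · right; exact hT
  constructor
  · refine le_of_tendsto (hlim _ hT1) ?_
    filter_upwards [self_mem_nhdsWithin] with c' hc'
    exact (step c' hc').1
  · refine le_of_tendsto (hlim _ hT2) ?_
    filter_upwards [self_mem_nhdsWithin] with c' hc'
    exact (step c' hc').2

/-- the constant `2 / (√d V_d^(1/d))` -/
noncomputable def cd (d : ℕ) : ℝ := 2 / (√(d : ℝ) * vr d ^ ((1 : ℝ) / d))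

lemma tendsto_cd : Tendsto cd atTop (𝓝 (2 / √(2 * π * Real.exp 1))) := by
  unfold cd
  exact Tendsto.div tendsto_const_nhds tendsto_vr (by positivity)

lemma theta_rpow {d : ℕ} :
    (theta d) ^ ((1 : ℝ) / d) = ENNReal.ofReal (th d ^ ((1 : ℝ) / d)) := by
  rw [← ofReal_th, ENNReal.ofReal_rpow_of_pos th_pos]

lemma sc_eq {d : ℕ} (hd : 1 ≤ d) : sc d = cd d * th d ^ ((1 : ℝ) / d) * √(d : ℝ) := by
  have hd0 : (0 : ℝ) < d := by exact_mod_cast hd
  have hv := vr_pos (d := d)
  have ht := th_pos (d := d)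
  unfold sc cd
  rw [Real.div_rpow ht.le hv.le]
  have p1 : 0 < √(d : ℝ) := by positivity
  have p2 : 0 < vr d ^ ((1 : ℝ) / d) := by positivity
  field_simp

lemma alpha'_lower {d : ℕ} (hd : 1 ≤ d) :
    ENNReal.ofReal (cd d) * (theta d) ^ ((1 : ℝ) / d) ≤ alpha d / ENNReal.ofReal (√(d : ℝ)) := by
  have hd0 : (0 : ℝ) < d := by exact_mod_cast hd
  have hv := vr_pos (d := d)
  have hc : 0 ≤ cd d := by unfold cd; positivity
  have ht := th_pos (d := d)
  rw [ENNReal.le_div_iff_mul_le]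
  · rw [theta_rpow, ← ENNReal.ofReal_mul hc, ← ENNReal.ofReal_mul (by positivity), ← sc_eq hd]
    exact alpha_lower hd
  · left; rw [Ne, ENNReal.ofReal_eq_zero, not_le]; positivity
  · left; exact ENNReal.ofReal_ne_top

lemma alpha'_upper {d : ℕ} (hd : 2 ≤ d) :
    alpha d / ENNReal.ofReal (√(d : ℝ))
      ≤ ENNReal.ofReal (cd d * (d / ((d : ℝ) - 1))) * (theta d) ^ ((1 : ℝ) / d) := by
  have hd0 : (0 : ℝ) < d := by exact_mod_cast (by omega : 0 < d)
  have hd1 : (0 : ℝ) < (d : ℝ) - 1 := by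
    have : (2 : ℝ) ≤ d := by exact_mod_cast hd
    linarith
  have hv := vr_pos (d := d)
  have hc : 0 ≤ cd d := by unfold cd; positivity
  have ht := th_pos (d := d)
  apply ENNReal.div_le_of_le_mul
  rw [theta_rpow, ← ENNReal.ofReal_mul (by positivity),
    ← ENNReal.ofReal_mul (by positivity)]
  have e : cd d * (d / ((d : ℝ) - 1)) * th d ^ ((1 : ℝ) / d) * √(d : ℝ)
      = sc d * (d / ((d : ℝ) - 1)) := by rw [sc_eq (by omega : 1 ≤ d)]; ring
  rw [e]
  exact alpha_upper hd

lemma theta_rpow_le_one (d : ℕ) : (theta d) ^ ((1 : ℝ) / d) ≤ 1 :=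
  ENNReal.rpow_le_one theta_le_one (by positivity)

theorem main_limits :
    limsup (fun d : ℕ => alpha d / ENNReal.ofReal (√(d : ℝ))) atTop
      = ENNReal.ofReal (2 / √(2 * π * Real.exp 1)) * limsup (fun d : ℕ => (theta d) ^ ((1 : ℝ) / d)) atTop
    ∧ liminf (fun d : ℕ => alpha d / ENNReal.ofReal (√(d : ℝ))) atTop
      = ENNReal.ofReal (2 / √(2 * π * Real.exp 1)) * liminf (fun d : ℕ => (theta d) ^ ((1 : ℝ) / d)) atTop := by
  have hC : Tendsto (fun d : ℕ => cd d * (d / ((d : ℝ) - 1))) atTop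
      (𝓝 (2 / √(2 * π * Real.exp 1))) := by
    have h1 : Tendsto (fun d : ℕ => (d : ℝ) / ((d : ℝ) - 1)) atTop (𝓝 1) := by
      have h2 : Tendsto (fun d : ℕ => (1 - ((d : ℝ))⁻¹)⁻¹) atTop (𝓝 ((1 - 0)⁻¹)) :=
        (Tendsto.sub tendsto_const_nhds tendsto_inv_atTop_nhds_zero_nat).inv₀ (by norm_num)
      rw [sub_zero, inv_one] at h2
      refine h2.congr' ?_
      filter_upwards [eventually_ge_atTop 2] with d hd
      have hd0 : (0 : ℝ) < d := by exact_mod_cast (by omega : 0 < d)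
      have hd1 : (0 : ℝ) < (d : ℝ) - 1 := by
        have : (2 : ℝ) ≤ d := by exact_mod_cast hd
        linarith
      field_simp
    have h3 := tendsto_cd.mul h1
    rwa [mul_one] at h3
  have hup := upper_lim hC (a := fun d : ℕ => alpha d / ENNReal.ofReal (√(d : ℝ)))
    (t := fun d : ℕ => (theta d) ^ ((1 : ℝ) / d))
    (by filter_upwards [eventually_ge_atTop 2] with d hd; exact alpha'_upper hd)
    theta_rpow_le_one
  have hlow := lower_lim tendsto_cd (a := fun d : ℕ => alpha d / ENNReal.ofReal (√(d : ℝ)))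
    (t := fun d : ℕ => (theta d) ^ ((1 : ℝ) / d))
    (by filter_upwards [eventually_ge_atTop 1] with d hd; exact alpha'_lower hd)
    theta_rpow_le_one
  exact ⟨le_antisymm hup.1 hlow.1, le_antisymm hup.2 hlow.2⟩

theorem main_exists :
    (∃ l : ℝ≥0∞, Tendsto (fun d : ℕ => alpha d / ENNReal.ofReal (√(d : ℝ))) atTop (𝓝 l))
      ↔ (∃ t : ℝ≥0∞, Tendsto (fun d : ℕ => (theta d) ^ ((1 : ℝ) / d)) atTop (𝓝 t)) := by
  obtain ⟨h1, h2⟩ := main_limits
  have hc0 : ENNReal.ofReal (2 / √(2 * π * Real.exp 1)) ≠ 0 := by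
    rw [Ne, ENNReal.ofReal_eq_zero, not_le]; positivity
  constructor
  · rintro ⟨l, hl⟩
    rw [hl.limsup_eq] at h1
    rw [hl.liminf_eq] at h2
    have h3 : liminf (fun d : ℕ => (theta d) ^ ((1 : ℝ) / d)) atTop
        = limsup (fun d : ℕ => (theta d) ^ ((1 : ℝ) / d)) atTop := by
      have h4 := h2.symm.trans h1
      exact (ENNReal.mul_right_inj hc0 ENNReal.ofReal_ne_top).mp h4
    exact ⟨_, tendsto_of_liminf_eq_limsup h3 rfl⟩
  · rintro ⟨t, ht⟩
    rw [ht.limsup_eq] at h1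
    rw [ht.liminf_eq] at h2
    exact ⟨_, tendsto_of_liminf_eq_limsup h2 h1⟩

end Pool.Agent.helper42.TSP
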