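import Mathlib

/-!
# Greedy merging of paths (worst-case Euclidean TSP, part 1)
-/

set_option autoImplicit false

namespace Pool.Agent.helper42.TSP

section Greedy

variable {α : Type*} (D : α → α → ℝ)

/-- length of a path given as a list of vertices -/
def pathLen : List α → ℝ
  | [] => 0
  | [_] => 0
  | x :: y :: l => D x y + pathLen (y :: l)

lemma pathLen_reverse_append (hD : ∀ x y, D x y = D y x) (l1 : List α) :
    ∀ (x y : α) (l2 : List α), pathLen D ((x :: l1).reverse ++ (y :: l2))
      = pathLen D (x :: l1) + D x y + pathLen D (y :: l2) := by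
  induction l1 with
  | nil => intro x y l2; simp [pathLen]
  | cons z l1 ih =>
    intro x y l2
    have e : (x :: z :: l1).reverse ++ (y :: l2) = (z :: l1).reverse ++ (x :: y :: l2) := by simp
    rw [e, ih z x (y :: l2)]
    have e1 : pathLen D (x :: y :: l2) = D x y + pathLen D (y :: l2) := rfl
    have e2 : pathLen D (x :: z :: l1) = D x z + pathLen D (z :: l1) := rfl
    rw [e1, e2, hD z x]
    ring

lemma heads_le [Inhabited α] (M : Multiset (List α)) (hM : ∀ l ∈ M, l ≠ []) :
    M.map List.headI ≤ (M.map (fun l => Multiset.ofList l)).sum := by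
  induction M using Multiset.induction_on with
  | empty => simp
  | cons l M ih =>
    rw [Multiset.map_cons, Multiset.map_cons, Multiset.sum_cons, ← Multiset.singleton_add]
    refine add_le_add ?_ (ih fun l' hl' => hM l' (Multiset.mem_cons_of_mem hl'))
    rw [Multiset.singleton_le, Multiset.mem_coe]
    cases l with
    | nil => exact absurd rfl (hM [] (Multiset.mem_cons_self _ _))
    | cons a l => simp

theorem greedy [Inhabited α] [DecidableEq α] (hD : ∀ x y, D x y = D y x) (ρ : ℕ → ℝ)
    (hρ : ∀ A : Finset α, 2 ≤ A.card → ∃ x ∈ A, ∃ y ∈ A, x ≠ y ∧ D x y ≤ ρ A.card)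
    (S : Finset α) (m : ℕ) : ∀ M : Multiset (List α), M.card = m + 1 → (∀ l ∈ M, l ≠ []) →
      (M.map (fun l => Multiset.ofList l)).sum = S.val →
      ∃ l : List α, (l : Multiset α) = S.val ∧
        pathLen D l ≤ (M.map (pathLen D)).sum + ∑ k ∈ Finset.range m, ρ (k + 2) := by
  induction m with
  | zero =>
    intro M hM _ hS
    obtain ⟨l, rfl⟩ := Multiset.card_eq_one.mp hM
    refine ⟨l, by simpa using hS, by simp⟩
  | succ m ih =>
    intro M hM hne hS
    have hle := heads_le M hne
    rw [hS] at hle
    have hnd : (M.map List.headI).Nodup := Multiset.nodup_of_le hle S.nodup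
    obtain ⟨x, hx, y, hy, hxy, hd⟩ := hρ ⟨M.map List.headI, hnd⟩ (by simp [hM])
    have hcard : (⟨M.map List.headI, hnd⟩ : Finset α).card = m + 2 := by simp [hM]
    rw [hcard] at hd
    rw [Finset.mem_mk, Multiset.mem_map] at hx
    obtain ⟨l1, hl1, rfl⟩ := hx
    obtain ⟨M1, rfl⟩ := Multiset.exists_cons_of_mem hl1
    rw [Finset.mem_mk, Multiset.map_cons, Multiset.mem_cons] at hy
    rcases hy with hy | hy
    · exact absurd hy.symm hxy
    · rw [Multiset.mem_map] at hy
      obtain ⟨l2, hl2, rfl⟩ := hy
      obtain ⟨M2, rfl⟩ := Multiset.exists_cons_of_mem hl2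
      have h1 : l1 ≠ [] := hne l1 (by simp)
      have h2 : l2 ≠ [] := hne l2 (by simp)
      obtain ⟨l, hl, hlen⟩ := ih ((l1.reverse ++ l2) ::ₘ M2)
        (by simp only [Multiset.card_cons] at hM ⊢; omega)
        (by
          intro l' hl'
          rw [Multiset.mem_cons] at hl'
          rcases hl' with rfl | hl'
          · simp [h1, h2]
          · exact hne l' (by simp [hl']))
        (by
          rw [← hS]
          simp only [Multiset.map_cons, Multiset.sum_cons]
          rw [← add_assoc]
          congr 1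
          rw [← Multiset.coe_add, Multiset.coe_reverse])
      refine ⟨l, hl, hlen.trans ?_⟩
      simp only [Multiset.map_cons, Multiset.sum_cons]
      rw [Finset.sum_range_succ]
      have h3 : pathLen D (l1.reverse ++ l2) = pathLen D l1 + D l1.headI l2.headI + pathLen D l2 := by
        cases l1 with
        | nil => exact absurd rfl h1
        | cons a l1 =>
          cases l2 with
          | nil => exact absurd rfl h2
          | cons b l2 => exact pathLen_reverse_append D hD l1 a b l2
      rw [h3]
      linarith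

theorem greedy' [Inhabited α] [DecidableEq α] (hD : ∀ x y, D x y = D y x) (ρ : ℕ → ℝ)
    (hρ : ∀ A : Finset α, 2 ≤ A.card → ∃ x ∈ A, ∃ y ∈ A, x ≠ y ∧ D x y ≤ ρ A.card)
    (S : Finset α) (hS : S.Nonempty) : ∃ l : List α, (l : Multiset α) = S.val ∧
        pathLen D l ≤ ∑ k ∈ Finset.range (S.card - 1), ρ (k + 2) := by
  have hc : 0 < S.card := hS.card_pos
  obtain ⟨l, hl, hlen⟩ := greedy D hD ρ hρ S (S.card - 1) (S.val.map fun a => [a])
    (by rw [Multiset.card_map]; show S.card = _; omega)
    (by intro l hl; rw [Multiset.mem_map] at hl; obtain ⟨a, _, rfl⟩ := hl; simp)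
    (by
      rw [Multiset.map_map]
      have : ((fun l : List α => Multiset.ofList l) ∘ fun a => [a]) = fun a => {a} := by
        funext a; rfl
      rw [this]
      exact Multiset.sum_map_singleton S.val)
  refine ⟨l, hl, hlen.trans ?_⟩
  rw [Multiset.map_map]
  have : (pathLen D ∘ fun a => [a]) = fun _ => 0 := by funext a; rfl
  rw [this]
  simp

lemma pathLen_ofFn (k : ℕ) : ∀ f : Fin (k + 1) → α,
    pathLen D (List.ofFn f) = ∑ i : Fin k, D (f i.castSucc) (f i.succ) := by
  induction k with
  | zero => intro f; simp [pathLen]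
  | succ k ih =>
    intro f
    rw [List.ofFn_succ, List.ofFn_succ]
    have h := ih (fun i => f i.succ)
    rw [List.ofFn_succ] at h
    have e : pathLen D (f 0 :: f (Fin.succ 0) :: List.ofFn fun i : Fin k => f i.succ.succ)
        = D (f 0) (f (Fin.succ 0)) + pathLen D (f (Fin.succ 0) :: List.ofFn fun i : Fin k => f i.succ.succ) := rfl
    rw [e, h, Fin.sum_univ_succ]
    simp

lemma cyclic_sum (k : ℕ) (f : Fin (k + 1) → α) :
    ∑ i : Fin (k + 1), D (f i) (f (finRotate (k + 1) i))
      = pathLen D (List.ofFn f) + D (f (Fin.last k)) (f 0) := by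
  rw [Fin.sum_univ_castSucc, pathLen_ofFn]
  congr 1
  · refine Finset.sum_congr rfl fun i _ => ?_
    congr 2
    rw [finRotate_apply]
    exact Fin.coeSucc_eq_succ
  · rw [finRotate_last]

end Greedy

end Pool.Agent.helper42.TSP
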