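import Pool.Agent.helper42.TspDefs
import Pool.Agent.helper42.TspGreedy

set_option autoImplicit false

namespace Pool.Agent.helper42.TSP

open MeasureTheory Filter
open scoped ENNReal

lemma minTour_le_of_greedy {d k : ℕ} (x : Fin (k + 1) → E d) (ρ : ℕ → ℝ) (δ : ℝ)
    (hδ : ∀ i j, dist (x i) (x j) ≤ δ)
    (hρ : ∀ A : Finset (Fin (k + 1)), 2 ≤ A.card →
      ∃ i ∈ A, ∃ j ∈ A, i ≠ j ∧ dist (x i) (x j) ≤ ρ A.card) :
    minTour x ≤ (∑ j ∈ Finset.range k, ρ (j + 2)) + δ := by
  obtain ⟨l, hl, hlen⟩ := greedy' (fun i j => dist (x i) (x j)) (fun i j => dist_comm _ _) ρ hρ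
    Finset.univ Finset.univ_nonempty
  have hlength : l.length = k + 1 := by
    have := congrArg Multiset.card hl
    rw [Multiset.coe_card] at this
    rw [this]
    show (Finset.univ : Finset (Fin (k + 1))).card = k + 1
    simp
  have hnd : l.Nodup := by
    rw [← Multiset.coe_nodup, hl]; exact Finset.univ.nodup
  let f : Fin (k + 1) → Fin (k + 1) := fun i => l.get (Fin.cast hlength.symm i)
  have hf : Function.Injective f := by
    intro i j hij
    have := List.nodup_iff_injective_get.mp hnd hij
    simpa using this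
  have hofFn : List.ofFn f = l := by
    apply List.ext_getElem
    · simp [hlength]
    · intro i h1 h2
      rw [List.getElem_ofFn]
      simp only [f, List.get_eq_getElem, Fin.val_cast]
  let σ : Equiv.Perm (Fin (k + 1)) := Equiv.ofBijective f (Finite.injective_iff_bijective.mp hf)
  have h1 : minTour x ≤ tourLength x σ := ciInf_le (Set.finite_range _).bddBelow σ
  have h2 : tourLength x σ = pathLen (fun i j => dist (x i) (x j)) l
      + dist (x (f (Fin.last k))) (x (f 0)) := by
    rw [← hofFn]
    exact cyclic_sum (fun i j => dist (x i) (x j)) k f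
  rw [h2] at h1
  have h3 := hδ (f (Fin.last k)) (f 0)
  have h4 : (Finset.univ : Finset (Fin (k + 1))).card - 1 = k := by simp
  rw [h4] at hlen
  linarith

end Pool.Agent.helper42.TSP
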