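import Pool.Agent.helper42.TspPacking
import Pool.Agent.helper42.TspUpper

set_option autoImplicit false

namespace Pool.Agent.helper42.TSP

open MeasureTheory Filter Topology
open scoped ENNReal

variable {d : ℕ}

/-- real-valued packing density -/
noncomputable def th (d : ℕ) : ℝ := (theta d).toReal

/-- real-valued volume of the unit ball -/
noncomputable def vr (d : ℕ) : ℝ := (vb d).toReal

lemma vr_pos : 0 < vr d := ENNReal.toReal_pos vb_pos.ne' vb_ne_top

lemma theta_le_one : theta d ≤ 1 := by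
  unfold theta
  refine iSup₂_le fun P hP => ?_
  unfold packingDensity
  refine limsup_le_of_le (by isBoundedDefault) (Eventually.of_forall fun R => ?_)
  refine ENNReal.div_le_of_le_mul ?_
  rw [one_mul]
  exact measure_mono Set.inter_subset_right

lemma theta_ne_top : theta d ≠ ∞ := ne_top_of_le_ne_top ENNReal.one_ne_top theta_le_one

lemma ofReal_th : ENNReal.ofReal (th d) = theta d := ENNReal.ofReal_toReal theta_ne_top

lemma ofReal_vr : ENNReal.ofReal (vr d) = vb d := ENNReal.ofReal_toReal vb_ne_top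

lemma theta_pos : 0 < theta d := by
  have h := packing_upper (d := d) (ρ := 0) le_rfl {0} (by
      intro a ha
      rw [Finset.mem_singleton] at ha
      subst ha
      intro i; simp) (by
      intro a ha b hb hab
      rw [Finset.mem_singleton] at ha hb
      exact absurd (ha.trans hb.symm) hab)
  refine lt_of_lt_of_le ?_ h
  simp only [Finset.card_singleton, Nat.cast_one, one_mul]
  apply ENNReal.mul_pos vb_pos.ne'
  apply (ENNReal.pow_pos _ _).ne'
  rw [ENNReal.ofReal_pos]; norm_num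

lemma th_pos : 0 < th d := ENNReal.toReal_pos theta_pos.ne' theta_ne_top

lemma th_le_one : th d ≤ 1 := by
  unfold th
  have := ENNReal.toReal_mono ENNReal.one_ne_top (theta_le_one (d := d))
  simpa using this

/-- real version of the upper packing bound -/
lemma packing_upper_real {ρ : ℝ} (hρ : 0 ≤ ρ) (A : Finset (E d)) (hA : ∀ a ∈ A, a ∈ cubeS d ρ)
    (hs : ∀ a ∈ A, ∀ b ∈ A, a ≠ b → 2 ≤ dist a b) :
    (A.card : ℝ) * vr d * (1 / (ρ + 2)) ^ d ≤ th d := by
  have h := packing_upper hρ A hA hs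
  have h2 := ENNReal.toReal_mono theta_ne_top h
  rw [ENNReal.toReal_mul, ENNReal.toReal_mul, ENNReal.toReal_pow, ENNReal.toReal_natCast,
    ENNReal.toReal_ofReal (by positivity)] at h2
  exact h2

/-- real version of the existence of packings -/
lemma exists_packing_real {ρ : ℝ} (hρ : 0 < ρ) : ∃ A : Finset (E d), (∀ a ∈ A, a ∈ cubeS d ρ) ∧
    (∀ a ∈ A, ∀ b ∈ A, a ≠ b → 2 ≤ dist a b) ∧
    th d ≤ (A.card : ℝ) * vr d * (1 / ρ) ^ d := by
  obtain ⟨A, h1, h2, h3⟩ := exists_packing (d := d) hρ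
  refine ⟨A, h1, h2, ?_⟩
  have h4 := ENNReal.toReal_mono (ENNReal.mul_ne_top (ENNReal.mul_ne_top
    (ENNReal.natCast_ne_top _) vb_ne_top) (ENNReal.pow_ne_top ENNReal.ofReal_ne_top)) h3
  rw [ENNReal.toReal_mul, ENNReal.toReal_mul, ENNReal.toReal_pow, ENNReal.toReal_natCast,
    ENNReal.toReal_ofReal (by positivity)] at h4
  exact h4

/-- the constant `2 (θ_d / V_d)^(1/d)` -/
noncomputable def sc (d : ℕ) : ℝ := 2 * (th d / vr d) ^ ((1 : ℝ) / d)

lemma sc_pos : 0 < sc d := by
  unfold sc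
  have := th_pos (d := d)
  have := vr_pos (d := d)
  positivity

lemma finRotate_ne {n : ℕ} (hn : 2 ≤ n) (i : Fin n) : finRotate n i ≠ i := by
  obtain ⟨m, rfl⟩ : ∃ m, n = m + 2 := ⟨n - 2, by omega⟩
  rw [finRotate_apply]
  intro h
  have h1 : (1 : Fin (m + 2)) = 0 := by
    have := congrArg (fun x => x - i) h
    simp at this
  exact absurd h1 (by simp)

/-- lower bound for the worst-case tour -/
lemma worst_lower (hd : 1 ≤ d) {n : ℕ} (hn : 2 ≤ n) :
    ENNReal.ofReal (sc d * (n : ℝ) ^ (((d : ℝ) - 1) / d)) ≤ worst d n := by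
  have hth := th_pos (d := d)
  have hvr := vr_pos (d := d)
  have hd0 : (0 : ℝ) < d := by exact_mod_cast hd
  have hn0 : (0 : ℝ) < n := by exact_mod_cast (by omega : 0 < n)
  set ρ : ℝ := (n * vr d / th d) ^ ((1 : ℝ) / d) with hρ
  have hρ0 : 0 < ρ := by positivity
  have hρd : ρ ^ d = n * vr d / th d := by
    rw [hρ, ← Real.rpow_natCast, ← Real.rpow_mul (by positivity)]
    rw [one_div, inv_mul_cancel₀ hd0.ne', Real.rpow_one]
  obtain ⟨A, hA, hs, hc⟩ := exists_packing_real (d := d) hρ0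
  have hcard : n ≤ A.card := by
    rw [one_div, inv_pow, hρd, inv_div] at hc
    have h1 : (A.card : ℝ) * vr d * (th d / (n * vr d)) = (A.card / n) * th d := by
      field_simp
    rw [h1] at hc
    have h2 : 1 ≤ (A.card : ℝ) / n := by
      by_contra hlt
      push Not at hlt
      nlinarith
    rw [le_div_iff₀ hn0, one_mul] at h2
    exact_mod_cast h2
  obtain ⟨B, hBA, hBn⟩ := Finset.exists_subset_card_eq hcard
  let e := (Finset.equivFinOfCardEq hBn).symm
  let x : Fin n → E d := fun i => (1 / ρ) • (e i : E d)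
  have hxinj : Function.Injective x := by
    intro i j hij
    have h1 : (e i : E d) = (e j : E d) := by
      have h2 : (1 / ρ) • (e i : E d) = (1 / ρ) • (e j : E d) := hij
      exact smul_right_injective _ (by positivity : (1 / ρ : ℝ) ≠ 0) h2
    exact e.injective (Subtype.ext h1)
  have hxcube : ∀ i, x i ∈ unitCube d := by
    intro i k
    have h1 := hA (e i) (hBA (e i).2) k
    have h2 : x i k = (1 / ρ) * (e i : E d) k := rfl
    rw [h2]
    constructor
    · have := h1.1; positivity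
    · rw [one_div, inv_mul_le_iff₀ hρ0, mul_one]; exact h1.2
  have hxdist : ∀ i j, i ≠ j → 2 / ρ ≤ dist (x i) (x j) := by
    intro i j hij
    have h1 : 2 ≤ dist (e i : E d) (e j : E d) :=
      hs _ (hBA (e i).2) _ (hBA (e j).2) (fun h => hij (e.injective (Subtype.ext h)))
    have h2 : dist (x i) (x j) = (1 / ρ) * dist (e i : E d) (e j : E d) := by
      show dist ((1 / ρ) • (e i : E d)) ((1 / ρ) • (e j : E d)) = _
      rw [dist_smul₀, Real.norm_of_nonneg (by positivity)]
    rw [h2]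
    rw [div_eq_mul_one_div, mul_comm]
    exact mul_le_mul_of_nonneg_left h1 (by positivity)
  have hT : sc d * (n : ℝ) ^ (((d : ℝ) - 1) / d) ≤ minTour x := by
    unfold minTour
    apply le_ciInf
    intro σ
    unfold tourLength
    have h1 : ∀ i ∈ (Finset.univ : Finset (Fin n)), 2 / ρ ≤ dist (x (σ i)) (x (σ (finRotate n i))) := by
      intro i _
      apply hxdist
      intro h
      exact finRotate_ne hn i (σ.injective h).symm
    have h2 := Finset.sum_le_sum h1
    rw [Finset.sum_const, Finset.card_univ, Fintype.card_fin, nsmul_eq_mul] at h2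
    refine le_trans (le_of_eq ?_) h2
    -- `sc * n^((d-1)/d) = n * (2/ρ)`
    unfold sc
    have e1 : ρ = (n : ℝ) ^ ((1 : ℝ) / d) * (vr d / th d) ^ ((1 : ℝ) / d) := by
      rw [hρ, mul_div_assoc, Real.mul_rpow (by positivity) (by positivity)]
    have e2 : (n : ℝ) ^ (((d : ℝ) - 1) / d) = n / (n : ℝ) ^ ((1 : ℝ) / d) := by
      rw [sub_div, div_self hd0.ne', Real.rpow_sub hn0, Real.rpow_one]
    have e3 : (th d / vr d) ^ ((1 : ℝ) / d) = ((vr d / th d) ^ ((1 : ℝ) / d))⁻¹ := by
      rw [← Real.inv_rpow (by positivity), inv_div]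
    rw [e1, e2, e3]
    have p1 : 0 < (n : ℝ) ^ ((1 : ℝ) / d) := by positivity
    have p2 : 0 < (vr d / th d) ^ ((1 : ℝ) / d) := by positivity
    field_simp
  unfold worst
  refine le_trans (ENNReal.ofReal_le_ofReal hT) ?_
  exact le_iSup_of_le x (le_iSup_of_le hxinj (le_iSup_of_le hxcube le_rfl))

lemma natCast_rpow_pos {n : ℕ} (hn : 0 < n) (p : ℝ) : (n : ℝ≥0∞) ^ p = ENNReal.ofReal ((n : ℝ) ^ p) := by
  rw [← ENNReal.ofReal_rpow_of_pos (by exact_mod_cast hn), ENNReal.ofReal_natCast]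

theorem alpha_lower (hd : 1 ≤ d) : ENNReal.ofReal (sc d) ≤ alpha d := by
  unfold alpha
  refine le_limsup_of_frequently_le (Eventually.frequently ?_) (by isBoundedDefault)
  filter_upwards [eventually_ge_atTop 2] with n hn
  have hn0 : (0 : ℝ) < n := by exact_mod_cast (by omega : 0 < n)
  have h := worst_lower (d := d) hd hn
  rw [natCast_rpow_pos (by omega)]
  rw [ENNReal.le_div_iff_mul_le, ← ENNReal.ofReal_mul sc_pos.le]
  · exact h
  · left; exact (ENNReal.ofReal_pos.mpr (by positivity)).ne'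
  · left; exact ENNReal.ofReal_ne_top


lemma dist_le_sqrt {x y : E d} (hx : x ∈ unitCube d) (hy : y ∈ unitCube d) : dist x y ≤ √(d : ℝ) := by
  rw [EuclideanSpace.dist_eq]
  apply Real.sqrt_le_sqrt
  have h1 : ∀ i ∈ (Finset.univ : Finset (Fin d)), dist (x i) (y i) ^ 2 ≤ 1 := by
    intro i _
    have h2 := hx i
    have h3 := hy i
    rw [Real.dist_eq, sq_abs]
    nlinarith [h2.1, h2.2, h3.1, h3.2]
  have h4 := Finset.sum_le_sum h1
  simpa using h4

/-- bound for the `m`-th merging step -/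
noncomputable def stp (d : ℕ) (m : ℕ) : ℝ :=
  if sc d * (m : ℝ) ^ (-((1 : ℝ) / d)) < 1 then
    sc d * (m : ℝ) ^ (-((1 : ℝ) / d)) / (1 - sc d * (m : ℝ) ^ (-((1 : ℝ) / d)))
  else √(d : ℝ)

lemma close_pair (hd : 1 ≤ d) {n : ℕ} (x : Fin n → E d) (hinj : Function.Injective x)
    (hx : ∀ i, x i ∈ unitCube d) (A : Finset (Fin n)) (hA : 2 ≤ A.card) :
    ∃ i ∈ A, ∃ j ∈ A, i ≠ j ∧ dist (x i) (x j) ≤ stp d A.card := by
  classical
  have hth := th_pos (d := d)
  have hvr := vr_pos (d := d)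
  have hd0 : (0 : ℝ) < d := by exact_mod_cast hd
  have hm0 : (0 : ℝ) < A.card := by exact_mod_cast (by omega : 0 < A.card)
  have hne : A.offDiag.Nonempty := by
    rw [← Finset.card_pos, Finset.offDiag_card]
    have : A.card * 2 ≤ A.card * A.card := Nat.mul_le_mul_left _ hA
    omega
  obtain ⟨⟨i, j⟩, hij, hmin⟩ := Finset.exists_min_image A.offDiag
    (fun p => dist (x p.1) (x p.2)) hne
  rw [Finset.mem_offDiag] at hij
  refine ⟨i, hij.1, j, hij.2.1, hij.2.2, ?_⟩
  unfold stp
  split_ifs with hu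
  · set u := sc d * (A.card : ℝ) ^ (-((1 : ℝ) / d)) with hudef
    set r := dist (x i) (x j) with hr
    have hr0 : 0 < r := dist_pos.mpr fun h => hij.2.2 (hinj h)
    have hinj2 : Function.Injective fun k => (2 / r) • x k := by
      intro a b hab
      exact hinj (smul_right_injective _ (by positivity : (2 / r : ℝ) ≠ 0) hab)
    have hpack := packing_upper_real (d := d) (ρ := 2 / r) (by positivity)
      (A.image fun k => (2 / r) • x k) ?_ ?_
    · rw [Finset.card_image_of_injective _ hinj2] at hpack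
      have h1 : (1 / (2 / r + 2)) ^ d ≤ th d / (A.card * vr d) := by
        rw [le_div_iff₀ (by positivity)]
        linarith
      have h2 : 1 / (2 / r + 2) ≤ (th d / (A.card * vr d)) ^ ((1 : ℝ) / d) := by
        have h3 := Real.rpow_le_rpow (by positivity) h1 (by positivity : (0 : ℝ) ≤ (1 : ℝ) / d)
        rw [← Real.rpow_natCast, ← Real.rpow_mul (by positivity), mul_one_div_cancel hd0.ne',
          Real.rpow_one] at h3
        exact h3
      have h4 : (th d / (A.card * vr d)) ^ ((1 : ℝ) / d) = u / 2 := by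
        rw [hudef]
        unfold sc
        rw [mul_comm (A.card : ℝ), ← div_div, div_eq_mul_inv (th d / vr d),
          Real.mul_rpow (by positivity) (by positivity), Real.inv_rpow (by positivity),
          Real.rpow_neg (by positivity)]
        ring
      rw [h4] at h2
      have h5 : 1 / (2 / r + 2) = r / (2 + 2 * r) := by field_simp
      rw [h5, div_le_div_iff₀ (by positivity) (by norm_num)] at h2
      rw [le_div_iff₀ (by linarith)]
      nlinarith
    · intro a ha
      rw [Finset.mem_image] at ha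
      obtain ⟨k, _, rfl⟩ := ha
      intro l
      have h1 := hx k l
      have h2 : ((2 / r) • x k) l = (2 / r) * x k l := rfl
      rw [h2]
      constructor
      · have := h1.1; positivity
      · have : 0 < 2 / r := by positivity
        nlinarith [h1.2]
    · intro a ha b hb hab
      rw [Finset.mem_image] at ha hb
      obtain ⟨k, hk, rfl⟩ := ha
      obtain ⟨l, hl, rfl⟩ := hb
      have hkl : k ≠ l := fun h => hab (by rw [h])
      have h1 := hmin (k, l) (Finset.mem_offDiag.mpr ⟨hk, hl, hkl⟩)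
      rw [dist_smul₀, Real.norm_of_nonneg (by positivity)]
      have h2 : 2 = (2 / r) * r := by field_simp
      calc (2 : ℝ) = (2 / r) * r := h2
        _ ≤ (2 / r) * dist (x k) (x l) := mul_le_mul_of_nonneg_left h1 (by positivity)
  · exact dist_le_sqrt (hx i) (hx j)

lemma worst_upper (hd : 1 ≤ d) (k : ℕ) :
    worst d (k + 1) ≤ ENNReal.ofReal ((∑ j ∈ Finset.range k, stp d (j + 2)) + √(d : ℝ)) := by
  unfold worst
  refine iSup_le fun x => iSup_le fun hinj => iSup_le fun hx => ?_
  apply ENNReal.ofReal_le_ofReal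
  exact minTour_le_of_greedy x (stp d) _ (fun i j => dist_le_sqrt (hx i) (hx j))
    (fun A hA => close_pair hd x hinj hx A hA)

lemma rpow_diff {p : ℝ} (hp0 : 0 < p) (hp1 : p ≤ 1) (m : ℕ) (hm : 1 ≤ m) :
    (m : ℝ) ^ (p - 1) ≤ (1 / p) * ((m : ℝ) ^ p - ((m : ℝ) - 1) ^ p) := by
  have hm0 : (0 : ℝ) < m := by exact_mod_cast hm
  have hm1 : (1 : ℝ) ≤ m := by exact_mod_cast hm
  have h1 := rpow_one_add_le_one_add_mul_self (s := -(1 / (m : ℝ))) (by
    rw [neg_le_neg_iff, div_le_one hm0]; exact hm1) hp0.le hp1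
  have h2 : ((m : ℝ) - 1) ^ p = (m : ℝ) ^ p * (1 + -(1 / (m : ℝ))) ^ p := by
    rw [← Real.mul_rpow hm0.le]
    · congr 1; field_simp; ring
    · have : 1 / (m : ℝ) ≤ 1 := by rw [div_le_one hm0]; exact hm1
      linarith
  have h3 : (m : ℝ) ^ p = (m : ℝ) ^ (p - 1) * m := by
    rw [Real.rpow_sub hm0, Real.rpow_one]; field_simp
  have h4 : ((m : ℝ) - 1) ^ p ≤ (m : ℝ) ^ p - p * (m : ℝ) ^ (p - 1) := by
    rw [h2]
    calc (m : ℝ) ^ p * (1 + -(1 / (m : ℝ))) ^ p ≤ (m : ℝ) ^ p * (1 + p * -(1 / (m : ℝ))) :=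
          mul_le_mul_of_nonneg_left h1 (by positivity)
      _ = (m : ℝ) ^ p - p * (m : ℝ) ^ (p - 1) := by
          rw [h3]; field_simp; ring
  rw [one_div, ← div_eq_inv_mul, le_div_iff₀ hp0]
  linarith

lemma sum_rpow_le {p : ℝ} (hp0 : 0 < p) (hp1 : p ≤ 1) (k : ℕ) :
    ∑ j ∈ Finset.range k, ((j + 2 : ℕ) : ℝ) ^ (p - 1) ≤ (1 / p) * ((k + 1 : ℕ) : ℝ) ^ p := by
  have h : ∑ j ∈ Finset.range k, ((j + 2 : ℕ) : ℝ) ^ (p - 1)
      ≤ (1 / p) * (((k + 1 : ℕ) : ℝ) ^ p - 1) := by
    induction k with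
    | zero => simp
    | succ k ih =>
      rw [Finset.sum_range_succ]
      have h1 := rpow_diff hp0 hp1 (k + 2) (by omega)
      have h2 : (((k + 2 : ℕ) : ℝ) - 1) = ((k + 1 : ℕ) : ℝ) := by push_cast; ring
      rw [h2] at h1
      have h3 : k + 1 + 1 = k + 2 := rfl
      rw [h3]
      nlinarith
  refine h.trans ?_
  have : 0 < 1 / p := by positivity
  nlinarith

lemma tendsto_rpow_neg (hd : 1 ≤ d) :
    Tendsto (fun m : ℕ => (m : ℝ) ^ (-((1 : ℝ) / d))) atTop (𝓝 0) := by
  have hd0 : (0 : ℝ) < d := by exact_mod_cast hd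
  exact (tendsto_rpow_neg_atTop (by positivity)).comp tendsto_natCast_atTop_atTop

lemma stp_le_eventually (hd : 1 ≤ d) {ε : ℝ} (hε : 0 < ε) :
    ∀ᶠ m : ℕ in atTop, stp d m ≤ (1 + ε) * sc d * (m : ℝ) ^ (-((1 : ℝ) / d)) := by
  have hs := sc_pos (d := d)
  have h1 : Tendsto (fun m : ℕ => sc d * (m : ℝ) ^ (-((1 : ℝ) / d))) atTop (𝓝 (sc d * 0)) :=
    Tendsto.const_mul _ (tendsto_rpow_neg hd)
  rw [mul_zero] at h1
  have hpos : 0 < ε / (1 + ε) := by positivity
  filter_upwards [h1.eventually (gt_mem_nhds hpos), eventually_ge_atTop 1] with m hm hm1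
  have hm0 : (0 : ℝ) < m := by exact_mod_cast hm1
  set u := sc d * (m : ℝ) ^ (-((1 : ℝ) / d)) with hu
  have hu0 : 0 < u := by positivity
  rw [lt_div_iff₀ (by positivity)] at hm
  have hu1 : u < 1 := by nlinarith
  unfold stp
  rw [if_pos hu1]
  rw [div_le_iff₀ (by linarith)]
  rw [mul_assoc (1 + ε), ← hu]
  nlinarith

theorem alpha_upper (hd : 2 ≤ d) :
    alpha d ≤ ENNReal.ofReal (sc d * (d / ((d : ℝ) - 1))) := by
  have hs := sc_pos (d := d)
  have hd0 : (0 : ℝ) < d := by exact_mod_cast (by omega : 0 < d)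
  have hd1 : (0 : ℝ) < (d : ℝ) - 1 := by
    have : (2 : ℝ) ≤ d := by exact_mod_cast hd
    linarith
  set p : ℝ := ((d : ℝ) - 1) / d with hp
  have hp0 : 0 < p := by positivity
  have hp1 : p ≤ 1 := by rw [hp, div_le_one hd0]; linarith
  have hpd : p - 1 = -((1 : ℝ) / d) := by rw [hp]; field_simp; ring
  have hpinv : 1 / p = d / ((d : ℝ) - 1) := by rw [hp, one_div, inv_div]
  -- for every `ε`
  have key : ∀ ε : ℝ, 0 < ε → alpha d ≤ ENNReal.ofReal ((1 + ε) * (sc d * (1 / p)) + ε) := by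
    intro ε hε
    obtain ⟨M, hM⟩ := eventually_atTop.mp (stp_le_eventually (d := d) (by omega) hε)
    set C : ℝ := (∑ j ∈ Finset.range M, |stp d (j + 2)|) + √(d : ℝ) with hC
    have hC0 : 0 ≤ C := by positivity
    have hbound : ∀ k, (∑ j ∈ Finset.range k, stp d (j + 2)) + √(d : ℝ)
        ≤ (1 + ε) * sc d * ((1 / p) * ((k + 1 : ℕ) : ℝ) ^ p) + C := by
      intro k
      have h1 : ∀ j ∈ Finset.range k, stp d (j + 2)
          ≤ (1 + ε) * sc d * ((j + 2 : ℕ) : ℝ) ^ (p - 1)
            + (if j < M then |stp d (j + 2)| else 0) := by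
        intro j _
        have hpos : 0 ≤ (1 + ε) * sc d * ((j + 2 : ℕ) : ℝ) ^ (p - 1) := by positivity
        split_ifs with hj
        · linarith [le_abs_self (stp d (j + 2))]
        · rw [add_zero, hpd]
          exact hM (j + 2) (by omega)
      have h2 := Finset.sum_le_sum h1
      rw [Finset.sum_add_distrib, ← Finset.mul_sum] at h2
      have h3 : ∑ j ∈ Finset.range k, (if j < M then |stp d (j + 2)| else 0)
          ≤ ∑ j ∈ Finset.range M, |stp d (j + 2)| := by
        rw [← Finset.sum_filter]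
        apply Finset.sum_le_sum_of_subset_of_nonneg
        · intro j hj
          simp only [Finset.mem_filter, Finset.mem_range] at hj ⊢
          exact hj.2
        · intro j _ _; positivity
      have h4 := sum_rpow_le hp0 hp1 k
      have h5 : (1 + ε) * sc d * (∑ j ∈ Finset.range k, ((j + 2 : ℕ) : ℝ) ^ (p - 1))
          ≤ (1 + ε) * sc d * ((1 / p) * ((k + 1 : ℕ) : ℝ) ^ p) :=
        mul_le_mul_of_nonneg_left h4 (by positivity)
      linarith
    have htend : Tendsto (fun n : ℕ => (n : ℝ) ^ p) atTop atTop :=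
      (tendsto_rpow_atTop hp0).comp tendsto_natCast_atTop_atTop
    unfold alpha
    refine limsup_le_of_le (by isBoundedDefault) ?_
    filter_upwards [htend.eventually_ge_atTop (C / ε), eventually_ge_atTop 1] with n hn hn1
    obtain ⟨k, rfl⟩ : ∃ k, n = k + 1 := ⟨n - 1, by omega⟩
    have hn0 : (0 : ℝ) < ((k + 1 : ℕ) : ℝ) := by positivity
    rw [← hp, natCast_rpow_pos (by omega)]
    apply ENNReal.div_le_of_le_mul
    refine (worst_upper (by omega) k).trans ?_
    rw [← ENNReal.ofReal_mul' (by positivity)]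
    apply ENNReal.ofReal_le_ofReal
    refine (hbound k).trans ?_
    rw [div_le_iff₀ hε] at hn
    nlinarith
  have hlim : Tendsto (fun ε : ℝ => ENNReal.ofReal ((1 + ε) * (sc d * (1 / p)) + ε)) (𝓝[>] 0)
      (𝓝 (ENNReal.ofReal ((1 + 0) * (sc d * (1 / p)) + 0))) := by
    apply ENNReal.tendsto_ofReal
    apply tendsto_nhdsWithin_of_tendsto_nhds
    apply Continuous.tendsto
    fun_prop
  rw [← hpinv]
  have h := ge_of_tendsto hlim (by
    filter_upwards [self_mem_nhdsWithin] with ε hε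
    exact key ε hε)
  simpa using h

end Pool.Agent.helper42.TSP
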