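import Mathlib

/-!
# Worst-case Euclidean TSP: definitions
-/

set_option autoImplicit false

namespace Pool.Agent.helper42.TSP

open MeasureTheory Filter
open scoped ENNReal

/-- Euclidean `d`-space -/
abbrev E (d : ℕ) := EuclideanSpace ℝ (Fin d)

/-- The unit cube `[0,1]^d`. -/
def unitCube (d : ℕ) : Set (E d) := {x | ∀ i, 0 ≤ x i ∧ x i ≤ 1}

/-- The length of the closed tour `x (σ 0) → x (σ 1) → ⋯ → x (σ (n-1)) → x (σ 0)`
(`finRotate n` is the cyclic shift `i ↦ i + 1` of `Fin n`). -/
noncomputable def tourLength {d n : ℕ} (x : Fin n → E d) (σ : Equiv.Perm (Fin n)) : ℝ :=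
  ∑ i, dist (x (σ i)) (x (σ (finRotate n i)))

/-- The minimum length of a tour through the points `x 0, …, x (n-1)`. -/
noncomputable def minTour {d n : ℕ} (x : Fin n → E d) : ℝ := ⨅ σ : Equiv.Perm (Fin n), tourLength x σ

/-- `L_d(n)`: the supremum of the minimum tour length over all `n`-point subsets of `[0,1]^d`. -/
noncomputable def worst (d n : ℕ) : ℝ≥0∞ :=
  ⨆ (x : Fin n → E d) (_ : Function.Injective x) (_ : ∀ i, x i ∈ unitCube d),
    ENNReal.ofReal (minTour x)

/-- `α_d = limsup_n L_d(n) / n^((d-1)/d)`. -/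
noncomputable def alpha (d : ℕ) : ℝ≥0∞ :=
  limsup (fun n : ℕ => worst d n / (n : ℝ≥0∞) ^ (((d : ℝ) - 1) / d)) atTop

/-- The cube `[-R,R]^d`. -/
def box (d : ℕ) (R : ℝ) : Set (E d) := {x | ∀ i, |x i| ≤ R}

/-- The (upper) density of the family of unit balls centred at the points of `P`:
the limsup, as `R → ∞`, of the fraction of the cube `[-R,R]^d` covered by these balls. -/
noncomputable def packingDensity {d : ℕ} (P : Set (E d)) : ℝ≥0∞ :=
  limsup (fun R : ℝ => volume ((⋃ p ∈ P, Metric.ball p 1) ∩ box d R) / volume (box d R)) atTop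

/-- `θ_d`: the supremum of the densities of packings of unit balls in `ℝ^d`. A set `P` of
centres is a packing when any two distinct centres are at distance at least `2`. -/
noncomputable def theta (d : ℕ) : ℝ≥0∞ :=
  ⨆ (P : Set (E d)) (_ : P.Pairwise fun x y => 2 ≤ dist x y), packingDensity P

end Pool.Agent.helper42.TSP
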