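import Pool.Agent.helper42.TspDefs

set_option autoImplicit false

namespace Pool.Agent.helper42.TSP

open MeasureTheory Filter Topology
open scoped ENNReal

variable {d : ℕ}

/-- cube of side `ρ` -/
def cubeS (d : ℕ) (ρ : ℝ) : Set (E d) := {x | ∀ i, 0 ≤ x i ∧ x i ≤ ρ}

/-- volume of the unit ball -/
noncomputable def vb (d : ℕ) : ℝ≥0∞ := volume (Metric.ball (0 : E d) 1)

lemma volume_ball_one (p : E d) : volume (Metric.ball p 1) = vb d := by
  unfold vb; exact Measure.addHaar_ball_center volume p 1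

lemma vb_pos : 0 < vb d := Metric.measure_ball_pos volume 0 one_pos

lemma vb_ne_top : vb d ≠ ∞ := measure_ball_lt_top.ne

lemma volume_rect (a b : Fin d → ℝ) :
    volume {x : E d | ∀ i, a i ≤ x i ∧ x i ≤ b i} = ∏ i, ENNReal.ofReal (b i - a i) := by
  have h : {x : E d | ∀ i, a i ≤ x i ∧ x i ≤ b i}
      = (@WithLp.ofLp 2 (Fin d → ℝ)) ⁻¹' (Set.Icc a b) := by
    ext x
    simp only [Set.mem_ofPred_eq, Set.mem_preimage, Set.mem_Icc, Pi.le_def]
    exact ⟨fun h => ⟨fun i => (h i).1, fun i => (h i).2⟩, fun h i => ⟨h.1 i, h.2 i⟩⟩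
  rw [h, (PiLp.volume_preserving_ofLp (Fin d)).measure_preimage measurableSet_Icc.nullMeasurableSet,
    Real.volume_Icc_pi]

lemma volume_box (R : ℝ) : volume (box d R) = ENNReal.ofReal (2 * R) ^ d := by
  have h : box d R = {x : E d | ∀ i, (fun _ => -R) i ≤ x i ∧ x i ≤ (fun _ => R) i} := by
    ext x; simp only [box, Set.mem_ofPred_eq, abs_le]
  rw [h, volume_rect]
  have : R - -R = 2 * R := by ring
  simp [this]

lemma tendsto_one_div : Tendsto (fun R : ℝ => 1 / R) atTop (𝓝 0) := by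
  simpa only [one_div] using (tendsto_inv_atTop_zero (𝕜 := ℝ))

lemma coord_le (x : E d) (i : Fin d) : |x i| ≤ ‖x‖ := PiLp.norm_apply_le x i

lemma coord_dist_le (x y : E d) (i : Fin d) : |x i - y i| ≤ dist x y := by
  rw [dist_eq_norm]; exact coord_le (x - y) i

lemma volume_union_balls {ι : Type*} (I : Finset ι) (c : ι → E d)
    (h : ∀ i ∈ I, ∀ j ∈ I, i ≠ j → 2 ≤ dist (c i) (c j)) :
    volume (⋃ i ∈ I, Metric.ball (c i) 1) = I.card * vb d := by
  rw [measure_biUnion_finset]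
  · simp only [volume_ball_one, Finset.sum_const, nsmul_eq_mul]
  · intro i hi j hj hij
    exact Metric.ball_disjoint_ball (by have := h i hi j hj hij; linarith)
  · intro i _; exact measurableSet_ball

lemma card_bound {ρ : ℝ} (A : Finset (E d)) (hA : ∀ a ∈ A, a ∈ cubeS d ρ)
    (hs : ∀ a ∈ A, ∀ b ∈ A, a ≠ b → 2 ≤ dist a b) :
    (A.card : ℝ≥0∞) * vb d ≤ ENNReal.ofReal (ρ + 2) ^ d := by
  rw [← volume_union_balls A id hs]
  have h2 : volume {x : E d | ∀ i, (fun _ : Fin d => (-1 : ℝ)) i ≤ x i ∧ x i ≤ (fun _ => ρ + 1) i}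
      = ENNReal.ofReal (ρ + 2) ^ d := by
    rw [volume_rect]
    have : ρ + 1 - -1 = ρ + 2 := by ring
    simp [this]
  rw [← h2]
  apply measure_mono
  intro x hx
  simp only [Set.mem_iUnion, Metric.mem_ball, id] at hx
  obtain ⟨a, ha, hxa⟩ := hx
  intro i
  have h3 := (coord_dist_le x a i).trans hxa.le
  rw [abs_le] at h3
  have h4 := hA a ha i
  simp only
  constructor <;> linarith [h3.1, h3.2, h4.1, h4.2]

/-- the translated point used in the periodic packing. -/
noncomputable def ctr (ℓ : ℝ) (a : E d) (z : Fin d → ℤ) : E d :=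
  WithLp.toLp 2 fun i => a i + 1 + ℓ * z i

lemma ctr_apply (ℓ : ℝ) (a : E d) (z : Fin d → ℤ) (i : Fin d) :
    ctr ℓ a z i = a i + 1 + ℓ * z i := rfl

lemma ctr_sep {ρ : ℝ} (hρ : 0 ≤ ρ) (A : Finset (E d)) (hA : ∀ a ∈ A, a ∈ cubeS d ρ)
    (hs : ∀ a ∈ A, ∀ b ∈ A, a ≠ b → 2 ≤ dist a b) (a b : E d) (ha : a ∈ A) (hb : b ∈ A)
    (z w : Fin d → ℤ) (hne : (a, z) ≠ (b, w)) : 2 ≤ dist (ctr (ρ + 2) a z) (ctr (ρ + 2) b w) := by
  by_cases hz : z = w
  · subst hz
    have hab : a ≠ b := fun h => hne (by rw [h])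
    have h1 := hs a ha b hb hab
    have h2 : dist (ctr (ρ + 2) a z) (ctr (ρ + 2) b z) = dist a b := by
      rw [dist_eq_norm, dist_eq_norm]
      congr 1
      ext i
      simp only [PiLp.sub_apply, ctr_apply]
      ring
    rw [h2]; exact h1
  · have : ∃ i, z i ≠ w i := by
      by_contra h; push Not at h; exact hz (funext h)
    obtain ⟨i, hi⟩ := this
    refine le_trans ?_ (coord_dist_le _ _ i)
    rw [ctr_apply, ctr_apply]
    have ha1 := hA a ha i
    have hb1 := hA b hb i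
    have hcases : z i + 1 ≤ w i ∨ w i + 1 ≤ z i := by omega
    rcases hcases with h | h
    · have h' : (z i : ℝ) + 1 ≤ w i := by exact_mod_cast h
      rw [abs_sub_comm]
      refine le_trans ?_ (le_abs_self _)
      nlinarith [ha1.1, ha1.2, hb1.1, hb1.2]
    · have h' : (w i : ℝ) + 1 ≤ z i := by exact_mod_cast h
      refine le_trans ?_ (le_abs_self _)
      nlinarith [ha1.1, ha1.2, hb1.1, hb1.2]

/-- (Upper packing bound) a separated set in a cube of side `ρ`. -/
lemma packing_upper {ρ : ℝ} (hρ : 0 ≤ ρ) (A : Finset (E d)) (hA : ∀ a ∈ A, a ∈ cubeS d ρ)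
    (hs : ∀ a ∈ A, ∀ b ∈ A, a ≠ b → 2 ≤ dist a b) :
    (A.card : ℝ≥0∞) * vb d * ENNReal.ofReal (1 / (ρ + 2)) ^ d ≤ theta d := by
  classical
  set ℓ := ρ + 2 with hℓ
  have hℓ0 : 0 < ℓ := by linarith
  let P : Set (E d) := {p | ∃ a ∈ A, ∃ z : Fin d → ℤ, p = ctr ℓ a z}
  have hP : P.Pairwise fun x y => 2 ≤ dist x y := by
    rintro _ ⟨a, ha, z, rfl⟩ _ ⟨b, hb, w, rfl⟩ hne
    refine ctr_sep hρ A hA hs a b ha hb z w ?_
    intro h
    rw [Prod.mk.injEq] at h
    exact hne (by rw [h.1, h.2])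
  have h1 : packingDensity P ≤ theta d := by
    unfold theta
    exact le_iSup₂_of_le P hP le_rfl
  refine le_trans ?_ h1
  unfold packingDensity
  have htend : Tendsto (fun R : ℝ => (A.card : ℝ≥0∞) * vb d * ENNReal.ofReal (1 / ℓ - 1 / R) ^ d)
      atTop (𝓝 ((A.card : ℝ≥0∞) * vb d * ENNReal.ofReal (1 / ℓ) ^ d)) := by
    apply ENNReal.Tendsto.const_mul
    · apply ENNReal.Tendsto.pow
      apply ENNReal.tendsto_ofReal
      have : Tendsto (fun R : ℝ => 1 / ℓ - 1 / R) atTop (𝓝 (1 / ℓ - 0)) := by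
        apply Tendsto.sub tendsto_const_nhds
        exact tendsto_one_div
      simpa using this
    · right
      exact ENNReal.mul_ne_top (ENNReal.natCast_ne_top _) vb_ne_top
  rw [← htend.limsup_eq]
  refine limsup_le_limsup ?_
  · filter_upwards [eventually_gt_atTop 0] with R hR
    rw [volume_box]
    rw [ENNReal.le_div_iff_mul_le]
    · -- the finite family
      set k := ⌊R / ℓ⌋₊ with hk
      have hk1 : (k : ℝ) ≤ R / ℓ := Nat.floor_le (by positivity)
      have hk2 : R / ℓ < k + 1 := Nat.lt_floor_add_one _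
      let I : Finset (E d × (Fin d → ℤ)) :=
        A ×ˢ Fintype.piFinset (fun _ : Fin d => Finset.Ico (-(k : ℤ)) k)
      have hcard : I.card = A.card * (2 * k) ^ d := by
        simp only [I, Finset.card_product, Fintype.card_piFinset, Int.card_Ico, Finset.prod_const,
          Finset.card_univ, Fintype.card_fin]
        congr 2
        omega
      have hsub : (⋃ i ∈ I, Metric.ball (ctr ℓ i.1 i.2) 1)
          ⊆ (⋃ p ∈ P, Metric.ball p 1) ∩ box d R := by
        intro x hx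
        simp only [Set.mem_iUnion] at hx
        obtain ⟨⟨a, z⟩, hi, hx⟩ := hx
        simp only [I, Finset.mem_product, Fintype.mem_piFinset, Finset.mem_Ico] at hi
        refine ⟨Set.mem_iUnion₂.mpr ⟨ctr ℓ a z, ⟨a, hi.1, z, rfl⟩, hx⟩, ?_⟩
        intro i
        have h3 := (coord_dist_le x (ctr ℓ a z) i).trans (Metric.mem_ball.mp hx).le
        rw [ctr_apply, abs_le] at h3
        have h4 := hA a hi.1 i
        have h5 := hi.2 i
        have h6 : (-(k : ℝ)) ≤ z i := by exact_mod_cast h5.1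
        have h7 : (z i : ℝ) + 1 ≤ k := by exact_mod_cast h5.2
        have h8 : ℓ * k ≤ R := by
          rw [le_div_iff₀ hℓ0] at hk1; linarith
        rw [abs_le]
        constructor
        · nlinarith [h3.1, h3.2, h4.1, h4.2]
        · nlinarith [h3.1, h3.2, h4.1, h4.2]
      refine le_trans ?_ (measure_mono hsub)
      rw [volume_union_balls I (fun i => ctr ℓ i.1 i.2)]
      · rw [hcard]
        have e1 : (A.card : ℝ≥0∞) * vb d * ENNReal.ofReal (1 / ℓ - 1 / R) ^ d
            * ENNReal.ofReal (2 * R) ^ d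
            = ((A.card : ℝ≥0∞) * (ENNReal.ofReal (1 / ℓ - 1 / R) * ENNReal.ofReal (2 * R)) ^ d)
              * vb d := by
          rw [mul_pow]; ring
        have e4 : ENNReal.ofReal (1 / ℓ - 1 / R) * ENNReal.ofReal (2 * R) ≤ 2 * k := by
          rw [← ENNReal.ofReal_mul' (by positivity)]
          have e2 : (1 / ℓ - 1 / R) * (2 * R) = 2 * (R / ℓ) - 2 := by
            field_simp
          rw [e2]
          have e3 : (2 : ℝ≥0∞) * k = ENNReal.ofReal (2 * k) := by
            rw [ENNReal.ofReal_mul (by norm_num), ENNReal.ofReal_natCast]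
            simp
          rw [e3]
          apply ENNReal.ofReal_le_ofReal
          linarith
        rw [e1]
        push_cast
        exact mul_le_mul_left (mul_le_mul_right (pow_le_pow_left' e4 d) _) _
      · rintro ⟨a, z⟩ hi ⟨b, w⟩ hj hij
        simp only [I, Finset.mem_product] at hi hj
        exact ctr_sep hρ A hA hs a b hi.1 hj.1 z w hij
    · left
      have : 0 < ENNReal.ofReal (2 * R) ^ d := by
        apply ENNReal.pow_pos; rw [ENNReal.ofReal_pos]; linarith
      exact this.ne'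
    · left
      exact ENNReal.pow_ne_top ENNReal.ofReal_ne_top


/-- translated corner -/
noncomputable def corner (d : ℕ) (R ρ : ℝ) (z : Fin d → ℕ) : E d :=
  WithLp.toLp 2 fun i => -(R + 1) + ρ * z i

lemma corner_apply (R ρ : ℝ) (z : Fin d → ℕ) (i : Fin d) :
    corner d R ρ z i = -(R + 1) + ρ * z i := rfl

/-- (Lower packing bound) if separated sets in a cube of side `ρ` have at most `N` points, then
the packing density is at most `N v_d / ρ^d`. -/
lemma packing_lower {ρ : ℝ} (hρ : 0 < ρ) (N : ℕ)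
    (hN : ∀ A : Finset (E d), (∀ a ∈ A, a ∈ cubeS d ρ) →
      (∀ a ∈ A, ∀ b ∈ A, a ≠ b → 2 ≤ dist a b) → A.card ≤ N) :
    theta d ≤ (N : ℝ≥0∞) * vb d * ENNReal.ofReal (1 / ρ) ^ d := by
  classical
  unfold theta
  refine iSup₂_le fun P hP => ?_
  unfold packingDensity
  have htend : Tendsto (fun R : ℝ => (N : ℝ≥0∞) * vb d * ENNReal.ofReal (1 / ρ + (1 / ρ + 1/2) * (1 / R)) ^ d)
      atTop (𝓝 ((N : ℝ≥0∞) * vb d * ENNReal.ofReal (1 / ρ) ^ d)) := by
    apply ENNReal.Tendsto.const_mul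
    · apply ENNReal.Tendsto.pow
      apply ENNReal.tendsto_ofReal
      have : Tendsto (fun R : ℝ => 1 / ρ + (1 / ρ + 1/2) * (1 / R)) atTop
          (𝓝 (1 / ρ + (1 / ρ + 1/2) * 0)) := by
        apply Tendsto.add tendsto_const_nhds
        apply Tendsto.mul tendsto_const_nhds
        exact tendsto_one_div
      simpa using this
    · right
      exact ENNReal.mul_ne_top (ENNReal.natCast_ne_top _) vb_ne_top
  rw [← htend.limsup_eq]
  refine limsup_le_limsup ?_
  filter_upwards [eventually_gt_atTop 0] with R hR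
  rw [volume_box]
  apply ENNReal.div_le_of_le_mul
  set K := ⌈(2 * R + 2) / ρ⌉₊ with hK
  have hK1 : (2 * R + 2) / ρ ≤ K := Nat.le_ceil _
  have hK2 : (K : ℝ) < (2 * R + 2) / ρ + 1 := Nat.ceil_lt_add_one (by positivity)
  -- cells
  let cell : (Fin d → ℕ) → Set (E d) := fun z => {x | ∀ i, 0 ≤ x i - corner d R ρ z i
    ∧ x i - corner d R ρ z i ≤ ρ}
  have hcell : ∀ z, ∀ B : Finset (E d), (B : Set (E d)) ⊆ P ∩ cell z → B.card ≤ N := by
    intro z B hB
    have h1 := hN (B.image fun x => x - corner d R ρ z) ?_ ?_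
    · rwa [Finset.card_image_of_injective _ (sub_left_injective)] at h1
    · intro a ha
      rw [Finset.mem_image] at ha
      obtain ⟨x, hx, rfl⟩ := ha
      exact (hB hx).2
    · intro a ha b hb hab
      rw [Finset.mem_image] at ha hb
      obtain ⟨x, hx, rfl⟩ := ha
      obtain ⟨y, hy, rfl⟩ := hb
      rw [dist_sub_right]
      exact hP (hB hx).1 (hB hy).1 (fun h => hab (by rw [h]))
  have hfin : ∀ z, (P ∩ cell z).Finite := by
    intro z
    by_contra hinf
    have hinf' : (P ∩ cell z).Infinite := hinf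
    obtain ⟨B, hB, hBc⟩ := hinf'.exists_subset_card_eq (N + 1)
    have := hcell z B hB
    omega
  let I : Finset (Fin d → ℕ) := Fintype.piFinset (fun _ : Fin d => Finset.range K)
  have hI : I.card = K ^ d := by
    simp only [I, Fintype.card_piFinset, Finset.card_range, Finset.prod_const, Finset.card_univ,
      Fintype.card_fin]
  have hsub : (⋃ p ∈ P, Metric.ball p 1) ∩ box d R
      ⊆ ⋃ z ∈ I, ⋃ p ∈ (hfin z).toFinset, Metric.ball p 1 := by
    rintro x ⟨hx, hxb⟩
    rw [Set.mem_iUnion₂] at hx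
    obtain ⟨p, hp, hxp⟩ := hx
    have hpb : ∀ i, -(R + 1) < p i ∧ p i < R + 1 := by
      intro i
      have h3 := (coord_dist_le x p i).trans_lt (Metric.mem_ball.mp hxp)
      have h4 := hxb i
      rw [abs_lt] at h3
      rw [abs_le] at h4
      constructor <;> linarith [h3.1, h3.2, h4.1, h4.2]
    let z : Fin d → ℕ := fun i => ⌊(p i + (R + 1)) / ρ⌋₊
    have hz : ∀ i, ρ * z i ≤ p i + (R + 1) ∧ p i + (R + 1) < ρ * z i + ρ := by
      intro i
      have hpos : 0 ≤ (p i + (R + 1)) / ρ := div_nonneg (by linarith [(hpb i).1]) hρ.le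
      have h5 := Nat.floor_le hpos
      have h6 := Nat.lt_floor_add_one ((p i + (R + 1)) / ρ)
      rw [le_div_iff₀ hρ] at h5
      rw [div_lt_iff₀ hρ] at h6
      constructor
      · show ρ * (⌊(p i + (R + 1)) / ρ⌋₊ : ℝ) ≤ _
        linarith
      · show _ < ρ * (⌊(p i + (R + 1)) / ρ⌋₊ : ℝ) + ρ
        linarith
    rw [Set.mem_iUnion₂]
    refine ⟨z, ?_, ?_⟩
    · simp only [I, Fintype.mem_piFinset, Finset.mem_range]
      intro i
      have h7 : (z i : ℝ) < K := by
        have h8 : ρ * z i < 2 * R + 2 := by linarith [(hz i).1, (hpb i).2]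
        have h9 : (z i : ℝ) < (2 * R + 2) / ρ := by
          rw [lt_div_iff₀ hρ]; linarith
        linarith
      exact_mod_cast h7
    · rw [Set.mem_iUnion₂]
      refine ⟨p, ?_, hxp⟩
      rw [Set.Finite.mem_toFinset]
      refine ⟨hp, ?_⟩
      intro i
      rw [corner_apply]
      constructor <;> linarith [(hz i).1, (hz i).2]
  refine (measure_mono hsub).trans ?_
  refine (measure_biUnion_finset_le _ _).trans ?_
  have hterm : ∀ z ∈ I, volume (⋃ p ∈ (hfin z).toFinset, Metric.ball p 1)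
      ≤ (N : ℝ≥0∞) * vb d := by
    intro z _
    refine (measure_biUnion_finset_le _ _).trans ?_
    simp only [volume_ball_one, Finset.sum_const, nsmul_eq_mul]
    have h1 := hcell z (hfin z).toFinset (by rw [Set.Finite.coe_toFinset])
    gcongr
  refine (Finset.sum_le_sum hterm).trans ?_
  rw [Finset.sum_const, hI, nsmul_eq_mul]
  have e1 : (N : ℝ≥0∞) * vb d * ENNReal.ofReal (1 / ρ + (1 / ρ + 1/2) * (1 / R)) ^ d
      * ENNReal.ofReal (2 * R) ^ d
      = (ENNReal.ofReal (1 / ρ + (1 / ρ + 1/2) * (1 / R)) * ENNReal.ofReal (2 * R)) ^ d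
        * (N * vb d) := by
    rw [mul_pow]; ring
  rw [e1]
  push_cast
  have e4 : (K : ℝ≥0∞) ≤ ENNReal.ofReal (1 / ρ + (1 / ρ + 1/2) * (1 / R)) * ENNReal.ofReal (2 * R) := by
    rw [← ENNReal.ofReal_mul' (by positivity)]
    have e2 : (1 / ρ + (1 / ρ + 1/2) * (1 / R)) * (2 * R) = (2 * R + 2) / ρ + 1 := by
      field_simp
      ring
    rw [e2, ← ENNReal.ofReal_natCast]
    exact ENNReal.ofReal_le_ofReal hK2.le
  exact mul_le_mul_left (pow_le_pow_left' e4 d) _

/-- Existence of a large separated set in every cube. -/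
lemma exists_packing {ρ : ℝ} (hρ : 0 < ρ) : ∃ A : Finset (E d), (∀ a ∈ A, a ∈ cubeS d ρ) ∧
    (∀ a ∈ A, ∀ b ∈ A, a ≠ b → 2 ≤ dist a b) ∧
    theta d ≤ (A.card : ℝ≥0∞) * vb d * ENNReal.ofReal (1 / ρ) ^ d := by
  classical
  let Q : ℕ → Prop := fun n => ∃ A : Finset (E d), (∀ a ∈ A, a ∈ cubeS d ρ) ∧
    (∀ a ∈ A, ∀ b ∈ A, a ≠ b → 2 ≤ dist a b) ∧ A.card = n
  have hne : ∃ n, Q n := ⟨0, ∅, by simp, by simp, rfl⟩
  -- boundedness
  have hbd : ∃ B : ℕ, ∀ n, Q n → n ≤ B := by
    have hfin : ENNReal.ofReal (ρ + 2) ^ d / vb d ≠ ∞ :=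
      ENNReal.div_ne_top (ENNReal.pow_ne_top ENNReal.ofReal_ne_top) vb_pos.ne'
    obtain ⟨B, hB⟩ := ENNReal.exists_nat_gt hfin
    refine ⟨B, ?_⟩
    rintro n ⟨A, h1, h2, rfl⟩
    have h3 := card_bound A h1 h2
    have h4 : (A.card : ℝ≥0∞) ≤ ENNReal.ofReal (ρ + 2) ^ d / vb d := by
      rw [ENNReal.le_div_iff_mul_le (Or.inl vb_pos.ne') (Or.inl vb_ne_top)]
      exact h3
    exact_mod_cast (h4.trans hB.le)
  obtain ⟨B, hB⟩ := hbd
  have hmax := Nat.findGreatest_spec (P := Q) (n := B) (m := 0) (Nat.zero_le _)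
    ⟨∅, by simp, by simp, rfl⟩
  obtain ⟨A, h1, h2, h3⟩ := hmax
  refine ⟨A, h1, h2, ?_⟩
  rw [h3]
  refine packing_lower hρ _ fun A' h1' h2' => ?_
  exact Nat.le_findGreatest (hB _ ⟨A', h1', h2', rfl⟩) ⟨A', h1', h2', rfl⟩

end Pool.Agent.helper42.TSP
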